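import Pool.Agent.QInv75.Basics
set_option autoImplicit false

open Matrix
open scoped Kronecker

namespace Pool.Agent.QInv75

variable {X : Dynkin} {Φ : WeightForm X} {Λ : Finset X.Weight}

namespace A1

theorem d_pos (X : Dynkin) (i : Fin X.rank) : 0 < X.d i := by
  cases X with
  | A n => simp [Dynkin.d]
  | B n => simp only [Dynkin.d]; split_ifs <;> norm_num
  | C n => simp only [Dynkin.d]; split_ifs <;> norm_num
  | D n => simp [Dynkin.d]
  | E6 => simp [Dynkin.d]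
  | E7 => simp [Dynkin.d]
  | E8 => simp [Dynkin.d]
  | F4 => simp only [Dynkin.d]; revert i; decide
  | G2 => simp only [Dynkin.d]; revert i; decide

theorem tt_ne : (tt : FF) ≠ 0 := RatFunc.X_ne_zero

theorem vv_ne (i : Fin X.rank) : vv Φ i ≠ 0 := by
  unfold vv
  exact zpow_ne_zero _ tt_ne

theorem tt_npow_ne (k : ℕ) (hk : k ≠ 0) : (tt : FF) ^ k ≠ 1 := by
  intro h
  have h2 : algebraMap (Polynomial ℂ) FF (Polynomial.X ^ k) = algebraMap (Polynomial ℂ) FF 1 := by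
    rw [map_pow, map_one, RatFunc.algebraMap_X]; exact h
  have h3 := RatFunc.algebraMap_injective ℂ h2
  have h4 := congrArg Polynomial.natDegree h3
  simp at h4
  exact hk h4

theorem tt_zpow_inj {a b : ℤ} (h : (tt : FF) ^ a = tt ^ b) : a = b := by
  have h1 : (tt : FF) ^ (a - b) = 1 := by
    rw [zpow_sub₀ tt_ne, h, div_self (zpow_ne_zero _ tt_ne)]
  by_contra hne
  have hab : a - b ≠ 0 := sub_ne_zero.mpr hne
  rcases Int.lt_or_gt_of_ne hab with hlt | hgt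
  · have : (tt : FF) ^ ((a - b).natAbs) = 1 := by
      have e : (a - b) = - ((a - b).natAbs : ℤ) := by omega
      rw [e, _root_.zpow_neg, inv_eq_one, zpow_natCast] at h1
      exact h1
    exact tt_npow_ne _ (by omega) this
  · have : (tt : FF) ^ ((a - b).natAbs) = 1 := by
      have e : (a - b) = ((a - b).natAbs : ℤ) := by omega
      rw [e, zpow_natCast] at h1
      exact h1
    exact tt_npow_ne _ (by omega) this

theorem vv_symm (i j : Fin X.rank) : vv Φ j ^ (X.a j i) = vv Φ i ^ (X.a i j) := by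
  have h1 := Φ.root j (X.root i)
  have h2 := Φ.root i (X.root j)
  have h3 := Φ.symm (X.root j) (X.root i)
  have h4 : (Φ.N : ℤ) * X.d j * X.a j i = Φ.N * X.d i * X.a i j := by
    have e1 : X.root i j = X.a j i := rfl
    have e2 : X.root j i = X.a i j := rfl
    rw [e1] at h1
    rw [e2] at h2
    rw [← h1, ← h2, h3]
  unfold vv
  rw [← _root_.zpow_mul, ← _root_.zpow_mul, h4]

theorem K'K (S : Model Φ Λ) (i : Fin X.rank) : S.M.K' i * S.M.K i = 1 :=
  mul_eq_one_comm.mp (S.M.KK' i)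

theorem EK (S : Model Φ Λ) (i j : Fin X.rank) :
    S.M.E j * S.M.K i = vv Φ i ^ (-X.a i j) • (S.M.K i * S.M.E j) := by
  rw [S.M.KE, smul_smul, ← zpow_add₀ (vv_ne i), neg_add_cancel, zpow_zero, one_smul]

theorem FK (S : Model Φ Λ) (i j : Fin X.rank) :
    S.M.F j * S.M.K i = vv Φ i ^ (X.a i j) • (S.M.K i * S.M.F j) := by
  rw [S.M.KF, smul_smul, ← zpow_add₀ (vv_ne i), add_neg_cancel, zpow_zero, one_smul]

theorem K'E (S : Model Φ Λ) (i j : Fin X.rank) :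
    S.M.K' i * S.M.E j = vv Φ i ^ (-X.a i j) • (S.M.E j * S.M.K' i) := by
  have h : S.M.K' i * (S.M.E j * S.M.K i) * S.M.K' i =
      S.M.K' i * (vv Φ i ^ (-X.a i j) • (S.M.K i * S.M.E j)) * S.M.K' i := by rw [EK]
  have e1 : S.M.K' i * (S.M.E j * S.M.K i) * S.M.K' i = S.M.K' i * S.M.E j := by
    rw [mul_assoc, mul_assoc, S.M.KK', mul_one]
  have e2 : S.M.K' i * (vv Φ i ^ (-X.a i j) • (S.M.K i * S.M.E j)) * S.M.K' i =
      vv Φ i ^ (-X.a i j) • (S.M.E j * S.M.K' i) := by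
    rw [mul_smul_comm, smul_mul_assoc, ← mul_assoc, K'K, one_mul]
  rw [e1, e2] at h
  exact h

theorem K'F (S : Model Φ Λ) (i j : Fin X.rank) :
    S.M.K' i * S.M.F j = vv Φ i ^ (X.a i j) • (S.M.F j * S.M.K' i) := by
  have h : S.M.K' i * (S.M.F j * S.M.K i) * S.M.K' i =
      S.M.K' i * (vv Φ i ^ (X.a i j) • (S.M.K i * S.M.F j)) * S.M.K' i := by rw [FK]
  have e1 : S.M.K' i * (S.M.F j * S.M.K i) * S.M.K' i = S.M.K' i * S.M.F j := by
    rw [mul_assoc, mul_assoc, S.M.KK', mul_one]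
  have e2 : S.M.K' i * (vv Φ i ^ (X.a i j) • (S.M.K i * S.M.F j)) * S.M.K' i =
      vv Φ i ^ (X.a i j) • (S.M.F j * S.M.K' i) := by
    rw [mul_smul_comm, smul_mul_assoc, ← mul_assoc, K'K, one_mul]
  rw [e1, e2] at h
  exact h

theorem KK'_comm (S : Model Φ Λ) (i j : Fin X.rank) : S.M.K' i * S.M.K j = S.M.K j * S.M.K' i := by
  have h : S.M.K' i * (S.M.K i * S.M.K j) * S.M.K' i =
      S.M.K' i * (S.M.K j * S.M.K i) * S.M.K' i := by rw [S.M.KK]
  have e1 : S.M.K' i * (S.M.K i * S.M.K j) * S.M.K' i = S.M.K j * S.M.K' i := by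
    rw [← mul_assoc, K'K, one_mul]
  have e2 : S.M.K' i * (S.M.K j * S.M.K i) * S.M.K' i = S.M.K' i * S.M.K j := by
    rw [mul_assoc, mul_assoc, S.M.KK', mul_one]
  rw [e1, e2] at h
  exact h.symm

/-- the relation `[E', F']` of the twisted dual module (transposed) -/
theorem dualEF (S : Model Φ Λ) (i j : Fin X.rank) :
    S.M.K j * S.M.E j * (S.M.F i * S.M.K' i) = S.M.F i * S.M.K' i * (S.M.K j * S.M.E j) +
      if i = j then (vv Φ i - (vv Φ i)⁻¹)⁻¹ • (S.M.K i - S.M.K' i) else 0 := by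
  have e1 : S.M.K j * S.M.E j * (S.M.F i * S.M.K' i) =
      (vv Φ j ^ (X.a j j) * vv Φ j ^ (-X.a j i)) • (S.M.E j * S.M.F i * (S.M.K j * S.M.K' i)) := by
    rw [S.M.KE, smul_mul_assoc, mul_assoc, ← mul_assoc (S.M.K j), S.M.KF, smul_mul_assoc,
      mul_smul_comm, smul_smul]
    simp only [mul_assoc]
  have e2 : S.M.F i * S.M.K' i * (S.M.K j * S.M.E j) =
      (vv Φ j ^ (X.a j j) * vv Φ j ^ (-X.a j i)) • (S.M.F i * S.M.E j * (S.M.K j * S.M.K' i)) := by
    rw [S.M.KE, mul_smul_comm, mul_assoc, ← mul_assoc (S.M.K' i), K'E, smul_mul_assoc,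
      mul_smul_comm, smul_smul, mul_assoc (S.M.E j), KK'_comm, _root_.zpow_neg (vv Φ j),
      vv_symm i j, _root_.zpow_neg]
    simp only [mul_assoc]
  have e3 : S.M.E j * S.M.F i = S.M.F i * S.M.E j +
      if j = i then (vv Φ j - (vv Φ j)⁻¹)⁻¹ • (S.M.K j - S.M.K' j) else 0 := by
    rw [← S.M.EF j i]; abel
  rw [e1, e2, e3, add_mul, smul_add]
  congr 1
  by_cases hij : i = j
  · subst hij
    rw [if_pos rfl, S.M.KK', mul_one, ← zpow_add₀ (vv_ne i), add_neg_cancel, zpow_zero,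
      one_smul]
  · rw [if_neg hij, if_neg (fun h => hij h.symm), zero_mul, smul_zero]

theorem dot_transpose {m : ℕ} (A : Matrix (Fin m) (Fin m) FF) (f x : Fin m → FF) :
    (Aᵀ *ᵥ f) ⬝ᵥ x = f ⬝ᵥ (A *ᵥ x) := by
  rw [Matrix.mulVec_transpose, Matrix.dotProduct_mulVec]

/-- vectors of `h`-exponent at most `c` -/
noncomputable def U (S : Model Φ Λ) (c : ℤ) : Submodule FF (Fin S.m → FF) :=
  Submodule.span FF {w | ∃ e : ℤ, e ≤ c ∧ S.h *ᵥ w = tt ^ e • w}

theorem F_U (S : Model Φ Λ) (c : ℤ) (i : Fin X.rank) {w : Fin S.m → FF} (hw : w ∈ U S c) :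
    S.M.F i *ᵥ w ∈ U S (c - 1) := by
  unfold U at hw
  induction hw using Submodule.span_induction with
  | mem x hx =>
    obtain ⟨e, he, hx⟩ := hx
    refine Submodule.subset_span ⟨e - 2 * (Φ.N * X.d i), ?_, ?_⟩
    · have h1 := d_pos X i
      have h2 := Φ.pos
      have : (1 : ℤ) ≤ Φ.N * X.d i := by
        have h3 : (0 : ℤ) < Φ.N := by exact_mod_cast h2
        have := mul_pos h3 h1
        omega
      omega
    · rw [Matrix.mulVec_mulVec, h_F, Matrix.smul_mulVec, ← Matrix.mulVec_mulVec, hx,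
        Matrix.mulVec_smul, smul_smul]
      congr 1
      unfold vv
      rw [← zpow_natCast, ← _root_.zpow_mul, ← _root_.zpow_neg, ← zpow_add₀ tt_ne]
      congr 1
      push_cast
      ring
  | zero => rw [Matrix.mulVec_zero]; exact Submodule.zero_mem _
  | add x y _ _ hx hy => rw [Matrix.mulVec_add]; exact Submodule.add_mem _ hx hy
  | smul a x _ hx => rw [Matrix.mulVec_smul]; exact Submodule.smul_mem _ _ hx

theorem U_mono (S : Model Φ Λ) {c c' : ℤ} (h : c ≤ c') : U S c ≤ U S c' := by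
  unfold U
  apply Submodule.span_mono
  rintro w ⟨e, he, hw⟩
  exact ⟨e, he.trans h, hw⟩

theorem U_indep (S : Model Φ Λ) (c : ℤ) {w : Fin S.m → FF} (hw : w ∈ U S (c - 1))
    (hw' : S.h *ᵥ w = tt ^ c • w) : w = 0 := by
  have hind := Module.End.eigenspaces_iSupIndep (Matrix.toLin' S.h)
  have hd := hind (tt ^ c : FF)
  rw [Submodule.disjoint_def] at hd
  apply hd
  · rw [Module.End.mem_eigenspace_iff, Matrix.toLin'_apply]
    exact hw'
  · refine (Submodule.span_le.mpr ?_ : U S (c-1) ≤ _) hw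
    rintro x ⟨e, he, hx⟩
    have hne : (tt ^ e : FF) ≠ tt ^ c := by
      intro h
      have := tt_zpow_inj h
      omega
    have hmem : x ∈ Module.End.eigenspace (Matrix.toLin' S.h) (tt ^ e : FF) := by
      rw [Module.End.mem_eigenspace_iff, Matrix.toLin'_apply]
      exact hx
    exact (le_iSup₂_of_le (f := fun (j : FF) (_ : j ≠ tt ^ c) =>
      Module.End.eigenspace (Matrix.toLin' S.h) j) (tt ^ e : FF) hne le_rfl) hmem

theorem P_v (S : Model Φ Λ) {l l' : X.Weight} (hl : l ∈ Λ) (hl' : l' ∈ Λ) (h : l ≠ l') :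
    S.P l *ᵥ S.v l' = 0 := by
  rw [← S.v_P l' hl', Matrix.mulVec_mulVec, S.P_mul l hl l' hl', if_neg h, Matrix.zero_mulVec]

theorem P_mem_U (S : Model Φ Λ) {l : X.Weight} (hl : l ∈ Λ) (w : Fin S.m → FF) :
    S.P l *ᵥ w ∈ U S (2 * Φ.ip X.rho l) := by
  refine model_induct S ((U S (2 * Φ.ip X.rho l)).comap (Matrix.toLin' (S.P l))) ?_ ?_ w
  · intro l' hl'
    rw [Submodule.mem_comap, Matrix.toLin'_apply]
    by_cases h : l = l'
    · subst h
      rw [S.v_P l hl]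
      exact Submodule.subset_span ⟨_, le_rfl, S.h_wt l _ (S.v_wt l hl)⟩
    · rw [P_v S hl hl' h]
      exact Submodule.zero_mem _
  · intro i μ w hw _
    rw [Submodule.mem_comap, Matrix.toLin'_apply] at hw ⊢
    rw [Matrix.mulVec_mulVec, S.P_F l hl, ← Matrix.mulVec_mulVec]
    exact U_mono S (by omega) (F_U S _ i hw)

/-- the lowest functional -/
theorem exists_phi (S : Model Φ Λ) {l : X.Weight} (hl : l ∈ Λ) :
    ∃ φ : Fin S.m → FF, φ ⬝ᵥ S.v l = 1 ∧ (∀ l' ∈ Λ, l' ≠ l → φ ⬝ᵥ S.v l' = 0) ∧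
      ∀ i x, φ ⬝ᵥ (S.M.F i *ᵥ x) = 0 := by
  set N : Submodule FF (Fin S.m → FF) := (U S (2 * Φ.ip X.rho l - 1)).comap (Matrix.toLin' (S.P l))
    with hN
  have hv : S.v l ∉ N := by
    intro h
    rw [hN, Submodule.mem_comap, Matrix.toLin'_apply, S.v_P l hl] at h
    exact S.v_ne l hl (U_indep S _ h (S.h_wt l _ (S.v_wt l hl)))
  obtain ⟨f, hf, hfN⟩ := Submodule.exists_dual_map_eq_bot_of_notMem hv inferInstance
  have hfN' : ∀ x ∈ N, f x = 0 := by
    intro x hx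
    have : f x ∈ N.map f := Submodule.mem_map_of_mem hx
    rw [hfN] at this
    exact (Submodule.mem_bot _).mp this
  refine ⟨fun j => (f (S.v l))⁻¹ * f (Pi.single j 1), ?_⟩
  have key : ∀ x : Fin S.m → FF, (fun j => (f (S.v l))⁻¹ * f (Pi.single j 1)) ⬝ᵥ x =
      (f (S.v l))⁻¹ * f x := by
    intro x
    conv_rhs => rw [← Finset.univ_sum_single x]
    rw [map_sum, Finset.mul_sum]
    simp only [dotProduct]
    refine Finset.sum_congr rfl fun j _ => ?_
    have : (Pi.single j (x j) : Fin S.m → FF) = x j • (Pi.single j 1 : Fin S.m → FF) := by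
      rw [← Pi.single_smul]; simp
    rw [this, map_smul, smul_eq_mul]
    ring
  refine ⟨?_, ?_, ?_⟩
  · rw [key, inv_mul_cancel₀ hf]
  · intro l' hl' hne
    rw [key, hfN' (S.v l') ?_, mul_zero]
    rw [hN, Submodule.mem_comap, Matrix.toLin'_apply, P_v S hl hl' (Ne.symm hne)]
    exact Submodule.zero_mem _
  · intro i x
    rw [key, hfN' (S.M.F i *ᵥ x) ?_, mul_zero]
    rw [hN, Submodule.mem_comap, Matrix.toLin'_apply, Matrix.mulVec_mulVec, S.P_F l hl,
      ← Matrix.mulVec_mulVec]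
    exact F_U S _ i (P_mem_U S hl x)

/-- the pairs `(F_w v_l, F'_w φ_l)` -/
inductive Gen (S : Model Φ Λ) (φ : X.Weight → Fin S.m → FF) :
    (Fin S.m → FF) → (Fin S.m → FF) → X.Weight → Prop
  | base (l : X.Weight) (hl : l ∈ Λ) : Gen S φ (S.v l) (φ l) l
  | step (i : Fin X.rank) (x f : Fin S.m → FF) (μ : X.Weight) (h : Gen S φ x f μ) :
      Gen S φ (S.M.F i *ᵥ x) ((S.M.K i * S.M.E i)ᵀ *ᵥ f) (μ - X.root i)

/-- the graph of the form -/
noncomputable def R (S : Model Φ Λ) (φ : X.Weight → Fin S.m → FF) :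
    Submodule FF ((Fin S.m → FF) × (Fin S.m → FF)) :=
  Submodule.span FF {p | ∃ μ, Gen S φ p.1 p.2 μ}

section

variable (S : Model Φ Λ) (φ : X.Weight → Fin S.m → FF)
  (h1 : ∀ l ∈ Λ, φ l ⬝ᵥ S.v l = 1)
  (h2 : ∀ l ∈ Λ, ∀ l' ∈ Λ, l' ≠ l → φ l ⬝ᵥ S.v l' = 0)
  (h3 : ∀ l ∈ Λ, ∀ i x, φ l ⬝ᵥ (S.M.F i *ᵥ x) = 0)

theorem stable_of (A B : Matrix (Fin S.m) (Fin S.m) FF)
    (h : ∀ x f μ, Gen S φ x f μ → (A *ᵥ x, B *ᵥ f) ∈ R S φ) {x f : Fin S.m → FF}
    (hxf : (x, f) ∈ R S φ) : (A *ᵥ x, B *ᵥ f) ∈ R S φ := by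
  have key : R S φ ≤ (R S φ).comap ((Matrix.toLin' A).prodMap (Matrix.toLin' B)) := by
    conv_lhs => unfold R
    rw [Submodule.span_le]
    rintro ⟨x, f⟩ ⟨μ, hg⟩
    simp only [Submodule.comap_coe, Set.mem_preimage, LinearMap.prodMap_apply,
      Matrix.toLin'_apply, SetLike.mem_coe]
    exact h x f μ hg
  have := key hxf
  simpa using this

theorem mem_F {x f : Fin S.m → FF} (i : Fin X.rank) (hxf : (x, f) ∈ R S φ) :
    (S.M.F i *ᵥ x, (S.M.K i * S.M.E i)ᵀ *ᵥ f) ∈ R S φ := by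
  refine stable_of S φ _ _ ?_ hxf
  intro x f μ hg
  exact Submodule.subset_span ⟨_, Gen.step i x f μ hg⟩

theorem wt_step {μ : X.Weight} {x : Fin S.m → FF} (hx : S.M.IsWt μ x) (i : Fin X.rank) :
    S.M.IsWt (μ - X.root i) (S.M.F i *ᵥ x) := by
  intro j
  rw [Matrix.mulVec_mulVec, S.M.KF, Matrix.smul_mulVec, ← Matrix.mulVec_mulVec, hx j,
    Matrix.mulVec_smul, smul_smul, ← zpow_add₀ (vv_ne j)]
  congr 2
  simp only [Pi.sub_apply, Dynkin.root]
  ring

include h2 h3 in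
theorem phi_K {l : X.Weight} (hl : l ∈ Λ) (i : Fin X.rank) :
    (S.M.K i)ᵀ *ᵥ φ l = vv Φ i ^ (l i) • φ l := by
  have key : ∀ w, φ l ⬝ᵥ (S.M.K i *ᵥ w) = vv Φ i ^ (l i) * (φ l ⬝ᵥ w) := by
    intro w
    set W : Submodule FF (Fin S.m → FF) :=
      { carrier := {w | φ l ⬝ᵥ (S.M.K i *ᵥ w) = vv Φ i ^ (l i) * (φ l ⬝ᵥ w)}
        add_mem' := by
          intro a b ha hb
          simp only [Set.mem_ofPred_eq] at ha hb ⊢
          rw [Matrix.mulVec_add, dotProduct_add, dotProduct_add, ha, hb, mul_add]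
        zero_mem' := by simp
        smul_mem' := by
          intro c a ha
          simp only [Set.mem_ofPred_eq] at ha ⊢
          rw [Matrix.mulVec_smul, dotProduct_smul, dotProduct_smul, ha]
          simp only [smul_eq_mul]
          ring } with hW
    have : w ∈ W := by
      refine model_induct S W ?_ ?_ w
      · intro l' hl'
        change φ l ⬝ᵥ (S.M.K i *ᵥ S.v l') = vv Φ i ^ (l i) * (φ l ⬝ᵥ S.v l')
        rw [S.v_wt l' hl' i, dotProduct_smul, smul_eq_mul]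
        by_cases h : l' = l
        · subst h; rfl
        · rw [h2 l hl l' hl' h, mul_zero, mul_zero]
      · intro j μ w _ hw
        change φ l ⬝ᵥ (S.M.K i *ᵥ (S.M.F j *ᵥ w)) = vv Φ i ^ (l i) * (φ l ⬝ᵥ (S.M.F j *ᵥ w))
        rw [wt_step S hw j i, dotProduct_smul, h3 l hl, smul_zero, mul_zero]
    exact this
  apply dotProduct_eq
  intro u
  rw [dot_transpose, key, smul_dotProduct, smul_eq_mul]

include h2 h3 in
theorem phi_P {l : X.Weight} (hl : l ∈ Λ) {l' : X.Weight} (hl' : l' ∈ Λ) :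
    (S.P l')ᵀ *ᵥ φ l = if l' = l then φ l else 0 := by
  have key : ∀ w, φ l ⬝ᵥ (S.P l' *ᵥ w) = (if l' = l then φ l else 0) ⬝ᵥ w := by
    intro w
    set W : Submodule FF (Fin S.m → FF) :=
      { carrier := {w | φ l ⬝ᵥ (S.P l' *ᵥ w) = (if l' = l then φ l else 0) ⬝ᵥ w}
        add_mem' := by
          intro a b ha hb
          simp only [Set.mem_ofPred_eq] at ha hb ⊢
          rw [Matrix.mulVec_add, dotProduct_add, dotProduct_add, ha, hb]
        zero_mem' := by simp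
        smul_mem' := by
          intro c a ha
          simp only [Set.mem_ofPred_eq] at ha ⊢
          rw [Matrix.mulVec_smul, dotProduct_smul, dotProduct_smul, ha] } with hW
    have : w ∈ W := by
      refine model_induct S W ?_ ?_ w
      · intro l'' hl''
        change φ l ⬝ᵥ (S.P l' *ᵥ S.v l'') = (if l' = l then φ l else 0) ⬝ᵥ S.v l''
        by_cases h : l' = l
        · subst h
          rw [if_pos rfl]
          by_cases h' : l' = l''
          · subst h'; rw [S.v_P l' hl']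
          · rw [P_v S hl' hl'' h', dotProduct_zero, h2 l' hl l'' hl'' (Ne.symm h')]
        · rw [if_neg h, zero_dotProduct]
          by_cases h' : l' = l''
          · subst h'; rw [S.v_P l' hl', h2 l hl l' hl' h]
          · rw [P_v S hl' hl'' h', dotProduct_zero]
      · intro j μ w _ hw
        change φ l ⬝ᵥ (S.P l' *ᵥ (S.M.F j *ᵥ w)) = (if l' = l then φ l else 0) ⬝ᵥ (S.M.F j *ᵥ w)
        rw [Matrix.mulVec_mulVec, S.P_F l' hl', ← Matrix.mulVec_mulVec, h3 l hl]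
        split_ifs
        · rw [h3 l hl]
        · rw [zero_dotProduct]
    exact this
  apply dotProduct_eq
  intro u
  rw [dot_transpose, key]

theorem gen_wt {x f : Fin S.m → FF} {μ : X.Weight} (h : Gen S φ x f μ) : S.M.IsWt μ x := by
  induction h with
  | base l hl => exact S.v_wt l hl
  | step i x f μ _ ih => exact wt_step S ih i

include h2 h3 in
theorem gen_wt' {x f : Fin S.m → FF} {μ : X.Weight} (h : Gen S φ x f μ) (i : Fin X.rank) :
    (S.M.K i)ᵀ *ᵥ f = vv Φ i ^ (μ i) • f := by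
  induction h with
  | base l hl => exact phi_K S φ h2 h3 hl i
  | step j x f μ _ ih =>
    rw [Matrix.mulVec_mulVec, ← Matrix.transpose_mul, mul_assoc, EK, mul_smul_comm, ← mul_assoc,
      S.M.KK, mul_assoc, Matrix.transpose_smul, Matrix.transpose_mul, Matrix.smul_mulVec,
      ← Matrix.mulVec_mulVec, ih, Matrix.mulVec_smul, smul_smul, ← zpow_add₀ (vv_ne i)]
    congr 2
    simp only [Pi.sub_apply, Dynkin.root]
    ring

theorem K'_of_K {μ : X.Weight} {x : Fin S.m → FF} (i : Fin X.rank)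
    (hx : S.M.K i *ᵥ x = vv Φ i ^ (μ i) • x) : S.M.K' i *ᵥ x = vv Φ i ^ (-μ i) • x := by
  have h : S.M.K' i *ᵥ (S.M.K i *ᵥ x) = x := by
    rw [Matrix.mulVec_mulVec, K'K, Matrix.one_mulVec]
  rw [hx, Matrix.mulVec_smul] at h
  calc S.M.K' i *ᵥ x = vv Φ i ^ (-μ i) • (vv Φ i ^ (μ i) • S.M.K' i *ᵥ x) := by
        rw [smul_smul, ← zpow_add₀ (vv_ne i), neg_add_cancel, zpow_zero, one_smul]
    _ = vv Φ i ^ (-μ i) • x := by rw [h]

theorem K'_of_K' {μ : X.Weight} {x : Fin S.m → FF} (i : Fin X.rank)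
    (hx : (S.M.K i)ᵀ *ᵥ x = vv Φ i ^ (μ i) • x) : (S.M.K' i)ᵀ *ᵥ x = vv Φ i ^ (-μ i) • x := by
  have h : (S.M.K' i)ᵀ *ᵥ ((S.M.K i)ᵀ *ᵥ x) = x := by
    rw [Matrix.mulVec_mulVec, ← Matrix.transpose_mul, S.M.KK', Matrix.transpose_one,
      Matrix.one_mulVec]
  rw [hx, Matrix.mulVec_smul] at h
  calc (S.M.K' i)ᵀ *ᵥ x = vv Φ i ^ (-μ i) • (vv Φ i ^ (μ i) • (S.M.K' i)ᵀ *ᵥ x) := by
        rw [smul_smul, ← zpow_add₀ (vv_ne i), neg_add_cancel, zpow_zero, one_smul]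
    _ = vv Φ i ^ (-μ i) • x := by rw [h]

include h2 h3 in
theorem mem_K {x f : Fin S.m → FF} (i : Fin X.rank) (hxf : (x, f) ∈ R S φ) :
    (S.M.K i *ᵥ x, (S.M.K i)ᵀ *ᵥ f) ∈ R S φ := by
  refine stable_of S φ _ _ ?_ hxf
  intro x f μ hg
  rw [gen_wt S φ hg i, gen_wt' S φ h2 h3 hg i]
  exact Submodule.smul_mem _ (vv Φ i ^ (μ i)) (Submodule.subset_span ⟨_, hg⟩ : (x, f) ∈ R S φ)

include h2 h3 in
theorem mem_K' {x f : Fin S.m → FF} (i : Fin X.rank) (hxf : (x, f) ∈ R S φ) :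
    (S.M.K' i *ᵥ x, (S.M.K' i)ᵀ *ᵥ f) ∈ R S φ := by
  refine stable_of S φ _ _ ?_ hxf
  intro x f μ hg
  rw [K'_of_K S i (gen_wt S φ hg i), K'_of_K' S i (gen_wt' S φ h2 h3 hg i)]
  exact Submodule.smul_mem _ (vv Φ i ^ (-μ i)) (Submodule.subset_span ⟨_, hg⟩ : (x, f) ∈ R S φ)

include h2 h3 in
theorem mem_P {x f : Fin S.m → FF} {l : X.Weight} (hl : l ∈ Λ) (hxf : (x, f) ∈ R S φ) :
    (S.P l *ᵥ x, (S.P l)ᵀ *ᵥ f) ∈ R S φ := by
  refine stable_of S φ _ _ ?_ hxf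
  intro x f μ hg
  induction hg with
  | base l' hl' =>
    rw [phi_P S φ h2 h3 hl' hl]
    by_cases h : l = l'
    · subst h
      rw [if_pos rfl, S.v_P l hl]
      exact Submodule.subset_span ⟨l, Gen.base l hl⟩
    · rw [if_neg h, P_v S hl hl' h]
      exact Submodule.zero_mem _
  | step j x f μ _ ih =>
    have e1 : S.P l *ᵥ (S.M.F j *ᵥ x) = S.M.F j *ᵥ (S.P l *ᵥ x) := by
      rw [Matrix.mulVec_mulVec, S.P_F l hl, ← Matrix.mulVec_mulVec]
    have e2 : (S.P l)ᵀ *ᵥ ((S.M.K j * S.M.E j)ᵀ *ᵥ f) =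
        (S.M.K j * S.M.E j)ᵀ *ᵥ ((S.P l)ᵀ *ᵥ f) := by
      rw [Matrix.mulVec_mulVec, Matrix.mulVec_mulVec, ← Matrix.transpose_mul,
        ← Matrix.transpose_mul, mul_assoc, ← S.P_E l hl, ← mul_assoc, ← S.P_K l hl, mul_assoc]
    rw [e1, e2]
    exact mem_F S φ j ih

include h2 h3 in
theorem mem_E {x f : Fin S.m → FF} (i : Fin X.rank) (hxf : (x, f) ∈ R S φ) :
    (S.M.E i *ᵥ x, (S.M.F i * S.M.K' i)ᵀ *ᵥ f) ∈ R S φ := by
  refine stable_of S φ _ _ ?_ hxf
  intro x f μ hg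
  induction hg with
  | base l hl =>
    have e1 : (S.M.F i * S.M.K' i)ᵀ *ᵥ φ l = 0 := by
      apply dotProduct_eq
      intro u
      rw [dot_transpose, ← Matrix.mulVec_mulVec, h3 l hl, zero_dotProduct]
    rw [S.v_E l hl, e1]
    exact Submodule.zero_mem _
  | step j x f μ hg ih =>
    have e1 : S.M.E i *ᵥ (S.M.F j *ᵥ x) = S.M.F j *ᵥ (S.M.E i *ᵥ x) +
        if i = j then (vv Φ i - (vv Φ i)⁻¹)⁻¹ • (S.M.K i *ᵥ x - S.M.K' i *ᵥ x) else 0 := by
      have h : S.M.E i * S.M.F j = S.M.F j * S.M.E i +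
          if i = j then (vv Φ i - (vv Φ i)⁻¹)⁻¹ • (S.M.K i - S.M.K' i) else 0 := by
        rw [← S.M.EF i j]; abel
      rw [Matrix.mulVec_mulVec, h, Matrix.add_mulVec, ← Matrix.mulVec_mulVec]
      split_ifs
      · rw [Matrix.smul_mulVec, Matrix.sub_mulVec]
      · rw [Matrix.zero_mulVec]
    have e2 : (S.M.F i * S.M.K' i)ᵀ *ᵥ ((S.M.K j * S.M.E j)ᵀ *ᵥ f) =
        (S.M.K j * S.M.E j)ᵀ *ᵥ ((S.M.F i * S.M.K' i)ᵀ *ᵥ f) +
        if i = j then (vv Φ i - (vv Φ i)⁻¹)⁻¹ • ((S.M.K i)ᵀ *ᵥ f - (S.M.K' i)ᵀ *ᵥ f) else 0 := by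
      rw [Matrix.mulVec_mulVec, ← Matrix.transpose_mul, dualEF, Matrix.transpose_add,
        Matrix.add_mulVec, Matrix.transpose_mul, ← Matrix.mulVec_mulVec]
      split_ifs
      · rw [Matrix.transpose_smul, Matrix.transpose_sub, Matrix.smul_mulVec, Matrix.sub_mulVec]
      · rw [Matrix.transpose_zero, Matrix.zero_mulVec]
    rw [e1, e2]
    have hR : (x, f) ∈ R S φ := Submodule.subset_span ⟨_, hg⟩
    rw [← Prod.mk_add_mk]
    refine Submodule.add_mem (R S φ) (mem_F S φ j ih) ?_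
    split_ifs with hij
    · exact Submodule.smul_mem (R S φ) _
        (Submodule.sub_mem (R S φ) (mem_K S φ h2 h3 i hR) (mem_K' S φ h2 h3 i hR))
    · exact Submodule.zero_mem _

include h2 h3 in
theorem symm_base {l : X.Weight} (hl : l ∈ Λ) {x f : Fin S.m → FF} (h : (x, f) ∈ R S φ) :
    φ l ⬝ᵥ x = f ⬝ᵥ S.v l := by
  have key : ∀ p ∈ R S φ, φ l ⬝ᵥ p.1 = p.2 ⬝ᵥ S.v l := by
    intro p hp
    unfold R at hp
    induction hp using Submodule.span_induction with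
    | mem p hp =>
      obtain ⟨p1, p2⟩ := p
      obtain ⟨μ, hg⟩ := hp
      simp only at hg ⊢
      cases hg with
      | base l' hl' =>
        by_cases h : μ = l
        · subst h; rfl
        · rw [h2 l hl μ hl' h, h2 μ hl' l hl (Ne.symm h)]
      | step i x f μ hg =>
        rw [h3 l hl, dot_transpose, ← Matrix.mulVec_mulVec, S.v_E l hl, Matrix.mulVec_zero,
          dotProduct_zero]
    | zero => simp
    | add p q _ _ hp hq =>
      rw [Prod.fst_add, Prod.snd_add, dotProduct_add, add_dotProduct, hp, hq]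
    | smul a p _ hp =>
      rw [Prod.smul_fst, Prod.smul_snd, dotProduct_smul, smul_dotProduct, hp]
  exact key _ h

include h2 h3 in
theorem symm_gen {x f : Fin S.m → FF} {μ : X.Weight} (h : Gen S φ x f μ) :
    ∀ {x' f' : Fin S.m → FF}, (x', f') ∈ R S φ → f ⬝ᵥ x' = f' ⬝ᵥ x := by
  induction h with
  | base l hl => intro x' f' h'; exact symm_base S φ h2 h3 hl h'
  | step i x f μ hg ih =>
    intro x' f' h'
    have h4 := mem_K S φ h2 h3 i (mem_E S φ h2 h3 i h')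
    have h5 := ih h4
    rw [dot_transpose, ← Matrix.mulVec_mulVec, h5, Matrix.mulVec_mulVec, ← Matrix.transpose_mul,
      dot_transpose, mul_assoc, K'K, mul_one]

include h2 h3 in
theorem symm_R {x f : Fin S.m → FF} (h : (x, f) ∈ R S φ) {x' f' : Fin S.m → FF}
    (h' : (x', f') ∈ R S φ) : f ⬝ᵥ x' = f' ⬝ᵥ x := by
  have key : ∀ p ∈ R S φ, p.2 ⬝ᵥ x' = f' ⬝ᵥ p.1 := by
    intro p hp
    unfold R at hp
    induction hp using Submodule.span_induction with
    | mem p hp =>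
      obtain ⟨p1, p2⟩ := p
      obtain ⟨μ, hg⟩ := hp
      exact symm_gen S φ h2 h3 hg h'
    | zero => simp
    | add p q _ _ hp hq =>
      rw [Prod.fst_add, Prod.snd_add, dotProduct_add, add_dotProduct, hp, hq]
    | smul a p _ hp =>
      rw [Prod.smul_fst, Prod.smul_snd, dotProduct_smul, smul_dotProduct, hp]
  exact key _ h

theorem exists_R (x : Fin S.m → FF) : ∃ f, (x, f) ∈ R S φ := by
  have := model_induct S ((R S φ).map (LinearMap.fst FF _ _)) ?_ ?_ x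
  · obtain ⟨⟨a, b⟩, h, hx⟩ := this
    simp only [LinearMap.fst_apply] at hx
    subst hx
    exact ⟨b, h⟩
  · intro l hl
    exact ⟨(S.v l, φ l), Submodule.subset_span ⟨l, Gen.base l hl⟩, rfl⟩
  · rintro i μ w ⟨⟨a, b⟩, h, hx⟩ _
    simp only [LinearMap.fst_apply] at hx
    subst hx
    exact ⟨_, mem_F S φ i h, rfl⟩

include h2 h3 in
theorem uniq_R {x f g : Fin S.m → FF} (hf : (x, f) ∈ R S φ) (hg : (x, g) ∈ R S φ) : f = g := by
  apply dotProduct_eq
  intro u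
  obtain ⟨u', hu⟩ := exists_R S φ u
  rw [symm_R S φ h2 h3 hf hu, symm_R S φ h2 h3 hg hu]

include h1 h2 h3 in
theorem inj_R {x : Fin S.m → FF} (hx : (x, 0) ∈ R S φ) : x = 0 := by
  set N : Submodule FF (Fin S.m → FF) := (R S φ).comap (LinearMap.inl FF _ _) with hN
  have hmem : ∀ y, y ∈ N ↔ (y, 0) ∈ R S φ := by
    intro y
    rw [hN, Submodule.mem_comap, LinearMap.inl_apply]
  have hP : ∀ l ∈ Λ, S.P l *ᵥ x = 0 := by
    intro l hl
    set W : Submodule FF (Fin S.m → FF) :=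
      N ⊓ LinearMap.ker (Matrix.toLin' (S.P l) - LinearMap.id) with hW
    have hWmem : ∀ y, y ∈ W ↔ (y, 0) ∈ R S φ ∧ S.P l *ᵥ y = y := by
      intro y
      rw [hW, Submodule.mem_inf, hmem, LinearMap.mem_ker, LinearMap.sub_apply,
        Matrix.toLin'_apply, LinearMap.id_apply, sub_eq_zero]
    have hst : S.M.Stable W := by
      intro w hw i
      obtain ⟨hw1, hw2⟩ := (hWmem w).mp hw
      refine ⟨(hWmem _).mpr ⟨?_, ?_⟩, (hWmem _).mpr ⟨?_, ?_⟩, (hWmem _).mpr ⟨?_, ?_⟩,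
        (hWmem _).mpr ⟨?_, ?_⟩⟩
      · simpa using mem_E S φ h2 h3 i hw1
      · rw [Matrix.mulVec_mulVec, S.P_E l hl, ← Matrix.mulVec_mulVec, hw2]
      · simpa using mem_F S φ i hw1
      · rw [Matrix.mulVec_mulVec, S.P_F l hl, ← Matrix.mulVec_mulVec, hw2]
      · simpa using mem_K S φ h2 h3 i hw1
      · rw [Matrix.mulVec_mulVec, S.P_K l hl, ← Matrix.mulVec_mulVec, hw2]
      · simpa using mem_K' S φ h2 h3 i hw1
      · have hPK' : S.P l * S.M.K' i = S.M.K' i * S.P l := by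
          calc S.P l * S.M.K' i = S.M.K' i * (S.M.K i * S.P l) * S.M.K' i := by
                rw [← mul_assoc, K'K, one_mul]
            _ = S.M.K' i * (S.P l * S.M.K i) * S.M.K' i := by rw [S.P_K l hl]
            _ = S.M.K' i * S.P l := by rw [mul_assoc, mul_assoc, S.M.KK', mul_one]
        rw [Matrix.mulVec_mulVec, hPK', ← Matrix.mulVec_mulVec, hw2]
    rcases S.irred l hl W hst (fun w hw => ((hWmem w).mp hw).2) with h | h
    · have hx2 : S.P l *ᵥ x ∈ W := by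
        rw [hWmem]
        refine ⟨by simpa using mem_P S φ h2 h3 hl hx, ?_⟩
        rw [Matrix.mulVec_mulVec, S.P_mul l hl l hl, if_pos rfl]
      rw [h] at hx2
      exact (Submodule.mem_bot _).mp hx2
    · exfalso
      have hv := h (S.v l) (S.v_P l hl)
      have hv2 := ((hWmem _).mp hv).1
      have := symm_base S φ h2 h3 hl hv2
      rw [h1 l hl, zero_dotProduct] at this
      exact one_ne_zero this
  calc x = (∑ l ∈ Λ, S.P l) *ᵥ x := by rw [S.P_sum, Matrix.one_mulVec]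
    _ = ∑ l ∈ Λ, S.P l *ᵥ x := by rw [Matrix.sum_mulVec]
    _ = 0 := Finset.sum_eq_zero hP

end

end A1

theorem exists_form (S : Model Φ Λ) : ∃ G, IsForm S G := by
  classical
  have hφ : ∀ l : X.Weight, ∃ φ : Fin S.m → FF, l ∈ Λ → φ ⬝ᵥ S.v l = 1 ∧
      (∀ l' ∈ Λ, l' ≠ l → φ ⬝ᵥ S.v l' = 0) ∧ ∀ i x, φ ⬝ᵥ (S.M.F i *ᵥ x) = 0 := by
    intro l
    by_cases hl : l ∈ Λ
    · obtain ⟨φ, h⟩ := A1.exists_phi S hl
      exact ⟨φ, fun _ => h⟩
    · exact ⟨0, fun h => absurd h hl⟩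
  choose φ hφ using hφ
  have h1 : ∀ l ∈ Λ, φ l ⬝ᵥ S.v l = 1 := fun l hl => (hφ l hl).1
  have h2 : ∀ l ∈ Λ, ∀ l' ∈ Λ, l' ≠ l → φ l ⬝ᵥ S.v l' = 0 := fun l hl => (hφ l hl).2.1
  have h3 : ∀ l ∈ Λ, ∀ i x, φ l ⬝ᵥ (S.M.F i *ᵥ x) = 0 := fun l hl => (hφ l hl).2.2
  have hex := A1.exists_R S φ
  choose H hH using hex
  have huniq : ∀ x f, (x, f) ∈ A1.R S φ → H x = f := fun x f h =>
    A1.uniq_R S φ h2 h3 (hH x) h
  let L : (Fin S.m → FF) →ₗ[FF] (Fin S.m → FF) :=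
    { toFun := H
      map_add' := fun x y => huniq _ _ (Submodule.add_mem _ (hH x) (hH y))
      map_smul' := fun c x => huniq _ _ (Submodule.smul_mem _ c (hH x)) }
  have hL : ∀ x, (LinearMap.toMatrix' L) *ᵥ x = H x := by
    intro x
    rw [← Matrix.toLin'_apply, Matrix.toLin'_toMatrix']
    rfl
  set T := LinearMap.toMatrix' L with hT
  have hinj : Function.Injective T.mulVec := by
    intro x y hxy
    rw [hL, hL] at hxy
    have h0 : (x - y, (0 : Fin S.m → FF)) ∈ A1.R S φ := by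
      have := Submodule.sub_mem _ (hH x) (hH y)
      rw [hxy] at this
      simpa using this
    exact sub_eq_zero.mp (A1.inj_R S φ h1 h2 h3 h0)
  have hcomm : ∀ A B : Matrix (Fin S.m) (Fin S.m) FF,
      (∀ {x f : Fin S.m → FF}, (x, f) ∈ A1.R S φ → (A *ᵥ x, Bᵀ *ᵥ f) ∈ A1.R S φ) →
      Aᵀ * Tᵀ = Tᵀ * B := by
    intro A B h
    have : T * A = Bᵀ * T := by
      apply Matrix.ext_of_mulVec_single
      intro j
      rw [← Matrix.mulVec_mulVec, ← Matrix.mulVec_mulVec, hL, hL]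
      exact huniq _ _ (h (hH _))
    rw [← Matrix.transpose_mul, this, Matrix.transpose_mul, Matrix.transpose_transpose]
  refine ⟨Tᵀ, ?_, ?_, ?_, ?_, ?_, ?_⟩
  · have hu : IsUnit T := Matrix.mulVec_injective_iff_isUnit.mp hinj
    rw [Matrix.isUnit_iff_isUnit_det, Matrix.det_transpose, ← Matrix.isUnit_iff_isUnit_det]
    exact hu
  · exact fun i => hcomm _ _ (A1.mem_E S φ h2 h3 i)
  · exact fun i => hcomm _ _ (A1.mem_F S φ i)
  · exact fun i => hcomm _ _ (A1.mem_K S φ h2 h3 i)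
  · exact fun i => hcomm _ _ (A1.mem_K' S φ h2 h3 i)
  · exact fun l hl => hcomm _ _ (A1.mem_P S φ h2 h3 hl)

end Pool.Agent.QInv75
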