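import Pool.Agent.QInv75.Basics

/-!
# The braiding and the pivotal element are self-adjoint for a contravariant form
-/

set_option autoImplicit false

open Matrix
open scoped Kronecker

namespace Pool.Agent.QInv75

variable {X : Dynkin} {Φ : WeightForm X} {Λ : Finset X.Weight}

namespace A2

section lin

variable {m : ℕ}

theorem kron_tens (A B : Matrix (Fin m) (Fin m) FF) (v w : Fin m → FF) :
    (A ⊗ₖ B) *ᵥ tens v w = tens (A *ᵥ v) (B *ᵥ w) := by
  ext ⟨i, j⟩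
  simp only [mulVec, dotProduct, tens, kroneckerMap_apply, Fintype.sum_prod_type]
  rw [Finset.sum_mul_sum]
  refine Finset.sum_congr rfl fun a _ => Finset.sum_congr rfl fun b _ => ?_
  ring

theorem tens_dot (a b c d : Fin m → FF) : tens a b ⬝ᵥ tens c d = (a ⬝ᵥ c) * (b ⬝ᵥ d) := by
  simp only [dotProduct, tens, Fintype.sum_prod_type]
  rw [Finset.sum_mul_sum]
  refine Finset.sum_congr rfl fun x _ => Finset.sum_congr rfl fun y _ => ?_
  ring

/-- contraction of the first factor -/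
noncomputable def ctr (φ : Fin m → FF) (T : Fin m × Fin m → FF) : Fin m → FF :=
  fun j => ∑ i, φ i * T (i, j)

theorem ctr_tens (φ a b : Fin m → FF) : ctr φ (tens a b) = (φ ⬝ᵥ a) • b := by
  ext j
  simp only [ctr, tens, dotProduct, Pi.smul_apply, smul_eq_mul, Finset.sum_mul]
  refine Finset.sum_congr rfl fun x _ => ?_
  ring

theorem ctr_add (φ : Fin m → FF) (S T : Fin m × Fin m → FF) :
    ctr φ (S + T) = ctr φ S + ctr φ T := by
  ext j
  simp only [ctr, Pi.add_apply, mul_add, Finset.sum_add_distrib]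

theorem ctr_sub (φ : Fin m → FF) (S T : Fin m × Fin m → FF) :
    ctr φ (S - T) = ctr φ S - ctr φ T := by
  ext j
  simp only [ctr, Pi.sub_apply, mul_sub, Finset.sum_sub_distrib]

theorem ctr_smul (φ : Fin m → FF) (c : FF) (T : Fin m × Fin m → FF) :
    ctr φ (c • T) = c • ctr φ T := by
  ext j
  simp only [ctr, Pi.smul_apply, smul_eq_mul, Finset.mul_sum]
  refine Finset.sum_congr rfl fun x _ => ?_
  ring

theorem ctr_kron (φ : Fin m → FF) (A B : Matrix (Fin m) (Fin m) FF) (T : Fin m × Fin m → FF) :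
    ctr φ ((A ⊗ₖ B) *ᵥ T) = B *ᵥ ctr (φ ᵥ* A) T := by
  ext j
  simp only [ctr, mulVec, vecMul, dotProduct, kroneckerMap_apply, Fintype.sum_prod_type,
    Finset.mul_sum, Finset.sum_mul]
  calc ∑ i, ∑ a, ∑ b, φ i * (A i a * B j b * T (a, b))
      = ∑ i, ∑ b, ∑ a, φ i * (A i a * B j b * T (a, b)) :=
        Finset.sum_congr rfl fun i _ => Finset.sum_comm
    _ = ∑ b, ∑ i, ∑ a, φ i * (A i a * B j b * T (a, b)) := Finset.sum_comm
    _ = ∑ b, ∑ a, ∑ i, φ i * (A i a * B j b * T (a, b)) :=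
        Finset.sum_congr rfl fun b _ => Finset.sum_comm
    _ = ∑ b, ∑ a, ∑ i, B j b * (φ i * A i a * T (a, b)) :=
        Finset.sum_congr rfl fun b _ => Finset.sum_congr rfl fun a _ =>
          Finset.sum_congr rfl fun i _ => by ring

theorem dot_ctr (φ w : Fin m → FF) (T : Fin m × Fin m → FF) :
    tens φ w ⬝ᵥ T = w ⬝ᵥ ctr φ T := by
  simp only [ctr, dotProduct, tens, Fintype.sum_prod_type, Finset.mul_sum]
  rw [Finset.sum_comm]
  refine Finset.sum_congr rfl fun x _ => Finset.sum_congr rfl fun y _ => ?_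
  ring

theorem tens_sub_left (a b w : Fin m → FF) : tens (a - b) w = tens a w - tens b w := by
  ext ⟨i, j⟩
  simp only [tens, Pi.sub_apply]
  ring

theorem tens_add_left (a b w : Fin m → FF) : tens (a + b) w = tens a w + tens b w := by
  ext ⟨i, j⟩
  simp only [tens, Pi.add_apply]
  ring

theorem tens_smul_left (c : FF) (a w : Fin m → FF) : tens (c • a) w = c • tens a w := by
  ext ⟨i, j⟩
  simp only [tens, Pi.smul_apply, smul_eq_mul]
  ring

theorem tens_zero_left (w : Fin m → FF) : tens 0 w = 0 := by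
  ext ⟨i, j⟩
  simp only [tens, Pi.zero_apply]
  ring

theorem tens_add_right (w a b : Fin m → FF) : tens w (a + b) = tens w a + tens w b := by
  ext ⟨i, j⟩
  simp only [tens, Pi.add_apply]
  ring

theorem tens_smul_right (c : FF) (w a : Fin m → FF) : tens w (c • a) = c • tens w a := by
  ext ⟨i, j⟩
  simp only [tens, Pi.smul_apply, smul_eq_mul]
  ring

theorem tens_zero_right (w : Fin m → FF) : tens w 0 = 0 := by
  ext ⟨i, j⟩
  simp only [tens, Pi.zero_apply]
  ring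

/-- a vector of the tensor square is zero if its products with all `e_i ⊗ e_j` vanish -/
theorem eq_zero_of_tens (r : Fin m × Fin m → FF) (h : ∀ a b, r ⬝ᵥ tens a b = 0) : r = 0 := by
  ext ⟨i, j⟩
  have h1 := h (Pi.single i 1) (Pi.single j 1)
  have h2 : r ⬝ᵥ tens (Pi.single i 1) (Pi.single j 1) = r (i, j) := by
    simp only [dotProduct, tens, Fintype.sum_prod_type]
    rw [Finset.sum_eq_single i]
    · rw [Finset.sum_eq_single j]
      · simp
      · intro b _ hb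
        simp [Pi.single_eq_of_ne hb]
      · intro hj
        exact absurd (Finset.mem_univ j) hj
    · intro a _ ha
      refine Finset.sum_eq_zero fun b _ => ?_
      simp [Pi.single_eq_of_ne ha]
    · intro hi
      exact absurd (Finset.mem_univ i) hi
  rw [h2] at h1
  exact h1

end lin

section form

variable {S : Model Φ Λ} {G : Matrix (Fin S.m) (Fin S.m) FF}

theorem form_mul (A B : Matrix (Fin S.m) (Fin S.m) FF) (h : Aᵀ * G = G * B) (x y : Fin S.m → FF) :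
    (A *ᵥ x) ⬝ᵥ (G *ᵥ y) = x ⬝ᵥ (G *ᵥ (B *ᵥ y)) := by
  rw [mulVec_mulVec, ← h, ← mulVec_mulVec, dotProduct_mulVec, dotProduct_mulVec, dotProduct_mulVec,
    vecMul_transpose, ← dotProduct_mulVec]

/-- vectors of different weights are orthogonal -/
theorem form_wt (hG : IsForm S G) {μ ν : X.Weight} {x y : Fin S.m → FF} (hx : S.M.IsWt μ x)
    (hy : S.M.IsWt ν y) (hne : μ ≠ ν) : x ⬝ᵥ (G *ᵥ y) = 0 := by
  by_contra h0
  apply hne
  funext i
  have h1 := form_mul _ _ (hG.K i) x y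
  rw [hx i, hy i, mulVec_smul, smul_dotProduct, dotProduct_smul, smul_eq_mul, smul_eq_mul] at h1
  exact vv_pow_inj i (mul_right_cancel₀ h0 h1)

/-- a matrix which is zero on all pairs of weight vectors is zero -/
theorem eq_of_wt (S : Model Φ Λ) (A B : Matrix (Fin S.m) (Fin S.m) FF)
    (h : ∀ μ ν x y, S.M.IsWt μ x → S.M.IsWt ν y → x ⬝ᵥ (A *ᵥ y) = x ⬝ᵥ (B *ᵥ y)) : A = B := by
  apply ext_wt S
  intro ν y hy
  have h1 : Matrix.replicateRow Unit (A *ᵥ y) = Matrix.replicateRow Unit (B *ᵥ y) := by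
    apply ext_wt S
    intro μ x hx
    ext u
    show (A *ᵥ y) ⬝ᵥ x = (B *ᵥ y) ⬝ᵥ x
    rw [dotProduct_comm, h μ ν x y hx hy, dotProduct_comm]
  funext i
  exact congrFun (congrFun h1 ()) i

end form

end A2

open A2

theorem h_adj (S : Model Φ Λ) {G : Matrix (Fin S.m) (Fin S.m) FF} (hG : IsForm S G) :
    (S.h)ᵀ * G = G * S.h := by
  apply eq_of_wt S
  intro μ ν x y hx hy
  rw [← mulVec_mulVec, ← mulVec_mulVec, S.h_wt ν y hy, mulVec_smul, dotProduct_smul,
    dotProduct_mulVec, vecMul_transpose, S.h_wt μ x hx, smul_dotProduct]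
  by_cases hne : μ = ν
  · rw [hne]
  · rw [form_wt hG hx hy hne, smul_zero, smul_zero]

namespace A2

/-- induction over weight vectors -/
theorem wt_induct (S : Model Φ Λ) (W : Submodule FF (Fin S.m → FF))
    (h : ∀ μ w, S.M.IsWt μ w → w ∈ W) (w : Fin S.m → FF) : w ∈ W :=
  model_induct S W (fun l hl => h l _ (S.v_wt l hl)) (fun i _ _ _ hw => h _ _ (isWt_F S hw i)) w

/-- induction over `F`-words -/
theorem fword_induct (S : Model Φ Λ) (W : Submodule FF (Fin S.m → FF))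
    (h : ∀ l ∈ Λ, ∀ μ w, FWord S l μ w → w ∈ W) (w : Fin S.m → FF) : w ∈ W := by
  have key : ∀ l ∈ Λ, fspan S l ≤ W := by
    intro l hl
    refine Submodule.span_le.mpr ?_
    rintro x ⟨μ, hx⟩
    exact h l hl μ x hx
  rw [← sum_P S w]
  exact Submodule.sum_mem _ fun l hl => key l hl (mem_fspan S hl (P_P S hl w))

theorem F2_adj {S : Model Φ Λ} {G : Matrix (Fin S.m) (Fin S.m) FF} (hG : IsForm S G)
    (i : Fin X.rank) : (S.M.F2 i)ᵀ * (G ⊗ₖ G) = (G ⊗ₖ G) * (S.M.K2 i * S.M.E2 i) := by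
  have h1 : S.M.K2 i * S.M.E2 i = (S.M.K i * S.M.E i) ⊗ₖ S.M.K i + 1 ⊗ₖ (S.M.K i * S.M.E i) := by
    unfold UqModule.K2 UqModule.E2
    rw [mul_add, ← mul_kronecker_mul, ← mul_kronecker_mul, mul_one, S.M.KK']
  rw [h1]
  unfold UqModule.F2
  rw [transpose_add, ← kroneckerMap_transpose, ← kroneckerMap_transpose, add_mul, mul_add,
    ← mul_kronecker_mul, ← mul_kronecker_mul, ← mul_kronecker_mul, ← mul_kronecker_mul,
    hG.F, hG.K, transpose_one, one_mul, mul_one]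

theorem F2_defect {S : Model Φ Λ} {G : Matrix (Fin S.m) (Fin S.m) FF} (hG : IsForm S G)
    (i : Fin X.rank) :
    (S.M.F2 i)ᵀ * ((S.C)ᵀ * (G ⊗ₖ G) - (G ⊗ₖ G) * S.C) =
      ((S.C)ᵀ * (G ⊗ₖ G) - (G ⊗ₖ G) * S.C) * (S.M.K2 i * S.M.E2 i) := by
  have h1 : (S.M.F2 i)ᵀ * (S.C)ᵀ = (S.C)ᵀ * (S.M.F2 i)ᵀ := by
    rw [← transpose_mul, ← transpose_mul, S.C_F]
  have h2 : S.C * (S.M.K2 i * S.M.E2 i) = (S.M.K2 i * S.M.E2 i) * S.C := by
    rw [← mul_assoc, S.C_K, mul_assoc, S.C_E, mul_assoc]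
  calc (S.M.F2 i)ᵀ * ((S.C)ᵀ * (G ⊗ₖ G) - (G ⊗ₖ G) * S.C)
      = ((S.M.F2 i)ᵀ * (S.C)ᵀ) * (G ⊗ₖ G) - ((S.M.F2 i)ᵀ * (G ⊗ₖ G)) * S.C := by
        rw [mul_sub, mul_assoc, mul_assoc]
    _ = (S.C)ᵀ * ((S.M.F2 i)ᵀ * (G ⊗ₖ G)) - ((S.M.F2 i)ᵀ * (G ⊗ₖ G)) * S.C := by
        rw [h1, mul_assoc]
    _ = (S.C)ᵀ * ((G ⊗ₖ G) * (S.M.K2 i * S.M.E2 i)) -
          ((G ⊗ₖ G) * (S.M.K2 i * S.M.E2 i)) * S.C := by rw [F2_adj hG]
    _ = ((S.C)ᵀ * (G ⊗ₖ G) - (G ⊗ₖ G) * S.C) * (S.M.K2 i * S.M.E2 i) := by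
        rw [sub_mul, mul_assoc (G ⊗ₖ G), ← h2, mul_assoc, mul_assoc]

/-- `(v_l, F_i y) = 0` -/
theorem form_v_F {S : Model Φ Λ} {G : Matrix (Fin S.m) (Fin S.m) FF} (hG : IsForm S G)
    {l : X.Weight} (hl : l ∈ Λ) (i : Fin X.rank) : (S.v l ᵥ* G) ᵥ* S.M.F i = 0 := by
  have h1 : G * S.M.F i = (S.M.E i)ᵀ * (G * S.M.K i) := by
    rw [← mul_assoc, hG.E, mul_assoc, mul_assoc, K'K, mul_one]
  rw [vecMul_vecMul, h1, ← vecMul_vecMul, vecMul_transpose, S.v_E l hl, zero_vecMul]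

theorem form_v_K' {S : Model Φ Λ} {G : Matrix (Fin S.m) (Fin S.m) FF} (hG : IsForm S G)
    {l : X.Weight} (hl : l ∈ Λ) (i : Fin X.rank) (y : Fin S.m → FF) :
    (S.v l ᵥ* G) ⬝ᵥ (S.M.K' i *ᵥ y) = vv Φ i ^ (-l i) * ((S.v l ᵥ* G) ⬝ᵥ y) := by
  rw [dotProduct_mulVec, vecMul_vecMul, ← hG.K', ← vecMul_vecMul, vecMul_transpose,
    isWt_K' (S.v_wt l hl) i, smul_vecMul, smul_dotProduct, smul_eq_mul]

theorem F2_tens {S : Model Φ Λ} (i : Fin X.rank) (x y : Fin S.m → FF) :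
    tens (S.M.F i *ᵥ x) y = S.M.F2 i *ᵥ tens x (S.M.K' i *ᵥ y) -
      tens x (S.M.F i *ᵥ (S.M.K' i *ᵥ y)) := by
  unfold UqModule.F2
  rw [add_mulVec, kron_tens, kron_tens, one_mulVec, mulVec_mulVec y (S.M.K i), S.M.KK', one_mulVec,
    add_sub_cancel_right]

/-- contraction of `c (x ⊗ y)` with `v_l` -/
theorem ctr_C {S : Model Φ Λ} {G : Matrix (Fin S.m) (Fin S.m) FF} (hG : IsForm S G)
    {l : X.Weight} (hl : l ∈ Λ) {l' : X.Weight} (hl' : l' ∈ Λ) {μ : X.Weight}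
    {x : Fin S.m → FF} (hx : FWord S l' μ x) (y : Fin S.m → FF) :
    ctr (S.v l ᵥ* G) (S.C *ᵥ tens x y) = (tt ^ Φ.ip l μ * ((S.v l ᵥ* G) ⬝ᵥ y)) • x := by
  induction hx generalizing y with
  | base =>
    have key : ∀ y, y ∈ ({
        carrier := {y | ctr (S.v l ᵥ* G) (S.C *ᵥ tens (S.v l') y) =
          (tt ^ Φ.ip l l' * ((S.v l ᵥ* G) ⬝ᵥ y)) • S.v l'}
        add_mem' := by
          intro a b ha hb
          simp only [Set.mem_ofPred_eq] at ha hb ⊢
          rw [tens_add_right, mulVec_add, ctr_add, ha, hb, dotProduct_add, mul_add, add_smul]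
        zero_mem' := by
          simp only [Set.mem_ofPred_eq]
          rw [tens_zero_right, mulVec_zero, dotProduct_zero, mul_zero, zero_smul]
          ext j
          simp [ctr]
        smul_mem' := by
          intro c a ha
          simp only [Set.mem_ofPred_eq] at ha ⊢
          rw [tens_smul_right, mulVec_smul, ctr_smul, ha, dotProduct_smul, smul_smul, smul_eq_mul]
          congr 1
          ring } : Submodule FF (Fin S.m → FF)) := by
      apply wt_induct S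
      intro ν w hw
      show ctr (S.v l ᵥ* G) (S.C *ᵥ tens (S.v l') w) =
          (tt ^ Φ.ip l l' * ((S.v l ᵥ* G) ⬝ᵥ w)) • S.v l'
      rw [S.C_v l' hl' ν w hw, ctr_smul, ctr_tens, smul_smul]
      by_cases hne : l = ν
      · rw [← hne, Φ.symm l' l]
      · rw [← dotProduct_mulVec, form_wt hG (S.v_wt l hl) hw hne, mul_zero, mul_zero]
    exact key y
  | step i μ w hw ih =>
    have h1 : S.C *ᵥ (S.M.F2 i *ᵥ tens w (S.M.K' i *ᵥ y)) =
        S.M.F2 i *ᵥ (S.C *ᵥ tens w (S.M.K' i *ᵥ y)) := by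
      rw [mulVec_mulVec, S.C_F, ← mulVec_mulVec]
    rw [F2_tens, mulVec_sub, h1, ctr_sub, ih, dotProduct_mulVec, form_v_F hG hl,
      zero_dotProduct, mul_zero, zero_smul, sub_zero]
    unfold UqModule.F2
    rw [add_mulVec, ctr_add, ctr_kron, ctr_kron, form_v_F hG hl, vecMul_one, ih, mulVec_smul,
      form_v_K' hG hl]
    have h2 : ctr (0 : Fin S.m → FF) (S.C *ᵥ tens w (S.M.K' i *ᵥ y)) = 0 := by
      ext j
      simp [ctr]
    rw [h2, mulVec_zero, zero_add, ip_sub_right, ip_root_right, sub_eq_add_neg, zpow_add₀ tt_ne]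
    congr 1
    unfold vv
    rw [← _root_.zpow_mul]
    have h3 : (Φ.N : ℤ) * X.d i * -l i = -(Φ.N * X.d i * l i) := by ring
    rw [h3]
    ring

theorem defect_zero (S : Model Φ Λ) {G : Matrix (Fin S.m) (Fin S.m) FF} (hG : IsForm S G)
    {l : X.Weight} (hl : l ∈ Λ) {μ : X.Weight} {x : Fin S.m → FF} (hx : FWord S l μ x)
    (w : Fin S.m → FF) : tens x w ᵥ* ((S.C)ᵀ * (G ⊗ₖ G) - (G ⊗ₖ G) * S.C) = 0 := by
  induction hx generalizing w with
  | base =>
    have key : ∀ w, w ∈ ({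
        carrier := {w | tens (S.v l) w ᵥ* ((S.C)ᵀ * (G ⊗ₖ G) - (G ⊗ₖ G) * S.C) = 0}
        add_mem' := by
          intro a b ha hb
          simp only [Set.mem_ofPred_eq] at ha hb ⊢
          rw [tens_add_right, add_vecMul, ha, hb, add_zero]
        zero_mem' := by
          simp only [Set.mem_ofPred_eq]
          rw [tens_zero_right, zero_vecMul]
        smul_mem' := by
          intro c a ha
          simp only [Set.mem_ofPred_eq] at ha ⊢
          rw [tens_smul_right, smul_vecMul, ha, smul_zero] } : Submodule FF (Fin S.m → FF)) := by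
      apply wt_induct S
      intro ν w hw
      show tens (S.v l) w ᵥ* ((S.C)ᵀ * (G ⊗ₖ G) - (G ⊗ₖ G) * S.C) = 0
      apply eq_zero_of_tens
      intro x y
      have key2 : ∀ x, x ∈ ({
          carrier := {x | (tens (S.v l) w ᵥ* ((S.C)ᵀ * (G ⊗ₖ G) - (G ⊗ₖ G) * S.C)) ⬝ᵥ
            tens x y = 0}
          add_mem' := by
            intro a b ha hb
            simp only [Set.mem_ofPred_eq] at ha hb ⊢
            rw [tens_add_left, dotProduct_add, ha, hb, add_zero]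
          zero_mem' := by
            simp only [Set.mem_ofPred_eq]
            rw [tens_zero_left, dotProduct_zero]
          smul_mem' := by
            intro c a ha
            simp only [Set.mem_ofPred_eq] at ha ⊢
            rw [tens_smul_left, dotProduct_smul, ha, smul_zero] } :
              Submodule FF (Fin S.m → FF)) := by
        apply fword_induct S
        intro l' hl' μ x hx
        show (tens (S.v l) w ᵥ* ((S.C)ᵀ * (G ⊗ₖ G) - (G ⊗ₖ G) * S.C)) ⬝ᵥ tens x y = 0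
        have e1 : (tens (S.v l) w ᵥ* ((S.C)ᵀ * (G ⊗ₖ G))) ⬝ᵥ tens x y =
            tt ^ Φ.ip l ν * ((w ⬝ᵥ (G *ᵥ x)) * (S.v l ⬝ᵥ (G *ᵥ y))) := by
          rw [← vecMul_vecMul, vecMul_transpose, ← dotProduct_mulVec, kron_tens,
            S.C_v l hl ν w hw, smul_dotProduct, tens_dot, smul_eq_mul]
        have e2 : (tens (S.v l) w ᵥ* ((G ⊗ₖ G) * S.C)) ⬝ᵥ tens x y =
            tt ^ Φ.ip l μ * ((w ⬝ᵥ (G *ᵥ x)) * (S.v l ⬝ᵥ (G *ᵥ y))) := by
          have e3 : tens (S.v l) w ᵥ* (G ⊗ₖ G) = tens (S.v l ᵥ* G) (w ᵥ* G) := by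
            rw [← mulVec_transpose, ← kroneckerMap_transpose, kron_tens, mulVec_transpose,
              mulVec_transpose]
          rw [← vecMul_vecMul, ← dotProduct_mulVec, e3, dot_ctr, ctr_C hG hl hl' hx,
            dotProduct_smul, smul_eq_mul, ← dotProduct_mulVec, ← dotProduct_mulVec]
          ring
        rw [vecMul_sub, sub_dotProduct, e1, e2]
        by_cases hne : ν = μ
        · rw [hne, sub_self]
        · rw [form_wt hG hw (hx.isWt hl') hne]
          ring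
      exact key2 x
    exact key w
  | step i μ x hx ih =>
    have h1 : (S.M.F2 i *ᵥ tens x (S.M.K' i *ᵥ w)) ᵥ* ((S.C)ᵀ * (G ⊗ₖ G) - (G ⊗ₖ G) * S.C) = 0 := by
      rw [← vecMul_transpose, vecMul_vecMul, F2_defect hG, ← vecMul_vecMul, ih, zero_vecMul]
    rw [F2_tens, sub_vecMul, h1, ih, sub_zero]

end A2

theorem C_adj (S : Model Φ Λ) {G : Matrix (Fin S.m) (Fin S.m) FF} (hG : IsForm S G) :
    (S.C)ᵀ * (G ⊗ₖ G) = (G ⊗ₖ G) * S.C := by
  have key : ∀ w x, x ∈ ({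
      carrier := {x | tens x w ᵥ* ((S.C)ᵀ * (G ⊗ₖ G) - (G ⊗ₖ G) * S.C) = 0}
      add_mem' := by
        intro a b ha hb
        simp only [Set.mem_ofPred_eq] at ha hb ⊢
        rw [tens_add_left, add_vecMul, ha, hb, add_zero]
      zero_mem' := by
        simp only [Set.mem_ofPred_eq]
        rw [tens_zero_left, zero_vecMul]
      smul_mem' := by
        intro c a ha
        simp only [Set.mem_ofPred_eq] at ha ⊢
        rw [tens_smul_left, smul_vecMul, ha, smul_zero] } : Submodule FF (Fin S.m → FF)) := by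
    intro w
    apply fword_induct S
    intro l hl μ x hx
    exact defect_zero S hG hl hx w
  rw [← sub_eq_zero]
  ext ⟨i, j⟩ b
  have h1 : tens (Pi.single i 1) (Pi.single j 1) ᵥ* ((S.C)ᵀ * (G ⊗ₖ G) - (G ⊗ₖ G) * S.C) = 0 :=
    key (Pi.single j 1) (Pi.single i 1)
  have h2 : tens (Pi.single i (1 : FF)) (Pi.single j 1) = Pi.single (i, j) 1 := by
    ext ⟨a, c⟩
    simp only [tens]
    by_cases ha : a = i
    · by_cases hc : c = j
      · rw [ha, hc, Pi.single_eq_same, Pi.single_eq_same, Pi.single_eq_same, one_mul]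
      · rw [Pi.single_eq_of_ne hc, mul_zero, Pi.single_eq_of_ne]
        intro h
        exact hc (Prod.ext_iff.mp h).2
    · rw [Pi.single_eq_of_ne ha, zero_mul, Pi.single_eq_of_ne]
      intro h
      exact ha (Prod.ext_iff.mp h).1
  rw [h2] at h1
  have h3 := congrFun h1 b
  rw [single_one_vecMul] at h3
  exact h3

theorem C'_adj (S : Model Φ Λ) {G : Matrix (Fin S.m) (Fin S.m) FF} (hG : IsForm S G) :
    (S.C')ᵀ * (G ⊗ₖ G) = (G ⊗ₖ G) * S.C' := by
  have h1 : (S.C')ᵀ * (S.C)ᵀ = 1 := by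
    rw [← transpose_mul, S.CC', transpose_one]
  calc (S.C')ᵀ * (G ⊗ₖ G) = (S.C')ᵀ * ((G ⊗ₖ G) * (S.C * S.C')) := by rw [S.CC', mul_one]
    _ = (S.C')ᵀ * (((G ⊗ₖ G) * S.C) * S.C') := by rw [mul_assoc (G ⊗ₖ G)]
    _ = (S.C')ᵀ * (((S.C)ᵀ * (G ⊗ₖ G)) * S.C') := by rw [C_adj S hG]
    _ = ((S.C')ᵀ * (S.C)ᵀ) * ((G ⊗ₖ G) * S.C') := by
        rw [mul_assoc (S.C)ᵀ, mul_assoc]
    _ = (G ⊗ₖ G) * S.C' := by rw [h1, one_mul]

end Pool.Agent.QInv75
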