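import Pool.Agent.QInv75.Basics

/-!
# Intertwiners of `⊕ V_λ` are self-adjoint
-/

set_option autoImplicit false

open Matrix
open scoped Kronecker

namespace Pool.Agent.QInv75

variable {X : Dynkin} {Φ : WeightForm X} {Λ : Finset X.Weight}

theorem form_F_eq_zero (S : Model Φ Λ) {G : Matrix (Fin S.m) (Fin S.m) FF} (hG : IsForm S G)
    {x : Fin S.m → FF} {i : Fin X.rank} (hx : S.M.E i *ᵥ x = 0) (z : Fin S.m → FF) :
    x ⬝ᵥ (G *ᵥ (S.M.F i *ᵥ z)) = 0 := by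
  have h1 : G * S.M.F i = (S.M.E i)ᵀ * G * S.M.K i := by
    rw [hG.E, Matrix.mul_assoc, Matrix.mul_assoc, K'K, Matrix.mul_one]
  rw [mulVec_mulVec, h1, ← mulVec_mulVec, ← mulVec_mulVec, dotProduct_mulVec, vecMul_transpose, hx,
    zero_dotProduct]

theorem form_P (S : Model Φ Λ) {G : Matrix (Fin S.m) (Fin S.m) FF} (hG : IsForm S G)
    {l : X.Weight} (hl : l ∈ Λ) (x z : Fin S.m → FF) :
    x ⬝ᵥ (G *ᵥ (S.P l *ᵥ z)) = (S.P l *ᵥ x) ⬝ᵥ (G *ᵥ z) := by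
  rw [mulVec_mulVec, ← hG.P l hl, ← mulVec_mulVec, dotProduct_mulVec, vecMul_transpose]

theorem P_P_ne (S : Model Φ Λ) {l l' : X.Weight} (hl : l ∈ Λ) (hl' : l' ∈ Λ) (hne : l ≠ l')
    (w : Fin S.m → FF) : S.P l *ᵥ (S.P l' *ᵥ w) = 0 := by
  rw [mulVec_mulVec, S.P_mul l hl l' hl', if_neg hne, zero_mulVec]

theorem P_v_ne (S : Model Φ Λ) {l l' : X.Weight} (hl : l ∈ Λ) (hl' : l' ∈ Λ) (hne : l ≠ l') :
    S.P l *ᵥ S.v l' = 0 := by
  rw [← S.v_P l' hl']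
  exact P_P_ne S hl hl' hne _

theorem form_nondeg {m : ℕ} {G : Matrix (Fin m) (Fin m) FF} (hG : IsUnit G)
    {x : Fin m → FF} (h : ∀ y, x ⬝ᵥ (G *ᵥ y) = 0) : x = 0 := by
  obtain ⟨G', hG'⟩ := hG.exists_right_inv
  ext j
  have := h (G' *ᵥ Pi.single j 1)
  rw [mulVec_mulVec, hG', one_mulVec] at this
  simpa using this

/-- a vector of the summand `l` which is killed by all `E i` is a multiple of the highest weight
vector -/
theorem highest_unique (S : Model Φ Λ) {G : Matrix (Fin S.m) (Fin S.m) FF} (hG : IsForm S G)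
    {l : X.Weight} (hl : l ∈ Λ) {x : Fin S.m → FF} (hP : S.P l *ᵥ x = x)
    (hE : ∀ i, S.M.E i *ᵥ x = 0) : ∃ c : FF, x = c • S.v l := by
  have hother : ∀ (x : Fin S.m → FF), S.P l *ᵥ x = x → ∀ l' ∈ Λ, l' ≠ l →
      x ⬝ᵥ (G *ᵥ S.v l') = 0 := by
    intro x hx l' hl' hne
    rw [← S.v_P l' hl', form_P S hG hl', ← hx, P_P_ne S hl' hl hne, zero_dotProduct]
  have hb : S.v l ⬝ᵥ (G *ᵥ S.v l) ≠ 0 := by
    intro hb
    apply S.v_ne l hl
    apply form_nondeg hG.unit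
    intro y
    let W : Submodule FF (Fin S.m → FF) :=
      { carrier := {y | S.v l ⬝ᵥ (G *ᵥ y) = 0}
        add_mem' := by
          intro a b ha hb
          show S.v l ⬝ᵥ (G *ᵥ (a + b)) = 0
          rw [mulVec_add, dotProduct_add, show S.v l ⬝ᵥ (G *ᵥ a) = 0 from ha,
            show S.v l ⬝ᵥ (G *ᵥ b) = 0 from hb, add_zero]
        zero_mem' := by
          show S.v l ⬝ᵥ (G *ᵥ 0) = 0
          rw [mulVec_zero, dotProduct_zero]
        smul_mem' := by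
          intro c a ha
          show S.v l ⬝ᵥ (G *ᵥ (c • a)) = 0
          rw [mulVec_smul, dotProduct_smul, show S.v l ⬝ᵥ (G *ᵥ a) = 0 from ha, smul_zero] }
    refine model_induct S W ?_ ?_ y
    · intro l' hl'
      by_cases hne : l' = l
      · rw [hne]
        exact hb
      · exact hother _ (S.v_P l hl) l' hl' hne
    · intro i μ w _ _
      exact form_F_eq_zero S hG (S.v_E l hl i) w
  refine ⟨(x ⬝ᵥ (G *ᵥ S.v l)) / (S.v l ⬝ᵥ (G *ᵥ S.v l)), ?_⟩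
  rw [← sub_eq_zero]
  apply form_nondeg hG.unit
  intro y
  let W : Submodule FF (Fin S.m → FF) :=
    { carrier := {y | x ⬝ᵥ (G *ᵥ y) =
        (x ⬝ᵥ (G *ᵥ S.v l)) / (S.v l ⬝ᵥ (G *ᵥ S.v l)) * (S.v l ⬝ᵥ (G *ᵥ y))}
      add_mem' := by
        intro a b ha hb
        show x ⬝ᵥ (G *ᵥ (a + b)) = _ * (S.v l ⬝ᵥ (G *ᵥ (a + b)))
        rw [mulVec_add, dotProduct_add, dotProduct_add, mul_add]
        exact congrArg₂ (· + ·) ha hb
      zero_mem' := by
        show x ⬝ᵥ (G *ᵥ 0) = _ * (S.v l ⬝ᵥ (G *ᵥ 0))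
        rw [mulVec_zero, dotProduct_zero, dotProduct_zero, mul_zero]
      smul_mem' := by
        intro c a ha
        show x ⬝ᵥ (G *ᵥ (c • a)) = _ * (S.v l ⬝ᵥ (G *ᵥ (c • a)))
        rw [mulVec_smul, dotProduct_smul, dotProduct_smul, smul_eq_mul, smul_eq_mul,
          mul_left_comm]
        exact congrArg (c * ·) ha }
  have hy : y ∈ W := by
    refine model_induct S W ?_ ?_ y
    · intro l' hl'
      show x ⬝ᵥ (G *ᵥ S.v l') = _ * (S.v l ⬝ᵥ (G *ᵥ S.v l'))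
      by_cases hne : l' = l
      · rw [hne, div_mul_cancel₀ _ hb]
      · rw [hother x hP l' hl' hne, hother _ (S.v_P l hl) l' hl' hne, mul_zero]
    · intro i μ w _ _
      show x ⬝ᵥ (G *ᵥ (S.M.F i *ᵥ w)) = _ * (S.v l ⬝ᵥ (G *ᵥ (S.M.F i *ᵥ w)))
      rw [form_F_eq_zero S hG (hE i) w, form_F_eq_zero S hG (S.v_E l hl i) w, mul_zero]
  have hy' : x ⬝ᵥ (G *ᵥ y) =
        (x ⬝ᵥ (G *ᵥ S.v l)) / (S.v l ⬝ᵥ (G *ᵥ S.v l)) * (S.v l ⬝ᵥ (G *ᵥ y)) := hy
  rw [sub_dotProduct, smul_dotProduct, smul_eq_mul, hy', sub_self]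

theorem comm_mulVec {m : ℕ} {A B : Matrix (Fin m) (Fin m) FF} (h : A * B = B * A)
    (w : Fin m → FF) : A *ᵥ (B *ᵥ w) = B *ᵥ (A *ᵥ w) := by
  rw [mulVec_mulVec, h, ← mulVec_mulVec]

/-- intertwiners act on the highest weight vectors as scalars -/
theorem comm_highest (S : Model Φ Λ) {G : Matrix (Fin S.m) (Fin S.m) FF} (hG : IsForm S G)
    (T : Matrix (Fin S.m) (Fin S.m) FF) (hE : ∀ i, T * S.M.E i = S.M.E i * T)
    (hK : ∀ i, T * S.M.K i = S.M.K i * T) {l : X.Weight} (hl : l ∈ Λ) :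
    ∃ c : FF, T *ᵥ S.v l = c • S.v l := by
  have h1 : ∀ l' ∈ Λ, ∃ c : FF, S.P l' *ᵥ (T *ᵥ S.v l) = c • S.v l' := by
    intro l' hl'
    refine highest_unique S hG hl' (P_P S hl' _) ?_
    intro i
    rw [← comm_mulVec (S.P_E l' hl' i), ← comm_mulVec (hE i), S.v_E l hl i, mulVec_zero,
      mulVec_zero]
  have h2 : ∀ l' ∈ Λ, l' ≠ l → S.P l' *ᵥ (T *ᵥ S.v l) = 0 := by
    intro l' hl' hne
    obtain ⟨c, hc⟩ := h1 l' hl'
    rw [hc]
    by_contra h0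
    have hc0 : c ≠ 0 := by
      intro hc0
      exact h0 (by rw [hc0, zero_smul])
    apply hne
    funext i
    have h3 : S.M.K i *ᵥ (S.P l' *ᵥ (T *ᵥ S.v l)) =
        vv Φ i ^ (l i) • (S.P l' *ᵥ (T *ᵥ S.v l)) := by
      rw [← comm_mulVec (S.P_K l' hl' i), ← comm_mulVec (hK i), S.v_wt l hl i, mulVec_smul,
        mulVec_smul]
    rw [hc, mulVec_smul, S.v_wt l' hl' i, smul_comm] at h3
    have h4 : (vv Φ i ^ (l' i) - vv Φ i ^ (l i)) • (c • S.v l') = 0 := by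
      rw [sub_smul, h3, sub_self]
    rcases smul_eq_zero.mp h4 with h5 | h5
    · exact vv_pow_inj i (sub_eq_zero.mp h5)
    · exact absurd h5 h0
  obtain ⟨c, hc⟩ := h1 l hl
  refine ⟨c, ?_⟩
  rw [← sum_P S (T *ᵥ S.v l), ← hc]
  exact Finset.sum_eq_single_of_mem l hl h2

theorem comm_adj (S : Model Φ Λ) {G : Matrix (Fin S.m) (Fin S.m) FF} (hG : IsForm S G)
    (T : Matrix (Fin S.m) (Fin S.m) FF) (hE : ∀ i, T * S.M.E i = S.M.E i * T)
    (hF : ∀ i, T * S.M.F i = S.M.F i * T) (hK : ∀ i, T * S.M.K i = S.M.K i * T) :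
    Tᵀ * G = G * T := by
  classical
  have h1 : ∀ l : X.Weight, ∃ c : FF, l ∈ Λ → T *ᵥ S.v l = c • S.v l := by
    intro l
    by_cases hl : l ∈ Λ
    · obtain ⟨c, hc⟩ := comm_highest S hG T hE hK hl
      exact ⟨c, fun _ => hc⟩
    · exact ⟨0, fun h => absurd h hl⟩
  choose c hc using h1
  have hT : T = ∑ l ∈ Λ, c l • S.P l := by
    have key : ∀ w, T *ᵥ w = (∑ l ∈ Λ, c l • S.P l) *ᵥ w := by
      intro w
      let W : Submodule FF (Fin S.m → FF) :=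
        LinearMap.ker (Matrix.mulVecLin T - Matrix.mulVecLin (∑ l ∈ Λ, c l • S.P l))
      have hmem : ∀ w, w ∈ W ↔ T *ᵥ w = (∑ l ∈ Λ, c l • S.P l) *ᵥ w := by
        intro w
        rw [LinearMap.mem_ker, LinearMap.sub_apply, sub_eq_zero]
        rfl
      rw [← hmem]
      refine model_induct S W ?_ ?_ w
      · intro l hl
        rw [hmem, hc l hl, sum_mulVec]
        have : ∀ l' ∈ Λ, l' ≠ l → (c l' • S.P l') *ᵥ S.v l = 0 := by
          intro l' hl' hne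
          rw [smul_mulVec, P_v_ne S hl' hl hne, smul_zero]
        rw [Finset.sum_eq_single_of_mem l hl this, smul_mulVec, S.v_P l hl]
      · intro i μ w hw _
        rw [hmem] at hw ⊢
        rw [comm_mulVec (hF i), hw]
        refine comm_mulVec ?_ w
        rw [Finset.mul_sum, Finset.sum_mul]
        refine Finset.sum_congr rfl fun l hl => ?_
        rw [Matrix.mul_smul, Matrix.smul_mul, S.P_F l hl i]
    ext a b
    have := congrFun (key (Pi.single b 1)) a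
    simpa using this
  rw [hT, Matrix.transpose_sum, Finset.sum_mul, Finset.mul_sum]
  refine Finset.sum_congr rfl fun l hl => ?_
  rw [Matrix.transpose_smul, Matrix.smul_mul, Matrix.mul_smul, hG.P l hl]

end Pool.Agent.QInv75
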