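import Pool.Agent.QInv75.Basics

/-!
# Package A4: the quantum trace over two of three strands of an intertwiner is an intertwiner
-/

set_option autoImplicit false

open Matrix
open scoped Kronecker

namespace Pool.Agent.QInv75

namespace A4

/-! ## The trace over the second factor -/

section Ptr

variable {R : Type*} [CommRing R] {α β : Type*} [Fintype α] [Fintype β] [DecidableEq α]
  [DecidableEq β]

/-- trace over the second factor -/
def ptr (Z : Matrix (α × β) (α × β) R) : Matrix α α R :=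
  Matrix.of fun a b => ∑ n, Z (a, n) (b, n)

omit [Fintype α] [DecidableEq α] [DecidableEq β] in
theorem ptr_add (Z Z' : Matrix (α × β) (α × β) R) : ptr (Z + Z') = ptr Z + ptr Z' := by
  ext a b
  simp [ptr, Finset.sum_add_distrib]

omit [Fintype α] [DecidableEq α] [DecidableEq β] in
theorem ptr_sub (Z Z' : Matrix (α × β) (α × β) R) : ptr (Z - Z') = ptr Z - ptr Z' := by
  ext a b
  simp [ptr, Finset.sum_sub_distrib]

omit [Fintype α] [DecidableEq α] [DecidableEq β] in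
theorem ptr_smul (c : R) (Z : Matrix (α × β) (α × β) R) : ptr (c • Z) = c • ptr Z := by
  ext a b
  simp [ptr, Finset.mul_sum]

omit [DecidableEq α] in
theorem ptr_left (A : Matrix α α R) (Z : Matrix (α × β) (α × β) R) :
    ptr ((A ⊗ₖ (1 : Matrix β β R)) * Z) = A * ptr Z := by
  ext a b
  simp only [ptr, Matrix.of_apply, Matrix.mul_apply, Matrix.kroneckerMap_apply,
    Fintype.sum_prod_type, Matrix.one_apply, mul_ite, mul_one, mul_zero, ite_mul, zero_mul,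
    Finset.sum_ite_eq, Finset.mem_univ, if_true, Finset.mul_sum]
  rw [Finset.sum_comm]

omit [DecidableEq α] in
theorem ptr_right (A : Matrix α α R) (Z : Matrix (α × β) (α × β) R) :
    ptr (Z * (A ⊗ₖ (1 : Matrix β β R))) = ptr Z * A := by
  ext a b
  simp only [ptr, Matrix.of_apply, Matrix.mul_apply, Matrix.kroneckerMap_apply,
    Fintype.sum_prod_type, Matrix.one_apply, mul_ite, mul_one, mul_zero,
    Finset.sum_ite_eq', Finset.mem_univ, if_true, Finset.sum_mul]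
  rw [Finset.sum_comm]

omit [DecidableEq β] in
theorem ptr_cyc (B : Matrix β β R) (Z : Matrix (α × β) (α × β) R) :
    ptr (((1 : Matrix α α R) ⊗ₖ B) * Z) = ptr (Z * ((1 : Matrix α α R) ⊗ₖ B)) := by
  ext a b
  simp only [ptr, Matrix.of_apply, Matrix.mul_apply, Matrix.kroneckerMap_apply,
    Fintype.sum_prod_type, Matrix.one_apply, mul_ite, mul_zero, ite_mul, zero_mul,
    one_mul]
  simp only [Finset.sum_ite_irrel, Finset.sum_const_zero, Finset.sum_ite_eq, Finset.sum_ite_eq',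
    Finset.mem_univ, if_true]
  rw [Finset.sum_comm]
  refine Finset.sum_congr rfl fun x _ => Finset.sum_congr rfl fun y _ => ?_
  ring

/-- `[K]` -/
theorem ptr_K {K : Matrix α α R} {L L' g : Matrix β β R} {Y : Matrix (α × β) (α × β) R}
    (hL : L * L' = 1) (hg : g * L = L * g)
    (hY : Y * (K ⊗ₖ L) = (K ⊗ₖ L) * Y) :
    ptr ((1 ⊗ₖ g) * Y) * K = K * ptr ((1 ⊗ₖ g) * Y) := by
  have hL2 : L' * L = 1 := mul_eq_one_comm.mp hL
  have e1 : (K ⊗ₖ (1 : Matrix β β R)) = (K ⊗ₖ L) * ((1 : Matrix α α R) ⊗ₖ L') := by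
    rw [← Matrix.mul_kronecker_mul, hL, Matrix.mul_one]
  have e2 : ((1 : Matrix α α R) ⊗ₖ g) * (K ⊗ₖ L) =
      (K ⊗ₖ (1 : Matrix β β R)) * ((1 : Matrix α α R) ⊗ₖ (L * g)) := by
    rw [← Matrix.mul_kronecker_mul, ← Matrix.mul_kronecker_mul, hg, Matrix.one_mul,
      Matrix.mul_one, Matrix.one_mul]
  calc ptr ((1 ⊗ₖ g) * Y) * K = ptr ((1 ⊗ₖ g) * Y * (K ⊗ₖ (1 : Matrix β β R))) :=
        (ptr_right _ _).symm
    _ = ptr (((1 ⊗ₖ g) * (K ⊗ₖ L)) * Y * ((1 : Matrix α α R) ⊗ₖ L')) := by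
        rw [e1]
        congr 1
        rw [mul_assoc ((1 : Matrix α α R) ⊗ₖ g), mul_assoc ((1 : Matrix α α R) ⊗ₖ g),
          ← mul_assoc Y, hY]
        simp only [mul_assoc]
    _ = ptr ((K ⊗ₖ (1 : Matrix β β R)) * (((1 : Matrix α α R) ⊗ₖ (L * g)) * Y *
          ((1 : Matrix α α R) ⊗ₖ L'))) := by
        rw [e2]
        simp only [mul_assoc]
    _ = K * ptr (((1 : Matrix α α R) ⊗ₖ L') * (((1 : Matrix α α R) ⊗ₖ (L * g)) * Y)) := by
        rw [ptr_left, ptr_cyc]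
    _ = K * ptr ((1 ⊗ₖ g) * Y) := by
        rw [← mul_assoc, ← Matrix.mul_kronecker_mul, Matrix.one_mul, ← mul_assoc, hL2,
          Matrix.one_mul]

/-- `[E]` -/
theorem ptr_E {K K' E : Matrix α α R} {L L' g e : Matrix β β R} {Y : Matrix (α × β) (α × β) R}
    {c : R}
    (hK : K * K' = 1) (hL : L * L' = 1) (hg : g * L = L * g) (hge : g * e = c • (e * g))
    (hLe : L * e = c • (e * L))
    (hY : Y * (K ⊗ₖ L) = (K ⊗ₖ L) * Y)
    (hE : Y * (E ⊗ₖ (1 : Matrix β β R) + K' ⊗ₖ e) = (E ⊗ₖ (1 : Matrix β β R) + K' ⊗ₖ e) * Y) :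
    ptr ((1 ⊗ₖ g) * Y) * E = E * ptr ((1 ⊗ₖ g) * Y) := by
  have hK2 : K' * K = 1 := mul_eq_one_comm.mp hK
  have hL2 : L' * L = 1 := mul_eq_one_comm.mp hL
  have hgL' : g * L' = L' * g := by
    calc g * L' = (L' * L) * g * L' := by rw [hL2, Matrix.one_mul]
      _ = L' * (L * g) * L' := by rw [mul_assoc L' L g]
      _ = L' * (g * L) * L' := by rw [hg]
      _ = L' * g * (L * L') := by simp only [mul_assoc]
      _ = L' * g := by rw [hL, Matrix.mul_one]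
  -- `Y` commutes with `K' ⊗ L'`
  have hY' : Y * (K' ⊗ₖ L') = (K' ⊗ₖ L') * Y := by
    have i1 : (K' ⊗ₖ L') * (K ⊗ₖ L) = 1 := by
      rw [← Matrix.mul_kronecker_mul, hK2, hL2, Matrix.one_kronecker_one]
    have i2 : (K ⊗ₖ L) * (K' ⊗ₖ L') = 1 := by
      rw [← Matrix.mul_kronecker_mul, hK, hL, Matrix.one_kronecker_one]
    calc Y * (K' ⊗ₖ L') = ((K' ⊗ₖ L') * (K ⊗ₖ L)) * Y * (K' ⊗ₖ L') := by rw [i1, Matrix.one_mul]
      _ = (K' ⊗ₖ L') * ((K ⊗ₖ L) * Y) * (K' ⊗ₖ L') := by simp only [mul_assoc]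
      _ = (K' ⊗ₖ L') * (Y * (K ⊗ₖ L)) * (K' ⊗ₖ L') := by rw [hY]
      _ = (K' ⊗ₖ L') * Y * ((K ⊗ₖ L) * (K' ⊗ₖ L')) := by simp only [mul_assoc]
      _ = (K' ⊗ₖ L') * Y := by rw [i2, Matrix.mul_one]
  have key : ptr ((1 ⊗ₖ g) * (Y * (K' ⊗ₖ e))) = ptr ((1 ⊗ₖ g) * ((K' ⊗ₖ e) * Y)) := by
    have f1 : (K' ⊗ₖ e) = (K' ⊗ₖ L') * ((1 : Matrix α α R) ⊗ₖ (L * e)) := by
      rw [← Matrix.mul_kronecker_mul, ← mul_assoc L', hL2, Matrix.one_mul, Matrix.mul_one]
    have f2 : ((1 : Matrix α α R) ⊗ₖ g) * (K' ⊗ₖ L') =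
        (K' ⊗ₖ (1 : Matrix β β R)) * ((1 : Matrix α α R) ⊗ₖ (g * L')) := by
      rw [← Matrix.mul_kronecker_mul, ← Matrix.mul_kronecker_mul, Matrix.one_mul,
        Matrix.mul_one, Matrix.one_mul]
    have f3 : ((1 : Matrix α α R) ⊗ₖ g) * (K' ⊗ₖ e) =
        (K' ⊗ₖ (1 : Matrix β β R)) * ((1 : Matrix α α R) ⊗ₖ (g * e)) := by
      rw [← Matrix.mul_kronecker_mul, ← Matrix.mul_kronecker_mul, Matrix.one_mul,
        Matrix.mul_one, Matrix.one_mul]
    have lhs : ptr ((1 ⊗ₖ g) * (Y * (K' ⊗ₖ e))) =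
        K' * ptr (((1 : Matrix α α R) ⊗ₖ (L * e * (g * L'))) * Y) := by
      calc ptr ((1 ⊗ₖ g) * (Y * (K' ⊗ₖ e)))
          = ptr ((((1 : Matrix α α R) ⊗ₖ g) * (K' ⊗ₖ L')) * Y *
              ((1 : Matrix α α R) ⊗ₖ (L * e))) := by
            rw [f1, ← mul_assoc Y, hY']
            simp only [mul_assoc]
        _ = K' * ptr (((1 : Matrix α α R) ⊗ₖ (g * L')) * Y *
              ((1 : Matrix α α R) ⊗ₖ (L * e))) := by
            rw [f2, ← ptr_left]
            simp only [mul_assoc]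
        _ = _ := by
            rw [← ptr_cyc, ← mul_assoc, ← Matrix.mul_kronecker_mul, Matrix.one_mul]
    have rhs : ptr ((1 ⊗ₖ g) * ((K' ⊗ₖ e) * Y)) =
        K' * ptr (((1 : Matrix α α R) ⊗ₖ (g * e)) * Y) := by
      rw [← mul_assoc, f3, ← ptr_left]
      simp only [mul_assoc]
    rw [lhs, rhs]
    have : L * e * (g * L') = g * e := by
      rw [hgL', hLe, hge, smul_mul_assoc]
      congr 1
      rw [mul_assoc, ← mul_assoc L, hL, Matrix.one_mul]
    rw [this]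
  have h1 : ptr ((1 ⊗ₖ g) * Y) * E = ptr ((1 ⊗ₖ g) * (Y * (E ⊗ₖ (1 : Matrix β β R)))) := by
    rw [← ptr_right, mul_assoc]
  have h2 : E * ptr ((1 ⊗ₖ g) * Y) = ptr ((1 ⊗ₖ g) * ((E ⊗ₖ (1 : Matrix β β R)) * Y)) := by
    rw [← ptr_left, ← mul_assoc, ← mul_assoc, ← Matrix.mul_kronecker_mul,
      ← Matrix.mul_kronecker_mul, Matrix.one_mul, Matrix.mul_one, Matrix.one_mul, Matrix.mul_one]
  rw [h1, h2]
  have h3 := congrArg (fun Z => ptr (((1 : Matrix α α R) ⊗ₖ g) * Z)) hE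
  simp only [mul_add, add_mul, ptr_add] at h3
  rw [key] at h3
  exact add_right_cancel h3

/-- `[F]` -/
theorem ptr_F {F : Matrix α α R} {L L' g f : Matrix β β R} {Y : Matrix (α × β) (α × β) R}
    {c : R} (hL : L * L' = 1) (hg : g * L = L * g) (hgf : f * g = c • (g * f))
    (hLf : f * L = c • (L * f))
    (hF : Y * (F ⊗ₖ L + (1 : Matrix α α R) ⊗ₖ f) = (F ⊗ₖ L + (1 : Matrix α α R) ⊗ₖ f) * Y) :
    ptr ((1 ⊗ₖ g) * Y) * F = F * ptr ((1 ⊗ₖ g) * Y) := by
  have hL2 : L' * L = 1 := mul_eq_one_comm.mp hL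
  have hL'f : L' * f = c • (f * L') := by
    calc L' * f = L' * (f * (L * L')) := by rw [hL, Matrix.mul_one]
      _ = L' * (f * L) * L' := by simp only [mul_assoc]
      _ = c • (L' * L * f * L') := by
          rw [hLf]
          simp only [Algebra.mul_smul_comm, Algebra.smul_mul_assoc, mul_assoc]
      _ = c • (f * L') := by rw [hL2, Matrix.one_mul]
  have h3 := congrArg (fun Z => ptr (((1 : Matrix α α R) ⊗ₖ g) * Z *
    ((1 : Matrix α α R) ⊗ₖ L'))) hF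
  simp only [mul_add, add_mul, ptr_add] at h3
  have t1 : ptr (((1 : Matrix α α R) ⊗ₖ g) * (Y * (F ⊗ₖ L)) * ((1 : Matrix α α R) ⊗ₖ L')) =
      ptr ((1 ⊗ₖ g) * Y) * F := by
    rw [← ptr_right]
    congr 1
    simp only [mul_assoc]
    rw [← Matrix.mul_kronecker_mul, hL, Matrix.mul_one]
  have t2 : ptr (((1 : Matrix α α R) ⊗ₖ g) * ((F ⊗ₖ L) * Y) * ((1 : Matrix α α R) ⊗ₖ L')) =
      F * ptr ((1 ⊗ₖ g) * Y) := by
    have : ((1 : Matrix α α R) ⊗ₖ g) * ((F ⊗ₖ L) * Y) =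
        (F ⊗ₖ (1 : Matrix β β R)) * (((1 : Matrix α α R) ⊗ₖ (g * L)) * Y) := by
      rw [← mul_assoc, ← mul_assoc, ← Matrix.mul_kronecker_mul, ← Matrix.mul_kronecker_mul,
        Matrix.one_mul, Matrix.mul_one, Matrix.one_mul]
    rw [this, mul_assoc, ptr_left, ← ptr_cyc, ← mul_assoc, ← Matrix.mul_kronecker_mul,
      Matrix.one_mul, hg, ← mul_assoc, hL2, Matrix.one_mul]
  have t3 : ptr (((1 : Matrix α α R) ⊗ₖ g) * (Y * ((1 : Matrix α α R) ⊗ₖ f)) *
      ((1 : Matrix α α R) ⊗ₖ L')) =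
      ptr (((1 : Matrix α α R) ⊗ₖ g) * (((1 : Matrix α α R) ⊗ₖ f) * Y) *
      ((1 : Matrix α α R) ⊗ₖ L')) := by
    have l1 : ptr (((1 : Matrix α α R) ⊗ₖ g) * (Y * ((1 : Matrix α α R) ⊗ₖ f)) *
        ((1 : Matrix α α R) ⊗ₖ L')) = ptr (((1 : Matrix α α R) ⊗ₖ (f * L' * g)) * Y) := by
      have : ((1 : Matrix α α R) ⊗ₖ g) * (Y * ((1 : Matrix α α R) ⊗ₖ f)) *
          ((1 : Matrix α α R) ⊗ₖ L') = (((1 : Matrix α α R) ⊗ₖ g) * Y) *
          ((1 : Matrix α α R) ⊗ₖ (f * L')) := by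
        simp only [mul_assoc]
        rw [← Matrix.mul_kronecker_mul, Matrix.one_mul]
      rw [this, ← ptr_cyc, ← mul_assoc, ← Matrix.mul_kronecker_mul, Matrix.one_mul]
    have l2 : ptr (((1 : Matrix α α R) ⊗ₖ g) * (((1 : Matrix α α R) ⊗ₖ f) * Y) *
        ((1 : Matrix α α R) ⊗ₖ L')) = ptr (((1 : Matrix α α R) ⊗ₖ (L' * (g * f))) * Y) := by
      rw [← ptr_cyc, ← mul_assoc, ← mul_assoc, ← Matrix.mul_kronecker_mul,
        ← Matrix.mul_kronecker_mul, Matrix.one_mul, Matrix.one_mul, mul_assoc]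
    rw [l1, l2]
    have hgL' : g * L' = L' * g := by
      calc g * L' = (L' * L) * g * L' := by rw [hL2, Matrix.one_mul]
        _ = L' * (L * g) * L' := by rw [mul_assoc L' L g]
        _ = L' * (g * L) * L' := by rw [hg]
        _ = L' * g * (L * L') := by simp only [mul_assoc]
        _ = L' * g := by rw [hL, Matrix.mul_one]
    have : f * L' * g = L' * (g * f) := by
      rw [mul_assoc, ← hgL', ← mul_assoc, hgf, ← mul_assoc L', ← hgL', mul_assoc g L', hL'f]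
      simp only [Algebra.mul_smul_comm, Algebra.smul_mul_assoc, mul_assoc]
    rw [this]
  rw [t1, t2, t3] at h3
  exact add_right_cancel h3

end Ptr

/-! ## Three strands -/

section Three

variable {m : ℕ}

/-- `Fin 3 → Fin m` is `Fin m × (Fin m × Fin m)` -/
def e3 (m : ℕ) : (Fin 3 → Fin m) ≃ Fin m × (Fin m × Fin m) where
  toFun a := (a 0, (a 1, a 2))
  invFun p := ![p.1, p.2.1, p.2.2]
  left_inv := by
    intro a
    funext j
    fin_cases j <;> rfl
  right_inv := by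
    rintro ⟨x, y, z⟩
    rfl

/-- matrices on `M^{⊗ 3}` as matrices on `M ⊗ (M ⊗ M)` -/
noncomputable def re (m : ℕ) : Matrix (Fin 3 → Fin m) (Fin 3 → Fin m) FF ≃ₐ[FF]
    Matrix (Fin m × (Fin m × Fin m)) (Fin m × (Fin m × Fin m)) FF :=
  Matrix.reindexAlgEquiv FF FF (e3 m)

/-- matrices on `(M ⊗ M) ⊗ M` as matrices on `M ⊗ (M ⊗ M)` -/
noncomputable def as (m : ℕ) : Matrix ((Fin m × Fin m) × Fin m) ((Fin m × Fin m) × Fin m) FF ≃ₐ[FF]
    Matrix (Fin m × (Fin m × Fin m)) (Fin m × (Fin m × Fin m)) FF :=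
  Matrix.reindexAlgEquiv FF FF (Equiv.prodAssoc _ _ _)

theorem as_kron (A B C : Matrix (Fin m) (Fin m) FF) : as m ((A ⊗ₖ B) ⊗ₖ C) = A ⊗ₖ (B ⊗ₖ C) :=
  Matrix.kronecker_assoc A B C

theorem re_loc0 (A : Matrix (Fin m × Fin m) (Fin m × Fin m) FF) :
    re m (loc (n := 2) A 0) = as m (A ⊗ₖ 1) := by
  ext ⟨a, b, c⟩ ⟨a', b', c'⟩
  simp only [re, as, Matrix.coe_reindexAlgEquiv, Matrix.reindex_apply, Matrix.submatrix_apply,
    Matrix.kroneckerMap_apply, loc, Matrix.of_apply, e3, Equiv.prodAssoc, Equiv.coe_fn_symm_mk,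
    Matrix.one_apply]
  have : (∀ j : Fin 3, j ≠ (0 : Fin 2).castSucc → j ≠ (0 : Fin 2).succ →
      (![a, b, c] : Fin 3 → Fin m) j = (![a', b', c'] : Fin 3 → Fin m) j) ↔ c = c' := by
    constructor
    · intro h
      exact h 2 (by decide) (by decide)
    · rintro rfl j h0 h1
      fin_cases j
      · exact absurd rfl h0
      · exact absurd rfl h1
      · rfl
  simp only [this]
  by_cases h : c = c'
  · simp [h]
  · simp [h]

theorem re_loc1 (A : Matrix (Fin m × Fin m) (Fin m × Fin m) FF) :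
    re m (loc (n := 2) A 1) = 1 ⊗ₖ A := by
  ext ⟨a, b, c⟩ ⟨a', b', c'⟩
  simp only [re, Matrix.coe_reindexAlgEquiv, Matrix.reindex_apply, Matrix.submatrix_apply,
    Matrix.kroneckerMap_apply, loc, Matrix.of_apply, e3, Equiv.coe_fn_symm_mk,
    Matrix.one_apply]
  have : (∀ j : Fin 3, j ≠ (1 : Fin 2).castSucc → j ≠ (1 : Fin 2).succ →
      (![a, b, c] : Fin 3 → Fin m) j = (![a', b', c'] : Fin 3 → Fin m) j) ↔ a = a' := by
    constructor
    · intro h
      exact h 0 (by decide) (by decide)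
    · rintro rfl j h0 h1
      fin_cases j
      · rfl
      · exact absurd rfl h0
      · exact absurd rfl h1
  simp only [this]
  by_cases h : a = a'
  · simp [h]
  · simp [h]

theorem comm_inv {ι : Type*} [Fintype ι] [DecidableEq ι] {A A' B : Matrix ι ι FF}
    (h : A * A' = 1) (hB : A * B = B * A) : A' * B = B * A' := by
  have h2 : A' * A = 1 := mul_eq_one_comm.mp h
  calc A' * B = A' * B * (A * A') := by rw [h, Matrix.mul_one]
    _ = A' * (B * A) * A' := by simp only [mul_assoc]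
    _ = A' * (A * B) * A' := by rw [hB]
    _ = (A' * A) * B * A' := by simp only [mul_assoc]
    _ = B * A' := by rw [h2, Matrix.one_mul]

variable {X : Dynkin} {Φ : WeightForm X}

theorem E3_as (M : UqModule Φ m) (i : Fin X.rank) :
    as m (M.E2 i ⊗ₖ 1 + (M.K' i ⊗ₖ M.K' i) ⊗ₖ M.E i) = M.E i ⊗ₖ 1 + M.K' i ⊗ₖ M.E2 i := by
  rw [map_add, as_kron]
  simp only [UqModule.E2, Matrix.add_kronecker, Matrix.kronecker_add, map_add, as_kron,
    Matrix.one_kronecker_one]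
  rw [add_assoc]

theorem F3_as (M : UqModule Φ m) (i : Fin X.rank) :
    as m (M.F2 i ⊗ₖ M.K i + 1 ⊗ₖ M.F i) = M.F i ⊗ₖ M.K2 i + 1 ⊗ₖ M.F2 i := by
  have : (1 : Matrix (Fin m × Fin m) (Fin m × Fin m) FF) =
      (1 : Matrix (Fin m) (Fin m) FF) ⊗ₖ (1 : Matrix (Fin m) (Fin m) FF) :=
    Matrix.one_kronecker_one.symm
  rw [map_add, this, as_kron]
  simp only [UqModule.F2, UqModule.K2, Matrix.add_kronecker, Matrix.kronecker_add, map_add,
    as_kron]
  rw [add_assoc]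

theorem K3_as (M : UqModule Φ m) (i : Fin X.rank) :
    as m (M.K2 i ⊗ₖ M.K i) = M.K i ⊗ₖ M.K2 i := by
  simp only [UqModule.K2, as_kron]

theorem comm0 {A B : Matrix (Fin m × Fin m) (Fin m × Fin m) FF} (h : A * B = B * A)
    (D : Matrix (Fin m) (Fin m) FF) : (A ⊗ₖ 1) * (B ⊗ₖ D) = (B ⊗ₖ D) * (A ⊗ₖ 1) := by
  rw [← Matrix.mul_kronecker_mul, ← Matrix.mul_kronecker_mul, h, Matrix.one_mul, Matrix.mul_one]

theorem comm1 {A B : Matrix (Fin m × Fin m) (Fin m × Fin m) FF} (h : A * B = B * A)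
    (D : Matrix (Fin m) (Fin m) FF) :
    ((1 : Matrix (Fin m) (Fin m) FF) ⊗ₖ A) * (D ⊗ₖ B) = (D ⊗ₖ B) * (1 ⊗ₖ A) := by
  rw [← Matrix.mul_kronecker_mul, ← Matrix.mul_kronecker_mul, h, Matrix.one_mul, Matrix.mul_one]

/-- `A` commutes with the action of the quantum group on `M ⊗ M` -/
structure Inter (M : UqModule Φ m) (A : Matrix (Fin m × Fin m) (Fin m × Fin m) FF) : Prop where
  E : ∀ i, A * M.E2 i = M.E2 i * A
  F : ∀ i, A * M.F2 i = M.F2 i * A
  K : ∀ i, A * M.K2 i = M.K2 i * A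
  K' : ∀ i, A * (M.K' i ⊗ₖ M.K' i) = (M.K' i ⊗ₖ M.K' i) * A

/-- `Y` commutes with the action of the quantum group on `M ⊗ M ⊗ M` -/
structure Inter3 (M : UqModule Φ m)
    (Y : Matrix (Fin m × (Fin m × Fin m)) (Fin m × (Fin m × Fin m)) FF) : Prop where
  E : ∀ i, Y * (M.E i ⊗ₖ 1 + M.K' i ⊗ₖ M.E2 i) = (M.E i ⊗ₖ 1 + M.K' i ⊗ₖ M.E2 i) * Y
  F : ∀ i, Y * (M.F i ⊗ₖ M.K2 i + 1 ⊗ₖ M.F2 i) = (M.F i ⊗ₖ M.K2 i + 1 ⊗ₖ M.F2 i) * Y
  K : ∀ i, Y * (M.K i ⊗ₖ M.K2 i) = (M.K i ⊗ₖ M.K2 i) * Y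

theorem Inter.loc0 {M : UqModule Φ m} {A : Matrix (Fin m × Fin m) (Fin m × Fin m) FF}
    (h : Inter M A) : Inter3 M (re m (loc (n := 2) A 0)) := by
  refine ⟨fun i => ?_, fun i => ?_, fun i => ?_⟩
  · rw [re_loc0, ← E3_as, ← map_mul, ← map_mul]
    congr 1
    rw [mul_add, add_mul, comm0 (h.E i), comm0 (h.K' i)]
  · rw [re_loc0, ← F3_as, ← map_mul, ← map_mul]
    congr 1
    rw [mul_add, add_mul, comm0 (h.F i), comm0 (by rw [Matrix.one_mul, Matrix.mul_one])]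
  · rw [re_loc0, ← K3_as, ← map_mul, ← map_mul]
    congr 1
    rw [comm0 (h.K i)]

theorem Inter.loc1 {M : UqModule Φ m} {A : Matrix (Fin m × Fin m) (Fin m × Fin m) FF}
    (h : Inter M A) : Inter3 M (re m (loc (n := 2) A 1)) := by
  refine ⟨fun i => ?_, fun i => ?_, fun i => ?_⟩
  · rw [re_loc1, mul_add, add_mul, comm1 (h.E i), comm1 (by rw [Matrix.one_mul, Matrix.mul_one])]
  · rw [re_loc1, mul_add, add_mul, comm1 (h.F i), comm1 (h.K i)]
  · rw [re_loc1, comm1 (h.K i)]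

theorem Inter3.one (M : UqModule Φ m) : Inter3 M 1 :=
  ⟨fun i => by rw [Matrix.one_mul, Matrix.mul_one], fun i => by rw [Matrix.one_mul, Matrix.mul_one],
    fun i => by rw [Matrix.one_mul, Matrix.mul_one]⟩

theorem Inter3.mul {M : UqModule Φ m}
    {Y Z : Matrix (Fin m × (Fin m × Fin m)) (Fin m × (Fin m × Fin m)) FF}
    (hY : Inter3 M Y) (hZ : Inter3 M Z) : Inter3 M (Y * Z) := by
  refine ⟨fun i => ?_, fun i => ?_, fun i => ?_⟩
  · rw [mul_assoc, hZ.E, ← mul_assoc, hY.E, mul_assoc]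
  · rw [mul_assoc, hZ.F, ← mul_assoc, hY.F, mul_assoc]
  · rw [mul_assoc, hZ.K, ← mul_assoc, hY.K, mul_assoc]

theorem inter_of {M : UqModule Φ m} {A : Matrix (Fin m × Fin m) (Fin m × Fin m) FF}
    (hE : ∀ i, A * M.E2 i = M.E2 i * A) (hF : ∀ i, A * M.F2 i = M.F2 i * A)
    (hK : ∀ i, A * M.K2 i = M.K2 i * A) : Inter M A := by
  refine ⟨hE, hF, hK, fun i => ?_⟩
  refine (comm_inv (A := M.K2 i) ?_ (hK i).symm).symm
  rw [UqModule.K2, ← Matrix.mul_kronecker_mul, M.KK', Matrix.one_kronecker_one]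

variable {Λ : Finset X.Weight}

theorem inter_C (S : Model Φ Λ) : Inter S.M S.C := inter_of S.C_E S.C_F S.C_K

theorem inter_C' (S : Model Φ Λ) : Inter S.M S.C' :=
  inter_of (fun i => comm_inv S.CC' (S.C_E i)) (fun i => comm_inv S.CC' (S.C_F i))
    (fun i => comm_inv S.CC' (S.C_K i))

theorem inter_loc (S : Model Φ Λ) (b : Bool) (j : Fin 2) :
    Inter3 S.M (re S.m (loc (n := 2) (if b then S.C else S.C') j)) := by
  have h : Inter S.M (if b then S.C else S.C') := by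
    cases b
    · exact inter_C' S
    · exact inter_C S
  fin_cases j
  · exact h.loc0
  · exact h.loc1

theorem inter_braid (S : Model Φ Λ) (w : BraidWord 2) :
    Inter3 S.M (re S.m (braidOp S.C S.C' w)) := by
  induction w with
  | nil =>
    rw [braidOp, map_one]
    exact Inter3.one _
  | cons l w ih =>
    rw [braidOp, map_mul]
    exact ih.mul (inter_loc S l.2 l.1)

theorem pT_eq (S : Model Φ Λ) (w : BraidWord 2) :
    pT S w = ptr ((1 ⊗ₖ (S.h ⊗ₖ S.h)) * re S.m (braidOp S.C S.C' w)) := by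
  ext a b
  simp only [pT, ptr, Matrix.of_apply, Matrix.mul_apply, re, Matrix.coe_reindexAlgEquiv,
    Matrix.reindex_apply, Matrix.submatrix_apply, Matrix.kroneckerMap_apply, e3,
    Equiv.coe_fn_symm_mk]
  rw [← (finTwoArrowEquiv (Fin S.m)).sum_comp]
  refine Finset.sum_congr rfl fun s _ => ?_
  rw [Fintype.sum_prod_type, Finset.sum_eq_single a]
  · rw [← (finTwoArrowEquiv (Fin S.m)).sum_comp]
    refine Finset.sum_congr rfl fun s' _ => ?_
    have h1 : (Fin.cons a s' : Fin 3 → Fin S.m) = ![a, s' 0, s' 1] := by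
      funext j
      fin_cases j <;> rfl
    have h2 : (Fin.cons b s : Fin 3 → Fin S.m) = ![b, s 0, s 1] := by
      funext j
      fin_cases j <;> rfl
    rw [h1, h2]
    simp only [finTwoArrowEquiv_apply, Matrix.one_apply_eq, one_mul]
    rfl
  · intro c _ hc
    refine Finset.sum_eq_zero fun s' _ => ?_
    rw [Matrix.one_apply_ne (Ne.symm hc), zero_mul, zero_mul]
  · intro h
    exact absurd (Finset.mem_univ _) h

/-- the diagonal entries of the Cartan matrix -/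
theorem a_diag (X : Dynkin) (i : Fin X.rank) : X.a i i = 2 := by
  unfold Dynkin.a
  rw [Matrix.transpose_apply]
  cases X with
  | A n => exact congrFun (CartanMatrix.A_diag (n + 1)) i
  | B n => exact CartanMatrix.B_diag (n + 2) i
  | C n => exact CartanMatrix.C_diag (n + 3) i
  | D n => exact CartanMatrix.D_diag (n + 4) i
  | E6 => exact CartanMatrix.E₆_diag i
  | E7 => exact CartanMatrix.E₇_diag i
  | E8 => exact CartanMatrix.E₈_diag i
  | F4 => exact CartanMatrix.F₄_diag i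
  | G2 => exact CartanMatrix.G₂_diag i

theorem KE_diag (M : UqModule Φ m) (i : Fin X.rank) : M.K i * M.E i = vv Φ i ^ 2 • (M.E i * M.K i) := by
  have := M.KE i i
  rw [a_diag] at this
  rw [this]
  norm_cast

theorem KF_diag (M : UqModule Φ m) (i : Fin X.rank) :
    M.K i * M.F i = (vv Φ i ^ 2)⁻¹ • (M.F i * M.K i) := by
  have := M.KF i i
  rw [a_diag] at this
  rw [this, _root_.zpow_neg]
  norm_cast

end Three

end A4

variable {X : Dynkin} {Φ : WeightForm X} {Λ : Finset X.Weight}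

theorem vv_ne_zero (i : Fin X.rank) : vv Φ i ≠ 0 := by
  unfold vv
  exact zpow_ne_zero _ RatFunc.X_ne_zero

open A4 in
theorem pT_comm (S : Model Φ Λ) (w : BraidWord 2) :
    (∀ i, pT S w * S.M.E i = S.M.E i * pT S w) ∧
    (∀ i, pT S w * S.M.F i = S.M.F i * pT S w) ∧
    (∀ i, pT S w * S.M.K i = S.M.K i * pT S w) := by
  have hY := inter_braid S w
  have hv : ∀ i, vv Φ i ^ 2 ≠ 0 := fun i => pow_ne_zero _ (vv_ne_zero i)
  have hK' : ∀ i, S.M.K i * S.M.K' i = 1 := S.M.KK'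
  have hhK : ∀ i, S.h * S.M.K i = S.M.K i * S.h := h_K S
  have hhK' : ∀ i, S.h * S.M.K' i = S.M.K' i * S.h := fun i =>
    (comm_inv (hK' i) (hhK i).symm).symm
  have hL : ∀ i, S.M.K2 i * (S.M.K' i ⊗ₖ S.M.K' i) = 1 := fun i => by
    rw [UqModule.K2, ← Matrix.mul_kronecker_mul, hK', Matrix.one_kronecker_one]
  have hg : ∀ i, (S.h ⊗ₖ S.h) * S.M.K2 i = S.M.K2 i * (S.h ⊗ₖ S.h) := fun i => by
    rw [UqModule.K2, ← Matrix.mul_kronecker_mul, ← Matrix.mul_kronecker_mul, hhK]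
  rw [pT_eq]
  refine ⟨fun i => ?_, fun i => ?_, fun i => ?_⟩
  · refine ptr_E (hK' i) (hL i) (hg i) (c := vv Φ i ^ 2) ?_ ?_ (hY.K i) (hY.E i)
    · rw [UqModule.E2, mul_add, add_mul, ← Matrix.mul_kronecker_mul, ← Matrix.mul_kronecker_mul,
        ← Matrix.mul_kronecker_mul, ← Matrix.mul_kronecker_mul, h_E, hhK', Matrix.mul_one,
        Matrix.one_mul, smul_add, Matrix.smul_kronecker, Matrix.kronecker_smul]
    · rw [UqModule.E2, UqModule.K2, mul_add, add_mul, ← Matrix.mul_kronecker_mul,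
        ← Matrix.mul_kronecker_mul, ← Matrix.mul_kronecker_mul, ← Matrix.mul_kronecker_mul,
        KE_diag, Matrix.mul_one, Matrix.one_mul, smul_add, Matrix.smul_kronecker,
        Matrix.kronecker_smul, hK', mul_eq_one_comm.mp (hK' i)]
  · have hFh : S.M.F i * S.h = vv Φ i ^ 2 • (S.h * S.M.F i) := by
      rw [h_F, smul_smul, mul_inv_cancel₀ (hv i), one_smul]
    have hFK : S.M.F i * S.M.K i = vv Φ i ^ 2 • (S.M.K i * S.M.F i) := by
      rw [KF_diag, smul_smul, mul_inv_cancel₀ (hv i), one_smul]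
    refine ptr_F (hL i) (hg i) (c := vv Φ i ^ 2) ?_ ?_ (hY.F i)
    · rw [UqModule.F2, mul_add, add_mul, ← Matrix.mul_kronecker_mul, ← Matrix.mul_kronecker_mul,
        ← Matrix.mul_kronecker_mul, ← Matrix.mul_kronecker_mul, hFh, hhK, Matrix.mul_one,
        Matrix.one_mul, smul_add, Matrix.smul_kronecker, Matrix.kronecker_smul]
    · rw [UqModule.F2, UqModule.K2, mul_add, add_mul, ← Matrix.mul_kronecker_mul,
        ← Matrix.mul_kronecker_mul, ← Matrix.mul_kronecker_mul, ← Matrix.mul_kronecker_mul,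
        hFK, Matrix.mul_one, Matrix.one_mul, smul_add, Matrix.smul_kronecker,
        Matrix.kronecker_smul]
  · exact ptr_K (hL i) (hg i) (hY.K i)

end Pool.Agent.QInv75
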