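import Pool.Agent.QInv75.Words

/-!
# The adjoint of the partial trace
-/

set_option autoImplicit false

open Matrix
open scoped Kronecker

namespace Pool.Agent.QInv75

namespace A5

section ptr
variable {R α β : Type*} [CommRing R] [Fintype α] [Fintype β] [DecidableEq α] [DecidableEq β]

/-- partial trace over the second factor -/
def ptr (Z : Matrix (α × β) (α × β) R) : Matrix α α R :=
  Matrix.of fun a b => ∑ s, Z (a, s) (b, s)

theorem ptr_cyc (Z : Matrix (α × β) (α × β) R) (B : Matrix β β R) :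
    ptr (Z * ((1 : Matrix α α R) ⊗ₖ B)) = ptr (((1 : Matrix α α R) ⊗ₖ B) * Z) := by
  ext a b
  simp only [ptr, of_apply, mul_apply, Fintype.sum_prod_type, kroneckerMap_apply, one_apply,
    ite_mul, one_mul, zero_mul, mul_ite, mul_zero]
  simp only [Finset.sum_ite_irrel, Finset.sum_const_zero, Finset.sum_ite_eq, Finset.sum_ite_eq',
    Finset.mem_univ, if_true]
  rw [Finset.sum_comm]
  refine Finset.sum_congr rfl fun s _ => Finset.sum_congr rfl fun t _ => ?_
  ring

theorem ptr_left (A : Matrix α α R) (Z : Matrix (α × β) (α × β) R) :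
    ptr ((A ⊗ₖ (1 : Matrix β β R)) * Z) = A * ptr Z := by
  ext a b
  simp only [ptr, of_apply, mul_apply, Fintype.sum_prod_type, kroneckerMap_apply, one_apply,
    mul_ite, mul_one, mul_zero, ite_mul, zero_mul, Finset.sum_ite_eq, Finset.mem_univ, if_true]
  rw [Finset.sum_comm]
  refine Finset.sum_congr rfl fun s _ => ?_
  rw [Finset.mul_sum]

theorem ptr_right (A : Matrix α α R) (Z : Matrix (α × β) (α × β) R) :
    ptr (Z * (A ⊗ₖ (1 : Matrix β β R))) = ptr Z * A := by
  ext a b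
  simp only [ptr, of_apply, mul_apply, Fintype.sum_prod_type, kroneckerMap_apply, one_apply,
    mul_ite, mul_one, mul_zero, Finset.sum_ite_eq', Finset.mem_univ, if_true]
  rw [Finset.sum_comm]
  refine Finset.sum_congr rfl fun s _ => ?_
  rw [Finset.sum_mul]

theorem ptr_transpose (Z : Matrix (α × β) (α × β) R) : ptr Zᵀ = (ptr Z)ᵀ := by
  ext a b
  simp [ptr]

/-- the general form of the statement -/
theorem ptr_adj {G : Matrix α α R} {G₂ H₂ : Matrix β β R} {Y Y' : Matrix (α × β) (α × β) R}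
    (hG₂ : IsUnit G₂) (hH : H₂ᵀ * G₂ = G₂ * H₂) (hY : Yᵀ * (G ⊗ₖ G₂) = (G ⊗ₖ G₂) * Y') :
    (ptr (((1 : Matrix α α R) ⊗ₖ H₂) * Y))ᵀ * G = G * ptr (((1 : Matrix α α R) ⊗ₖ H₂) * Y') := by
  obtain ⟨J, hJ⟩ := hG₂.exists_left_inv
  have hJ' : G₂ * J = 1 := mul_eq_one_comm.mp hJ
  have hH' : J * H₂ᵀ * G₂ = H₂ := by rw [mul_assoc, hH, ← mul_assoc, hJ, one_mul]
  have e1 : G ⊗ₖ (1 : Matrix β β R) = (G ⊗ₖ G₂) * ((1 : Matrix α α R) ⊗ₖ J) := by
    rw [← mul_kronecker_mul, mul_one, hJ']
  calc (ptr (((1 : Matrix α α R) ⊗ₖ H₂) * Y))ᵀ * G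
      = ptr (Yᵀ * ((1 : Matrix α α R) ⊗ₖ H₂ᵀ)) * G := by
        rw [← ptr_transpose, transpose_mul, ← kroneckerMap_transpose, transpose_one]
    _ = ptr (Yᵀ * ((1 : Matrix α α R) ⊗ₖ H₂ᵀ) * (G ⊗ₖ (1 : Matrix β β R))) := by rw [ptr_right]
    _ = ptr (Yᵀ * (G ⊗ₖ G₂) * ((1 : Matrix α α R) ⊗ₖ (J * H₂ᵀ))) := by
        congr 1
        rw [mul_assoc, mul_assoc, ← mul_kronecker_mul, ← mul_kronecker_mul, one_mul, mul_one,
          mul_one, ← mul_assoc, hJ', one_mul]
    _ = ptr ((G ⊗ₖ (1 : Matrix β β R)) * (((1 : Matrix α α R) ⊗ₖ G₂) * Y' *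
          ((1 : Matrix α α R) ⊗ₖ (J * H₂ᵀ)))) := by
        rw [hY]
        congr 1
        rw [← mul_assoc, ← mul_assoc, ← mul_kronecker_mul, mul_one, one_mul]
    _ = G * ptr (((1 : Matrix α α R) ⊗ₖ H₂) * Y') := by
        rw [ptr_left, ptr_cyc, ← mul_assoc, ← mul_kronecker_mul, one_mul, hH']

end ptr

section braid
variable {m n : ℕ}

theorem braidOp_append (C C' : Matrix (Fin m × Fin m) (Fin m × Fin m) FF) (u v : BraidWord n) :
    braidOp C C' (u ++ v) = braidOp C C' v * braidOp C C' u := by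
  induction u with
  | nil => simp [braidOp]
  | cons l u ih => rw [List.cons_append, braidOp, braidOp, ih, mul_assoc]

theorem sum3 {M : Type*} [AddCommMonoid M] (f : (Fin 3 → Fin m) → M) :
    ∑ c, f c = ∑ x, ∑ y, ∑ z, f ![x, y, z] := by
  rw [← (Fin.consEquiv fun _ : Fin 3 => Fin m).sum_comp f, Fintype.sum_prod_type]
  refine Finset.sum_congr rfl fun x _ => ?_
  rw [← (Fin.consEquiv fun _ : Fin 2 => Fin m).sum_comp, Fintype.sum_prod_type]
  refine Finset.sum_congr rfl fun y _ => ?_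
  rw [← (Fin.consEquiv fun _ : Fin 1 => Fin m).sum_comp, Fintype.sum_prod_type]
  refine Finset.sum_congr rfl fun z _ => ?_
  rw [Fintype.sum_unique]
  congr 1

theorem loc_zero (A : Matrix (Fin m × Fin m) (Fin m × Fin m) FF) (c a : Fin 3 → Fin m) :
    loc A (0 : Fin 2) c a = if c 2 = a 2 then A (c 0, c 1) (a 0, a 1) else (0 : FF) := by
  unfold loc
  rw [of_apply]
  by_cases h : c 2 = a 2
  · rw [if_pos h, if_pos]
    · rfl
    · intro j h0 h1
      fin_cases j
      · exact absurd rfl h0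
      · exact absurd rfl h1
      · exact h
  · rw [if_neg h, if_neg]
    intro H
    exact h (H 2 (by decide) (by decide))

theorem loc_one (A : Matrix (Fin m × Fin m) (Fin m × Fin m) FF) (c a : Fin 3 → Fin m) :
    loc A (1 : Fin 2) c a = if c 0 = a 0 then A (c 1, c 2) (a 1, a 2) else (0 : FF) := by
  unfold loc
  rw [of_apply]
  by_cases h : c 0 = a 0
  · rw [if_pos h, if_pos]
    · rfl
    · intro j h0 h1
      fin_cases j
      · exact h
      · exact absurd rfl h0
      · exact absurd rfl h1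
  · rw [if_neg h, if_neg]
    intro H
    exact h (H 0 (by decide) (by decide))

theorem loc_zero_eq (A : Matrix (Fin m × Fin m) (Fin m × Fin m) FF) (c a : Fin 3 → Fin m)
    (h : c 2 = a 2) : loc A (0 : Fin 2) c a = A (c 0, c 1) (a 0, a 1) := by
  rw [loc_zero, if_pos h]

theorem loc_zero_ne (A : Matrix (Fin m × Fin m) (Fin m × Fin m) FF) (c a : Fin 3 → Fin m)
    (h : c 2 ≠ a 2) : loc A (0 : Fin 2) c a = 0 := by
  rw [loc_zero, if_neg h]

theorem loc_one_eq (A : Matrix (Fin m × Fin m) (Fin m × Fin m) FF) (c a : Fin 3 → Fin m)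
    (h : c 0 = a 0) : loc A (1 : Fin 2) c a = A (c 1, c 2) (a 1, a 2) := by
  rw [loc_one, if_pos h]

theorem loc_one_ne (A : Matrix (Fin m × Fin m) (Fin m × Fin m) FF) (c a : Fin 3 → Fin m)
    (h : c 0 ≠ a 0) : loc A (1 : Fin 2) c a = 0 := by
  rw [loc_one, if_neg h]

theorem tensPow3 (G : Matrix (Fin m) (Fin m) FF) (a b : Fin 3 → Fin m) :
    tensPow (fun _ : Fin 3 => G) a b = G (a 0) (b 0) * G (a 1) (b 1) * G (a 2) (b 2) := by
  unfold tensPow
  rw [of_apply]
  exact Fin.prod_univ_three (f := fun j => G (a j) (b j))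

theorem loc_adj {A : Matrix (Fin m × Fin m) (Fin m × Fin m) FF} {G : Matrix (Fin m) (Fin m) FF}
    (hA : Aᵀ * (G ⊗ₖ G) = (G ⊗ₖ G) * A) (i : Fin 2) :
    (loc A i)ᵀ * tensPow (fun _ : Fin 3 => G) = tensPow (fun _ : Fin 3 => G) * loc A i := by
  have key : ∀ p q r s : Fin m, ∑ x, ∑ y, A (x, y) (p, q) * (G x r * G y s) =
      ∑ x, ∑ y, G p x * G q y * A (x, y) (r, s) := by
    intro p q r s
    have := congrFun (congrFun hA (p, q)) (r, s)
    simpa [mul_apply, Fintype.sum_prod_type, kroneckerMap_apply] using this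
  ext a b
  rw [mul_apply, mul_apply]
  simp only [transpose_apply, tensPow3]
  rw [sum3 (f := fun c => loc A i c a * (G (c 0) (b 0) * G (c 1) (b 1) * G (c 2) (b 2))),
    sum3 (f := fun c => G (a 0) (c 0) * G (a 1) (c 1) * G (a 2) (c 2) * loc A i c b)]
  fin_cases i
  · have k := congrArg (fun t => t * G (a 2) (b 2)) (key (a 0) (a 1) (b 0) (b 1))
    simp only [Finset.sum_mul] at k
    convert k using 1
    · refine Finset.sum_congr rfl fun x _ => Finset.sum_congr rfl fun y _ => ?_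
      rw [Finset.sum_eq_single (a 2)]
      · change loc A (0 : Fin 2) ![x, y, a 2] a * (G x (b 0) * G y (b 1) * G (a 2) (b 2)) = _
        rw [loc_zero_eq A ![x, y, a 2] a rfl]
        change A (x, y) (a 0, a 1) * _ = _
        ring
      · intro z _ hz
        change loc A (0 : Fin 2) ![x, y, z] a * _ = _
        rw [loc_zero_ne _ _ _ hz, zero_mul]
      · intro h; exact absurd (Finset.mem_univ _) h
    · refine Finset.sum_congr rfl fun x _ => Finset.sum_congr rfl fun y _ => ?_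
      rw [Finset.sum_eq_single (b 2)]
      · change G (a 0) x * G (a 1) y * G (a 2) (b 2) * loc A (0 : Fin 2) ![x, y, b 2] b = _
        rw [loc_zero_eq A ![x, y, b 2] b rfl]
        change _ * A (x, y) (b 0, b 1) = _
        ring
      · intro z _ hz
        change _ * loc A (0 : Fin 2) ![x, y, z] b = _
        rw [loc_zero_ne _ _ _ hz, mul_zero]
      · intro h; exact absurd (Finset.mem_univ _) h
  · have k := congrArg (fun t => G (a 0) (b 0) * t) (key (a 1) (a 2) (b 1) (b 2))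
    simp only [Finset.mul_sum] at k
    convert k using 1
    · rw [Finset.sum_eq_single (a 0)]
      · refine Finset.sum_congr rfl fun x _ => Finset.sum_congr rfl fun y _ => ?_
        change loc A (1 : Fin 2) ![a 0, x, y] a * (G (a 0) (b 0) * G x (b 1) * G y (b 2)) = _
        rw [loc_one_eq A ![a 0, x, y] a rfl]
        change A (x, y) (a 1, a 2) * _ = _
        ring
      · intro z _ hz
        refine Finset.sum_eq_zero fun x _ => Finset.sum_eq_zero fun y _ => ?_
        change loc A (1 : Fin 2) ![z, x, y] a * _ = _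
        rw [loc_one_ne _ _ _ hz, zero_mul]
      · intro h; exact absurd (Finset.mem_univ _) h
    · rw [Finset.sum_eq_single (b 0)]
      · refine Finset.sum_congr rfl fun x _ => Finset.sum_congr rfl fun y _ => ?_
        change G (a 0) (b 0) * G (a 1) x * G (a 2) y * loc A (1 : Fin 2) ![b 0, x, y] b = _
        rw [loc_one_eq A ![b 0, x, y] b rfl]
        change _ * A (x, y) (b 1, b 2) = _
        ring
      · intro z _ hz
        refine Finset.sum_eq_zero fun x _ => Finset.sum_eq_zero fun y _ => ?_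
        change _ * loc A (1 : Fin 2) ![z, x, y] b = _
        rw [loc_one_ne _ _ _ hz, mul_zero]
      · intro h; exact absurd (Finset.mem_univ _) h

theorem braidOp_adj {C C' : Matrix (Fin m × Fin m) (Fin m × Fin m) FF}
    {G : Matrix (Fin m) (Fin m) FF} (hC : Cᵀ * (G ⊗ₖ G) = (G ⊗ₖ G) * C)
    (hC' : C'ᵀ * (G ⊗ₖ G) = (G ⊗ₖ G) * C') (w : BraidWord 2) :
    (braidOp C C' w)ᵀ * tensPow (fun _ : Fin 3 => G) =
      tensPow (fun _ : Fin 3 => G) * braidOp C C' w.reverse := by
  induction w with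
  | nil => simp [braidOp]
  | cons l w ih =>
    have hl : (loc (if l.2 then C else C') l.1)ᵀ * tensPow (fun _ : Fin 3 => G) =
        tensPow (fun _ : Fin 3 => G) * loc (if l.2 then C else C') l.1 := by
      split_ifs
      · exact loc_adj hC _
      · exact loc_adj hC' _
    rw [List.reverse_cons, braidOp_append, braidOp, transpose_mul, mul_assoc, ih, ← mul_assoc, hl,
      mul_assoc]
    simp [braidOp]

/-- splitting off the first tensor factor -/
def e3 (m : ℕ) : Fin m × (Fin 2 → Fin m) ≃ (Fin 3 → Fin m) := Fin.consEquiv fun _ : Fin 3 => Fin m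

theorem tensPow_sub (G : Matrix (Fin m) (Fin m) FF) :
    (tensPow (fun _ : Fin 3 => G)).submatrix (e3 m) (e3 m) =
      G ⊗ₖ tensPow (fun _ : Fin 2 => G) := by
  ext ⟨a, s⟩ ⟨b, t⟩
  simp only [tensPow, e3, submatrix_apply, of_apply, kroneckerMap_apply]
  rw [Fin.prod_univ_succ]
  rfl

theorem tensPow_mul (A B : Matrix (Fin m) (Fin m) FF) :
    tensPow (fun _ : Fin 2 => A) * tensPow (fun _ : Fin 2 => B) =
      tensPow (fun _ : Fin 2 => A * B) := by
  ext a b
  simp only [tensPow, of_apply, mul_apply]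
  rw [Finset.prod_univ_sum]
  rw [Fintype.piFinset_univ]
  refine Finset.sum_congr rfl fun c _ => ?_
  rw [Finset.prod_mul_distrib]

theorem tensPow_one : tensPow (fun _ : Fin 2 => (1 : Matrix (Fin m) (Fin m) FF)) = 1 := by
  ext a b
  simp only [tensPow, of_apply, one_apply]
  rw [Fin.prod_univ_two (f := fun i => if a i = b i then (1 : FF) else 0)]
  by_cases h : a = b
  · simp [h]
  · rw [if_neg h]
    have : ¬ (a 0 = b 0 ∧ a 1 = b 1) := by
      rintro ⟨h0, h1⟩
      exact h (funext fun i => by fin_cases i <;> assumption)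
    by_cases h0 : a 0 = b 0
    · have h1 : a 1 ≠ b 1 := fun h1 => this ⟨h0, h1⟩
      simp [h1]
    · simp [h0]

theorem tensPow_transpose (A : Matrix (Fin m) (Fin m) FF) :
    (tensPow (fun _ : Fin 2 => A))ᵀ = tensPow (fun _ : Fin 2 => Aᵀ) := by
  ext a b
  simp [tensPow]

end braid

end A5

open A5

variable {X : Dynkin} {Φ : WeightForm X} {Λ : Finset X.Weight}

theorem pT_adj (S : Model Φ Λ) {G : Matrix (Fin S.m) (Fin S.m) FF} (hG : IsUnit G)
    (hh : (S.h)ᵀ * G = G * S.h) (hC : (S.C)ᵀ * (G ⊗ₖ G) = (G ⊗ₖ G) * S.C)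
    (hC' : (S.C')ᵀ * (G ⊗ₖ G) = (G ⊗ₖ G) * S.C') (w : BraidWord 2) :
    (pT S w)ᵀ * G = G * pT S w.reverse := by
  have hpT : ∀ w : BraidWord 2, pT S w =
      ptr (((1 : Matrix (Fin S.m) (Fin S.m) FF) ⊗ₖ tensPow (fun _ : Fin 2 => S.h)) *
        (braidOp S.C S.C' w).submatrix (e3 S.m) (e3 S.m)) := by
    intro w
    ext a b
    simp only [pT, ptr, of_apply, mul_apply, Fintype.sum_prod_type, kroneckerMap_apply, one_apply,
      ite_mul, one_mul, zero_mul, Finset.sum_ite_irrel, Finset.sum_const_zero, Finset.sum_ite_eq,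
      Finset.mem_univ, if_true, submatrix_apply, tensPow]
    refine Finset.sum_congr rfl fun s _ => Finset.sum_congr rfl fun t _ => ?_
    rw [Fin.prod_univ_two (f := fun i => S.h (s i) (t i))]
    rfl
  rw [hpT, hpT]
  refine ptr_adj (G₂ := tensPow (fun _ : Fin 2 => G)) ?_ ?_ ?_
  · obtain ⟨J, hJ⟩ := hG.exists_left_inv
    refine IsUnit.of_mul_eq_one_right (tensPow (fun _ : Fin 2 => J)) ?_
    rw [tensPow_mul, hJ, tensPow_one]
  · rw [tensPow_transpose, tensPow_mul, tensPow_mul, hh]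
  · rw [← tensPow_sub, transpose_submatrix, submatrix_mul_equiv, submatrix_mul_equiv,
      braidOp_adj hC hC' w]

end Pool.Agent.QInv75
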