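import Pool.Agent.QInv75.Words

/-!
# Package A6: the composite braid only sees the partial trace (pure linear algebra)
-/

set_option autoImplicit false

open Matrix
open scoped Kronecker

namespace Pool.Agent.QInv75

namespace A6

variable {n m : ℕ}

/-! ### the permutation of a braid -/

theorem run_append {H : Type*} [Group H] (u v : BraidWord n) (x : Fin (n + 1) → H) :
    run (u ++ v) x = v.foldl BState.step (run u x) := by
  simp [run, List.foldl_append]

theorem foldl_pos_inj {H : Type*} [Group H] (w : BraidWord n) (s : BState n H)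
    (hs : Function.Injective s.pos) : Function.Injective (w.foldl BState.step s).pos := by
  induction w generalizing s with
  | nil => simpa using hs
  | cons l w ih =>
    rw [List.foldl_cons]
    apply ih
    unfold BState.step
    split
    · exact (Equiv.injective _).comp hs
    · exact (Equiv.injective _).comp hs

theorem perm_inj (w : BraidWord n) : Function.Injective (perm w) :=
  foldl_pos_inj w _ Function.injective_id

theorem exists_iterate_zero (w : BraidWord n) (hw : IsKnot w) (s : Fin (n + 1)) :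
    ∃ k : ℕ, (perm w)^[k] s = 0 := by
  obtain ⟨k, hk⟩ := hw s
  have hb : Function.Bijective (perm w) := Finite.injective_iff_bijective.1 (perm_inj w)
  let e : Equiv.Perm (Fin (n + 1)) := Equiv.ofBijective _ hb
  have he : ∀ (j : ℕ) (x : Fin (n + 1)), (perm w)^[j] x = (e ^ j) x := by
    intro j x
    rw [Equiv.Perm.coe_pow]
    rfl
  have hpos : 0 < orderOf e := orderOf_pos e
  refine ⟨orderOf e * k - k, ?_⟩
  rw [← hk, he, he, ← Equiv.Perm.mul_apply, ← pow_add]
  have hle : k ≤ orderOf e * k := Nat.le_mul_of_pos_left k hpos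
  rw [Nat.sub_add_cancel hle, pow_mul, pow_orderOf_eq_one]
  simp

theorem isMin_iff (w : BraidWord n) (hw : IsKnot w) (s : Fin (n + 1)) :
    (∀ k : ℕ, s ≤ (perm w)^[k] s) ↔ s = 0 := by
  constructor
  · intro h
    obtain ⟨k, hk⟩ := exists_iterate_zero w hw s
    have := h k
    rw [hk] at this
    exact Fin.le_zero_iff.1 this
  · rintro rfl k
    exact Fin.zero_le _

/-! ### braid operators -/

theorem braidOp_append (C C' : Matrix (Fin m × Fin m) (Fin m × Fin m) FF) (u v : BraidWord n) :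
    braidOp C C' (u ++ v) = braidOp C C' v * braidOp C C' u := by
  induction u with
  | nil => simp [braidOp]
  | cons l u ih =>
    rw [List.cons_append, braidOp, braidOp, ih, Matrix.mul_assoc]

/-- `1 ⊗ 1 ⊗ A` -/
noncomputable def emb2 (A : Matrix (Fin 3 → Fin m) (Fin 3 → Fin m) FF) :
    Matrix (Fin 5 → Fin m) (Fin 5 → Fin m) FF :=
  ((1 : Matrix (Fin 2 → Fin m) (Fin 2 → Fin m) FF) ⊗ₖ A).submatrix
    (Fin.appendEquiv 2 3).symm (Fin.appendEquiv 2 3).symm

/-- `A ⊗ 1 ⊗ 1` -/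
noncomputable def emb0 (A : Matrix (Fin 3 → Fin m) (Fin 3 → Fin m) FF) :
    Matrix (Fin 5 → Fin m) (Fin 5 → Fin m) FF :=
  (A ⊗ₖ (1 : Matrix (Fin 2 → Fin m) (Fin 2 → Fin m) FF)).submatrix
    (Fin.appendEquiv 3 2).symm (Fin.appendEquiv 3 2).symm

theorem emb2_mul (A B : Matrix (Fin 3 → Fin m) (Fin 3 → Fin m) FF) :
    emb2 (A * B) = emb2 A * emb2 B := by
  unfold emb2
  rw [Matrix.submatrix_mul_equiv, ← Matrix.mul_kronecker_mul, Matrix.one_mul]

theorem emb0_mul (A B : Matrix (Fin 3 → Fin m) (Fin 3 → Fin m) FF) :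
    emb0 (A * B) = emb0 A * emb0 B := by
  unfold emb0
  rw [Matrix.submatrix_mul_equiv, ← Matrix.mul_kronecker_mul, Matrix.one_mul]

theorem emb2_one : emb2 (1 : Matrix (Fin 3 → Fin m) (Fin 3 → Fin m) FF) = 1 := by
  unfold emb2
  rw [Matrix.one_kronecker_one, Matrix.submatrix_one_equiv]

theorem emb0_one : emb0 (1 : Matrix (Fin 3 → Fin m) (Fin 3 → Fin m) FF) = 1 := by
  unfold emb0
  rw [Matrix.one_kronecker_one, Matrix.submatrix_one_equiv]

theorem emb2_apply (A : Matrix (Fin 3 → Fin m) (Fin 3 → Fin m) FF) (a b : Fin 5 → Fin m) :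
    emb2 A a b = if a 0 = b 0 ∧ a 1 = b 1 then A ![a 2, a 3, a 4] ![b 2, b 3, b 4] else 0 := by
  unfold emb2
  rw [Matrix.submatrix_apply, Matrix.kronecker_apply, Matrix.one_apply]
  have h1 : ((Fin.appendEquiv 2 3).symm a).2 = ![a 2, a 3, a 4] := by
    funext j; fin_cases j <;> rfl
  have h2 : ((Fin.appendEquiv 2 3).symm b).2 = ![b 2, b 3, b 4] := by
    funext j; fin_cases j <;> rfl
  have h3 : (((Fin.appendEquiv 2 3).symm a).1 = ((Fin.appendEquiv 2 3).symm b).1) ↔
      (a 0 = b 0 ∧ a 1 = b 1) := by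
    constructor
    · intro h
      exact ⟨congrFun h 0, congrFun h 1⟩
    · rintro ⟨h, h'⟩
      funext j; fin_cases j
      · exact h
      · exact h'
  rw [h1, h2]
  simp only [h3, ite_mul, one_mul, zero_mul]

theorem emb0_apply (A : Matrix (Fin 3 → Fin m) (Fin 3 → Fin m) FF) (a b : Fin 5 → Fin m) :
    emb0 A a b = if a 3 = b 3 ∧ a 4 = b 4 then A ![a 0, a 1, a 2] ![b 0, b 1, b 2] else 0 := by
  unfold emb0
  rw [Matrix.submatrix_apply, Matrix.kronecker_apply, Matrix.one_apply]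
  have h1 : ((Fin.appendEquiv 3 2).symm a).1 = ![a 0, a 1, a 2] := by
    funext j; fin_cases j <;> rfl
  have h2 : ((Fin.appendEquiv 3 2).symm b).1 = ![b 0, b 1, b 2] := by
    funext j; fin_cases j <;> rfl
  have h3 : (((Fin.appendEquiv 3 2).symm a).2 = ((Fin.appendEquiv 3 2).symm b).2) ↔
      (a 3 = b 3 ∧ a 4 = b 4) := by
    constructor
    · intro h
      exact ⟨congrFun h 0, congrFun h 1⟩
    · rintro ⟨h, h'⟩
      funext j; fin_cases j
      · exact h
      · exact h'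
  rw [h1, h2]
  simp only [h3, mul_ite, mul_one, mul_zero]

theorem loc3_zero (A : Matrix (Fin m × Fin m) (Fin m × Fin m) FF) (a b : Fin 3 → Fin m) :
    loc A (0 : Fin 2) a b = if a 2 = b 2 then A (a 0, a 1) (b 0, b 1) else 0 := by
  have h : (∀ j : Fin 3, j ≠ (0 : Fin 2).castSucc → j ≠ (0 : Fin 2).succ → a j = b j) ↔
      a 2 = b 2 := by
    constructor
    · intro h
      exact h 2 (by decide) (by decide)
    · intro h j h1 h2
      fin_cases j
      · exact absurd rfl h1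
      · exact absurd rfl h2
      · exact h
  simp only [loc, Matrix.of_apply, h]
  rfl

theorem loc3_one (A : Matrix (Fin m × Fin m) (Fin m × Fin m) FF) (a b : Fin 3 → Fin m) :
    loc A (1 : Fin 2) a b = if a 0 = b 0 then A (a 1, a 2) (b 1, b 2) else 0 := by
  have h : (∀ j : Fin 3, j ≠ (1 : Fin 2).castSucc → j ≠ (1 : Fin 2).succ → a j = b j) ↔
      a 0 = b 0 := by
    constructor
    · intro h
      exact h 0 (by decide) (by decide)
    · intro h j h1 h2
      fin_cases j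
      · exact h
      · exact absurd rfl h1
      · exact absurd rfl h2
  simp only [loc, Matrix.of_apply, h]
  rfl

theorem loc5_zero (A : Matrix (Fin m × Fin m) (Fin m × Fin m) FF) (a b : Fin 5 → Fin m) :
    loc A (0 : Fin 4) a b = if (a 3 = b 3 ∧ a 4 = b 4) ∧ a 2 = b 2 then
      A (a 0, a 1) (b 0, b 1) else 0 := by
  have h : (∀ j : Fin 5, j ≠ (0 : Fin 4).castSucc → j ≠ (0 : Fin 4).succ → a j = b j) ↔
      (a 3 = b 3 ∧ a 4 = b 4) ∧ a 2 = b 2 := by
    constructor
    · intro h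
      exact ⟨⟨h 3 (by decide) (by decide), h 4 (by decide) (by decide)⟩,
        h 2 (by decide) (by decide)⟩
    · intro h j h1 h2
      fin_cases j
      · exact absurd rfl h1
      · exact absurd rfl h2
      · exact h.2
      · exact h.1.1
      · exact h.1.2
  simp only [loc, Matrix.of_apply, h]
  rfl

theorem loc5_one (A : Matrix (Fin m × Fin m) (Fin m × Fin m) FF) (a b : Fin 5 → Fin m) :
    loc A (1 : Fin 4) a b = if (a 3 = b 3 ∧ a 4 = b 4) ∧ a 0 = b 0 then
      A (a 1, a 2) (b 1, b 2) else 0 := by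
  have h : (∀ j : Fin 5, j ≠ (1 : Fin 4).castSucc → j ≠ (1 : Fin 4).succ → a j = b j) ↔
      (a 3 = b 3 ∧ a 4 = b 4) ∧ a 0 = b 0 := by
    constructor
    · intro h
      exact ⟨⟨h 3 (by decide) (by decide), h 4 (by decide) (by decide)⟩,
        h 0 (by decide) (by decide)⟩
    · intro h j h1 h2
      fin_cases j
      · exact h.2
      · exact absurd rfl h1
      · exact absurd rfl h2
      · exact h.1.1
      · exact h.1.2
  simp only [loc, Matrix.of_apply, h]
  rfl

theorem loc5_two (A : Matrix (Fin m × Fin m) (Fin m × Fin m) FF) (a b : Fin 5 → Fin m) :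
    loc A (2 : Fin 4) a b = if (a 0 = b 0 ∧ a 1 = b 1) ∧ a 4 = b 4 then
      A (a 2, a 3) (b 2, b 3) else 0 := by
  have h : (∀ j : Fin 5, j ≠ (2 : Fin 4).castSucc → j ≠ (2 : Fin 4).succ → a j = b j) ↔
      (a 0 = b 0 ∧ a 1 = b 1) ∧ a 4 = b 4 := by
    constructor
    · intro h
      exact ⟨⟨h 0 (by decide) (by decide), h 1 (by decide) (by decide)⟩,
        h 4 (by decide) (by decide)⟩
    · intro h j h1 h2
      fin_cases j
      · exact h.1.1
      · exact h.1.2
      · exact absurd rfl h1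
      · exact absurd rfl h2
      · exact h.2
  simp only [loc, Matrix.of_apply, h]
  rfl

theorem loc5_three (A : Matrix (Fin m × Fin m) (Fin m × Fin m) FF) (a b : Fin 5 → Fin m) :
    loc A (3 : Fin 4) a b = if (a 0 = b 0 ∧ a 1 = b 1) ∧ a 2 = b 2 then
      A (a 3, a 4) (b 3, b 4) else 0 := by
  have h : (∀ j : Fin 5, j ≠ (3 : Fin 4).castSucc → j ≠ (3 : Fin 4).succ → a j = b j) ↔
      (a 0 = b 0 ∧ a 1 = b 1) ∧ a 2 = b 2 := by
    constructor
    · intro h
      exact ⟨⟨h 0 (by decide) (by decide), h 1 (by decide) (by decide)⟩,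
        h 2 (by decide) (by decide)⟩
    · intro h j h1 h2
      fin_cases j
      · exact h.1.1
      · exact h.1.2
      · exact h.2
      · exact absurd rfl h1
      · exact absurd rfl h2
  simp only [loc, Matrix.of_apply, h]
  rfl

theorem emb2_loc (A : Matrix (Fin m × Fin m) (Fin m × Fin m) FF) (i : Fin 2) :
    emb2 (loc A i) = loc A (Fin.natAdd 2 i) := by
  funext a b
  rw [emb2_apply]
  fin_cases i
  · refine Eq.trans ?_ (loc5_two A a b).symm
    refine Eq.trans (congrArg (fun z => if a 0 = b 0 ∧ a 1 = b 1 then z else 0)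
      (loc3_zero A _ _)) ?_
    exact (ite_and _ _ _ _).symm
  · refine Eq.trans ?_ (loc5_three A a b).symm
    refine Eq.trans (congrArg (fun z => if a 0 = b 0 ∧ a 1 = b 1 then z else 0)
      (loc3_one A _ _)) ?_
    exact (ite_and _ _ _ _).symm

theorem emb0_loc (A : Matrix (Fin m × Fin m) (Fin m × Fin m) FF) (i : Fin 2) :
    emb0 (loc A i) = loc A (Fin.castAdd 2 i) := by
  funext a b
  rw [emb0_apply]
  fin_cases i
  · refine Eq.trans ?_ (loc5_zero A a b).symm
    refine Eq.trans (congrArg (fun z => if a 3 = b 3 ∧ a 4 = b 4 then z else 0)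
      (loc3_zero A _ _)) ?_
    exact (ite_and _ _ _ _).symm
  · refine Eq.trans ?_ (loc5_one A a b).symm
    refine Eq.trans (congrArg (fun z => if a 3 = b 3 ∧ a 4 = b 4 then z else 0)
      (loc3_one A _ _)) ?_
    exact (ite_and _ _ _ _).symm

theorem braidOp_sh2 (C C' : Matrix (Fin m × Fin m) (Fin m × Fin m) FF) (w : BraidWord 2) :
    braidOp C C' (sh2 w) = emb2 (braidOp C C' w) := by
  induction w with
  | nil => exact emb2_one.symm
  | cons l w ih =>
    have h : sh2 (l :: w) = (Fin.natAdd 2 l.1, l.2) :: sh2 w := rfl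
    rw [h, braidOp, ih, braidOp, emb2_mul, emb2_loc]

theorem braidOp_sh0 (C C' : Matrix (Fin m × Fin m) (Fin m × Fin m) FF) (w : BraidWord 2) :
    braidOp C C' (sh0 w) = emb0 (braidOp C C' w) := by
  induction w with
  | nil => exact emb0_one.symm
  | cons l w ih =>
    have h : sh0 (l :: w) = (Fin.castAdd 2 l.1, l.2) :: sh0 w := rfl
    rw [h, braidOp, ih, braidOp, emb0_mul, emb0_loc]

theorem tensPow_mul (A B : Fin (n + 1) → Matrix (Fin m) (Fin m) FF) :
    tensPow A * tensPow B = tensPow fun j => A j * B j := by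
  funext a b
  simp only [Matrix.mul_apply, tensPow, Matrix.of_apply]
  rw [Finset.prod_univ_sum, Fintype.piFinset_univ]
  refine Finset.sum_congr rfl fun c _ => ?_
  rw [Finset.prod_mul_distrib]

theorem sum_append {M : Type*} [AddCommMonoid M] (f : (Fin 5 → Fin m) → M) :
    ∑ a, f a = ∑ a : Fin 3 → Fin m, ∑ s : Fin 2 → Fin m, f (Fin.append a s) := by
  rw [← (Fin.appendEquiv 3 2).sum_comp f, Fintype.sum_prod_type]
  rfl

theorem eta3 (a : Fin 3 → Fin m) : ![a 0, a 1, a 2] = a := by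
  funext j; fin_cases j <;> rfl

theorem cons_eq3 (x : Fin m) (s : Fin 2 → Fin m) :
    (Fin.cons x s : Fin 3 → Fin m) = ![x, s 0, s 1] := by
  funext j; fin_cases j <;> rfl

theorem emb2_append (Y : Matrix (Fin 3 → Fin m) (Fin 3 → Fin m) FF) (b c : Fin 3 → Fin m)
    (s t : Fin 2 → Fin m) :
    emb2 Y (Fin.append b s : Fin 5 → Fin m) (Fin.append c t : Fin 5 → Fin m) =
      if b 0 = c 0 ∧ b 1 = c 1 then
        Y (Fin.cons (b 2) s : Fin 3 → Fin m) (Fin.cons (c 2) t : Fin 3 → Fin m) else 0 := by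
  rw [emb2_apply, cons_eq3, cons_eq3]
  rfl

theorem emb0_append (Z : Matrix (Fin 3 → Fin m) (Fin 3 → Fin m) FF) (b c : Fin 3 → Fin m)
    (s t : Fin 2 → Fin m) :
    emb0 Z (Fin.append b s : Fin 5 → Fin m) (Fin.append c t : Fin 5 → Fin m) =
      if s = t then Z b c else 0 := by
  rw [emb0_apply]
  have h : s = t ↔ (s 0 = t 0 ∧ s 1 = t 1) := by
    constructor
    · rintro rfl
      exact ⟨rfl, rfl⟩
    · rintro ⟨h, h'⟩
      funext j; fin_cases j
      · exact h
      · exact h'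
  have h2 : Z b c = Z ![b 0, b 1, b 2] ![c 0, c 1, c 2] := by rw [eta3, eta3]
  rw [h2]
  simp only [h]
  rfl

theorem tensPow_append (A : Fin 5 → Matrix (Fin m) (Fin m) FF) (b c : Fin 3 → Fin m)
    (s t : Fin 2 → Fin m) :
    tensPow A (Fin.append b s : Fin 5 → Fin m) (Fin.append c t : Fin 5 → Fin m) =
      A 0 (b 0) (c 0) * A 1 (b 1) (c 1) * A 2 (b 2) (c 2) * A 3 (s 0) (t 0) * A 4 (s 1) (t 1) := by
  simp only [tensPow, Matrix.of_apply]
  rw [Fin.prod_univ_five]
  rfl

/-- the trace of `(A ⊗ h ⊗ h ⊗ h ⊗ h) (1 ⊗ 1 ⊗ Y) (X ⊗ 1 ⊗ 1)` sees only the partial trace of `Y` -/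
theorem trace_formula (A : Fin 5 → Matrix (Fin m) (Fin m) FF)
    (Y Z : Matrix (Fin 3 → Fin m) (Fin 3 → Fin m) FF) :
    (tensPow A * (emb2 Y * emb0 Z)).trace =
      ∑ a : Fin 3 → Fin m, ∑ b : Fin 3 → Fin m, ∑ c : Fin 3 → Fin m,
        (if b 0 = c 0 ∧ b 1 = c 1 then A 0 (a 0) (b 0) * A 1 (a 1) (b 1) * A 2 (a 2) (b 2) *
          Z c a * (∑ s : Fin 2 → Fin m, ∑ s' : Fin 2 → Fin m,
            A 3 (s 0) (s' 0) * A 4 (s 1) (s' 1) *
              Y (Fin.cons (b 2) s' : Fin 3 → Fin m) (Fin.cons (c 2) s : Fin 3 → Fin m))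
        else 0) := by
  have h1 : (tensPow A * (emb2 Y * emb0 Z)).trace =
      ∑ a : Fin 3 → Fin m, ∑ s : Fin 2 → Fin m, ∑ b : Fin 3 → Fin m, ∑ s' : Fin 2 → Fin m,
        ∑ c : Fin 3 → Fin m,
        (if b 0 = c 0 ∧ b 1 = c 1 then A 0 (a 0) (b 0) * A 1 (a 1) (b 1) * A 2 (a 2) (b 2) *
          Z c a * (A 3 (s 0) (s' 0) * A 4 (s 1) (s' 1) *
              Y (Fin.cons (b 2) s' : Fin 3 → Fin m) (Fin.cons (c 2) s : Fin 3 → Fin m))
        else 0) := by
    unfold Matrix.trace
    simp only [Matrix.diag_apply, Matrix.mul_apply]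
    rw [sum_append]
    refine Finset.sum_congr rfl fun a _ => Finset.sum_congr rfl fun s _ => ?_
    rw [sum_append]
    refine Finset.sum_congr rfl fun b _ => Finset.sum_congr rfl fun s' _ => ?_
    rw [sum_append, Finset.mul_sum]
    refine Finset.sum_congr rfl fun c _ => ?_
    simp only [emb0_append, mul_ite, mul_zero]
    rw [Finset.sum_ite_eq' Finset.univ s]
    rw [if_pos (Finset.mem_univ _), tensPow_append, emb2_append]
    split_ifs
    · ring
    · ring
  rw [h1]
  refine Finset.sum_congr rfl fun a _ => ?_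
  rw [Finset.sum_comm]
  refine Finset.sum_congr rfl fun b _ => ?_
  have h2 : ∀ s : Fin 2 → Fin m, (∑ s' : Fin 2 → Fin m, ∑ c : Fin 3 → Fin m,
        (if b 0 = c 0 ∧ b 1 = c 1 then A 0 (a 0) (b 0) * A 1 (a 1) (b 1) * A 2 (a 2) (b 2) *
          Z c a * (A 3 (s 0) (s' 0) * A 4 (s 1) (s' 1) *
              Y (Fin.cons (b 2) s' : Fin 3 → Fin m) (Fin.cons (c 2) s : Fin 3 → Fin m))
        else 0)) = ∑ c : Fin 3 → Fin m, ∑ s' : Fin 2 → Fin m,
        (if b 0 = c 0 ∧ b 1 = c 1 then A 0 (a 0) (b 0) * A 1 (a 1) (b 1) * A 2 (a 2) (b 2) *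
          Z c a * (A 3 (s 0) (s' 0) * A 4 (s 1) (s' 1) *
              Y (Fin.cons (b 2) s' : Fin 3 → Fin m) (Fin.cons (c 2) s : Fin 3 → Fin m))
        else 0) := fun s => Finset.sum_comm
  rw [Finset.sum_congr rfl fun s _ => h2 s, Finset.sum_comm]
  refine Finset.sum_congr rfl fun c _ => ?_
  split_ifs with hc
  · rw [Finset.mul_sum]
    refine Finset.sum_congr rfl fun s _ => ?_
    rw [Finset.mul_sum]
  · simp

end A6

open A6 in
theorem sumJ_congr {X : Dynkin} {Φ : WeightForm X} {Λ : Finset X.Weight}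
    (S : Model Φ Λ) (w w₁ w₂ : BraidWord 2) (h : pT S w₁ = pT S w₂)
    (k₁ : IsKnot (sh0 w ++ sh2 w₁)) (k₂ : IsKnot (sh0 w ++ sh2 w₂)) :
    S.sumJ (sh0 w ++ sh2 w₁) = S.sumJ (sh0 w ++ sh2 w₂) := by
  have key : ∀ w₁ : BraidWord 2, IsKnot (sh0 w ++ sh2 w₁) →
      S.sumJ (sh0 w ++ sh2 w₁) =
      ∑ a : Fin 3 → Fin S.m, ∑ b : Fin 3 → Fin S.m, ∑ c : Fin 3 → Fin S.m,
        (if b 0 = c 0 ∧ b 1 = c 1 then (S.omega * S.h) (a 0) (b 0) * S.h (a 1) (b 1) *
          S.h (a 2) (b 2) * braidOp S.C S.C' w c a * pT S w₁ (b 2) (c 2)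
        else 0) := by
    intro w₁ k
    classical
    unfold Model.sumJ
    have h1 : (fun s : Fin 5 => if ∀ k : ℕ, s ≤ (perm (sh0 w ++ sh2 w₁))^[k] s then S.omega
        else 1) = ![S.omega, 1, 1, 1, 1] := by
      funext s
      rw [if_congr (isMin_iff _ k s) rfl rfl]
      fin_cases s <;> simp
    rw [h1, tensPow_mul, braidOp_append, braidOp_sh2, braidOp_sh0, trace_formula]
    simp [pT]
  rw [key _ k₁, key _ k₂, h]

end Pool.Agent.QInv75
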