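import Pool.Agent.QInv75.Words

/-!
# Package B1: homomorphisms from the surgery group
-/

set_option autoImplicit false

namespace Pool.Agent.QInv75

variable {n : ℕ}

namespace B1

/-- the image of a state under a homomorphism -/
def mapState {H H' : Type*} [Group H] [Group H'] (f : H →* H') (s : BState n H) : BState n H' :=
  ⟨fun j => f (s.lab j), s.pos, fun j => f (s.lon j)⟩

theorem step_mapState {H H' : Type*} [Group H] [Group H'] (f : H →* H') (s : BState n H)
    (l : Fin n × Bool) : (mapState f s).step l = mapState f (s.step l) := by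
  obtain ⟨i, b⟩ := l
  cases b
  · simp only [BState.step, mapState, Bool.false_eq_true, if_false]
    congr 1
    · funext j
      split_ifs <;> simp
    · funext j
      split_ifs <;> simp
  · simp only [BState.step, mapState, if_true]
    congr 1
    · funext j
      split_ifs <;> simp
    · funext j
      split_ifs <;> simp

theorem foldl_mapState {H H' : Type*} [Group H] [Group H'] (f : H →* H') (w : BraidWord n) :
    ∀ s : BState n H, w.foldl BState.step (mapState f s) = mapState f (w.foldl BState.step s) := by
  induction w with
  | nil => intro s; rfl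
  | cons l w ih =>
    intro s
    rw [List.foldl_cons, List.foldl_cons, step_mapState, ih]

theorem run_mapState {H H' : Type*} [Group H] [Group H'] (f : H →* H') (w : BraidWord n)
    (x : Fin (n + 1) → H) : run w (fun j => f (x j)) = mapState f (run w x) := by
  unfold run
  rw [← foldl_mapState]
  congr 1
  unfold mapState
  congr 1
  funext j
  simp

end B1

theorem run_map {H H' : Type*} [Group H] [Group H'] (f : H →* H') (w : BraidWord n)
    (x : Fin (n + 1) → H) :
    (run w (fun j => f (x j))).lab = (fun j => f ((run w x).lab j)) ∧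
    (run w (fun j => f (x j))).pos = (run w x).pos ∧
    (run w (fun j => f (x j))).lon = (fun j => f ((run w x).lon j)) := by
  rw [B1.run_mapState]
  exact ⟨rfl, rfl, rfl⟩

theorem longitude_map {H H' : Type*} [Group H] [Group H'] (f : H →* H') (w : BraidWord n)
    (x : Fin (n + 1) → H) (b : Fin (n + 1)) :
    longitude w (fun j => f (x j)) b = f (longitude w x b) := by
  unfold longitude
  rw [map_list_prod, List.map_map, (run_map f w x).2.2]
  rfl

namespace B1

/-- the relators of the surgery group -/
def rels (w : BraidWord n) : Set (FreeGroup (Fin (n + 1))) :=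
  {r : FreeGroup (Fin (n + 1)) | ∃ j, r = (run w FreeGroup.of).lab j * (FreeGroup.of j)⁻¹} ∪
     {r : FreeGroup (Fin (n + 1)) | ∃ b, r = longitude w FreeGroup.of b}

theorem lift_run (w : BraidWord n) {Q : Type*} [Group Q] (x : Fin (n + 1) → Q) (j : Fin (n + 1)) :
    FreeGroup.lift x ((run w FreeGroup.of).lab j) = (run w x).lab j := by
  have h := (run_map (FreeGroup.lift x) w FreeGroup.of).1
  have h2 : (fun j => FreeGroup.lift x (FreeGroup.of j)) = x := by
    funext j
    simp
  rw [h2] at h
  rw [h]

theorem lift_longitude (w : BraidWord n) {Q : Type*} [Group Q] (x : Fin (n + 1) → Q)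
    (b : Fin (n + 1)) : FreeGroup.lift x (longitude w FreeGroup.of b) = longitude w x b := by
  have h := longitude_map (FreeGroup.lift x) w FreeGroup.of b
  have h2 : (fun j => FreeGroup.lift x (FreeGroup.of j)) = x := by
    funext j
    simp
  rw [h2] at h
  rw [h]

theorem lift_rels (w : BraidWord n) {Q : Type*} [Group Q] (x : Fin (n + 1) → Q) :
    (∀ r ∈ rels w, FreeGroup.lift x r = 1) ↔
      ((run w x).lab = x ∧ ∀ b, longitude w x b = 1) := by
  constructor
  · intro h
    constructor
    · funext j
      have := h _ (Or.inl ⟨j, rfl⟩)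
      rw [map_mul, lift_run, map_inv, FreeGroup.lift_apply_of] at this
      exact mul_inv_eq_one.1 this
    · intro b
      have := h _ (Or.inr ⟨b, rfl⟩)
      rwa [lift_longitude] at this
  · rintro ⟨h1, h2⟩ r (⟨j, rfl⟩ | ⟨b, rfl⟩)
    · rw [map_mul, lift_run, map_inv, FreeGroup.lift_apply_of, h1, mul_inv_cancel]
    · rw [lift_longitude, h2]

/-- homomorphisms from the presented group -/
def homEquiv (w : BraidWord n) (Q : Type*) [Group Q] :
    (PresentedGroup (rels w) →* Q) ≃
        {x : Fin (n + 1) → Q // (run w x).lab = x ∧ ∀ b, longitude w x b = 1} where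
  toFun f := ⟨fun j => f (PresentedGroup.of j), by
    rw [← lift_rels]
    intro r hr
    have h1 : FreeGroup.lift (fun j => f (PresentedGroup.of j : PresentedGroup (rels w))) =
        f.comp (PresentedGroup.mk (rels w)) := by
      ext j
      simp [PresentedGroup.of]
    rw [h1, MonoidHom.comp_apply, PresentedGroup.one_of_mem hr, map_one]⟩
  invFun x := PresentedGroup.toGroup (f := x.1) ((lift_rels w x.1).2 x.2)
  left_inv f := by
    ext j
    simp
  right_inv x := by
    apply Subtype.ext
    funext j
    simp

end B1

theorem hom_bij (w : BraidWord n) (Q : Type*) [Group Q] :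
    ∃ e : (SurgeryGroup w →* Q) ≃
        {x : Fin (n + 1) → Q // (run w x).lab = x ∧ ∀ b, longitude w x b = 1},
      ∀ f j, (e f).1 j = f (SurgeryGroup.gen w j) :=
  ⟨B1.homEquiv w Q, fun _ _ => rfl⟩

end Pool.Agent.QInv75
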