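import Pool.Agent.QInv75.Words

/-!
# Package B2: the closure of a composite braid
-/

set_option autoImplicit false

namespace Pool.Agent.QInv75

namespace B2

variable {n : ℕ} {H : Type*} [Group H]

theorem run_append (u v : BraidWord n) (x : Fin (n + 1) → H) :
    run (u ++ v) x = v.foldl BState.step (run u x) := by
  simp [run, List.foldl_append]

theorem run_concat (u : BraidWord n) (l : Fin n × Bool) (x : Fin (n + 1) → H) :
    run (u ++ [l]) x = (run u x).step l := by
  simp [run, List.foldl_append]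

theorem step_true (s : BState n H) (i : Fin n) : s.step (i, true) =
    { lab := fun j => if j = i.castSucc then
          (s.lab i.castSucc)⁻¹ * s.lab i.succ * s.lab i.castSucc
        else if j = i.succ then s.lab i.castSucc else s.lab j
      pos := fun t => Equiv.swap i.castSucc i.succ (s.pos t)
      lon := fun t => if s.pos t = i.succ then s.lon t * s.lab i.castSucc else s.lon t } := by
  simp [BState.step]

theorem step_false (s : BState n H) (i : Fin n) : s.step (i, false) =
    { lab := fun j => if j = i.castSucc then s.lab i.succ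
        else if j = i.succ then s.lab i.succ * s.lab i.castSucc * (s.lab i.succ)⁻¹
        else s.lab j
      pos := fun t => Equiv.swap i.castSucc i.succ (s.pos t)
      lon := fun t => if s.pos t = i.castSucc then s.lon t * (s.lab i.succ)⁻¹ else s.lon t } := by
  simp [BState.step]

theorem castSucc_ne_succ (i : Fin n) : i.castSucc ≠ i.succ := by
  intro h
  have := congrArg Fin.val h
  simp at this

/-! ### positions do not depend on the labels -/

theorem step_pos (s : BState n H) (l : Fin n × Bool) (t : Fin (n + 1)) :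
    (s.step l).pos t = Equiv.swap l.1.castSucc l.1.succ (s.pos t) := by
  obtain ⟨i, b⟩ := l
  cases b
  · rw [step_false]
  · rw [step_true]

theorem run_pos (w : BraidWord n) (x : Fin (n + 1) → H) (s : Fin (n + 1)) :
    (run w x).pos s = perm w s := by
  unfold perm
  induction w using List.reverseRecOn with
  | nil => rfl
  | append_singleton w l ih =>
    rw [run_concat, run_concat, step_pos, step_pos, ih]

theorem perm_concat (w : BraidWord n) (l : Fin n × Bool) (s : Fin (n + 1)) :
    perm (w ++ [l]) s = Equiv.swap l.1.castSucc l.1.succ (perm w s) := by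
  unfold perm
  rw [run_concat, step_pos]

theorem perm_inj (w : BraidWord n) : Function.Injective (perm w) := by
  induction w using List.reverseRecOn with
  | nil => exact fun _ _ h => h
  | append_singleton w l ih =>
    intro a b h
    rw [perm_concat, perm_concat] at h
    exact ih (Equiv.injective _ h)

/-! ### the labels in an abelian quotient -/

theorem map_lab {A : Type*} [CommGroup A] (κ : H →* A) (w : BraidWord n) (x : Fin (n + 1) → H)
    (s : Fin (n + 1)) : κ ((run w x).lab ((run w x).pos s)) = κ (x s) := by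
  induction w using List.reverseRecOn with
  | nil => rfl
  | append_singleton w l ih =>
    rw [run_concat, ← ih]
    set S := run w x
    obtain ⟨i, b⟩ := l
    by_cases h1 : S.pos s = i.castSucc
    · cases b
      · rw [step_false]
        simp [h1, (castSucc_ne_succ i).symm]
      · rw [step_true]
        simp [h1, (castSucc_ne_succ i).symm]
    · by_cases h2 : S.pos s = i.succ
      · cases b
        · rw [step_false]
          simp [h2]
        · rw [step_true]
          simp [h2]
      · cases b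
        · rw [step_false]
          simp [Equiv.swap_apply_of_ne_of_ne h1 h2, h1, h2]
        · rw [step_true]
          simp [Equiv.swap_apply_of_ne_of_ne h1 h2, h1, h2]

/-! ### a braid on a part of the strands -/

/-- the braid `w` on the three strands given by `ι`, `ι'` -/
theorem block (ι : Fin 3 → Fin 5) (ι' : Fin 2 → Fin 4) (hι : Function.Injective ι)
    (h1 : ∀ l : Fin 2, ι l.castSucc = (ι' l).castSucc) (h2 : ∀ l : Fin 2, ι l.succ = (ι' l).succ)
    (w : BraidWord 2) (S : BState 4 H) :
    (∀ j, ((w.map fun l => (ι' l.1, l.2)).foldl BState.step S).lab (ι j) =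
      (run w (fun j => S.lab (ι j))).lab j) ∧
    (∀ p, (∀ j, p ≠ ι j) → ((w.map fun l => (ι' l.1, l.2)).foldl BState.step S).lab p =
      S.lab p) ∧
    (∀ s j, S.pos s = ι j → ((w.map fun l => (ι' l.1, l.2)).foldl BState.step S).pos s =
      ι ((run w (fun j => S.lab (ι j))).pos j)) ∧
    (∀ s, (∀ j, S.pos s ≠ ι j) → ((w.map fun l => (ι' l.1, l.2)).foldl BState.step S).pos s =
      S.pos s) ∧
    (∀ s j, S.pos s = ι j → ((w.map fun l => (ι' l.1, l.2)).foldl BState.step S).lon s =
      S.lon s * (run w (fun j => S.lab (ι j))).lon j) ∧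
    (∀ s, (∀ j, S.pos s ≠ ι j) → ((w.map fun l => (ι' l.1, l.2)).foldl BState.step S).lon s =
      S.lon s) := by
  induction w using List.reverseRecOn with
  | nil =>
    refine ⟨fun j => rfl, fun p _ => rfl, fun s j h => h, fun s _ => rfl, fun s j h => ?_,
      fun s _ => rfl⟩
    exact (mul_one _).symm
  | append_singleton w l ih =>
    obtain ⟨ha, ha', hb, hb', hc, hc'⟩ := ih
    obtain ⟨i, b⟩ := l
    rw [List.map_append, List.foldl_append, List.map_singleton, List.foldl_cons, List.foldl_nil,
      run_concat]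
    set S' := (w.map fun l => (ι' l.1, l.2)).foldl BState.step S with hS'
    set T := run w (fun j => S.lab (ι j)) with hT
    have hne1 : ∀ j, (ι j = (ι' i).castSucc) ↔ j = i.castSucc := by
      intro j
      rw [← h1]
      exact hι.eq_iff
    have hne2 : ∀ j, (ι j = (ι' i).succ) ↔ j = i.succ := by
      intro j
      rw [← h2]
      exact hι.eq_iff
    have hout1 : ∀ p, (∀ j, p ≠ ι j) → p ≠ (ι' i).castSucc := fun p hp => by
      rw [← h1]; exact hp _
    have hout2 : ∀ p, (∀ j, p ≠ ι j) → p ≠ (ι' i).succ := fun p hp => by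
      rw [← h2]; exact hp _
    refine ⟨?_, ?_, ?_, ?_, ?_, ?_⟩
    · intro j
      cases b
      · rw [step_false, step_false]
        simp only [hne1, hne2]
        rw [← h1, ← h2, ha, ha, ha]
      · rw [step_true, step_true]
        simp only [hne1, hne2]
        rw [← h1, ← h2, ha, ha, ha]
    · intro p hp
      cases b
      · rw [step_false]
        simp only [hout1 p hp, hout2 p hp, if_false]
        exact ha' p hp
      · rw [step_true]
        simp only [hout1 p hp, hout2 p hp, if_false]
        exact ha' p hp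
    · intro s j h
      rw [step_pos, step_pos, hb s j h]
      change Equiv.swap (ι' i).castSucc (ι' i).succ _ = _
      rw [← h1, ← h2, hι.swap_apply]
    · intro s h
      rw [step_pos, hb' s h]
      exact Equiv.swap_apply_of_ne_of_ne (hout1 _ h) (hout2 _ h)
    · intro s j h
      cases b
      · rw [step_false, step_false]
        simp only [hb s j h, hne1, hc s j h, ← h2, ha]
        split_ifs
        · rw [mul_assoc]
        · rfl
      · rw [step_true, step_true]
        simp only [hb s j h, hne2, hc s j h, ← h1, ha]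
        split_ifs
        · rw [mul_assoc]
        · rfl
    · intro s h
      cases b
      · rw [step_false]
        simp only [hb' s h, hout1 _ h, if_false]
        exact hc' s h
      · rw [step_true]
        simp only [hb' s h, hout2 _ h, if_false]
        exact hc' s h

/-! ### the product of the labels -/

theorem prod_inv (w : BraidWord 2) (x : Fin 3 → H) :
    (run w x).lab 2 * (run w x).lab 1 * (run w x).lab 0 = x 2 * x 1 * x 0 := by
  induction w using List.reverseRecOn with
  | nil => rfl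
  | append_singleton w l ih =>
    rw [run_concat, ← ih]
    set S := run w x
    obtain ⟨i, b⟩ := l
    cases b
    · rw [step_false]
      fin_cases i
      · simp [mul_assoc]
      · simp [mul_assoc]
    · rw [step_true]
      fin_cases i
      · simp [mul_assoc]
      · simp [mul_assoc]

/-! ### the composite braid -/

theorem total (w w' : BraidWord 2) (X : Fin 5 → H) (T1 T2 : BState 2 H) (S : BState 4 H)
    (hT1 : run w ![X 0, X 1, X 2] = T1) (hT2 : run w' ![T1.lab 2, X 3, X 4] = T2)
    (hS : run (sh0 w ++ sh2 w') X = S) :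
    (S.lab 0 = T1.lab 0 ∧ S.lab 1 = T1.lab 1 ∧ ∀ j : Fin 3, S.lab (Fin.natAdd 2 j) = T2.lab j) ∧
    (∀ a : Fin 3, T1.pos a ≠ 2 → S.pos (Fin.castAdd 2 a) = Fin.castAdd 2 (T1.pos a) ∧
      S.lon (Fin.castAdd 2 a) = T1.lon a) ∧
    (∀ a : Fin 3, T1.pos a = 2 → S.pos (Fin.castAdd 2 a) = Fin.natAdd 2 (T2.pos 0) ∧
      S.lon (Fin.castAdd 2 a) = T1.lon a * T2.lon 0) ∧
    (S.pos 3 = Fin.natAdd 2 (T2.pos 1) ∧ S.lon 3 = T2.lon 1) ∧
    (S.pos 4 = Fin.natAdd 2 (T2.pos 2) ∧ S.lon 4 = T2.lon 2) := by
  have e1 : (fun j : Fin 3 => X (Fin.castAdd 2 j)) = ![X 0, X 1, X 2] := by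
    funext j; fin_cases j <;> rfl
  obtain ⟨a1, a2, a3, a4, a5, a6⟩ := block (Fin.castAdd 2) (Fin.castAdd 2)
    (Fin.castAdd_injective 3 2) (fun _ => rfl) (fun _ => rfl) w ⟨X, id, fun _ => 1⟩
  set U := (w.map fun l => (Fin.castAdd 2 l.1, l.2)).foldl BState.step
    (⟨X, id, fun _ => 1⟩ : BState 4 H) with hU
  simp only [e1, hT1, id] at a1 a2 a3 a4 a5 a6
  have hSU : S = (w'.map fun l => (Fin.natAdd 2 l.1, l.2)).foldl BState.step U := by
    rw [← hS, run_append]
    rfl
  obtain ⟨b1, b2, b3, b4, b5, b6⟩ := block (Fin.natAdd 2) (Fin.natAdd 2)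
    (Fin.natAdd_injective 3 2) (fun _ => rfl) (fun _ => rfl) w' U
  have u2 : U.lab 2 = T1.lab 2 := a1 2
  have u3 : U.lab 3 = X 3 := a2 3 (by decide)
  have u4 : U.lab 4 = X 4 := a2 4 (by decide)
  have e2 : (fun j : Fin 3 => U.lab (Fin.natAdd 2 j)) = ![T1.lab 2, X 3, X 4] := by
    funext j
    fin_cases j
    · exact u2
    · exact u3
    · exact u4
  rw [← hSU] at b1 b2 b3 b4 b5 b6
  simp only [e2, hT2] at b1 b2 b3 b4 b5 b6
  refine ⟨⟨?_, ?_, b1⟩, ?_, ?_, ⟨?_, ?_⟩, ⟨?_, ?_⟩⟩
  · rw [b2 0 (by decide)]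
    exact a1 0
  · rw [b2 1 (by decide)]
    exact a1 1
  · intro a ha
    have hp : U.pos (Fin.castAdd 2 a) = Fin.castAdd 2 (T1.pos a) := a3 _ a rfl
    have hl : U.lon (Fin.castAdd 2 a) = T1.lon a := by rw [a5 _ a rfl, one_mul]
    have hn : ∀ j : Fin 3, U.pos (Fin.castAdd 2 a) ≠ Fin.natAdd 2 j := by
      rw [hp]
      revert ha
      generalize T1.pos a = z
      revert z
      decide
    rw [b4 _ hn, b6 _ hn]
    exact ⟨hp, hl⟩
  · intro a ha
    have hp : U.pos (Fin.castAdd 2 a) = Fin.natAdd 2 (0 : Fin 3) := by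
      rw [a3 _ a rfl, ha]
      rfl
    have hl : U.lon (Fin.castAdd 2 a) = T1.lon a := by rw [a5 _ a rfl, one_mul]
    rw [b3 _ _ hp, b5 _ _ hp, hl]
    exact ⟨rfl, rfl⟩
  · have hp : U.pos 3 = Fin.natAdd 2 (1 : Fin 3) := a4 3 (by decide)
    exact b3 _ _ hp
  · have hp : U.pos 3 = Fin.natAdd 2 (1 : Fin 3) := a4 3 (by decide)
    rw [b5 _ _ hp, a6 3 (by decide), one_mul]
  · have hp : U.pos 4 = Fin.natAdd 2 (2 : Fin 3) := a4 4 (by decide)
    exact b3 _ _ hp
  · have hp : U.pos 4 = Fin.natAdd 2 (2 : Fin 3) := a4 4 (by decide)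
    rw [b5 _ _ hp, a6 4 (by decide), one_mul]

/-! ### longitudes of the different base points are conjugate -/

theorem prod_rotate {α : Type*} (f : α → α) (g : α → H) (b : α) (N : ℕ) (hN : f^[N] b = b) :
    ((List.range N).map fun m => g (f^[m] (f b))).prod =
      (g b)⁻¹ * ((List.range N).map fun m => g (f^[m] b)).prod * g b := by
  have h1 : ∀ N : ℕ, g b * ((List.range N).map fun m => g (f^[m] (f b))).prod =
      ((List.range (N + 1)).map fun m => g (f^[m] b)).prod := by
    intro N
    rw [List.range_succ_eq_map, List.map_cons, List.prod_cons, List.map_map]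
    rfl
  have h2 := h1 N
  rw [List.range_succ, List.map_append, List.prod_append, List.map_singleton,
    List.prod_singleton, hN] at h2
  rw [mul_assoc, ← h2, inv_mul_cancel_left]

theorem longitude_conj (w : BraidWord n) (x : Fin (n + 1) → H) (b : Fin (n + 1)) :
    longitude w x (perm w b) =
      ((run w x).lon b)⁻¹ * longitude w x b * (run w x).lon b := by
  unfold longitude
  have h1 : Function.minimalPeriod (perm w) (perm w b) = Function.minimalPeriod (perm w) b :=
    Function.minimalPeriod_apply ((perm_inj w).mem_periodicPts b)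
  rw [h1]
  exact prod_rotate _ _ _ _ (Function.iterate_minimalPeriod)

theorem longitude_iterate (w : BraidWord n) (x : Fin (n + 1) → H) (b : Fin (n + 1)) (k : ℕ) :
    longitude w x ((perm w)^[k] b) = 1 ↔ longitude w x b = 1 := by
  induction k with
  | zero => rfl
  | succ k ih =>
    rw [Function.iterate_succ_apply', longitude_conj, ← ih]
    constructor
    · intro h
      have h2 : (run w x).lon ((perm w)^[k] b) * (((run w x).lon ((perm w)^[k] b))⁻¹ *
          longitude w x ((perm w)^[k] b) * (run w x).lon ((perm w)^[k] b)) *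
          ((run w x).lon ((perm w)^[k] b))⁻¹ = 1 := by rw [h]; simp
      simpa [mul_assoc] using h2
    · intro h
      rw [h]
      simp

/-! ### three-cycles -/

theorem three_cycle (w : BraidWord 2) (hw : IsKnot w) :
    (perm w 0 = 1 ∧ perm w 1 = 2 ∧ perm w 2 = 0) ∨ (perm w 0 = 2 ∧ perm w 2 = 1 ∧ perm w 1 = 0) := by
  have hi := perm_inj w
  unfold IsKnot at hw
  generalize perm w = p at hi hw
  have key : ∀ (a : Fin 3) , (∀ k : ℕ, p^[k] 0 = 0 ∨ p^[k] 0 = a) → False := by
    intro a h
    obtain ⟨k1, hk1⟩ := hw 1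
    obtain ⟨k2, hk2⟩ := hw 2
    have h1 := h k1
    have h2 := h k2
    rw [hk1] at h1
    rw [hk2] at h2
    clear h
    revert a
    decide
  have h0 : p 0 ≠ 0 := by
    intro h
    exact key 0 fun k => Or.inl (Function.iterate_fixed h k)
  have h00 : p (p 0) ≠ 0 := by
    intro h
    refine key (p 0) fun k => ?_
    induction k with
    | zero => exact Or.inl rfl
    | succ k ih =>
      rw [Function.iterate_succ_apply']
      rcases ih with ih | ih
      · rw [ih]; exact Or.inr rfl
      · rw [ih]; exact Or.inl h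
  have h01 : p (p 0) ≠ p 0 := fun h => h0 (hi h)
  have hc : p 0 = 1 ∨ p 0 = 2 := by
    revert h0
    generalize p 0 = z
    revert z
    decide
  rcases hc with hc | hc
  · left
    rw [hc] at h00 h01
    have h12 : p 1 = 2 := by
      revert h00 h01
      generalize p 1 = z
      revert z
      decide
    refine ⟨hc, h12, ?_⟩
    have n1 : p 2 ≠ p 0 := fun h => absurd (hi h) (by decide)
    have n2 : p 2 ≠ p 1 := fun h => absurd (hi h) (by decide)
    rw [hc] at n1
    rw [h12] at n2
    revert n1 n2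
    generalize p 2 = z
    revert z
    decide
  · right
    rw [hc] at h00 h01
    have h12 : p 2 = 1 := by
      revert h00 h01
      generalize p 2 = z
      revert z
      decide
    refine ⟨hc, h12, ?_⟩
    have n1 : p 1 ≠ p 0 := fun h => absurd (hi h) (by decide)
    have n2 : p 1 ≠ p 2 := fun h => absurd (hi h) (by decide)
    rw [hc] at n1
    rw [h12] at n2
    revert n1 n2
    generalize p 1 = z
    revert z
    decide

theorem lon3 (w : BraidWord 2) (x : Fin 3 → H) (a0 a1 a2 : Fin 3) (h0 : perm w a0 = a1)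
    (h1 : perm w a1 = a2) (h2 : perm w a2 = a0) (hne : a1 ≠ a0) :
    longitude w x a0 = (run w x).lon a0 * (run w x).lon a1 * (run w x).lon a2 := by
  have hp : Function.minimalPeriod (perm w) a0 = 3 := by
    have : Fact (Nat.Prime 3) := ⟨by norm_num⟩
    refine Function.minimalPeriod_eq_prime ?_ ?_
    · change (perm w)^[3] a0 = a0
      simp [Function.iterate_succ_apply, h0, h1, h2]
    · intro h
      rw [Function.IsFixedPt, h0] at h
      exact hne h
  unfold longitude
  rw [hp]
  simp [List.range_succ, h0, h1, mul_assoc]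

theorem lon5 (w : BraidWord 4) (x : Fin 5 → H) (a0 a1 a2 a3 a4 : Fin 5) (h0 : perm w a0 = a1)
    (h1 : perm w a1 = a2) (h2 : perm w a2 = a3) (h3 : perm w a3 = a4) (h4 : perm w a4 = a0)
    (hne : a1 ≠ a0) :
    longitude w x a0 = (run w x).lon a0 * (run w x).lon a1 * (run w x).lon a2 *
      (run w x).lon a3 * (run w x).lon a4 := by
  have hp : Function.minimalPeriod (perm w) a0 = 5 := by
    have : Fact (Nat.Prime 5) := ⟨by norm_num⟩
    refine Function.minimalPeriod_eq_prime ?_ ?_
    · change (perm w)^[5] a0 = a0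
      simp [Function.iterate_succ_apply, h0, h1, h2, h3, h4]
    · intro h
      rw [Function.IsFixedPt, h0] at h
      exact hne h
  unfold longitude
  rw [hp]
  simp [List.range_succ, h0, h1, h2, h3, mul_assoc]

theorem all_iff (w : BraidWord 4) (x : Fin 5 → H) (a0 a1 a2 a3 a4 : Fin 5) (h0 : perm w a0 = a1)
    (h1 : perm w a1 = a2) (h2 : perm w a2 = a3) (h3 : perm w a3 = a4)
    (hall : ∀ b : Fin 5, b = a0 ∨ b = a1 ∨ b = a2 ∨ b = a3 ∨ b = a4) :
    (∀ b, longitude w x b = 1) ↔ longitude w x a0 = 1 := by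
  refine ⟨fun h => h a0, fun h b => ?_⟩
  have e1 : longitude w x a1 = 1 := by
    have := (longitude_iterate w x a0 1).2 h
    rwa [Function.iterate_one, h0] at this
  have e2 : longitude w x a2 = 1 := by
    have := (longitude_iterate w x a1 1).2 e1
    rwa [Function.iterate_one, h1] at this
  have e3 : longitude w x a3 = 1 := by
    have := (longitude_iterate w x a2 1).2 e2
    rwa [Function.iterate_one, h2] at this
  have e4 : longitude w x a4 = 1 := by
    have := (longitude_iterate w x a3 1).2 e3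
    rwa [Function.iterate_one, h3] at this
  rcases hall b with rfl | rfl | rfl | rfl | rfl
  · exact h
  · exact e1
  · exact e2
  · exact e3
  · exact e4

end B2

open B2

theorem lab_sh (w w' : BraidWord 2) {Q : Type*} [Group Q] (X : Fin 5 → Q) :
    (run (sh0 w ++ sh2 w') X).lab = X ↔
      (run w ![X 0, X 1, X 2]).lab = ![X 0, X 1, X 2] ∧
      (run w' ![X 2, X 3, X 4]).lab = ![X 2, X 3, X 4] := by
  obtain ⟨⟨h0, h1, h2⟩, -⟩ := total w w' X _ _ _ rfl rfl rfl
  have hp := prod_inv w ![X 0, X 1, X 2]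
  constructor
  · intro h
    rw [h] at h0 h1 h2
    have e2 : (run w ![X 0, X 1, X 2]).lab 2 = X 2 := by
      rw [← h0, ← h1] at hp
      simpa using hp
    have e : (run w ![X 0, X 1, X 2]).lab = ![X 0, X 1, X 2] := by
      funext j
      fin_cases j
      · exact h0.symm
      · exact h1.symm
      · exact e2
    refine ⟨e, ?_⟩
    rw [e2] at h2
    funext j
    rw [← h2 j]
    fin_cases j <;> rfl
  · rintro ⟨e, e'⟩
    rw [e] at h0 h1 h2
    have h2' : ∀ j : Fin 3, (run (sh0 w ++ sh2 w') X).lab (Fin.natAdd 2 j) =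
        (run w' ![X 2, X 3, X 4]).lab j := h2
    rw [e'] at h2'
    funext j
    fin_cases j
    · exact h0
    · exact h1
    · exact h2' 0
    · exact h2' 1
    · exact h2' 2

/-- all labels of a closed knot have the same image in an abelian group -/
theorem lab_abelian {n : ℕ} (w : BraidWord n) (hw : IsKnot w) {Q A : Type*} [Group Q]
    [CommGroup A] (κ : Q →* A) (x : Fin (n + 1) → Q) (hx : (run w x).lab = x)
    (i j : Fin (n + 1)) : κ (x i) = κ (x j) := by
  have h : ∀ k : ℕ, κ (x ((perm w)^[k] 0)) = κ (x 0) := by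
    intro k
    induction k with
    | zero => rfl
    | succ k ih =>
      rw [Function.iterate_succ_apply', ← ih, ← map_lab κ w x ((perm w)^[k] 0), hx, run_pos]
  obtain ⟨a, ha⟩ := hw i
  obtain ⟨b, hb⟩ := hw j
  rw [← ha, ← hb, h, h]

theorem lon_sh (w w' : BraidWord 2) (hw : IsKnot w) (hw' : IsKnot w') {Q : Type*} [Group Q]
    (X : Fin 5 → Q) (hX : (run (sh0 w ++ sh2 w') X).lab = X) :
    (∀ b, longitude (sh0 w ++ sh2 w') X b = 1) ↔
      longitude w ![X 0, X 1, X 2] 2 * longitude w' ![X 2, X 3, X 4] 0 = 1 := by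
  have hlab := ((lab_sh w w' X).1 hX).1
  have hT : (run w ![X 0, X 1, X 2]).lab 2 = X 2 := by rw [hlab]; rfl
  obtain ⟨-, hA, hB, ⟨c1, c2⟩, ⟨d1, d2⟩⟩ := total w w' X _ _ _ rfl rfl rfl
  rw [hT] at hB c1 c2 d1 d2
  simp only [run_pos] at hA hB c1 d1
  rcases three_cycle w hw with ⟨p0, p1, p2⟩ | ⟨p0, p2, p1⟩
  · obtain ⟨q0, r0⟩ := hA 0 (by rw [p0]; decide)
    obtain ⟨q2, r2⟩ := hA 2 (by rw [p2]; decide)
    obtain ⟨q1, r1⟩ := hB 1 p1
    rw [p0] at q0
    rw [p2] at q2
    rw [lon3 w _ 2 0 1 p2 p0 p1 (by decide)]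
    rcases three_cycle w' hw' with ⟨s0, s1, s2⟩ | ⟨s0, s2, s1⟩
    · rw [s0] at q1
      rw [s1] at c1
      rw [s2] at d1
      rw [lon3 w' _ 0 1 2 s0 s1 s2 (by decide)]
      rw [all_iff _ X 2 0 1 3 4 q2 q0 q1 c1 (by decide),
        lon5 _ X 2 0 1 3 4 q2 q0 q1 c1 d1 (by decide), c2, d2]
      have e0 : (run (sh0 w ++ sh2 w') X).lon 0 = (run w ![X 0, X 1, X 2]).lon 0 := r0
      have e2 : (run (sh0 w ++ sh2 w') X).lon 2 = (run w ![X 0, X 1, X 2]).lon 2 := r2
      have e1 : (run (sh0 w ++ sh2 w') X).lon 1 = (run w ![X 0, X 1, X 2]).lon 1 *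
        (run w' ![X 2, X 3, X 4]).lon 0 := r1
      rw [e0, e1, e2]
      simp only [mul_assoc]
    · rw [s0] at q1
      rw [s1] at c1
      rw [s2] at d1
      rw [lon3 w' _ 0 2 1 s0 s2 s1 (by decide)]
      rw [all_iff _ X 2 0 1 4 3 q2 q0 q1 d1 (by decide),
        lon5 _ X 2 0 1 4 3 q2 q0 q1 d1 c1 (by decide), c2, d2]
      have e0 : (run (sh0 w ++ sh2 w') X).lon 0 = (run w ![X 0, X 1, X 2]).lon 0 := r0
      have e2 : (run (sh0 w ++ sh2 w') X).lon 2 = (run w ![X 0, X 1, X 2]).lon 2 := r2
      have e1 : (run (sh0 w ++ sh2 w') X).lon 1 = (run w ![X 0, X 1, X 2]).lon 1 *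
        (run w' ![X 2, X 3, X 4]).lon 0 := r1
      rw [e0, e1, e2]
      simp only [mul_assoc]
  · obtain ⟨q1, r1⟩ := hA 1 (by rw [p1]; decide)
    obtain ⟨q2, r2⟩ := hA 2 (by rw [p2]; decide)
    obtain ⟨q0, r0⟩ := hB 0 p0
    rw [p1] at q1
    rw [p2] at q2
    rw [lon3 w _ 2 1 0 p2 p1 p0 (by decide)]
    have e1 : (run (sh0 w ++ sh2 w') X).lon 1 = (run w ![X 0, X 1, X 2]).lon 1 := r1
    have e2 : (run (sh0 w ++ sh2 w') X).lon 2 = (run w ![X 0, X 1, X 2]).lon 2 := r2
    have e0 : (run (sh0 w ++ sh2 w') X).lon 0 = (run w ![X 0, X 1, X 2]).lon 0 *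
      (run w' ![X 2, X 3, X 4]).lon 0 := r0
    rcases three_cycle w' hw' with ⟨s0, s1, s2⟩ | ⟨s0, s2, s1⟩
    · rw [s0] at q0
      rw [s1] at c1
      rw [s2] at d1
      rw [lon3 w' _ 0 1 2 s0 s1 s2 (by decide)]
      rw [all_iff _ X 2 1 0 3 4 q2 q1 q0 c1 (by decide),
        lon5 _ X 2 1 0 3 4 q2 q1 q0 c1 d1 (by decide), c2, d2, e0, e1, e2]
      simp only [mul_assoc]
    · rw [s0] at q0
      rw [s1] at c1
      rw [s2] at d1
      rw [lon3 w' _ 0 2 1 s0 s2 s1 (by decide)]
      rw [all_iff _ X 2 1 0 4 3 q2 q1 q0 d1 (by decide),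
        lon5 _ X 2 1 0 4 3 q2 q1 q0 d1 c1 (by decide), c2, d2, e0, e1, e2]
      simp only [mul_assoc]

end Pool.Agent.QInv75
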