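import Pool.Agent.QInv75.B1
import Pool.Agent.QInv75.B2

/-!
# Package B3: the group `AΓL(1, 8)` of order 168 and the counts

An element of the group is coded by a natural number `8 h + b < 168`, where `b < 8` is a vector of
`F₂³` and `h = 7 k + a` is an element of `ℤ/7 ⋊ ℤ/3`; multiplication is done with two small tables.
All the statements about the finite group are checked by evaluation in the kernel.
-/

set_option autoImplicit false

namespace Pool.Agent.QInv75

namespace B3

/-! ### loops -/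

/-- `∀ i < n, f i` -/
def allN (n : ℕ) (f : ℕ → Bool) : Bool :=
  Nat.rec (motive := fun _ => Bool) true (fun i ih => cond (f i) ih false) n

theorem allN_spec {n : ℕ} {f : ℕ → Bool} (h : allN n f = true) : ∀ i < n, f i = true := by
  induction n with
  | zero => intro i hi; omega
  | succ n ih =>
    intro i hi
    have h' : cond (f n) (allN n f) false = true := h
    cases hf : f n with
    | false => rw [hf] at h'; simp at h'
    | true =>
      rw [hf] at h'
      rcases Nat.lt_succ_iff_lt_or_eq.mp hi with h1 | h1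
      · exact ih h' i h1
      · rw [h1]; exact hf

/-- `∑ i < n, f i` -/
def sumN (n : ℕ) (f : ℕ → ℕ) : ℕ :=
  Nat.rec (motive := fun _ => ℕ) 0 (fun i ih => Nat.add ih (f i)) n

theorem sumN_eq (n : ℕ) (f : ℕ → ℕ) : sumN n f = ∑ i ∈ Finset.range n, f i := by
  induction n with
  | zero => rfl
  | succ n ih => rw [Finset.sum_range_succ, ← ih]; rfl

/-! ### the group -/

/-- multiplication table of `ℤ/7 ⋊ ℤ/3` -/
def TH : ℕ := 0x96216753445090033426f93a3442cea6a58120066115f27469099d4d4b10b00cc22848e8d2137c9a9621675184509003a426f93a2c42cea6a4a12006614df27469059d4d4b10400cc22864e8d2137a9a9621671984509011a426f938820146134a0e9c5f45a4ec521a3098820162fa4a0e9a90d5a4ec100a30989074e2fa49276290d584c4100a37d25074e286ad2762805184c413a717d2503b1486ad26208051869283a717b5693b14828c26208138be928398a435693ce5183dd462d4941da520c4101a5183dd49ad4941dac20c41018b183dd49c94941dac58c41018a483dd49ca2941dac5a841018a41bdd49ca3041dac5a921018a4189d49ca3079dac5a928018a4188349ca307b9ac5a928398a418820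

/-- the action of `ℤ/7 ⋊ ℤ/3` on `F₂³` -/
def TL : ℕ := 0xea1ce8c5573874f8b09ee4585bb3602f4bd0b1af88873ea855cc783e2770b919d8ecd5a0d2f2d06beb08cfa86873157889d3f0467b98356ee0bcbd10fac688

/-- table of inverses -/
def TI : ℕ := 0x4f4b494d4a4e4c48595f5c5a5b5d5e586c696e6b6f6a6d684644454741434240555652515457535062656364666167603b3a3f3e3d3c39389395919794929690797b7e7c7d7f7a789e999a9d9b9c9f988286878381858480a7a2a4a1a6a3a5a08c8f8d8e8a898b8875747372777671700d0f090b0e0c0a0811151216171314101a191c1f1d1e1b1824222325212726202b2c2e292a2d2f2836333732343135300706050403020100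

/-- product in the group of order 21 -/
def hN (h h' : ℕ) : ℕ :=
  Nat.land (Nat.shiftRight TH (Nat.mul 5 (Nat.add (Nat.mul 21 h) h'))) 31

/-- action of the group of order 21 on `F₂³` -/
def lN (h b : ℕ) : ℕ :=
  Nat.land (Nat.shiftRight TL (Nat.mul 3 (Nat.add (Nat.mul 8 h) b))) 7

/-- product in the group of order 168 -/
def mulN (e f : ℕ) : ℕ :=
  Nat.add (Nat.mul 8 (hN (Nat.div e 8) (Nat.div f 8)))
    (Nat.xor (Nat.mod e 8) (lN (Nat.div e 8) (Nat.mod f 8)))

/-- inverse in the group of order 168 -/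
def invN (e : ℕ) : ℕ := Nat.land (Nat.shiftRight TI (Nat.mul 8 e)) 255

theorem hN_lt {h h' : ℕ} (a : h < 21) (b : h' < 21) : hN h h' < 21 := by
  have H : allN 21 (fun h => allN 21 fun h' => Nat.ble (hN h h') 20) = true := by decide +kernel
  have := Nat.le_of_ble_eq_true (allN_spec (allN_spec H h a) h' b)
  omega

theorem hN_assoc {h h' h'' : ℕ} (a : h < 21) (b : h' < 21) (c : h'' < 21) :
    hN (hN h h') h'' = hN h (hN h' h'') := by
  have H : allN 21 (fun h => allN 21 fun h' => allN 21 fun h'' =>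
      Nat.beq (hN (hN h h') h'') (hN h (hN h' h''))) = true := by decide +kernel
  exact Nat.eq_of_beq_eq_true (allN_spec (allN_spec (allN_spec H h a) h' b) h'' c)

theorem lN_lt {h b : ℕ} (h1 : h < 21) (h2 : b < 8) : lN h b < 8 := by
  have H : allN 21 (fun h => allN 8 fun b => Nat.ble (lN h b) 7) = true := by decide +kernel
  have := Nat.le_of_ble_eq_true (allN_spec (allN_spec H h h1) b h2)
  omega

theorem lN_hN {h h' b : ℕ} (h1 : h < 21) (h2 : h' < 21) (h3 : b < 8) :
    lN (hN h h') b = lN h (lN h' b) := by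
  have H : allN 21 (fun h => allN 21 fun h' => allN 8 fun b =>
      Nat.beq (lN (hN h h') b) (lN h (lN h' b))) = true := by decide +kernel
  exact Nat.eq_of_beq_eq_true (allN_spec (allN_spec (allN_spec H h h1) h' h2) b h3)

theorem lN_xor {h b b' : ℕ} (h1 : h < 21) (h2 : b < 8) (h3 : b' < 8) :
    lN h (Nat.xor b b') = Nat.xor (lN h b) (lN h b') := by
  have H : allN 21 (fun h => allN 8 fun b => allN 8 fun b' =>
      Nat.beq (lN h (Nat.xor b b')) (Nat.xor (lN h b) (lN h b'))) = true := by decide +kernel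
  exact Nat.eq_of_beq_eq_true (allN_spec (allN_spec (allN_spec H h h1) b h2) b' h3)

theorem xor_lt {a b : ℕ} (h1 : a < 8) (h2 : b < 8) : Nat.xor a b < 8 :=
  Nat.xor_lt_two_pow (n := 3) h1 h2

theorem mulN_div {e f : ℕ} (he : e < 168) (_ : f < 168) :
    mulN e f / 8 = hN (e / 8) (f / 8) ∧
      mulN e f % 8 = Nat.xor (e % 8) (lN (e / 8) (f % 8)) := by
  have h1 : Nat.xor (e % 8) (lN (e / 8) (f % 8)) < 8 :=
    xor_lt (Nat.mod_lt _ (by norm_num)) (lN_lt (by omega) (Nat.mod_lt _ (by norm_num)))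
  have h2 : mulN e f = 8 * hN (e / 8) (f / 8) + Nat.xor (e % 8) (lN (e / 8) (f % 8)) := rfl
  rw [h2]
  omega

theorem mulN_lt {e f : ℕ} (he : e < 168) (hf : f < 168) : mulN e f < 168 := by
  obtain ⟨h1, h2⟩ := mulN_div he hf
  have h3 := hN_lt (h := e / 8) (h' := f / 8) (by omega) (by omega)
  omega

theorem mulN_assoc {e f k : ℕ} (he : e < 168) (hf : f < 168) (hk : k < 168) :
    mulN (mulN e f) k = mulN e (mulN f k) := by
  obtain ⟨h1, h2⟩ := mulN_div he hf
  obtain ⟨h3, h4⟩ := mulN_div hf hk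
  obtain ⟨h5, h6⟩ := mulN_div (mulN_lt he hf) hk
  obtain ⟨h7, h8⟩ := mulN_div he (mulN_lt hf hk)
  have d1 : mulN (mulN e f) k / 8 = mulN e (mulN f k) / 8 := by
    rw [h5, h1, h7, h3]
    exact hN_assoc (by omega) (by omega) (by omega)
  have d2 : mulN (mulN e f) k % 8 = mulN e (mulN f k) % 8 := by
    rw [h6, h2, h1, h8, h4, lN_hN (by omega) (by omega) (Nat.mod_lt _ (by norm_num)),
      lN_xor (by omega) (Nat.mod_lt _ (by norm_num))
        (lN_lt (by omega) (Nat.mod_lt _ (by norm_num)))]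
    exact Nat.xor_assoc _ _ _
  omega

theorem invN_lt {e : ℕ} (he : e < 168) : invN e < 168 := by
  have H : allN 168 (fun e => Nat.ble (invN e) 167) = true := by decide +kernel
  have := Nat.le_of_ble_eq_true (allN_spec H e he)
  omega

theorem invN_mulN {e : ℕ} (he : e < 168) : mulN (invN e) e = 0 := by
  have H : allN 168 (fun e => Nat.beq (mulN (invN e) e) 0) = true := by decide +kernel
  exact Nat.eq_of_beq_eq_true (allN_spec H e he)

theorem one_mulN {e : ℕ} (he : e < 168) : mulN 0 e = e := by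
  have H : allN 168 (fun e => Nat.beq (mulN 0 e) e) = true := by decide +kernel
  exact Nat.eq_of_beq_eq_true (allN_spec H e he)

theorem mulN_one {e : ℕ} (he : e < 168) : mulN e 0 = e := by
  have H : allN 168 (fun e => Nat.beq (mulN e 0) e) = true := by decide +kernel
  exact Nat.eq_of_beq_eq_true (allN_spec H e he)

/-- the group `AΓL(1, 8)` -/
def Q : Type := Fin 168

instance : Finite Q := inferInstanceAs (Finite (Fin 168))

instance : Fintype Q := inferInstanceAs (Fintype (Fin 168))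

instance : DecidableEq Q := inferInstanceAs (DecidableEq (Fin 168))

instance : Group Q where
  mul x y := (⟨mulN x.1 y.1, mulN_lt x.2 y.2⟩ : Fin 168)
  one := (⟨0, by norm_num⟩ : Fin 168)
  inv x := (⟨invN x.1, invN_lt x.2⟩ : Fin 168)
  mul_assoc x y z := Fin.ext (mulN_assoc x.2 y.2 z.2)
  one_mul x := Fin.ext (one_mulN x.2)
  mul_one x := Fin.ext (mulN_one x.2)
  inv_mul_cancel x := Fin.ext (invN_mulN x.2)

theorem val_mul (x y : Q) : (x * y).1 = mulN x.1 y.1 := rfl

theorem val_inv (x : Q) : (x⁻¹).1 = invN x.1 := rfl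

theorem val_one : (1 : Q).1 = 0 := rfl

theorem Q_ext {x y : Q} (h : x.1 = y.1) : x = y := Fin.ext h

theorem Q_lt (x : Q) : x.1 < 168 := x.2

theorem div56 {e f : ℕ} (he : e < 168) (hf : f < 168) :
    mulN e f / 56 = (e / 56 + f / 56) % 3 := by
  have H : allN 168 (fun e => allN 168 fun f => Nat.beq (Nat.div (mulN e f) 56)
    (Nat.mod (Nat.add (Nat.div e 56) (Nat.div f 56)) 3)) = true := by decide +kernel
  exact Nat.eq_of_beq_eq_true (allN_spec (allN_spec H e he) f hf)

/-- the projection to `ℤ/3` -/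
def κ : Q →* Multiplicative (ZMod 3) where
  toFun x := Multiplicative.ofAdd ((x.1 / 56 : ℕ) : ZMod 3)
  map_one' := by
    rw [val_one]
    rfl
  map_mul' x y := by
    rw [val_mul, div56 (Q_lt x) (Q_lt y), ← ofAdd_add, ← Nat.cast_add, ZMod.natCast_mod]

/-- the generator of `ℤ/3` -/
def g : Multiplicative (ZMod 3) := Multiplicative.ofAdd 1

theorem g_ne : g ≠ 1 := by decide

theorem κ_iff (x : Q) : (κ x = g ↔ x.1 / 56 = 1) ∧ (κ x = g⁻¹ ↔ x.1 / 56 = 2) ∧
    (κ x = 1 ↔ x.1 / 56 = 0) := by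
  have hx := Q_lt x
  have h : x.1 / 56 < 3 := by omega
  have e : κ x = Multiplicative.ofAdd ((x.1 / 56 : ℕ) : ZMod 3) := rfl
  rw [e]
  generalize x.1 / 56 = k at h
  clear hx e
  revert h
  revert k
  intro k hk
  interval_cases k <;> decide

theorem card_g : Nat.card {x : Q // κ x = g} = 56 := by
  rw [Nat.card_eq_fintype_card]
  decide +kernel

theorem card_g' : Nat.card {x : Q // κ x = g⁻¹} = 56 := by
  rw [Nat.card_eq_fintype_card]
  decide +kernel

theorem pow6 (x : Q) (hx : κ x ≠ 1) : x ^ 6 = 1 := by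
  have H : allN 112 (fun i => Nat.beq (mulN (mulN (mulN (mulN (mulN (Nat.add 56 i)
    (Nat.add 56 i)) (Nat.add 56 i)) (Nat.add 56 i)) (Nat.add 56 i)) (Nat.add 56 i)) 0) = true := by
    decide +kernel
  have h1 : x.1 / 56 ≠ 0 := fun h => hx ((κ_iff x).2.2.mpr h)
  have h2 := Q_lt x
  have h3 := Nat.eq_of_beq_eq_true (allN_spec H (x.1 - 56) (by omega))
  have h4 : Nat.add 56 (x.1 - 56) = x.1 := by
    show 56 + (x.1 - 56) = x.1
    omega
  rw [h4] at h3
  have h5 : x ^ 6 = x * x * x * x * x * x := by simp only [pow_succ, pow_zero, one_mul]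
  rw [h5]
  exact Q_ext h3

/-! ### three strand braids: the labels and the longitudes as triples -/

section Triples

variable {H : Type*} [Group H]

/-- a crossing, in terms of triples; `l.1` is `false` for `σ₁`, `l.2` is the sign. -/
def stT (t : (H × H × H) × (H × H × H)) (l : Bool × Bool) : (H × H × H) × (H × H × H) :=
  match l with
  | (false, true) => ((t.1.1⁻¹ * t.1.2.1 * t.1.1, t.1.1, t.1.2.2),
      (t.2.2.1 * t.1.1, t.2.1, t.2.2.2))
  | (false, false) => ((t.1.2.1, t.1.2.1 * t.1.1 * t.1.2.1⁻¹, t.1.2.2),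
      (t.2.2.1, t.2.1 * t.1.2.1⁻¹, t.2.2.2))
  | (true, true) => ((t.1.1, t.1.2.1⁻¹ * t.1.2.2 * t.1.2.1, t.1.2.1),
      (t.2.1, t.2.2.2 * t.1.2.1, t.2.2.1))
  | (true, false) => ((t.1.1, t.1.2.2, t.1.2.2 * t.1.2.1 * t.1.2.2⁻¹),
      (t.2.1, t.2.2.2, t.2.2.1 * t.1.2.2⁻¹))

/-- the letter of a braid word coded by `l` -/
def dec (l : Bool × Bool) : Fin 2 × Bool := (cond l.1 1 0, l.2)

theorem step_stT (s : BState 2 H) (t : (H × H × H) × (H × H × H))
    (h1 : s.lab = ![t.1.1, t.1.2.1, t.1.2.2])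
    (h2 : ∀ j, s.lon j = ![t.2.1, t.2.2.1, t.2.2.2] (s.pos j)) (l : Bool × Bool) :
    (s.step (dec l)).lab = ![(stT t l).1.1, (stT t l).1.2.1, (stT t l).1.2.2] ∧
    ∀ j, (s.step (dec l)).lon j =
      ![(stT t l).2.1, (stT t l).2.2.1, (stT t l).2.2.2] ((s.step (dec l)).pos j) := by
  obtain ⟨lab, pos, lon⟩ := s
  obtain ⟨⟨a, b, c⟩, ⟨u, v, w⟩⟩ := t
  simp only at h1 h2
  subst h1
  obtain ⟨i, e⟩ := l
  constructor
  · cases i <;> cases e <;> (funext j; fin_cases j <;> simp [BState.step, dec, stT])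
  · intro j
    have h3 := h2 j
    generalize hp : pos j = p at h3
    cases i <;> cases e <;> fin_cases p <;>
      simp_all [BState.step, dec, stT, Equiv.swap_apply_def]

theorem run_stT (w : List (Bool × Bool)) :
    ∀ (s : BState 2 H) (t : (H × H × H) × (H × H × H)),
    s.lab = ![t.1.1, t.1.2.1, t.1.2.2] →
    (∀ j, s.lon j = ![t.2.1, t.2.2.1, t.2.2.2] (s.pos j)) →
    ((w.map dec).foldl BState.step s).lab =
      ![(w.foldl stT t).1.1, (w.foldl stT t).1.2.1, (w.foldl stT t).1.2.2] ∧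
    ∀ j, ((w.map dec).foldl BState.step s).lon j =
      ![(w.foldl stT t).2.1, (w.foldl stT t).2.2.1, (w.foldl stT t).2.2.2]
        (((w.map dec).foldl BState.step s).pos j) := by
  induction w with
  | nil => intro s t h1 h2; exact ⟨h1, h2⟩
  | cons l w ih =>
    intro s t h1 h2
    obtain ⟨h3, h4⟩ := step_stT s t h1 h2 l
    exact ih _ _ h3 h4

end Triples

/-! ### evaluation of the labels in a coset of the kernel of `κ` -/

/-- lookup in a table with `56 × 56` entries -/
def tb (T i j : ℕ) : ℕ := Nat.land (Nat.shiftRight T (Nat.mul 6 (Nat.add (Nat.mul 56 i) j))) 63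

/-- `x⁻¹ y x` on the first coset -/
def T1 : ℕ := 0xdf1d73c36cb44944165535d1ba8b2aa6faed24f2cd38830a8e58679229a01431c108400671a7986dd65fc36cb4df1d735d1553416494b6bbe9aaca2e2cd24f30a3888a48269639e10470c518010271a7986dd65fdf1d73c36cb45905124574d5b6bbe9aaca2e20e28c3c934b9229a08e58670c504710218065f6dd79871ac36cb4df1d734d5457512590ba8b2aa6faed28c20e34b3c99639e18a48261c114300608465f6dd79871ad32db0cf5c774944165535d1aeda6fb2aba820e28c3c934b9639e18a48260470c518010279871a65f6ddcf5c77d32db05d1553416494a2eaacbe9b6b28c20e34b3c99229a08e58671431c108400679871a65f6ddd32db0cf5c775905124574d5a2eaacbe9b6b24f2cd38830a8a48269639e11c11430060846dd65f71a798cf5c77d32db04d5457512590aeda6fb2aba82cd24f30a3888e58679229a00c50471021806dd65f71a7985164d14125d5beda2aae9b2e28834f38c24b9a48638a09670431841470806d971e7dd61ad77cb0c73db44125d55164d1b2eae9a2abed2c930e3cd20a8639a49678a01c50020c110679c65b69875fd77cb0c73db45164d14125d5aa8b6fbaca6b2c930e3cd20a8229e59268e114708004318465b79c75f698db4c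73cb0d774125d55164d1a6bbacb6faa828834f38c24b9e58228e19260c11061c500271e6d961a7dddb4c73cb0d77557490453594beda2aae9b2e24b38c34f2888229e59268e10c11061c500279c65b69875fcb0d77db4c73453594557490b2eae9a2abed20a3cd30e2c99e58228e19261470800431846d971e7dd61acb0d77db4c73557490453594aa8b6fbaca6b20a3cd30e2c99a48638a09671c50020c110671e6d961a7ddc73db4d77cb0453594557490a6bbacb6faa824b38c34f2888639a49678a004318414708065b79c75f698c73db4d77cb0b6aa6ea2fb2b30b20f24e34a9e08e48a59a10851811c00c479969d6dc7d8c76d72d33c374d45d0591495a2fb2bb6aa6e34a24e20f30b8669629238271810850c41c071b61f65e75acb5db1df0cf44d45d0591495b6aa6ea2fb2b3c82cc28d3898669629238270071031420466dc7d879969ddb1cb5cf4df04955915d04d4a2fb2bb6aa6e38928d2cc3c89e08e48a59a110300704614265e75a71b61fd72c76c37d334955915d04d4aecbe8ba9aad30b20f24e34a9a18a58e49e000710314204665e75a71b61fcb5db1df0cf45d04d4495591ba9aadaecbe834a24e20f30b8279239628661030070461426dc7d879969dc76d72d33c375d04d4495591aecbe8ba9aad3c82cc28d38982792396286608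51811c00c471b61f65e75ad72c76c37d335914954d45d0ba9aadaecbe838928d2cc3c89a18a58e49e01810850c41c079969d6dc7d8db1cb5cf4df05914954d45d02cf38a20c3499618249a28e71000451c30867db69e71865dcb6df3c75d305924d7551414a6db28aaebeb20c3492cf38a8e79a28249611820c714100469e7db65d718d71c34db2cf75d3496510455a6db28aaebeb2cf38a20c3499208659e38a61820c714100461c7596df79ac75d30cb6df34965d3455510bebaaeb28a6d20c3492cf38a8a69e38659201000451c308675961c79a6dfdb2cf7d71c344d7592414551bebaaeb28a6d24d30828e3cb9618249a28e70861c304510061c7596df79adb2cf7d71c345d3496510455b28a6dbebaae28e3cb24d3088e79a28249610041410c718275961c79a6dfc75d30cb6df35924d7551414b28a6dbebaae24d30828e3cb9208659e38a60041410c71827db69e71865dd71c34db2cf74d7592414551aaebeba6db2828e3cb24d3088a69e38659200861c304510069e7db65d718cb6df3c75d304965d3455510aaebeba6db288648a78258e60c600508704475879b7197dad31df2d70db35d2511593550aafa6caeea2d38b3483ca3098258e68648a70440870050c669f65c6de61ddf2d31db3d704d6415497454b29beab68bab38b3483ca309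8648a78258e61401831011c269f65c6de61dc35cf6c74cb75935505d2511beab29babb683093ca34838b8258e68648a71c210118314075879b7197dacf6c35cb7c744974544d6415a6caafa2daee3093ca34838b9a39609e29210c60050870447da71979b758c35cf6c74cb74974544d6415b29beab68bab34838b3093ca9e29219a39600440870050c661d6de65c69fcf6c35cb7c745935505d2511aafa6caeea2d34838b3093ca9a39609e29211401831011c261d6de65c69fd31df2d70db34d6415497454a6caafa2daee3ca30938b3489e29219a39601c21011831407da71979b758df2d31db3d705d2511593550beab29babb683ca30938b3481851c400304265a61b7dc79dcf0cb1d76d375565174d0491b2fb6eaa9ae83cc38d24a20b8a18e09279660030421851c479d7dc61b65adf4db5c72c335175564914d0a6aa2bbecbad34e30f2c82898a18e09279661851c40030426d869975e71fdf4db5c72c334134525955d4aa9ae8b2fb6e30f34e2892c89669278e08a10030421851c471f75e6996d8cf0cb1d76d374524135d4595becbada6aa2b38d3cc20b24a9669278e08a10810c010714665a61b7dc79dd37d76cb1cf04134525955d4becbada6aa2b34e30f2c82898e08a19669271071460810c079d7dc61b65ac33c72db5df44524135d45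95aa9ae8b2fb6e3cc38d24a20b8e08a19669270810c01071466d869975e71fc33c72db5df45565174d0491a6aa2bbecbad38d3cc20b24a9279668a18e01071460810c071f75e6996d8d37d76cb1cf05175564914d0b2fb6eaa9ae830f34e2892c89279668a18e069b71d61979fdb7c31d35cb34505d64d2554aeab6ca68bee34c2ca3ce2489258a39a78211c60401440c261979f69b71dcb3d35c31db7515493597411b6caeabeea6838f20930d28b8e29648609e61c60401440c269b71d61979fc70df6cf2d74515493597411a29bafaabb2d3ce24834c2ca9648e29e68600c21440401c661979f69b71dd74cf2df6c704505d64d2554bafa29b2daab30d28b38f2098a39258219a70c21440401c67de65875c6dadb7c31d35cb35544d25d6450a29bafaabb2d30d28b38f2098e29648609e60401c60c214475c6da7de658cb3d35c31db7411597493515bafa29b2daab3ce24834c2ca9258a39a78210401c60c21447de65875c6dac70df6cf2d74411597493515aeab6ca68bee38f20930d28b8a39258219a71440c21c604075c6da7de658d74cf2df6c705544d25d6450b6caeabeea6834c2ca3ce2489648e29e68601440c21c6040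

/-- `x y x⁻¹` on the first coset -/
def U1 : ℕ := 0xdf2d70d31db38a78258648e65115935d25500050870c6044a6caeeaafa2d79b7197587da3483ca38b309cf6c74c35cb79609e29a39214544d64974150050870c6044beab68b29bab71979b7da75838b3093483cadf2d70d31db39609e29a39214154974d64541831011401c2aafa2da6caee6de65c61d69f30938b3ca348cf6c74c35cb78a78258648e65505d25935111831011401c2b29babbeab6865c6de69f61d3ca34830938bc35cb7cf6c749219a39e29605505d25935110870050440c6a6caeeaafa2d6de65c61d69f38b3093483cad31db3df2d708e68648258a74154974d64540870050440c6beab68b29bab65c6de69f61d3483ca38b309c35cb7cf6c748e68648258a74544d64974151011831c2140aafa2da6caee79b7197587da3ca34830938bd31db3df2d709219a39e29605115935d25501011831c2140b29babbeab6871979b7da75830938b3ca3481811c00850c4be8ba9aecaad61f65e71b75a2cc28d3c8389c76c37d72d339239628278664954d45915d01811c00850c4a6ea2fb6ab2b69d6dc7997d820f24e30b34ad72d33c76c378e48a59e09a15d05914d4495007046103142b2bb6aa2fa6e75a71b65e61f28d2cc3893c8c76c37d72d338e48a59e09a15915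d04954d4007046103142aadaecba9be87d87996dc69d24e20f34a30bd72d33c76c379239628278664d44955d0591103142007046be8ba9aecaad75a71b65e61f20f24e30b34adb1df0cb5cf48a58e49a19e04d44955d0591103142007046a6ea2fb6ab2b7d87996dc69d2cc28d3c8389cb5cf4db1df09629238668275915d04954d40850c41811c0b2bb6aa2fa6e61f65e71b75a24e20f34a30bdb1df0cb5cf49629238668275d05914d44950850c41811c0aadaecba9be869d6dc7997d828d2cc3893c8cb5cf4db1df08a58e49a19e04954d45915d020e34b28c3c9cb4df1c36d739e18a49638264575124d55901430061c1084b2aa6fba8aed6dd79865f71a2cd38824f30adb0cf5d32c778269638a49e15124575904d51430061c1084aacbe9a2eb6b65f71a6dd79824f30a2cd388cb4df1c36d738269638a49e15534165d14940c5180047102be9aacb6ba2e7986dd71a65f28c3c920e34bdb0cf5d32c779e18a49638264165534945d10c5180047102a6fb2aaedba871a65f7986dd2cd38824f30ad73c36df1cb48679228e59a04165534945d11c1084143006b2aa6fba8aed7986dd71a65f20e34b28c3c9c77d32cf5db09a08e59228675534165d14941c1084143006aacbe9a2eb6b71a65f7986dd28c3c920e34bd73c36df1cb49a08e592286751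24575904d50471020c5180be9aacb6ba2e6dd79865f71a24f30a2cd388c77d32cf5db08679228e59a04575124d55900471020c5180a6fb2aaedba865f71a6dd7985564915174d00421850031c4a2bbeca6abad7dc61b79d65a30f2c834e289db5c72df4c338e09278a19664135d44525950421850031c4bada6abeca2b75e69971f6d83cc20b38d24acb1d76cf0d379278e09668a14525954135d41c4003185042ae8b2faa9b6e69975e6d871f34e28930f2c8db5c72df4c339278e09668a15174d05564911c4003185042b6eaa9b2fae861b7dc65a79d38d24a3cc20bcb1d76cf0d378e09278a19665174d05564910c0107081146a2bbeca6abad69975e6d871f3cc20b38d24ac72db5c33df49668a19278e04525954135d40c0107081146bada6abeca2b61b7dc65a79d30f2c834e289d76cb1d37cf08a19668e09274135d44525951460811070c0ae8b2faa9b6e7dc61b79d65a38d24a3cc20bc72db5c33df48a19668e09275564915174d01460811070c0b6eaa9b2fae875e69971f6d834e28930f2c8d76cb1d37cf09668a19278e07596df61c79a38a20c2cf349d30cb6c75df38659e39208a65d34554965100c7141182004aaeb28beba6d7db65d69e7183492cf20c38ac34db2d71cf79a28248e79614965105d34550c7141182004b28aaea6dbeb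61c79a7596df3cb24d28e308d30cb6c75df39a28248e79614d75515924141410c7004182a6dbebb28aae69e7187db65d30828e24d3cbc34db2d71cf78659e39208a65924144d75511410c7004182beba6daaeb2861c79a7596df3492cf20c38acf7d71db2c349e38658a69205924144d75510451c3100086aaeb28beba6d69e7187db65d38a20c2cf349df3c75cb6d308249a29618e74d75515924140451c3100086b28aaea6dbeb7596df61c79a30828e24d3cbcf7d71db2c348249a29618e74965105d34551c3045086100a6dbebb28aae7db65d69e7183cb24d28e308df3c75cb6d309e38658a69205d34554965101c3045086100beba6daaeb288228e19e5926594557453490080043147184ae9a2ab2ebed71e7dd6d961a3cd30e20a2c9d77db4cb0c739e59268228e14d14125165d5080043147184b6fbacaa8a6b79c75f65b69830e3cd2c920ac73cb0db4d779e59268228e14904535575941061c50c1002a2aae9bedb2e65b69879c75f38c34f24b288d77db4cb0c738228e19e59265d55164124d11061c50c1002bacb6fa6baa86d961a71e7dd34f38c28824bc73cb0db4d779a49678638a05d55164124d10020c11c5106ae9a2ab2ebed65b69879c75f30e3cd2c920acb0c73d77db48638a09a49674904535575940020c11c5106b6fbacaa8a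6b6d961a71e7dd3cd30e20a2c9db4d77c73cb08638a09a49674d14125165d5184147043080a2aae9bedb2e71e7dd6d961a34f38c28824bcb0c73d77db49a49678638a0594557453490184147043080bacb6fa6baa879c75f65b69838c34f24b288db4d77c73cb0bafaaba29b2d65875c7de6da28b38f30d209c31d35db7cb39648608e29e64d25d65544501c60c2040144a29b2dbafaab6da7de75c65824834c3ce2cad35c31cb3db78a39a79258215974934115151c60c2040144b6ca68aeabee71d61969b79f2ca3ce34c248c31d35db7cb38a39a79258215d64d24505540401441c60c2aeabeeb6ca6879f69b61971d20930d38f28bd35c31cb3db79648608e29e64935975154110401441c60c2bafaaba29b2d71d61969b79f24834c3ce2cadf6cf2c70d748e29e69648604935975154111440400c21c6a29b2dbafaab79f69b61971d28b38f30d209cf2df6d74c709258218a39a75d64d24505541440400c21c6b6ca68aeabee65875c7de6da20930d38f28bdf6cf2c70d749258218a39a75974934115150c21c6144040aeabeeb6ca686da7de75c6582ca3ce34c248cf2df6d74c708e29e69648604d25d65544500c21c6144040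

/-- `x⁻¹ y x` on the second coset -/
def T2 : ℕ := 0xdf3c75cb6d308e79619a28244965105d34551410c7004182baaa2caefb6971869e65d7db24d3cb30828ecb6d30df3c758249a29618e75514d74145920c7141182004beba6daaeb2879a61c6df75924d3cb30828ecf7d71db2c348249a29618e74965105d34551c3045086100a6dbebb28aae7596df61c79a30828e24d3cbdb2c34cf7d718e79619a28245514d74145920451c3100086a2cbaab69aef7db65d69e71830828e24d3cbdb2c34cf7d719e38658a69204145925514d70c7141182004a6dbebb28aae71869e65d7db28e3083cb24dcf7d71db2c349208a68659e35d34554965101410c7004182a2cbaab69aef79a61c6df75928e3083cb24dcb6d30df3c759208a68659e34145925514d70451c3100086baaa2caefb697596df61c79a3cb24d28e308df3c75cb6d309e38658a69205d34554965101c3045086100beba6daaeb287db65d69e7183cb24d28e3080471020c5180be9aacb6ba2e6dd79865f71a28c3c920e34bd73c36df1cb49a08e59228675124575904d50c5180047102a2eb6baacbe969c7d961e75b3c928c34b20ec77d32cf5db09638269e18a45124575904d51c1084143006a2eb6baacbe96dd79865f71a24f30a2cd388d32c77db0cf58a49e1826963590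4d55124571430061c1084be9aacb6ba2e69c7d961e75b30a24f3882cdc36d73cb4df18679228e59a05904d55124571430061c1084a6fb2aaedba861e75b69c7d93c928c34b20ed32c77db0cf59a08e59228674d55904575121c1084143006ba8aedb2aa6f65f71a6dd79828c3c920e34bc36d73cb4df19638269e18a44d55904575120c5180047102ba8aedb2aa6f61e75b69c7d930a24f3882cdd73c36df1cb48a49e18269634575124d55900471020c5180a6fb2aaedba865f71a6dd79824f30a2cd388c77d32cf5db08679228e59a04575124d559030938b3ca348c74cf6cb7c359e29609219a34d64544154970870050440c6b68beababb2979b7197587da3ca34830938bc35cb7cf6c748e68648258a74544d64974151011831c2140aafa2da6caee79b7197587da24c2ce28f20dc35cb7cf6c749e29609219a35115935d25501831011401c2aeea6ca2daaf7587da79b71928f20d24c2cec74cf6cb7c358e68648258a75935115505d20050870c6044b29babbeab687587da79b71928f20d24c2ced31db3df2d708258a78e68644544d64974151831011401c2b68beababb297da75871979b24c2ce28f20dd70df2db3d319219a39e29604d64544154970050870c6044aafa2da6caee7da75871979b3ca34830938bd70df2db3d318258a78e68645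935115505d20870050440c6aeea6ca2daaf71979b7da75830938b3ca348d31db3df2d709219a39e29605115935d25501011831c2140b29babbeab6871979b7da7585945574534901061c50c1002a6baa8bacb6f7dd71e61a6d92c920a30e3cdcb0c73d77db49679a48a08634534905945570020c11c5106bedb2ea2aae971e7dd6d961a38c34f24b288cf1c32d36df59679a48a08635165d54d14120020c11c5106a6baa8bacb6f79c75f65b69834f38c28824bdf5d36c32cf18a08639679a44d14125165d51061c50c1002bedb2ea2aae975f79c69865b20a2c93cd30edb4d77c73cb08a08639679a44d14125165d5184147043080a2aae9bedb2e71e7dd6d961a34f38c28824bcb0c73d77db48638a09a49675165d54d1412080043147184bacb6fa6baa87dd71e61a6d920a2c93cd30ecf1c32d36df58638a09a4967453490594557080043147184a2aae9bedb2e75f79c69865b2c920a30e3cddf5d36c32cf19a49678638a0594557453490184147043080bacb6fa6baa879c75f65b69838c34f24b288db4d77c73cb09a49678638a075e69971f6d838d24a3cc20bd37cf0d76cb18629a58239e45d44135954520c0107081146aa9b6eae8b2f71f6d875e69920b3cc24a38dc72db5c33df49a58629e48235564915174d01c4003185042aa9b6eae8b2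f79d65a7dc61b20b3cc24a38dd37cf0d76cb19668a19278e04915564d05170421850031c4ae8b2faa9b6e7dc61b79d65a38d24a3cc20bc72db5c33df48a19668e09274135d44525951460811070c0ae8b2faa9b6e7dc61b79d65a34e28930f2c8c33df4c72db59a58629e48234915564d05170c0107081146b2fae8b6eaa979d65a7dc61b2c830f28934ed76cb1d37cf08629a58239e44135d44525951c4003185042b2fae8b6eaa971f6d875e6992c830f28934ec33df4c72db58a19668e09275d44135954520421850031c4b6eaa9b2fae875e69971f6d834e28930f2c8d76cb1d37cf09668a19278e05564915174d01460811070c0b6eaa9b2fae88a58e49a19e05525134564171811c00850c4b2bb6aa2fa6e65e61f75a71b3c83892cc28dcf4cb5df0db19a19e08a58e4417456513552103142007046b6ab2ba6ea2f69d6dc7997d824e20f34a30bcf4cb5df0db19629238668274174565135521811c00850c4aadaecba9be86dc69d7d879930b34a20f24edf0db1cf4cb5866827962923552513456417103142007046aecaadbe8ba961f65e71b75a28d2cc3893c8df0db1cf4cb58668279629234954d45915d0007046103142b6ab2ba6ea2f6dc69d7d87993c83892cc28ddb1df0cb5cf49629238668275d05914d44950850c41811c0b2bb6aa2f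a6e61f65e71b75a24e20f34a30bdb1df0cb5cf49a19e08a58e45d05914d4495007046103142aecaadbe8ba965e61f75a71b30b34a20f24ecb5cf4db1df08a58e49a19e04954d45915d00850c41811c0aadaecba9be869d6dc7997d828d2cc3893c8cb5cf4db1df0aeabeeb6ca6869b79f71d61934c2482ca3cedb7cb3c31d359258218a39a74505545d64d21c60c2040144b6ca68aeabee61971d79f69b38f28b20930dcb3db7d35c318e29e69648605154114935971c60c2040144aabbafb2da2961971d79f69b34c2482ca3cecf2df6d74c709e68e28609645974934115150401441c60c2b2da29aabbaf69b79f71d61938f28b20930ddf6cf2c70d748219259a78a34d25d65544500401441c60c2b2da29aabbaf6da7de75c65820930d38f28bcb3db7d35c319e68e28609644505545d64d21440400c21c6aabbafb2da2965875c7de6da2ca3ce34c248db7cb3c31d358219259a78a35154114935971440400c21c6b6ca68aeabee65875c7de6da20930d38f28bdf6cf2c70d749258218a39a75974934115150c21c6144040aeabeeb6ca686da7de75c6582ca3ce34c248cf2df6d74c708e29e69648604d25d65544500c21c6144040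

/-- `x y x⁻¹` on the second coset -/
def U2 : ℕ := 0xdf2d31db3d704974544d6415babb68beab2924c28f20d2ce8e68258a78641401831011c27197da75879bcf6c35cb7c745d2511593550a2daeea6caaf28f24c2ce20d9219e29609a31401831011c279b7587da719db3d70df2d315505935115d2a2daeea6caaf3093ca34838b8e68258a78640440870050c67da71979b758cb7c74cf6c354154d6454497babb68beab293ca30938b3489219e29609a30440870050c675879b7197dacb7c74cf6c355505935115d2beab29babb6824c28f20d2ce8258e68648a70c600508704479b7587da719db3d70df2d314154d6454497a6caafa2daee28f24c2ce20d9e29219a39600c60050870447197da75879bcf6c35cb7c744974544d6415a6caafa2daee3093ca34838b8258e68648a71c210118314075879b7197dadf2d31db3d705d2511593550beab29babb683ca30938b3489e29219a39601c21011831407da71979b7584d45d0591495be8aecaadba920f30b34a24e8a59a19e08e410300704614275a65e61f71bdb1cb5cf4df05914954d45d0a6eb6ab2ba2f2cc3c838928d9628668279231030070461427d86dc69d799cb5db1df0cf4513417456552a6eb6ab2ba2f34a24e20f30b8a59a19e08e400710314204679969d6dc7d8df0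cf4cb5db1456552513417be8aecaadba938928d2cc3c896286682792300710314204671b61f65e75acf4df0db1cb5513417456552ba9aadaecbe820f30b34a24e8669629238270851811c00c47d86dc69d799cf4df0db1cb5456552513417a2fb2bb6aa6e2cc3c838928d9a18a58e49e00851811c00c475a65e61f71bdf0cf4cb5db14d45d0591495a2fb2bb6aa6e34a24e20f30b8669629238271810850c41c071b61f65e75acb5db1df0cf45914954d45d0ba9aadaecbe838928d2cc3c89a18a58e49e01810850c41c079969d6dc7d8db1cb5cf4df0aaca2eb6bbe934b3c928c20e9e19638268a40470c518010261e69c7d975bcf5c77d32db05905124574d5b2aba8aeda6f38830a24f2cd8268a49e19630470c518010269c61e75b7d9df1d73c36cb44d5457512590b2aba8aeda6f20e28c3c934b9e19638268a41431c10840066dd65f71a798cb4c36d73df14574d5590512aaca2eb6bbe92cd24f30a3888268a49e19631431c108400665f6dd79871adb0d32c77cf55125904d5457aeda6fb2aba834b3c928c20e9229a08e58671c114300608469c61e75b7d9db0d32c77cf54574d5590512b6bbe9aaca2e38830a24f2cd8e58679229a01c114300608461e69c7d975bcb4c36d73df15125904d5457b6bbe9aaca2e20e28c3c934b9229a08e58670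c504710218065f6dd79871adf1d73c36cb45905124574d5aeda6fb2aba82cd24f30a3888e58679229a00c50471021806dd65f71a798cf5c77d32db04d54575125902892c830f34e8238629a59e41851c40030427dc79d65a61bd37d76cb1cf04524135d4595b6eb2fae8aa924a20b3cc38d9e49a58628231851c400304275e71f6d8699c33c72db5df45175564914d0ae8aa9b6eb2f3cc38d24a20b8238629a59e40810c010714671f75e6996d8d76d37cf0cb15955d4413452ae8aa9b6eb2f30f34e2892c89e49a58628230810c010714679d7dc61b65ac72c33df4db54d0491556517b6eb2fae8aa92892c830f34e8e08a19669270030421851c475e71f6d8699c72c33df4db55955d4413452b2fb6eaa9ae824a20b3cc38d9279668a18e00030421851c47dc79d65a61bd76d37cf0cb14d0491556517aa9ae8b2fb6e3cc38d24a20b8e08a19669271071460810c079d7dc61b65ac33c72db5df44524135d4595aa9ae8b2fb6e30f34e2892c89279668a18e01071460810c071f75e6996d8d37d76cb1cf05175564914d0b2fb6eaa9ae89a28e79618240041410c718265d71869e7dbcb6df3c75d305d3496510455aefbaaa2cb6930824d3cb28e8659208a69e30041410c71826df79a61c759db2cf7d71c344965d3455510b69a2cbaaaef3cb28e30824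d9a28e79618241000451c308669e7db65d718cf7db2c34d714145514d7592b69a2cbaaaef24d30828e3cb8659208a69e31000451c308661c7596df79adf3cb6d30c755514145924d7aefbaaa2cb6928e3cb24d3089618249a28e71820c71410046df79a61c759df3cb6d30c754145514d7592aaebeba6db2830824d3cb28e8a69e38659201820c714100465d71869e7dbcf7db2c34d715514145924d7b28a6dbebaae3cb28e30824d9618249a28e70861c304510061c7596df79adb2cf7d71c345d3496510455b28a6dbebaae24d30828e3cb8a69e38659200861c304510069e7db65d718cb6df3c75d304965d3455510aaebeba6db2828e3cb24d3080c11061c500269875f79c65bc73db4d77cb05164d14125d5a2abedb2eae93cd20a2c930e9678a08639a40c11061c500261a7dd71e6d9d77cb0c73db4453594557490baca6baa8b6f30e2c920a3cd8a09679a48631c50020c110665b79c75f698c32df5d36cf14d15165d5412baca6baa8b6f28834f38c24b9678a08639a41c50020c11066d971e7dd61ad36cf1c32df5594453490557a2abedb2eae924b38c34f2888a09679a486314708004318461a7dd71e6d9d36cf1c32df54d15165d5412a6bbacb6faa83cd20a2c930e9a48638a096714708004318469875f79c65bc32df5d36cf1594453490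557beda2aae9b2e30e2c920a3cd8639a49678a00431841470806d971e7dd61ad77cb0c73db45164d14125d5beda2aae9b2e28834f38c24b9a48638a096704318414708065b79c75f698c73db4d77cb0453594557490a6bbacb6faa824b38c34f2888639a49678a079f61971d69bd74cf2df6c70411597493515b2daabbafa292ca34c2483ce8609e68e29641c60401440c271d69b79f619c70df6cf2d745544d25d6450aabb2da29baf20938f28b30d9a78219258a31c60401440c275c6da7de658d35cb3db7c315d64505544d2aabb2da29baf38f20930d28b8609e68e29640c21440401c67de65875c6dac31db7cb3d35493515411597b2daabbafa2934c2ca3ce2489a78219258a30c21440401c671d69b79f619c31db7cb3d355d64505544d2b6caeabeea682ca34c2483ce8a39258219a70401c60c214479f61971d69bd35cb3db7c31493515411597aeab6ca68bee20938f28b30d9648e29e68600401c60c21447de65875c6dac70df6cf2d74411597493515aeab6ca68bee38f20930d28b8a39258219a71440c21c604075c6da7de658d74cf2df6c705544d25d6450b6caeabeea6834c2ca3ce2489648e29e68601440c21c6040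

/-- the tables `T`, `U` are correct for the coset `{B, …, B + 55}` -/
def Good (B T U : ℕ) : Prop := B + 56 ≤ 168 ∧ ∀ i < 56, ∀ j < 56,
  (tb T i j < 56 ∧ mulN (B + i) (B + tb T i j) = mulN (B + j) (B + i)) ∧
  (tb U i j < 56 ∧ mulN (B + tb U i j) (B + i) = mulN (B + i) (B + j))

/-- the check of `Good` -/
def goodN (B T U : ℕ) : Bool := allN 56 fun i => allN 56 fun j =>
  cond (Nat.ble (tb T i j) 55)
    (cond (Nat.beq (mulN (Nat.add B i) (Nat.add B (tb T i j))) (mulN (Nat.add B j) (Nat.add B i)))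
      (cond (Nat.ble (tb U i j) 55)
        (Nat.beq (mulN (Nat.add B (tb U i j)) (Nat.add B i)) (mulN (Nat.add B i) (Nat.add B j)))
        false) false) false

theorem cond_false {a b : Bool} (h : cond a b false = true) : a = true ∧ b = true := by
  cases a
  · exact absurd h Bool.false_ne_true
  · exact ⟨rfl, h⟩

theorem good_of {B T U : ℕ} (hB : B + 56 ≤ 168) (h : goodN B T U = true) : Good B T U := by
  refine ⟨hB, fun i hi j hj => ?_⟩
  have h1 := allN_spec (allN_spec h i hi) j hj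
  obtain ⟨h2, h3⟩ := cond_false h1
  obtain ⟨h4, h5⟩ := cond_false h3
  obtain ⟨h6, h7⟩ := cond_false h5
  have h8 := Nat.le_of_ble_eq_true h2
  have h9 := Nat.le_of_ble_eq_true h6
  exact ⟨⟨by omega, Nat.eq_of_beq_eq_true h4⟩, ⟨by omega, Nat.eq_of_beq_eq_true h7⟩⟩

theorem good1 : Good 56 T1 U1 := good_of (by norm_num) (by decide +kernel)

theorem good2 : Good 112 T2 U2 := good_of (by norm_num) (by decide +kernel)

/-- the labels at the top of a braid, passed to `fin` -/
def goQ (T U : ℕ) (fin : ℕ → ℕ → ℕ → Bool) (w : List (Bool × Bool)) : ℕ → ℕ → ℕ → Bool :=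
  List.rec (motive := fun _ => ℕ → ℕ → ℕ → Bool) fin
    (fun l _ ih a b c =>
      cond l.1 (cond l.2 (ih a (tb T b c) b) (ih a c (tb U c b)))
        (cond l.2 (ih (tb T a b) a c) (ih b (tb U b a) c))) w

/-- the element with a given code -/
def mkQ (e : ℕ) (h : e < 168) : Q := (⟨e, h⟩ : Fin 168)

theorem conj_val {B T U : ℕ} (hB : Good B T U) {X Y : Q} {a b : ℕ} (ha : a < 56) (hb : b < 56)
    (hX : X.1 = B + a) (hY : Y.1 = B + b) :
    (X⁻¹ * Y * X).1 = B + tb T a b ∧ (X * Y * X⁻¹).1 = B + tb U a b := by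
  obtain ⟨h0, h1⟩ := hB
  obtain ⟨⟨h2, h3⟩, ⟨h4, h5⟩⟩ := h1 a ha b hb
  constructor
  · have hv : B + tb T a b < 168 := by omega
    have h6 : X * mkQ (B + tb T a b) hv = Y * X := by
      apply Q_ext
      rw [val_mul, val_mul, hX, hY]
      exact h3
    rw [mul_assoc, ← h6, inv_mul_cancel_left]
    rfl
  · have hv : B + tb U a b < 168 := by omega
    have h6 : mkQ (B + tb U a b) hv * X = X * Y := by
      apply Q_ext
      rw [val_mul, val_mul, hX, hY]
      exact h5
    rw [← h6, mul_inv_cancel_right]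
    rfl

theorem goQ_spec {B T U : ℕ} (hB : Good B T U) (fin : ℕ → ℕ → ℕ → Bool) (w : List (Bool × Bool)) :
    ∀ (a b c : ℕ) (X Y Z : Q) (u : Q × Q × Q), a < 56 → b < 56 → c < 56 →
    X.1 = B + a → Y.1 = B + b → Z.1 = B + c →
    ∃ a' b' c', a' < 56 ∧ b' < 56 ∧ c' < 56 ∧ goQ T U fin w a b c = fin a' b' c' ∧
      (w.foldl stT ((X, Y, Z), u)).1.1.1 = B + a' ∧
      (w.foldl stT ((X, Y, Z), u)).1.2.1.1 = B + b' ∧
      (w.foldl stT ((X, Y, Z), u)).1.2.2.1 = B + c' := by
  induction w with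
  | nil =>
    intro a b c X Y Z u ha hb hc hX hY hZ
    exact ⟨a, b, c, ha, hb, hc, rfl, hX, hY, hZ⟩
  | cons l w ih =>
    intro a b c X Y Z u ha hb hc hX hY hZ
    obtain ⟨i, e⟩ := l
    cases i <;> cases e
    · exact ih b (tb U b a) c Y (Y * X * Y⁻¹) Z _ hb (hB.2 b hb a ha).2.1 hc hY
        (conj_val hB hb ha hY hX).2 hZ
    · exact ih (tb T a b) a c (X⁻¹ * Y * X) X Z _ (hB.2 a ha b hb).1.1 ha hc
        (conj_val hB ha hb hX hY).1 hX hZ
    · exact ih a c (tb U c b) X Z (Z * Y * Z⁻¹) _ ha hc (hB.2 c hc b hb).2.1 hX hZ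
        (conj_val hB hc hb hZ hY).2
    · exact ih a (tb T b c) b X (Y⁻¹ * Z * Y) Y _ ha (hB.2 b hb c hc).1.1 hb hX
        (conj_val hB hb hc hY hZ).1 hY

/-- is the closure of the labels `a b c` consistent? -/
def testQ (T U : ℕ) (w : List (Bool × Bool)) (a b c : ℕ) : Bool :=
  goQ T U (fun a' b' c' => cond (Nat.beq a' a) (cond (Nat.beq b' b) (Nat.beq c' c) false) false)
    w a b c

theorem testQ_iff {B T U : ℕ} (hB : Good B T U) (w : List (Bool × Bool)) {a b c : ℕ} {X Y Z : Q}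
    (ha : a < 56) (hb : b < 56) (hc : c < 56) (hX : X.1 = B + a) (hY : Y.1 = B + b)
    (hZ : Z.1 = B + c) :
    testQ T U w a b c = true ↔ (run (w.map dec) ![X, Y, Z]).lab = ![X, Y, Z] := by
  obtain ⟨a', b', c', -, -, -, h1, h2, h3, h4⟩ := goQ_spec hB
    (fun a' b' c' => cond (Nat.beq a' a) (cond (Nat.beq b' b) (Nat.beq c' c) false) false) w
    a b c X Y Z (1, 1, 1) ha hb hc hX hY hZ
  have h5 := (run_stT w ⟨![X, Y, Z], id, fun _ => 1⟩ ((X, Y, Z), (1, 1, 1)) rfl (by
    intro j; fin_cases j <;> rfl)).1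
  unfold testQ run
  rw [h1, h5]
  constructor
  · intro h
    obtain ⟨h6, h7⟩ := cond_false h
    obtain ⟨h8, h9⟩ := cond_false h7
    have e1 := Nat.eq_of_beq_eq_true h6
    have e2 := Nat.eq_of_beq_eq_true h8
    have e3 := Nat.eq_of_beq_eq_true h9
    have f1 := Q_ext (h2.trans (by rw [e1, hX]) : _ = X.1)
    have f2 := Q_ext (h3.trans (by rw [e2, hY]) : _ = Y.1)
    have f3 := Q_ext (h4.trans (by rw [e3, hZ]) : _ = Z.1)
    rw [f1, f2, f3]
  · intro h
    have f1 := congrFun h 0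
    have f2 := congrFun h 1
    have f3 := congrFun h 2
    simp only [Matrix.cons_val_zero, Matrix.cons_val_one, Matrix.cons_val_two, Matrix.head_cons,
      Matrix.tail_cons] at f1 f2 f3
    rw [f1, hX] at h2
    rw [f2, hY] at h3
    rw [f3, hZ] at h4
    have e1 : a' = a := by omega
    have e2 : b' = b := by omega
    have e3 : c' = c := by omega
    subst e1 e2 e3
    simp

theorem count {B : ℕ} (hB : B = 56 ∨ B = 112) (P : Q → Q → Prop) (test : ℕ → ℕ → Bool)
    (h1 : ∀ y z, P y z → y.1 / 56 = B / 56 ∧ z.1 / 56 = B / 56)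
    (h2 : ∀ i < 56, ∀ j < 56, ∀ y z : Q, y.1 = B + i → z.1 = B + j → (test i j = true ↔ P y z)) :
    Nat.card {p : Q × Q // P p.1 p.2} =
      sumN 56 fun i => sumN 56 fun j => cond (test i j) 1 0 := by
  have hlt : ∀ i < 56, B + i < 168 := by
    intro i hi
    rcases hB with h | h <;> omega
  let c : Fin 56 → Q := fun i => (⟨B + i.1, hlt i.1 i.2⟩ : Fin 168)
  have hc : ∀ i, (c i).1 = B + i.1 := fun i => rfl
  have hinj : ∀ i j, c i = c j → i = j := by
    intro i j h
    have h3 := congrArg (fun q : Q => q.1) h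
    simp only [hc] at h3
    apply Fin.ext
    omega
  have hsurj : ∀ y : Q, y.1 / 56 = B / 56 → ∃ i, c i = y := by
    intro y hy
    have h3 : B ≤ y.1 ∧ y.1 - B < 56 := by
      rcases hB with h | h <;> (subst h; omega)
    refine ⟨⟨y.1 - B, h3.2⟩, Q_ext ?_⟩
    rw [hc]
    simp only
    omega
  let f : {q : Fin 56 × Fin 56 // test q.1.1 q.2.1 = true} → {p : Q × Q // P p.1 p.2} :=
    fun q => ⟨(c q.1.1, c q.1.2), (h2 _ q.1.1.2 _ q.1.2.2 _ _ (hc _) (hc _)).1 q.2⟩
  have hf : Function.Bijective f := by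
    constructor
    · intro q q' h
      have h3 := congrArg (fun p => p.1.1) h
      have h4 := congrArg (fun p => p.1.2) h
      exact Subtype.ext (Prod.ext (hinj _ _ h3) (hinj _ _ h4))
    · rintro ⟨⟨y, z⟩, hp⟩
      obtain ⟨hy, hz⟩ := h1 _ _ hp
      obtain ⟨i, hi⟩ := hsurj y hy
      obtain ⟨j, hj⟩ := hsurj z hz
      refine ⟨⟨(i, j), ?_⟩, ?_⟩
      · apply (h2 _ i.2 _ j.2 y z (by rw [← hi]) (by rw [← hj])).2
        exact hp
      · apply Subtype.ext
        exact Prod.ext hi hj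
  rw [← Nat.card_eq_of_bijective f hf, Nat.card_eq_fintype_card, Fintype.card_subtype,
    Finset.card_filter, Fintype.sum_prod_type, sumN_eq, Finset.sum_range]
  apply Finset.sum_congr rfl
  intro i _
  rw [sumN_eq, Finset.sum_range]
  apply Finset.sum_congr rfl
  intro j _
  cases test i.1 j.1 <;> rfl

/-! ### the words -/

/-- `wa` -/
def waL : List (Bool × Bool) :=
  [(false, true), (false, true), (false, true), (true, false), (false, true), (true, false),
   (false, true), (false, true), (true, false), (true, false)]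

/-- `wb` -/
def wbL : List (Bool × Bool) :=
  [(false, false), (false, false), (false, false), (true, true), (false, false), (true, true),
   (true, true), (true, true), (false, true), (false, true), (true, true), (true, true)]

/-- `wb.reverse` -/
def wrL : List (Bool × Bool) :=
  [(true, true), (true, true), (false, true), (false, true), (true, true), (true, true),
   (true, true), (false, false), (true, true), (false, false), (false, false), (false, false)]

theorem wa_eq : wa = waL.map dec := rfl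

theorem wb_eq : wb = wbL.map dec := rfl

theorem wr_eq : wb.reverse = wrL.map dec := rfl

theorem perm_wa : perm wa 0 = 1 ∧ perm wa 1 = 2 ∧ perm wa 2 = 0 := by decide

theorem perm_wb : perm wb 0 = 1 ∧ perm wb 1 = 2 ∧ perm wb 2 = 0 := by decide

theorem perm_wr : perm wb.reverse 0 = 2 ∧ perm wb.reverse 2 = 1 ∧ perm wb.reverse 1 = 0 := by
  decide

theorem knot_wa : IsKnot wa := by
  obtain ⟨h0, h1, _⟩ := perm_wa
  intro s
  fin_cases s
  · exact ⟨0, rfl⟩
  · exact ⟨1, h0⟩
  · exact ⟨2, by simp [Function.iterate_succ_apply, h0, h1]⟩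

theorem knot_wb : IsKnot wb := by
  obtain ⟨h0, h1, _⟩ := perm_wb
  intro s
  fin_cases s
  · exact ⟨0, rfl⟩
  · exact ⟨1, h0⟩
  · exact ⟨2, by simp [Function.iterate_succ_apply, h0, h1]⟩

theorem knot_wr : IsKnot wb.reverse := by
  obtain ⟨h0, h1, _⟩ := perm_wr
  intro s
  fin_cases s
  · exact ⟨0, rfl⟩
  · exact ⟨2, by simp [Function.iterate_succ_apply, h0, h1]⟩
  · exact ⟨1, h0⟩

/-! ### evaluation of the longitudes -/

/-- the position indexed longitudes at the top of a braid, passed to `fin` -/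
def goL (fin : ℕ → ℕ → ℕ → Bool) (w : List (Bool × Bool)) :
    ℕ → ℕ → ℕ → ℕ → ℕ → ℕ → Bool :=
  List.rec (motive := fun _ => ℕ → ℕ → ℕ → ℕ → ℕ → ℕ → Bool) (fun _ _ _ u v t => fin u v t)
    (fun l _ ih a b c u v t =>
      cond l.1
        (cond l.2 (ih a (mulN (mulN (invN b) c) b) b u (mulN t b) v)
          (ih a c (mulN (mulN c b) (invN c)) u t (mulN v (invN c))))
        (cond l.2 (ih (mulN (mulN (invN a) b) a) a c (mulN v a) u t)
          (ih b (mulN (mulN b a) (invN b)) c v (mulN u (invN b)) t))) w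

theorem goL_spec (fin : ℕ → ℕ → ℕ → Bool) (w : List (Bool × Bool)) :
    ∀ X Y Z u v t : Q, goL fin w X.1 Y.1 Z.1 u.1 v.1 t.1 =
      fin (w.foldl stT ((X, Y, Z), (u, v, t))).2.1.1 (w.foldl stT ((X, Y, Z), (u, v, t))).2.2.1.1
        (w.foldl stT ((X, Y, Z), (u, v, t))).2.2.2.1 := by
  induction w with
  | nil => intro X Y Z u v t; rfl
  | cons l w ih =>
    intro X Y Z u v t
    obtain ⟨i, e⟩ := l
    cases i <;> cases e
    · exact ih Y (Y * X * Y⁻¹) Z v (u * Y⁻¹) t
    · exact ih (X⁻¹ * Y * X) X Z (v * X) u t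
    · exact ih X Z (Z * Y * Z⁻¹) u t (v * Z⁻¹)
    · exact ih X (Y⁻¹ * Z * Y) Y u (t * Y) v

theorem lon_eq (w : List (Bool × Bool)) (X Y Z : Q) (j : Fin 3) :
    (run (w.map dec) ![X, Y, Z]).lon j =
      ![(w.foldl stT ((X, Y, Z), (1, 1, 1))).2.1, (w.foldl stT ((X, Y, Z), (1, 1, 1))).2.2.1,
        (w.foldl stT ((X, Y, Z), (1, 1, 1))).2.2.2] (perm (w.map dec) j) := by
  rw [← B2.run_pos (w.map dec) ![X, Y, Z] j]
  exact (run_stT w ⟨![X, Y, Z], id, fun _ => 1⟩ ((X, Y, Z), (1, 1, 1)) rfl (by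
    intro j; fin_cases j <;> rfl)).2 j

/-! ### counting with weights -/

/-- the number of solutions of `test`, if all of them satisfy `good` -/
def cnt (test good : ℕ → ℕ → Bool) : ℕ :=
  sumN 56 fun i => sumN 56 fun j => cond (test i j) (cond (good i j) 1 100) 0

theorem cnt_spec {test good : ℕ → ℕ → Bool} {n : ℕ} (hn : n < 100) (h : cnt test good = n) :
    (∀ i < 56, ∀ j < 56, test i j = true → good i j = true) ∧
      (sumN 56 fun i => sumN 56 fun j => cond (test i j) 1 0) = n := by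
  unfold cnt at h
  rw [sumN_eq] at h
  have h1 : ∀ i < 56, ∀ j < 56, test i j = true → good i j = true := by
    intro i hi j hj ht
    by_contra hg
    have h2 : sumN 56 (fun j => cond (test i j) (cond (good i j) 1 100) 0) ≤ n := by
      rw [← h]
      exact Finset.single_le_sum
        (f := fun i => sumN 56 (fun j => cond (test i j) (cond (good i j) 1 100) 0))
        (fun _ _ => Nat.zero_le _) (Finset.mem_range.2 hi)
    rw [sumN_eq] at h2
    have h3 : cond (test i j) (cond (good i j) 1 100) 0 ≤ n :=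
      le_trans (Finset.single_le_sum (f := fun j => cond (test i j) (cond (good i j) 1 100) 0)
        (fun _ _ => Nat.zero_le _) (Finset.mem_range.2 hj)) h2
    have hg' : good i j = false := by simpa using hg
    rw [ht, hg'] at h3
    simp at h3
    omega
  refine ⟨h1, ?_⟩
  rw [sumN_eq, ← h]
  apply Finset.sum_congr rfl
  intro i hi
  rw [sumN_eq, sumN_eq]
  apply Finset.sum_congr rfl
  intro j hj
  cases ht : test i j
  · rfl
  · rw [h1 i (Finset.mem_range.1 hi) j (Finset.mem_range.1 hj) ht]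
    rfl

theorem κ_inj {x y : Q} (h : κ x = κ y) : x.1 / 56 = y.1 / 56 := by
  have hy : y.1 / 56 < 3 := by
    have := Q_lt y
    omega
  rcases (by omega : y.1 / 56 = 0 ∨ y.1 / 56 = 1 ∨ y.1 / 56 = 2) with h1 | h1 | h1
  · rw [h1, ← (κ_iff x).2.2, h, (κ_iff y).2.2, h1]
  · rw [h1, ← (κ_iff x).1, h, (κ_iff y).1, h1]
  · rw [h1, ← (κ_iff x).2.1, h, (κ_iff y).2.1, h1]

/-- the exponents: `x ^ 2` -/
theorem val_sq (x : Q) : (x ^ 2).1 = mulN x.1 x.1 := by
  rw [pow_two]
  rfl

theorem val_four (x : Q) : (x ^ 4).1 = mulN (mulN x.1 x.1) (mulN x.1 x.1) := by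
  have h : x ^ 4 = (x * x) * (x * x) := by
    simp only [pow_succ, pow_zero, one_mul, mul_assoc]
  rw [h]
  rfl

/-! ### the three words -/

theorem base_a {B T U : ℕ} (hG : Good B T U) (hB : B = 56 ∨ B = 112) {r n : ℕ} (hr : r < 56)
    (hn : n < 100) (H : cnt (fun i j => testQ T U waL i j r) (fun i j =>
      goL (fun u v t => Nat.beq (mulN (mulN u v) t) (mulN (Nat.add B r) (Nat.add B r))) waL
        (Nat.add B i) (Nat.add B j) (Nat.add B r) 0 0 0) = n) {x : Q} (hx : x.1 = B + r) :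
    Nat.card {p : Q × Q // (run wa ![p.1, p.2, x]).lab = ![p.1, p.2, x]} = n ∧
    ∀ y z : Q, (run wa ![y, z, x]).lab = ![y, z, x] → longitude wa ![y, z, x] 2 = x ^ 2 := by
  obtain ⟨H1, H2⟩ := cnt_spec hn H
  have hxB : x.1 / 56 = B / 56 := by
    rcases hB with h | h <;> (subst h; omega)
  have hk : ∀ y z : Q, (run wa ![y, z, x]).lab = ![y, z, x] →
      y.1 / 56 = B / 56 ∧ z.1 / 56 = B / 56 := by
    intro y z h
    have h1 := lab_abelian wa knot_wa κ ![y, z, x] h 0 2
    have h2 := lab_abelian wa knot_wa κ ![y, z, x] h 1 2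
    exact ⟨(κ_inj h1).trans hxB, (κ_inj h2).trans hxB⟩
  constructor
  · rw [← H2]
    apply count hB (fun y z => (run wa ![y, z, x]).lab = ![y, z, x])
      (fun i j => testQ T U waL i j r) hk
    intro i hi j hj y z hy hz
    exact testQ_iff hG waL hi hj hr hy hz hx
  · intro y z h
    obtain ⟨hy, hz⟩ := hk y z h
    have hy' : y.1 = B + (y.1 - B) ∧ y.1 - B < 56 := by
      rcases hB with h | h <;> (subst h; omega)
    have hz' : z.1 = B + (z.1 - B) ∧ z.1 - B < 56 := by
      rcases hB with h | h <;> (subst h; omega)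
    have h1 := H1 _ hy'.2 _ hz'.2 ((testQ_iff hG waL hy'.2 hz'.2 hr hy'.1 hz'.1 hx).2 h)
    have e1 : Nat.add B (y.1 - B) = y.1 := hy'.1.symm
    have e2 : Nat.add B (z.1 - B) = z.1 := hz'.1.symm
    have e3 : Nat.add B r = x.1 := hx.symm
    simp only [e1, e2, e3] at h1
    have h2 := goL_spec (fun u v t => Nat.beq (mulN (mulN u v) t) (mulN x.1 x.1)) waL y z x 1 1 1
    rw [val_one] at h2
    rw [h2] at h1
    have h3 := Nat.eq_of_beq_eq_true h1
    obtain ⟨p0, p1, p2⟩ := perm_wa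
    rw [B2.lon3 wa ![y, z, x] 2 0 1 p2 p0 p1 (by decide)]
    apply Q_ext
    rw [val_sq, ← h3]
    rw [wa_eq] at p0 p1 p2 ⊢
    rw [lon_eq, lon_eq, lon_eq, p0, p1, p2]
    rfl

theorem base_b {B T U : ℕ} (hG : Good B T U) (hB : B = 56 ∨ B = 112) {r n : ℕ} (hr : r < 56)
    (hn : n < 100) (H : cnt (fun i j => testQ T U wbL r i j) (fun i j =>
      goL (fun u v t => Nat.beq (mulN (mulN v t) u)
        (mulN (mulN (Nat.add B r) (Nat.add B r)) (mulN (Nat.add B r) (Nat.add B r)))) wbL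
        (Nat.add B r) (Nat.add B i) (Nat.add B j) 0 0 0) = n) {x : Q} (hx : x.1 = B + r) :
    Nat.card {p : Q × Q // (run wb ![x, p.1, p.2]).lab = ![x, p.1, p.2]} = n ∧
    ∀ y z : Q, (run wb ![x, y, z]).lab = ![x, y, z] →
      longitude wb ![x, y, z] 0 = x ^ 4 := by
  obtain ⟨H1, H2⟩ := cnt_spec hn H
  have hxB : x.1 / 56 = B / 56 := by
    rcases hB with h | h <;> (subst h; omega)
  have hk : ∀ y z : Q, (run wb ![x, y, z]).lab = ![x, y, z] →
      y.1 / 56 = B / 56 ∧ z.1 / 56 = B / 56 := by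
    intro y z h
    have h1 := lab_abelian wb knot_wb κ ![x, y, z] h 1 0
    have h2 := lab_abelian wb knot_wb κ ![x, y, z] h 2 0
    exact ⟨(κ_inj h1).trans hxB, (κ_inj h2).trans hxB⟩
  constructor
  · rw [← H2]
    apply count hB (fun y z => (run wb ![x, y, z]).lab = ![x, y, z])
      (fun i j => testQ T U wbL r i j) hk
    intro i hi j hj y z hy hz
    exact testQ_iff hG wbL hr hi hj hx hy hz
  · intro y z h
    obtain ⟨hy, hz⟩ := hk y z h
    have hy' : y.1 = B + (y.1 - B) ∧ y.1 - B < 56 := by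
      rcases hB with h | h <;> (subst h; omega)
    have hz' : z.1 = B + (z.1 - B) ∧ z.1 - B < 56 := by
      rcases hB with h | h <;> (subst h; omega)
    have h1 := H1 _ hy'.2 _ hz'.2 ((testQ_iff hG wbL hr hy'.2 hz'.2 hx hy'.1 hz'.1).2 h)
    have e1 : Nat.add B (y.1 - B) = y.1 := hy'.1.symm
    have e2 : Nat.add B (z.1 - B) = z.1 := hz'.1.symm
    have e3 : Nat.add B r = x.1 := hx.symm
    simp only [e1, e2, e3] at h1
    have h2 := goL_spec (fun u v t => Nat.beq (mulN (mulN v t) u)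
      (mulN (mulN x.1 x.1) (mulN x.1 x.1))) wbL x y z 1 1 1
    rw [val_one] at h2
    rw [h2] at h1
    have h3 := Nat.eq_of_beq_eq_true h1
    obtain ⟨p0, p1, p2⟩ := perm_wb
    rw [B2.lon3 wb ![x, y, z] 0 1 2 p0 p1 p2 (by decide)]
    apply Q_ext
    rw [val_four, ← h3]
    rw [wb_eq] at p0 p1 p2 ⊢
    rw [lon_eq, lon_eq, lon_eq, p0, p1, p2]
    rfl

theorem base_r {B T U : ℕ} (hG : Good B T U) (hB : B = 56 ∨ B = 112) {r n : ℕ} (hr : r < 56)
    (hn : n < 100) (H : cnt (fun i j => testQ T U wrL r i j) (fun i j =>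
      goL (fun u v t => Nat.beq (mulN (mulN t v) u)
        (mulN (mulN (Nat.add B r) (Nat.add B r)) (mulN (Nat.add B r) (Nat.add B r)))) wrL
        (Nat.add B r) (Nat.add B i) (Nat.add B j) 0 0 0) = n) {x : Q} (hx : x.1 = B + r) :
    Nat.card {p : Q × Q // (run wb.reverse ![x, p.1, p.2]).lab = ![x, p.1, p.2]} = n ∧
    ∀ y z : Q, (run wb.reverse ![x, y, z]).lab = ![x, y, z] →
      longitude wb.reverse ![x, y, z] 0 = x ^ 4 := by
  obtain ⟨H1, H2⟩ := cnt_spec hn H
  have hxB : x.1 / 56 = B / 56 := by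
    rcases hB with h | h <;> (subst h; omega)
  have hk : ∀ y z : Q, (run wb.reverse ![x, y, z]).lab = ![x, y, z] →
      y.1 / 56 = B / 56 ∧ z.1 / 56 = B / 56 := by
    intro y z h
    have h1 := lab_abelian wb.reverse knot_wr κ ![x, y, z] h 1 0
    have h2 := lab_abelian wb.reverse knot_wr κ ![x, y, z] h 2 0
    exact ⟨(κ_inj h1).trans hxB, (κ_inj h2).trans hxB⟩
  constructor
  · rw [← H2]
    apply count hB (fun y z => (run wb.reverse ![x, y, z]).lab = ![x, y, z])
      (fun i j => testQ T U wrL r i j) hk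
    intro i hi j hj y z hy hz
    exact testQ_iff hG wrL hr hi hj hx hy hz
  · intro y z h
    obtain ⟨hy, hz⟩ := hk y z h
    have hy' : y.1 = B + (y.1 - B) ∧ y.1 - B < 56 := by
      rcases hB with h | h <;> (subst h; omega)
    have hz' : z.1 = B + (z.1 - B) ∧ z.1 - B < 56 := by
      rcases hB with h | h <;> (subst h; omega)
    have h1 := H1 _ hy'.2 _ hz'.2 ((testQ_iff hG wrL hr hy'.2 hz'.2 hx hy'.1 hz'.1).2 h)
    have e1 : Nat.add B (y.1 - B) = y.1 := hy'.1.symm
    have e2 : Nat.add B (z.1 - B) = z.1 := hz'.1.symm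
    have e3 : Nat.add B r = x.1 := hx.symm
    simp only [e1, e2, e3] at h1
    have h2 := goL_spec (fun u v t => Nat.beq (mulN (mulN t v) u)
      (mulN (mulN x.1 x.1) (mulN x.1 x.1))) wrL x y z 1 1 1
    rw [val_one] at h2
    rw [h2] at h1
    have h3 := Nat.eq_of_beq_eq_true h1
    obtain ⟨p0, p1, p2⟩ := perm_wr
    rw [B2.lon3 wb.reverse ![x, y, z] 0 2 1 p0 p1 p2 (by decide)]
    apply Q_ext
    rw [val_four, ← h3]
    rw [wr_eq] at p0 p1 p2 ⊢
    rw [lon_eq, lon_eq, lon_eq, p0, p1, p2]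
    rfl

/-! ### conjugation -/

theorem conj_fun (u : Q) (x : Fin 3 → Q) : (fun j => (MulAut.conj u).toMonoidHom (x j)) =
    ![u * x 0 * u⁻¹, u * x 1 * u⁻¹, u * x 2 * u⁻¹] := by
  funext j
  fin_cases j <;> rfl

theorem lab_conj (w : BraidWord 2) (u : Q) (x : Fin 3 → Q) :
    (run w (fun j => u * x j * u⁻¹)).lab = (fun j => u * x j * u⁻¹) ↔ (run w x).lab = x := by
  have h := (run_map (MulAut.conj u).toMonoidHom w x).1
  have h' : (run w (fun j => u * x j * u⁻¹)).lab = fun j => u * (run w x).lab j * u⁻¹ := h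
  rw [h']
  constructor
  · intro h1
    funext j
    have h2 := congrFun h1 j
    simpa using h2
  · intro h1
    rw [h1]

theorem lon_conj (w : BraidWord 2) (u : Q) (x : Fin 3 → Q) (b : Fin 3) :
    longitude w (fun j => u * x j * u⁻¹) b = u * longitude w x b * u⁻¹ :=
  longitude_map (MulAut.conj u).toMonoidHom w x b

theorem transfer (w : BraidWord 2) (arr : Q → Q → Q → Fin 3 → Q)
    (harr : ∀ u x y z, arr (u * x * u⁻¹) (u * y * u⁻¹) (u * z * u⁻¹) =
      fun j => u * arr x y z j * u⁻¹) (b : Fin 3) (e n : ℕ) {r x u : Q} (hx : x = u * r * u⁻¹)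
    (H : Nat.card {p : Q × Q // (run w (arr r p.1 p.2)).lab = arr r p.1 p.2} = n ∧
      ∀ y z : Q, (run w (arr r y z)).lab = arr r y z → longitude w (arr r y z) b = r ^ e) :
    Nat.card {p : Q × Q // (run w (arr x p.1 p.2)).lab = arr x p.1 p.2} = n ∧
      ∀ y z : Q, (run w (arr x y z)).lab = arr x y z → longitude w (arr x y z) b = x ^ e := by
  obtain ⟨H1, H2⟩ := H
  subst hx
  have key : ∀ y z : Q, (run w (arr (u * r * u⁻¹) (u * y * u⁻¹) (u * z * u⁻¹))).lab =
      arr (u * r * u⁻¹) (u * y * u⁻¹) (u * z * u⁻¹) ↔ (run w (arr r y z)).lab = arr r y z := by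
    intro y z
    rw [harr]
    exact lab_conj w u (arr r y z)
  constructor
  · rw [← H1]
    symm
    apply Nat.card_congr
    refine (Equiv.prodCongr (MulAut.conj u).toEquiv (MulAut.conj u).toEquiv).subtypeEquiv ?_
    rintro ⟨y, z⟩
    exact (key y z).symm
  · intro y z h
    have ey : u * (u⁻¹ * y * u) * u⁻¹ = y := by group
    have ez : u * (u⁻¹ * z * u) * u⁻¹ = z := by group
    have h1 := key (u⁻¹ * y * u) (u⁻¹ * z * u)
    rw [ey, ez] at h1
    have h2 := H2 _ _ (h1.1 h)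
    have h3 := harr u r (u⁻¹ * y * u) (u⁻¹ * z * u)
    rw [ey, ez] at h3
    rw [h3, lon_conj, h2, conj_pow]

theorem reps1 (x : Q) (hx : κ x = g) : ∃ u r : Q, (r.1 = 56 + 0 ∨ r.1 = 56 + 1) ∧
    x = u * r * u⁻¹ := by
  have H : ∀ x : Q, x.1 / 56 = 1 → ∃ u : Q, mulN u.1 56 = mulN x.1 u.1 ∨
      mulN u.1 57 = mulN x.1 u.1 := by decide +kernel
  obtain ⟨u, h | h⟩ := H x ((κ_iff x).1.1 hx)
  · refine ⟨u, mkQ 56 (by norm_num), Or.inl rfl, ?_⟩
    rw [eq_mul_inv_iff_mul_eq]
    exact (Q_ext h).symm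
  · refine ⟨u, mkQ 57 (by norm_num), Or.inr rfl, ?_⟩
    rw [eq_mul_inv_iff_mul_eq]
    exact (Q_ext h).symm

theorem reps2 (x : Q) (hx : κ x = g⁻¹) : ∃ u r : Q, (r.1 = 112 + 0 ∨ r.1 = 112 + 1) ∧
    x = u * r * u⁻¹ := by
  have H : ∀ x : Q, x.1 / 56 = 2 → ∃ u : Q, mulN u.1 112 = mulN x.1 u.1 ∨
      mulN u.1 113 = mulN x.1 u.1 := by decide +kernel
  obtain ⟨u, h | h⟩ := H x ((κ_iff x).2.1.1 hx)
  · refine ⟨u, mkQ 112 (by norm_num), Or.inl rfl, ?_⟩
    rw [eq_mul_inv_iff_mul_eq]
    exact (Q_ext h).symm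
  · refine ⟨u, mkQ 113 (by norm_num), Or.inr rfl, ?_⟩
    rw [eq_mul_inv_iff_mul_eq]
    exact (Q_ext h).symm

theorem arr_a (u x y z : Q) : (fun x y z : Q => ![y, z, x]) (u * x * u⁻¹) (u * y * u⁻¹)
    (u * z * u⁻¹) = fun j => u * (fun x y z : Q => ![y, z, x]) x y z j * u⁻¹ := by
  funext j
  fin_cases j <;> rfl

theorem arr_b (u x y z : Q) : (fun x y z : Q => ![x, y, z]) (u * x * u⁻¹) (u * y * u⁻¹)
    (u * z * u⁻¹) = fun j => u * (fun x y z : Q => ![x, y, z]) x y z j * u⁻¹ := by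
  funext j
  fin_cases j <;> rfl

/-! ### the kernel computations -/

theorem ca10 : cnt (fun i j => testQ T1 U1 waL i j 0) (fun i j =>
      goL (fun u v t => Nat.beq (mulN (mulN u v) t) (mulN (Nat.add 56 0) (Nat.add 56 0))) waL
        (Nat.add 56 i) (Nat.add 56 j) (Nat.add 56 0) 0 0 0) = 28 := by
  decide +kernel

theorem ca11 : cnt (fun i j => testQ T1 U1 waL i j 1) (fun i j =>
      goL (fun u v t => Nat.beq (mulN (mulN u v) t) (mulN (Nat.add 56 1) (Nat.add 56 1))) waL
        (Nat.add 56 i) (Nat.add 56 j) (Nat.add 56 1) 0 0 0) = 28 := by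
  decide +kernel

theorem ca20 : cnt (fun i j => testQ T2 U2 waL i j 0) (fun i j =>
      goL (fun u v t => Nat.beq (mulN (mulN u v) t) (mulN (Nat.add 112 0) (Nat.add 112 0))) waL
        (Nat.add 112 i) (Nat.add 112 j) (Nat.add 112 0) 0 0 0) = 16 := by
  decide +kernel

theorem ca21 : cnt (fun i j => testQ T2 U2 waL i j 1) (fun i j =>
      goL (fun u v t => Nat.beq (mulN (mulN u v) t) (mulN (Nat.add 112 1) (Nat.add 112 1))) waL
        (Nat.add 112 i) (Nat.add 112 j) (Nat.add 112 1) 0 0 0) = 16 := by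
  decide +kernel

theorem cb10 : cnt (fun i j => testQ T1 U1 wbL 0 i j) (fun i j =>
      goL (fun u v t => Nat.beq (mulN (mulN v t) u)
        (mulN (mulN (Nat.add 56 0) (Nat.add 56 0)) (mulN (Nat.add 56 0) (Nat.add 56 0)))) wbL
        (Nat.add 56 0) (Nat.add 56 i) (Nat.add 56 j) 0 0 0) = 28 := by
  decide +kernel

theorem cb11 : cnt (fun i j => testQ T1 U1 wbL 1 i j) (fun i j =>
      goL (fun u v t => Nat.beq (mulN (mulN v t) u)
        (mulN (mulN (Nat.add 56 1) (Nat.add 56 1)) (mulN (Nat.add 56 1) (Nat.add 56 1)))) wbL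
        (Nat.add 56 1) (Nat.add 56 i) (Nat.add 56 j) 0 0 0) = 28 := by
  decide +kernel

theorem cb20 : cnt (fun i j => testQ T2 U2 wbL 0 i j) (fun i j =>
      goL (fun u v t => Nat.beq (mulN (mulN v t) u)
        (mulN (mulN (Nat.add 112 0) (Nat.add 112 0)) (mulN (Nat.add 112 0) (Nat.add 112 0)))) wbL
        (Nat.add 112 0) (Nat.add 112 i) (Nat.add 112 j) 0 0 0) = 16 := by
  decide +kernel

theorem cb21 : cnt (fun i j => testQ T2 U2 wbL 1 i j) (fun i j =>
      goL (fun u v t => Nat.beq (mulN (mulN v t) u)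
        (mulN (mulN (Nat.add 112 1) (Nat.add 112 1)) (mulN (Nat.add 112 1) (Nat.add 112 1)))) wbL
        (Nat.add 112 1) (Nat.add 112 i) (Nat.add 112 j) 0 0 0) = 16 := by
  decide +kernel

theorem cr10 : cnt (fun i j => testQ T1 U1 wrL 0 i j) (fun i j =>
      goL (fun u v t => Nat.beq (mulN (mulN t v) u)
        (mulN (mulN (Nat.add 56 0) (Nat.add 56 0)) (mulN (Nat.add 56 0) (Nat.add 56 0)))) wrL
        (Nat.add 56 0) (Nat.add 56 i) (Nat.add 56 j) 0 0 0) = 16 := by
  decide +kernel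

theorem cr11 : cnt (fun i j => testQ T1 U1 wrL 1 i j) (fun i j =>
      goL (fun u v t => Nat.beq (mulN (mulN t v) u)
        (mulN (mulN (Nat.add 56 1) (Nat.add 56 1)) (mulN (Nat.add 56 1) (Nat.add 56 1)))) wrL
        (Nat.add 56 1) (Nat.add 56 i) (Nat.add 56 j) 0 0 0) = 16 := by
  decide +kernel

theorem cr20 : cnt (fun i j => testQ T2 U2 wrL 0 i j) (fun i j =>
      goL (fun u v t => Nat.beq (mulN (mulN t v) u)
        (mulN (mulN (Nat.add 112 0) (Nat.add 112 0)) (mulN (Nat.add 112 0) (Nat.add 112 0)))) wrL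
        (Nat.add 112 0) (Nat.add 112 i) (Nat.add 112 j) 0 0 0) = 28 := by
  decide +kernel

theorem cr21 : cnt (fun i j => testQ T2 U2 wrL 1 i j) (fun i j =>
      goL (fun u v t => Nat.beq (mulN (mulN t v) u)
        (mulN (mulN (Nat.add 112 1) (Nat.add 112 1)) (mulN (Nat.add 112 1) (Nat.add 112 1)))) wrL
        (Nat.add 112 1) (Nat.add 112 i) (Nat.add 112 j) 0 0 0) = 28 := by
  decide +kernel

theorem all_a1 (x : Q) (hx : κ x = g) :
    Nat.card {p : Q × Q // (run wa ![p.1, p.2, x]).lab = ![p.1, p.2, x]} = 28 ∧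
    ∀ y z : Q, (run wa ![y, z, x]).lab = ![y, z, x] → longitude wa ![y, z, x] 2 = x ^ 2 := by
  obtain ⟨u, r, h | h, hu⟩ := reps1 x hx
  · exact transfer wa (fun x y z : Q => ![y, z, x]) arr_a 2 2 28 hu
      (base_a good1 (Or.inl rfl) (by norm_num) (by norm_num) ca10 h)
  · exact transfer wa (fun x y z : Q => ![y, z, x]) arr_a 2 2 28 hu
      (base_a good1 (Or.inl rfl) (by norm_num) (by norm_num) ca11 h)

theorem all_a2 (x : Q) (hx : κ x = g⁻¹) :
    Nat.card {p : Q × Q // (run wa ![p.1, p.2, x]).lab = ![p.1, p.2, x]} = 16 ∧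
    ∀ y z : Q, (run wa ![y, z, x]).lab = ![y, z, x] → longitude wa ![y, z, x] 2 = x ^ 2 := by
  obtain ⟨u, r, h | h, hu⟩ := reps2 x hx
  · exact transfer wa (fun x y z : Q => ![y, z, x]) arr_a 2 2 16 hu
      (base_a good2 (Or.inr rfl) (by norm_num) (by norm_num) ca20 h)
  · exact transfer wa (fun x y z : Q => ![y, z, x]) arr_a 2 2 16 hu
      (base_a good2 (Or.inr rfl) (by norm_num) (by norm_num) ca21 h)

theorem all_b1 (x : Q) (hx : κ x = g) :
    Nat.card {p : Q × Q // (run wb ![x, p.1, p.2]).lab = ![x, p.1, p.2]} = 28 ∧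
    ∀ y z : Q, (run wb ![x, y, z]).lab = ![x, y, z] → longitude wb ![x, y, z] 0 = x ^ 4 := by
  obtain ⟨u, r, h | h, hu⟩ := reps1 x hx
  · exact transfer wb (fun x y z : Q => ![x, y, z]) arr_b 0 4 28 hu
      (base_b good1 (Or.inl rfl) (by norm_num) (by norm_num) cb10 h)
  · exact transfer wb (fun x y z : Q => ![x, y, z]) arr_b 0 4 28 hu
      (base_b good1 (Or.inl rfl) (by norm_num) (by norm_num) cb11 h)

theorem all_b2 (x : Q) (hx : κ x = g⁻¹) :
    Nat.card {p : Q × Q // (run wb ![x, p.1, p.2]).lab = ![x, p.1, p.2]} = 16 ∧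
    ∀ y z : Q, (run wb ![x, y, z]).lab = ![x, y, z] → longitude wb ![x, y, z] 0 = x ^ 4 := by
  obtain ⟨u, r, h | h, hu⟩ := reps2 x hx
  · exact transfer wb (fun x y z : Q => ![x, y, z]) arr_b 0 4 16 hu
      (base_b good2 (Or.inr rfl) (by norm_num) (by norm_num) cb20 h)
  · exact transfer wb (fun x y z : Q => ![x, y, z]) arr_b 0 4 16 hu
      (base_b good2 (Or.inr rfl) (by norm_num) (by norm_num) cb21 h)

theorem all_r1 (x : Q) (hx : κ x = g) :
    Nat.card {p : Q × Q // (run wb.reverse ![x, p.1, p.2]).lab = ![x, p.1, p.2]} = 16 ∧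
    ∀ y z : Q, (run wb.reverse ![x, y, z]).lab = ![x, y, z] → longitude wb.reverse ![x, y, z] 0 = x ^ 4 := by
  obtain ⟨u, r, h | h, hu⟩ := reps1 x hx
  · exact transfer wb.reverse (fun x y z : Q => ![x, y, z]) arr_b 0 4 16 hu
      (base_r good1 (Or.inl rfl) (by norm_num) (by norm_num) cr10 h)
  · exact transfer wb.reverse (fun x y z : Q => ![x, y, z]) arr_b 0 4 16 hu
      (base_r good1 (Or.inl rfl) (by norm_num) (by norm_num) cr11 h)

theorem all_r2 (x : Q) (hx : κ x = g⁻¹) :
    Nat.card {p : Q × Q // (run wb.reverse ![x, p.1, p.2]).lab = ![x, p.1, p.2]} = 28 ∧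
    ∀ y z : Q, (run wb.reverse ![x, y, z]).lab = ![x, y, z] → longitude wb.reverse ![x, y, z] 0 = x ^ 4 := by
  obtain ⟨u, r, h | h, hu⟩ := reps2 x hx
  · exact transfer wb.reverse (fun x y z : Q => ![x, y, z]) arr_b 0 4 28 hu
      (base_r good2 (Or.inr rfl) (by norm_num) (by norm_num) cr20 h)
  · exact transfer wb.reverse (fun x y z : Q => ![x, y, z]) arr_b 0 4 28 hu
      (base_r good2 (Or.inr rfl) (by norm_num) (by norm_num) cr21 h)

theorem κ_cases (x : Q) (hx : κ x ≠ 1) : κ x = g ∨ κ x = g⁻¹ := by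
  have h0 : x.1 / 56 ≠ 0 := fun h => hx ((κ_iff x).2.2.2 h)
  have h1 := Q_lt x
  rcases (by omega : x.1 / 56 = 1 ∨ x.1 / 56 = 2) with h | h
  · exact Or.inl ((κ_iff x).1.2 h)
  · exact Or.inr ((κ_iff x).2.1.2 h)

end B3

theorem exists_counts : ∃ (Q : Type) (_ : Group Q) (_ : Finite Q)
    (κ : Q →* Multiplicative (ZMod 3)) (g : Multiplicative (ZMod 3)), g ≠ 1 ∧
    Nat.card {x : Q // κ x = g} = 56 ∧ Nat.card {x : Q // κ x = g⁻¹} = 56 ∧
    (∀ x : Q, κ x ≠ 1 → x ^ 6 = 1) ∧
    (∀ x : Q, κ x = g → Nat.card {p : Q × Q // (run wa ![p.1, p.2, x]).lab = ![p.1, p.2, x]} = 28) ∧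
    (∀ x : Q, κ x = g⁻¹ →
      Nat.card {p : Q × Q // (run wa ![p.1, p.2, x]).lab = ![p.1, p.2, x]} = 16) ∧
    (∀ x : Q, κ x = g → Nat.card {p : Q × Q // (run wb ![x, p.1, p.2]).lab = ![x, p.1, p.2]} = 28) ∧
    (∀ x : Q, κ x = g⁻¹ →
      Nat.card {p : Q × Q // (run wb ![x, p.1, p.2]).lab = ![x, p.1, p.2]} = 16) ∧
    (∀ x : Q, κ x = g →
      Nat.card {p : Q × Q // (run wb.reverse ![x, p.1, p.2]).lab = ![x, p.1, p.2]} = 16) ∧
    (∀ x : Q, κ x = g⁻¹ →
      Nat.card {p : Q × Q // (run wb.reverse ![x, p.1, p.2]).lab = ![x, p.1, p.2]} = 28) ∧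
    (∀ x y z : Q, κ x ≠ 1 → (run wa ![y, z, x]).lab = ![y, z, x] →
      longitude wa ![y, z, x] 2 = x ^ 2) ∧
    (∀ x y z : Q, κ x ≠ 1 → (run wb ![x, y, z]).lab = ![x, y, z] →
      longitude wb ![x, y, z] 0 = x ^ 4) ∧
    (∀ x y z : Q, κ x ≠ 1 → (run wb.reverse ![x, y, z]).lab = ![x, y, z] →
      longitude wb.reverse ![x, y, z] 0 = x ^ 4) := by
  refine ⟨B3.Q, inferInstance, inferInstance, B3.κ, B3.g, B3.g_ne, B3.card_g, B3.card_g', B3.pow6,
    fun x hx => (B3.all_a1 x hx).1, fun x hx => (B3.all_a2 x hx).1,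
    fun x hx => (B3.all_b1 x hx).1, fun x hx => (B3.all_b2 x hx).1,
    fun x hx => (B3.all_r1 x hx).1, fun x hx => (B3.all_r2 x hx).1, ?_, ?_, ?_⟩
  · intro x y z hx h
    rcases B3.κ_cases x hx with h1 | h1
    · exact (B3.all_a1 x h1).2 y z h
    · exact (B3.all_a2 x h1).2 y z h
  · intro x y z hx h
    rcases B3.κ_cases x hx with h1 | h1
    · exact (B3.all_b1 x h1).2 y z h
    · exact (B3.all_b2 x h1).2 y z h
  · intro x y z hx h
    rcases B3.κ_cases x hx with h1 | h1
    · exact (B3.all_r1 x h1).2 y z h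
    · exact (B3.all_r2 x h1).2 y z h

end Pool.Agent.QInv75
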