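import Pool.Agent.QInv75.Words

/-!
# The two surgery groups are not isomorphic (package B4)

The number of homomorphisms `f` to `Q` with `κ ∘ f ≠ 1` is `56 (28² + 16²)` for `wM` and
`56 · 2 · 28 · 16` for `wN`.
-/

set_option autoImplicit false

namespace Pool.Agent.QInv75

theorem zmod3_split : ∀ g : Multiplicative (ZMod 3), g ≠ 1 →
    ∀ u : Multiplicative (ZMod 3), u ≠ 1 ↔ u = g ∨ u = g⁻¹ := by
  decide

theorem zmod3_ne : ∀ g : Multiplicative (ZMod 3), g ≠ 1 → g ≠ g⁻¹ := by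
  decide

/-- homomorphisms from the surgery group with `κ ∘ f ≠ 1`, in terms of the two blocks -/
theorem card_homs
    (hom_bij : ∀ (w : BraidWord 4) (Q : Type) [Group Q],
      ∃ e : (SurgeryGroup w →* Q) ≃
        {x : Fin (4 + 1) → Q // (run w x).lab = x ∧ ∀ b, longitude w x b = 1},
      ∀ f j, (e f).1 j = f (SurgeryGroup.gen w j))
    (lab_sh : ∀ (w w' : BraidWord 2) {Q : Type} [Group Q] (X : Fin 5 → Q),
      (run (sh0 w ++ sh2 w') X).lab = X ↔
        (run w ![X 0, X 1, X 2]).lab = ![X 0, X 1, X 2] ∧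
        (run w' ![X 2, X 3, X 4]).lab = ![X 2, X 3, X 4])
    (lon_sh : ∀ (w w' : BraidWord 2) (_ : IsKnot w) (_ : IsKnot w') {Q : Type} [Group Q]
      (X : Fin 5 → Q) (_ : (run (sh0 w ++ sh2 w') X).lab = X),
      (∀ b, longitude (sh0 w ++ sh2 w') X b = 1) ↔
        longitude w ![X 0, X 1, X 2] 2 * longitude w' ![X 2, X 3, X 4] 0 = 1)
    (lab_abelian : ∀ (w : BraidWord 4) (_ : IsKnot w) {Q A : Type} [Group Q] [CommGroup A]
      (κ : Q →* A) (x : Fin (4 + 1) → Q) (_ : (run w x).lab = x) (i j : Fin (4 + 1)),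
      κ (x i) = κ (x j))
    (w w' : BraidWord 2) (hk : IsKnot w) (hw' : IsKnot w')
    (hw : IsKnot (sh0 w ++ sh2 w'))
    {Q : Type} [Group Q] [Finite Q] (κ : Q →* Multiplicative (ZMod 3))
    (g : Multiplicative (ZMod 3)) (hg : g ≠ 1)
    (c1 : Nat.card {x : Q // κ x = g} = 56) (c2 : Nat.card {x : Q // κ x = g⁻¹} = 56)
    (h6 : ∀ x : Q, κ x ≠ 1 → x ^ 6 = 1) (a1 a2 b1 b2 : ℕ)
    (ha1 : ∀ x : Q, κ x = g →
      Nat.card {p : Q × Q // (run w ![p.1, p.2, x]).lab = ![p.1, p.2, x]} = a1)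
    (ha2 : ∀ x : Q, κ x = g⁻¹ →
      Nat.card {p : Q × Q // (run w ![p.1, p.2, x]).lab = ![p.1, p.2, x]} = a2)
    (hb1 : ∀ x : Q, κ x = g →
      Nat.card {p : Q × Q // (run w' ![x, p.1, p.2]).lab = ![x, p.1, p.2]} = b1)
    (hb2 : ∀ x : Q, κ x = g⁻¹ →
      Nat.card {p : Q × Q // (run w' ![x, p.1, p.2]).lab = ![x, p.1, p.2]} = b2)
    (la : ∀ x y z : Q, κ x ≠ 1 → (run w ![y, z, x]).lab = ![y, z, x] →
      longitude w ![y, z, x] 2 = x ^ 2)
    (lb : ∀ x y z : Q, κ x ≠ 1 → (run w' ![x, y, z]).lab = ![x, y, z] →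
      longitude w' ![x, y, z] 0 = x ^ 4) :
    Nat.card {f : SurgeryGroup (sh0 w ++ sh2 w') →* Q // κ.comp f ≠ 1} =
      56 * (a1 * b1) + 56 * (a2 * b2) := by
  classical
  obtain ⟨e, he⟩ := hom_bij (sh0 w ++ sh2 w') Q
  -- the condition in terms of the label of the common strand
  have key : ∀ f : SurgeryGroup (sh0 w ++ sh2 w') →* Q, κ.comp f ≠ 1 ↔ κ ((e f).1 2) ≠ 1 := by
    intro f
    rw [not_iff_not]
    constructor
    · intro h
      rw [he f 2]
      have := DFunLike.congr_fun h (SurgeryGroup.gen (sh0 w ++ sh2 w') 2)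
      simpa using this
    · intro h
      have hall : ∀ j, κ (f (SurgeryGroup.gen (sh0 w ++ sh2 w') j)) = 1 := by
        intro j
        rw [← he f j, lab_abelian _ hw κ (e f).1 (e f).2.1 j 2, h]
      apply PresentedGroup.ext
      intro j
      exact hall j
  -- the type of pairs of closed labellings of the two blocks
  let T : Type := Σ x : {x : Q // κ x ≠ 1},
    {p : Q × Q // (run w ![p.1, p.2, x.1]).lab = ![p.1, p.2, x.1]} ×
    {p : Q × Q // (run w' ![x.1, p.1, p.2]).lab = ![x.1, p.1, p.2]}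
  have E : {f : SurgeryGroup (sh0 w ++ sh2 w') →* Q // κ.comp f ≠ 1} ≃ T := by
    refine (Equiv.subtypeEquiv (q := fun X => κ (X.1 2) ≠ 1) e (fun f => key f)).trans ?_
    refine
      { toFun := fun X => ⟨⟨X.1.1 2, X.2⟩,
          ⟨(X.1.1 0, X.1.1 1), ((lab_sh w w' X.1.1).1 X.1.2.1).1⟩,
          ⟨(X.1.1 3, X.1.1 4), ((lab_sh w w' X.1.1).1 X.1.2.1).2⟩⟩
        invFun := fun t => ⟨⟨![t.2.1.1.1, t.2.1.1.2, t.1.1, t.2.2.1.1, t.2.2.1.2], ?_, ?_⟩, ?_⟩
        left_inv := ?_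
        right_inv := ?_ }
    · exact (lab_sh w w' _).2 ⟨t.2.1.2, t.2.2.2⟩
    · refine (lon_sh w w' hk hw' _ ((lab_sh w w' _).2 ⟨t.2.1.2, t.2.2.2⟩)).2 ?_
      have h1 := la t.1.1 _ _ t.1.2 t.2.1.2
      have h2 := lb t.1.1 _ _ t.1.2 t.2.2.2
      have h3 := h6 t.1.1 t.1.2
      change longitude w ![t.2.1.1.1, t.2.1.1.2, t.1.1] 2 *
        longitude w' ![t.1.1, t.2.2.1.1, t.2.2.1.2] 0 = 1
      rw [h1, h2, ← pow_add, h3]
    · exact t.1.2
    · rintro ⟨⟨X, hX⟩, h⟩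
      apply Subtype.ext
      apply Subtype.ext
      funext j
      fin_cases j <;> rfl
    · rintro ⟨⟨x, hx⟩, ⟨⟨p, p'⟩, hp⟩, ⟨⟨q, q'⟩, hq⟩⟩
      rfl
  rw [Nat.card_congr E]
  have : Fintype Q := Fintype.ofFinite _
  have hT : Nat.card T = ∑ x : {x : Q // κ x ≠ 1},
      Nat.card {p : Q × Q // (run w ![p.1, p.2, x.1]).lab = ![p.1, p.2, x.1]} *
      Nat.card {p : Q × Q // (run w' ![x.1, p.1, p.2]).lab = ![x.1, p.1, p.2]} := by
    rw [Nat.card_sigma]
    refine Finset.sum_congr rfl fun x _ => ?_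
    rw [Nat.card_prod]
  rw [hT]
  rw [← Finset.sum_subtype (Finset.univ.filter fun x : Q => κ x ≠ 1) (by simp)
    (fun x : Q => Nat.card {p : Q × Q // (run w ![p.1, p.2, x]).lab = ![p.1, p.2, x]} *
      Nat.card {p : Q × Q // (run w' ![x, p.1, p.2]).lab = ![x, p.1, p.2]})]
  have hf : (Finset.univ.filter fun x : Q => κ x ≠ 1) =
      (Finset.univ.filter fun x : Q => κ x = g) ∪ (Finset.univ.filter fun x : Q => κ x = g⁻¹) := by
    ext x
    simp only [Finset.mem_filter, Finset.mem_univ, true_and, Finset.mem_union]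
    exact zmod3_split g hg (κ x)
  have hd : Disjoint (Finset.univ.filter fun x : Q => κ x = g)
      (Finset.univ.filter fun x : Q => κ x = g⁻¹) := by
    rw [Finset.disjoint_filter]
    intro x _ h1 h2
    exact zmod3_ne g hg (h1.symm.trans h2)
  rw [hf, Finset.sum_union hd]
  have s1 : ∑ x ∈ Finset.univ.filter (fun x : Q => κ x = g),
      Nat.card {p : Q × Q // (run w ![p.1, p.2, x]).lab = ![p.1, p.2, x]} *
      Nat.card {p : Q × Q // (run w' ![x, p.1, p.2]).lab = ![x, p.1, p.2]} = 56 * (a1 * b1) := by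
    rw [Finset.sum_const_nat (m := a1 * b1), ← Fintype.card_subtype, ← Nat.card_eq_fintype_card, c1]
    intro x hx
    rw [Finset.mem_filter] at hx
    rw [ha1 x hx.2, hb1 x hx.2]
  have s2 : ∑ x ∈ Finset.univ.filter (fun x : Q => κ x = g⁻¹),
      Nat.card {p : Q × Q // (run w ![p.1, p.2, x]).lab = ![p.1, p.2, x]} *
      Nat.card {p : Q × Q // (run w' ![x, p.1, p.2]).lab = ![x, p.1, p.2]} = 56 * (a2 * b2) := by
    rw [Finset.sum_const_nat (m := a2 * b2), ← Fintype.card_subtype, ← Nat.card_eq_fintype_card, c2]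
    intro x hx
    rw [Finset.mem_filter] at hx
    rw [ha2 x hx.2, hb2 x hx.2]
  rw [s1, s2]

/-- The two surgery groups are not isomorphic, from the statements of the packages B1, B2, B3, B5:
`not_iso = not_iso_of (fun w Q => hom_bij w Q) (fun w w' => lab_sh w w') (fun w w' => lon_sh w w')
(fun w => lab_abelian w) exists_counts isKnot_wa isKnot_wb isKnot_wb_rev isKnot_wM isKnot_wN`. -/
theorem not_iso_of
    (hom_bij : ∀ (w : BraidWord 4) (Q : Type) [Group Q],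
      ∃ e : (SurgeryGroup w →* Q) ≃
        {x : Fin (4 + 1) → Q // (run w x).lab = x ∧ ∀ b, longitude w x b = 1},
      ∀ f j, (e f).1 j = f (SurgeryGroup.gen w j))
    (lab_sh : ∀ (w w' : BraidWord 2) {Q : Type} [Group Q] (X : Fin 5 → Q),
      (run (sh0 w ++ sh2 w') X).lab = X ↔
        (run w ![X 0, X 1, X 2]).lab = ![X 0, X 1, X 2] ∧
        (run w' ![X 2, X 3, X 4]).lab = ![X 2, X 3, X 4])
    (lon_sh : ∀ (w w' : BraidWord 2) (_ : IsKnot w) (_ : IsKnot w') {Q : Type} [Group Q]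
      (X : Fin 5 → Q) (_ : (run (sh0 w ++ sh2 w') X).lab = X),
      (∀ b, longitude (sh0 w ++ sh2 w') X b = 1) ↔
        longitude w ![X 0, X 1, X 2] 2 * longitude w' ![X 2, X 3, X 4] 0 = 1)
    (lab_abelian : ∀ (w : BraidWord 4) (_ : IsKnot w) {Q A : Type} [Group Q] [CommGroup A]
      (κ : Q →* A) (x : Fin (4 + 1) → Q) (_ : (run w x).lab = x) (i j : Fin (4 + 1)),
      κ (x i) = κ (x j))
    (exists_counts : ∃ (Q : Type) (_ : Group Q) (_ : Finite Q)
      (κ : Q →* Multiplicative (ZMod 3)) (g : Multiplicative (ZMod 3)), g ≠ 1 ∧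
      Nat.card {x : Q // κ x = g} = 56 ∧ Nat.card {x : Q // κ x = g⁻¹} = 56 ∧
      (∀ x : Q, κ x ≠ 1 → x ^ 6 = 1) ∧
      (∀ x : Q, κ x = g →
        Nat.card {p : Q × Q // (run wa ![p.1, p.2, x]).lab = ![p.1, p.2, x]} = 28) ∧
      (∀ x : Q, κ x = g⁻¹ →
        Nat.card {p : Q × Q // (run wa ![p.1, p.2, x]).lab = ![p.1, p.2, x]} = 16) ∧
      (∀ x : Q, κ x = g →
        Nat.card {p : Q × Q // (run wb ![x, p.1, p.2]).lab = ![x, p.1, p.2]} = 28) ∧
      (∀ x : Q, κ x = g⁻¹ →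
        Nat.card {p : Q × Q // (run wb ![x, p.1, p.2]).lab = ![x, p.1, p.2]} = 16) ∧
      (∀ x : Q, κ x = g →
        Nat.card {p : Q × Q // (run wb.reverse ![x, p.1, p.2]).lab = ![x, p.1, p.2]} = 16) ∧
      (∀ x : Q, κ x = g⁻¹ →
        Nat.card {p : Q × Q // (run wb.reverse ![x, p.1, p.2]).lab = ![x, p.1, p.2]} = 28) ∧
      (∀ x y z : Q, κ x ≠ 1 → (run wa ![y, z, x]).lab = ![y, z, x] →
        longitude wa ![y, z, x] 2 = x ^ 2) ∧
      (∀ x y z : Q, κ x ≠ 1 → (run wb ![x, y, z]).lab = ![x, y, z] →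
        longitude wb ![x, y, z] 0 = x ^ 4) ∧
      (∀ x y z : Q, κ x ≠ 1 → (run wb.reverse ![x, y, z]).lab = ![x, y, z] →
        longitude wb.reverse ![x, y, z] 0 = x ^ 4))
    (isKnot_wa : IsKnot wa) (isKnot_wb : IsKnot wb) (isKnot_wb_rev : IsKnot wb.reverse)
    (isKnot_wM : IsKnot wM) (isKnot_wN : IsKnot wN) :
    IsEmpty (SurgeryGroup wM ≃* SurgeryGroup wN) := by
  obtain ⟨Q, _, _, κ, g, hg, c1, c2, h6, ha1, ha2, hb1, hb2, hr1, hr2, la, lb, lr⟩ := exists_counts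
  have hM := card_homs hom_bij lab_sh lon_sh lab_abelian wa wb isKnot_wa isKnot_wb isKnot_wM κ g hg c1 c2 h6 28 16 28 16 ha1 ha2 hb1 hb2 la lb
  have hN := card_homs hom_bij lab_sh lon_sh lab_abelian wa wb.reverse isKnot_wa
    isKnot_wb_rev isKnot_wN κ g hg c1 c2 h6 28 16 16 28
    ha1 ha2 hr1 hr2 la lr
  refine ⟨fun φ => ?_⟩
  have hcard : Nat.card {f : SurgeryGroup wM →* Q // κ.comp f ≠ 1} =
      Nat.card {f : SurgeryGroup wN →* Q // κ.comp f ≠ 1} := by
    refine Nat.card_congr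
      { toFun := fun f => ⟨f.1.comp φ.symm.toMonoidHom, ?_⟩
        invFun := fun f => ⟨f.1.comp φ.toMonoidHom, ?_⟩
        left_inv := ?_
        right_inv := ?_ }
    · intro h
      apply f.2
      ext x
      have := DFunLike.congr_fun h (φ x)
      simpa using this
    · intro h
      apply f.2
      ext x
      have := DFunLike.congr_fun h (φ.symm x)
      simpa using this
    · rintro ⟨f, hf⟩
      apply Subtype.ext
      ext x
      simp
    · rintro ⟨f, hf⟩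
      apply Subtype.ext
      ext x
      simp
  have hM' : Nat.card {f : SurgeryGroup wM →* Q // κ.comp f ≠ 1} =
    56 * (28 * 28) + 56 * (16 * 16) := hM
  have hN' : Nat.card {f : SurgeryGroup wN →* Q // κ.comp f ≠ 1} =
    56 * (28 * 16) + 56 * (16 * 28) := hN
  rw [hM', hN'] at hcard
  norm_num at hcard

end Pool.Agent.QInv75
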