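import Pool.Agent.QInv75.B1
import Pool.Agent.QInv75.B2

/-!
# Knots, first homology, signature
-/

set_option autoImplicit false


namespace Pool.Agent.QInv75

variable {n : ℕ}


/-! ## Permutations -/

/-- the permutation of the strands -/
def permL (w : BraidWord n) : Fin (n + 1) → Fin (n + 1) :=
  w.foldl (fun p l t => Equiv.swap l.1.castSucc l.1.succ (p t)) id

theorem pos_foldl {H : Type*} [Group H] (w : BraidWord n) (s : BState n H) :
    (w.foldl BState.step s).pos =
      w.foldl (fun p l t => Equiv.swap l.1.castSucc l.1.succ (p t)) s.pos := by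
  induction w generalizing s with
  | nil => rfl
  | cons l w ih =>
    rw [List.foldl_cons, List.foldl_cons, ih]
    congr 1
    unfold BState.step
    split_ifs <;> rfl

theorem run_pos {H : Type*} [Group H] (w : BraidWord n) (x : Fin (n + 1) → H) :
    (run w x).pos = permL w := pos_foldl w _

theorem perm_eq (w : BraidWord n) : perm w = permL w := by
  funext s
  unfold perm
  rw [run_pos]

theorem isKnot_of (w : BraidWord n) (h : ∀ s, ∃ m : Fin (n + 1), (permL w)^[m.val] 0 = s) :
    IsKnot w := by
  intro s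
  obtain ⟨m, hm⟩ := h s
  exact ⟨m, by rw [perm_eq]; exact hm⟩

theorem isKnot_wa : IsKnot wa := isKnot_of _ (by decide +kernel)

theorem isKnot_wb : IsKnot wb := isKnot_of _ (by decide +kernel)

theorem isKnot_wb_rev : IsKnot wb.reverse := isKnot_of _ (by decide +kernel)

theorem isKnot_wM : IsKnot wM := isKnot_of _ (by decide +kernel)

theorem isKnot_wN : IsKnot wN := isKnot_of _ (by decide +kernel)

/-! ## Longitudes of constant labellings -/

/-- one step of `lonE` -/
def lonStep (s : (Fin (n + 1) → Fin (n + 1)) × (Fin (n + 1) → ℤ)) (l : Fin n × Bool) :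
    (Fin (n + 1) → Fin (n + 1)) × (Fin (n + 1) → ℤ) :=
  (fun t => Equiv.swap l.1.castSucc l.1.succ (s.1 t),
    fun t => if l.2 then (if s.1 t = l.1.succ then s.2 t + 1 else s.2 t)
      else (if s.1 t = l.1.castSucc then s.2 t - 1 else s.2 t))

/-- the exponents of the longitude words of the strands -/
def lonE (w : BraidWord n) : (Fin (n + 1) → Fin (n + 1)) × (Fin (n + 1) → ℤ) :=
  w.foldl lonStep (id, fun _ => 0)

theorem step_const {H : Type*} [Group H] (s : BState n H)
    (r : (Fin (n + 1) → Fin (n + 1)) × (Fin (n + 1) → ℤ)) (a : H)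
    (h1 : s.lab = fun _ => a) (h2 : s.pos = r.1) (h3 : s.lon = fun t => a ^ r.2 t)
    (l : Fin n × Bool) :
    (s.step l).lab = (fun _ => a) ∧ (s.step l).pos = (lonStep r l).1 ∧
      (s.step l).lon = fun t => a ^ (lonStep r l).2 t := by
  obtain ⟨i, b⟩ := l
  cases b with
  | true =>
    refine ⟨?_, ?_, ?_⟩
    · funext j
      show (if j = i.castSucc then (s.lab i.castSucc)⁻¹ * s.lab i.succ * s.lab i.castSucc
        else if j = i.succ then s.lab i.castSucc else s.lab j) = a
      rw [h1]
      split_ifs
      · group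
      · rfl
      · rfl
    · funext t
      show Equiv.swap i.castSucc i.succ (s.pos t) = Equiv.swap i.castSucc i.succ (r.1 t)
      rw [h2]
    · funext t
      show (if s.pos t = i.succ then s.lon t * s.lab i.castSucc else s.lon t) =
        a ^ (if r.1 t = i.succ then r.2 t + 1 else r.2 t)
      rw [h1, h2, h3]
      split_ifs
      · rw [zpow_add, zpow_one]
      · rfl
  | false =>
    refine ⟨?_, ?_, ?_⟩
    · funext j
      show (if j = i.castSucc then s.lab i.succ
        else if j = i.succ then s.lab i.succ * s.lab i.castSucc * (s.lab i.succ)⁻¹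
        else s.lab j) = a
      rw [h1]
      split_ifs
      · rfl
      · group
      · rfl
    · funext t
      show Equiv.swap i.castSucc i.succ (s.pos t) = Equiv.swap i.castSucc i.succ (r.1 t)
      rw [h2]
    · funext t
      show (if s.pos t = i.castSucc then s.lon t * (s.lab i.succ)⁻¹ else s.lon t) =
        a ^ (if r.1 t = i.castSucc then r.2 t - 1 else r.2 t)
      rw [h1, h2, h3]
      split_ifs
      · rw [zpow_sub, zpow_one]
      · rfl

theorem run_const {H : Type*} [Group H] (w : BraidWord n) (a : H) :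
    (run w (fun _ : Fin (n + 1) => a)).lab = (fun _ => a) ∧
    (run w (fun _ : Fin (n + 1) => a)).pos = (lonE w).1 ∧
    (run w (fun _ : Fin (n + 1) => a)).lon = fun t => a ^ (lonE w).2 t := by
  unfold run lonE
  induction w using List.reverseRecOn with
  | nil =>
    refine ⟨rfl, rfl, ?_⟩
    funext t
    simp
  | append_singleton w l ih =>
    rw [List.foldl_append, List.foldl_append]
    exact step_const _ _ a ih.1 ih.2.1 ih.2.2 l

theorem longitude_const {H : Type*} [Group H] (w : BraidWord 4) (a : H)
    (h5 : ∀ b, (permL w)^[5] b = b) (h1 : ∀ b, permL w b ≠ b) (b : Fin 5) :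
    longitude w (fun _ : Fin 5 => a) b =
      a ^ (((List.range 5).map fun m => (lonE w).2 ((permL w)^[m] b)).sum) := by
  unfold longitude
  rw [perm_eq]
  have hp : Function.minimalPeriod (permL w) b = 5 := by
    have : Fact (Nat.Prime 5) := ⟨by norm_num⟩
    exact Function.minimalPeriod_eq_prime (h5 b) (h1 b)
  rw [hp, (run_const w a).2.2]
  generalize List.range 5 = L
  induction L with
  | nil => simp
  | cons m L ih => rw [List.map_cons, List.prod_cons, List.map_cons, List.sum_cons, ih, zpow_add]

theorem longitude_const_wM {H : Type*} [Group H] (a : H) (b : Fin 5) :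
    longitude wM (fun _ : Fin 5 => a) b = a ^ 6 := by
  rw [longitude_const wM a (by decide +kernel) (by decide +kernel)]
  have : ((List.range 5).map fun m => (lonE wM).2 ((permL wM)^[m] b)).sum = 6 := by
    revert b
    decide +kernel
  rw [this]
  exact zpow_natCast a 6

theorem longitude_const_wN {H : Type*} [Group H] (a : H) (b : Fin 5) :
    longitude wN (fun _ : Fin 5 => a) b = a ^ 6 := by
  rw [longitude_const wN a (by decide +kernel) (by decide +kernel)]
  have : ((List.range 5).map fun m => (lonE wN).2 ((permL wN)^[m] b)).sum = 6 := by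
    revert b
    decide +kernel
  rw [this]
  exact zpow_natCast a 6

/-! ## The first homology -/

theorem closure_gen (w : BraidWord n) :
    Subgroup.closure (Set.range (SurgeryGroup.gen w)) = ⊤ :=
  PresentedGroup.closure_range_of _

theorem ab_of (w : BraidWord 4) (hw : IsKnot w)
    (hl : ∀ {H : Type} [Group H] (a : H) (b : Fin 5), longitude w (fun _ : Fin 5 => a) b = a ^ 6) :
    Nonempty (Abelianization (SurgeryGroup w) ≃* Multiplicative (ZMod 6)) := by
  obtain ⟨e, he⟩ := hom_bij w (Multiplicative (ZMod 6))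
  obtain ⟨e', he'⟩ := hom_bij w (Abelianization (SurgeryGroup w))
  set g1 : Multiplicative (ZMod 6) := Multiplicative.ofAdd 1 with hg1
  let x1 : {x : Fin (4 + 1) → Multiplicative (ZMod 6) //
      (run w x).lab = x ∧ ∀ b, longitude w x b = 1} :=
    ⟨fun _ => g1, (run_const w g1).1, fun b => by
      rw [hl g1 b, hg1]
      decide⟩
  let f : SurgeryGroup w →* Multiplicative (ZMod 6) := e.symm x1
  have hf : ∀ j, f (SurgeryGroup.gen w j) = g1 := by
    intro j
    rw [← he f j]
    show (e (e.symm x1)).1 j = g1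
    rw [Equiv.apply_symm_apply]
  let F : Abelianization (SurgeryGroup w) →* Multiplicative (ZMod 6) := Abelianization.lift f
  have hF : ∀ g, F (Abelianization.of g) = f g := fun g => Abelianization.lift_apply_of f g
  set x : Abelianization (SurgeryGroup w) := Abelianization.of (SurgeryGroup.gen w 0) with hx
  have hcond := (e' Abelianization.of).2
  have hall : ∀ j, (e' Abelianization.of).1 j = x := by
    intro j
    rw [hx, ← he' Abelianization.of 0]
    exact lab_abelian w hw (MonoidHom.id _) _ hcond.1 j 0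
  have hx6 : x ^ 6 = 1 := by
    have h1 := hcond.2 0
    rw [show (e' Abelianization.of).1 = fun _ : Fin 5 => x from funext hall, hl] at h1
    exact h1
  have hgen : ∀ y : Abelianization (SurgeryGroup w), ∃ k : ℤ, x ^ k = y := by
    intro y
    obtain ⟨g, rfl⟩ : ∃ g, Abelianization.of g = y := QuotientGroup.mk_surjective y
    have hg : g ∈ Subgroup.closure (Set.range (SurgeryGroup.gen w)) := by
      rw [closure_gen]
      exact Subgroup.mem_top g
    induction hg using Subgroup.closure_induction with
    | mem a ha =>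
      obtain ⟨j, rfl⟩ := ha
      refine ⟨1, ?_⟩
      rw [zpow_one, ← he' Abelianization.of j]
      exact (hall j).symm
    | one => exact ⟨0, by rw [zpow_zero, map_one]⟩
    | mul a b _ _ ha hb =>
      obtain ⟨k, hk⟩ := ha
      obtain ⟨k', hk'⟩ := hb
      exact ⟨k + k', by rw [zpow_add, hk, hk', map_mul]⟩
    | inv a _ ha =>
      obtain ⟨k, hk⟩ := ha
      exact ⟨-k, by rw [zpow_neg, hk, map_inv]⟩
  have hFx : ∀ k : ℤ, F (x ^ k) = Multiplicative.ofAdd (k : ZMod 6) := by
    intro k
    rw [map_zpow, hx, hF, hf, hg1, ← ofAdd_zsmul, zsmul_one]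
  refine ⟨MulEquiv.ofBijective F ⟨?_, ?_⟩⟩
  · rw [injective_iff_map_eq_one]
    intro y hy
    obtain ⟨k, rfl⟩ := hgen y
    rw [hFx] at hy
    have hk : (k : ZMod 6) = 0 := Multiplicative.ofAdd.injective hy
    rw [ZMod.intCast_zmod_eq_zero_iff_dvd] at hk
    obtain ⟨c, rfl⟩ := hk
    rw [zpow_mul]
    have : x ^ ((6 : ℕ) : ℤ) = 1 := by rw [zpow_natCast, hx6]
    rw [this, one_zpow]
  · intro y
    obtain ⟨k, hk⟩ := ZMod.intCast_surjective (Multiplicative.toAdd y)
    refine ⟨x ^ k, ?_⟩
    rw [hFx, hk]
    rfl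

/-- `H₁ = ℤ/6` -/
theorem ab_wM : Nonempty (Abelianization (SurgeryGroup wM) ≃* Multiplicative (ZMod 6)) :=
  ab_of wM isKnot_wM fun a b => longitude_const_wM a b

theorem ab_wN : Nonempty (Abelianization (SurgeryGroup wN) ≃* Multiplicative (ZMod 6)) :=
  ab_of wN isKnot_wN fun a b => longitude_const_wN a b

theorem finite_ab_wM : Finite (Abelianization (SurgeryGroup wM)) := by
  obtain ⟨e⟩ := ab_wM
  have : Finite (Multiplicative (ZMod 6)) := inferInstance
  exact Finite.of_equiv _ e.symm.toEquiv

theorem finite_ab_wN : Finite (Abelianization (SurgeryGroup wN)) := by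
  obtain ⟨e⟩ := ab_wN
  have : Finite (Multiplicative (ZMod 6)) := inferInstance
  exact Finite.of_equiv _ e.symm.toEquiv

/-! ## The linking form -/

theorem compFun_iff (w : BraidWord n) (hw : IsKnot w) (x : Fin (n + 1) → ℝ) :
    x ∈ compFun w ↔ ∀ s, x s = x 0 := by
  constructor
  · intro h s
    obtain ⟨m, rfl⟩ := hw s
    induction m with
    | zero => rfl
    | succ m ih =>
      rw [Function.iterate_succ_apply']
      exact (h _).trans ih
  · intro h s
    rw [h, h s]

theorem linkForm_const (w : BraidWord n) (x : Fin (n + 1) → ℝ) (hx : ∀ s, x s = x 0) :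
    linkForm w x = (((crossings w).map fun c => c.2.2).sum : ℤ) * (x 0 * x 0) := by
  unfold linkForm
  generalize crossings w = L
  induction L with
  | nil => simp
  | cons c L ih =>
    rw [List.map_cons, List.sum_cons, List.map_cons, List.sum_cons, ih, hx c.1, hx c.2.1]
    push_cast
    ring

theorem sum_wM : ((crossings wM).map fun c => c.2.2).sum = 6 := by decide +kernel

theorem sum_wN : ((crossings wN).map fun c => c.2.2).sum = 6 := by decide +kernel

theorem compFun_eq : compFun wM = compFun wN := by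
  ext x
  rw [compFun_iff wM isKnot_wM, compFun_iff wN isKnot_wN]

theorem linkForm_eq {x : Fin 5 → ℝ} (hx : x ∈ compFun wM) : linkForm wM x = linkForm wN x := by
  rw [compFun_iff wM isKnot_wM] at hx
  rw [linkForm_const wM x hx, linkForm_const wN x hx, sum_wM, sum_wN]

theorem bPlus_congr (w w' : BraidWord n) (h : compFun w = compFun w')
    (hl : ∀ x ∈ compFun w, linkForm w x = linkForm w' x) : bPlus w = bPlus w' := by
  unfold bPlus
  have : {d | ∃ S : Submodule ℝ (Fin (n + 1) → ℝ), S ≤ compFun w ∧ Module.finrank ℝ S = d ∧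
      ∀ x ∈ S, x ≠ 0 → 0 < linkForm w x} =
    {d | ∃ S : Submodule ℝ (Fin (n + 1) → ℝ), S ≤ compFun w' ∧ Module.finrank ℝ S = d ∧
      ∀ x ∈ S, x ≠ 0 → 0 < linkForm w' x} := by
    ext d
    constructor
    · rintro ⟨S, h1, h2, h3⟩
      exact ⟨S, h ▸ h1, h2, fun x hx hx0 => by
        rw [← hl x (h1 hx)]; exact h3 x hx hx0⟩
    · rintro ⟨S, h1, h2, h3⟩
      have h1' : S ≤ compFun w := by rw [h]; exact h1
      exact ⟨S, h1', h2, fun x hx hx0 => by
        rw [hl x (h1' hx)]; exact h3 x hx hx0⟩
  rw [this]

theorem bMinus_congr (w w' : BraidWord n) (h : compFun w = compFun w')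
    (hl : ∀ x ∈ compFun w, linkForm w x = linkForm w' x) : bMinus w = bMinus w' := by
  unfold bMinus
  have : {d | ∃ S : Submodule ℝ (Fin (n + 1) → ℝ), S ≤ compFun w ∧ Module.finrank ℝ S = d ∧
      ∀ x ∈ S, x ≠ 0 → linkForm w x < 0} =
    {d | ∃ S : Submodule ℝ (Fin (n + 1) → ℝ), S ≤ compFun w' ∧ Module.finrank ℝ S = d ∧
      ∀ x ∈ S, x ≠ 0 → linkForm w' x < 0} := by
    ext d
    constructor
    · rintro ⟨S, h1, h2, h3⟩
      exact ⟨S, h ▸ h1, h2, fun x hx hx0 => by
        rw [← hl x (h1 hx)]; exact h3 x hx hx0⟩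
    · rintro ⟨S, h1, h2, h3⟩
      have h1' : S ≤ compFun w := by rw [h]; exact h1
      exact ⟨S, h1', h2, fun x hx hx0 => by
        rw [hl x (h1' hx)]; exact h3 x hx hx0⟩
  rw [this]

theorem bPlus_eq : bPlus wM = bPlus wN :=
  bPlus_congr wM wN compFun_eq fun _ hx => linkForm_eq hx

theorem bMinus_eq : bMinus wM = bMinus wN :=
  bMinus_congr wM wN compFun_eq fun _ hx => linkForm_eq hx

end Pool.Agent.QInv75
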