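import Pool.Agent.QInv75.Words

/-!
# Weight vectors, the span of the `F`-words, the pivotal element
-/

set_option autoImplicit false

open Matrix
open scoped Kronecker

namespace Pool.Agent.QInv75

variable {X : Dynkin} {Φ : WeightForm X} {Λ : Finset X.Weight}

theorem tt_ne : tt ≠ 0 := RatFunc.X_ne_zero

theorem tt_pow_nat {k : ℕ} (hk : 0 < k) : tt ^ k ≠ 1 := by
  intro h
  have h1 : (algebraMap (Polynomial ℂ) FF) (Polynomial.X ^ k) = algebraMap (Polynomial ℂ) FF 1 := by
    rw [map_pow, RatFunc.algebraMap_X, map_one]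
    exact h
  have h2 := RatFunc.algebraMap_injective ℂ h1
  have h3 := congrArg Polynomial.natDegree h2
  rw [Polynomial.natDegree_X_pow, Polynomial.natDegree_one] at h3
  omega

theorem tt_zpow_inj {a b : ℤ} (h : tt ^ a = tt ^ b) : a = b := by
  by_contra hab
  wlog hlt : a < b generalizing a b with H
  · exact H h.symm (Ne.symm hab) (by omega)
  · have h1 : tt ^ (b - a) = 1 := by
      rw [zpow_sub₀ tt_ne, h, div_self (zpow_ne_zero _ tt_ne)]
    obtain ⟨k, hk⟩ := Int.eq_ofNat_of_zero_le (show 0 ≤ b - a by omega)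
    rw [hk, zpow_natCast] at h1
    exact tt_pow_nat (show 0 < k by omega) h1

theorem d_pos (X : Dynkin) (i : Fin X.rank) : 0 < X.d i := by
  cases X with
  | A n => exact Int.one_pos
  | B n =>
    show 0 < (if i.val = n + 1 then (1 : ℤ) else 2)
    split_ifs <;> norm_num
  | C n =>
    show 0 < (if i.val = n + 2 then (2 : ℤ) else 1)
    split_ifs <;> norm_num
  | D n => exact Int.one_pos
  | E6 => exact Int.one_pos
  | E7 => exact Int.one_pos
  | E8 => exact Int.one_pos
  | F4 =>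
    revert i
    decide
  | G2 =>
    revert i
    decide

theorem vv_ne (i : Fin X.rank) : vv Φ i ≠ 0 := zpow_ne_zero _ tt_ne

theorem vv_pow_inj (i : Fin X.rank) {a b : ℤ} (h : vv Φ i ^ a = vv Φ i ^ b) : a = b := by
  unfold vv at h
  rw [← _root_.zpow_mul, ← _root_.zpow_mul] at h
  have h1 := tt_zpow_inj h
  have h2 : (Φ.N : ℤ) * X.d i ≠ 0 := by
    have := Φ.pos
    have := d_pos X i
    positivity
  exact mul_left_cancel₀ h2 h1

theorem isWt_F' {m : ℕ} (M : UqModule Φ m) {μ : X.Weight} {w : Fin m → FF} (h : M.IsWt μ w)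
    (i : Fin X.rank) : M.IsWt (μ - X.root i) (M.F i *ᵥ w) := by
  intro j
  rw [mulVec_mulVec, M.KF, smul_mulVec, ← mulVec_mulVec, h j, mulVec_smul, smul_smul,
    ← zpow_add₀ (vv_ne j)]
  congr 2
  show -X.a j i + μ j = μ j - X.a j i
  ring

theorem isWt_E' {m : ℕ} (M : UqModule Φ m) {μ : X.Weight} {w : Fin m → FF} (h : M.IsWt μ w)
    (i : Fin X.rank) : M.IsWt (μ + X.root i) (M.E i *ᵥ w) := by
  intro j
  rw [mulVec_mulVec, M.KE, smul_mulVec, ← mulVec_mulVec, h j, mulVec_smul, smul_smul,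
    ← zpow_add₀ (vv_ne j)]
  congr 2
  show X.a j i + μ j = μ j + X.a j i
  ring

theorem isWt_F (S : Model Φ Λ) {μ : X.Weight} {w : Fin S.m → FF} (h : S.M.IsWt μ w)
    (i : Fin X.rank) : S.M.IsWt (μ - X.root i) (S.M.F i *ᵥ w) := isWt_F' S.M h i

theorem isWt_E (S : Model Φ Λ) {μ : X.Weight} {w : Fin S.m → FF} (h : S.M.IsWt μ w)
    (i : Fin X.rank) : S.M.IsWt (μ + X.root i) (S.M.E i *ᵥ w) := isWt_E' S.M h i

theorem K'K {m : ℕ} (M : UqModule Φ m) (i : Fin X.rank) : M.K' i * M.K i = 1 :=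
  mul_eq_one_comm.mp (M.KK' i)

/-- `K_i⁻¹` on weight vectors -/
theorem isWt_K' {m : ℕ} {M : UqModule Φ m} {μ : X.Weight} {w : Fin m → FF} (h : M.IsWt μ w)
    (i : Fin X.rank) : M.K' i *ᵥ w = vv Φ i ^ (-μ i) • w := by
  have h1 : M.K' i *ᵥ (M.K i *ᵥ w) = w := by
    rw [mulVec_mulVec, K'K, one_mulVec]
  rw [h i, mulVec_smul] at h1
  have h2 := congrArg (fun z => vv Φ i ^ (-μ i) • z) h1
  simp only [smul_smul] at h2
  rwa [← zpow_add₀ (vv_ne i), neg_add_cancel, zpow_zero, one_smul] at h2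

/-- the `F`-words applied to the highest weight vectors of the summand `l` -/
inductive FWord (S : Model Φ Λ) (l : X.Weight) : X.Weight → (Fin S.m → FF) → Prop
  | base : FWord S l l (S.v l)
  | step (i : Fin X.rank) (μ : X.Weight) (w : Fin S.m → FF) :
      FWord S l μ w → FWord S l (μ - X.root i) (S.M.F i *ᵥ w)

theorem FWord.isWt {S : Model Φ Λ} {l : X.Weight} (hl : l ∈ Λ) {μ : X.Weight}
    {w : Fin S.m → FF} (h : FWord S l μ w) : S.M.IsWt μ w := by
  induction h with
  | base => exact S.v_wt l hl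
  | step i μ w _ ih => exact isWt_F S ih i

theorem FWord.proj {S : Model Φ Λ} {l : X.Weight} (hl : l ∈ Λ) {μ : X.Weight}
    {w : Fin S.m → FF} (h : FWord S l μ w) : S.P l *ᵥ w = w := by
  induction h with
  | base => exact S.v_P l hl
  | step i μ w _ ih =>
    rw [mulVec_mulVec, S.P_F l hl i, ← mulVec_mulVec, ih]

/-- the span of the `F`-words -/
noncomputable def fspan (S : Model Φ Λ) (l : X.Weight) : Submodule FF (Fin S.m → FF) :=
  Submodule.span FF {w | ∃ μ, FWord S l μ w}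

theorem fspan_F (S : Model Φ Λ) (l : X.Weight) (i : Fin X.rank) {w : Fin S.m → FF}
    (hw : w ∈ fspan S l) : S.M.F i *ᵥ w ∈ fspan S l := by
  unfold fspan at hw
  induction hw using Submodule.span_induction with
  | mem x hx =>
    obtain ⟨μ, hx⟩ := hx
    exact Submodule.subset_span ⟨_, FWord.step i μ x hx⟩
  | zero => rw [mulVec_zero]; exact Submodule.zero_mem _
  | add x y _ _ hx hy => rw [mulVec_add]; exact Submodule.add_mem _ hx hy
  | smul c x _ hx => rw [mulVec_smul]; exact Submodule.smul_mem _ _ hx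

theorem fspan_K (S : Model Φ Λ) {l : X.Weight} (hl : l ∈ Λ) (i : Fin X.rank) {w : Fin S.m → FF}
    (hw : w ∈ fspan S l) : S.M.K i *ᵥ w ∈ fspan S l := by
  unfold fspan at hw
  induction hw using Submodule.span_induction with
  | mem x hx =>
    obtain ⟨μ, hx⟩ := hx
    rw [hx.isWt hl i]
    exact Submodule.smul_mem _ _ (Submodule.subset_span ⟨μ, hx⟩)
  | zero => rw [mulVec_zero]; exact Submodule.zero_mem _
  | add x y _ _ hx hy => rw [mulVec_add]; exact Submodule.add_mem _ hx hy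
  | smul c x _ hx => rw [mulVec_smul]; exact Submodule.smul_mem _ _ hx

theorem fspan_K' (S : Model Φ Λ) {l : X.Weight} (hl : l ∈ Λ) (i : Fin X.rank) {w : Fin S.m → FF}
    (hw : w ∈ fspan S l) : S.M.K' i *ᵥ w ∈ fspan S l := by
  unfold fspan at hw
  induction hw using Submodule.span_induction with
  | mem x hx =>
    obtain ⟨μ, hx⟩ := hx
    rw [isWt_K' (hx.isWt hl) i]
    exact Submodule.smul_mem _ _ (Submodule.subset_span ⟨μ, hx⟩)
  | zero => rw [mulVec_zero]; exact Submodule.zero_mem _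
  | add x y _ _ hx hy => rw [mulVec_add]; exact Submodule.add_mem _ hx hy
  | smul c x _ hx => rw [mulVec_smul]; exact Submodule.smul_mem _ _ hx

theorem fspan_E (S : Model Φ Λ) {l : X.Weight} (hl : l ∈ Λ) (i : Fin X.rank) {w : Fin S.m → FF}
    (hw : w ∈ fspan S l) : S.M.E i *ᵥ w ∈ fspan S l := by
  unfold fspan at hw
  induction hw using Submodule.span_induction with
  | mem x hx =>
    obtain ⟨μ, hx⟩ := hx
    induction hx with
    | base => rw [S.v_E l hl i]; exact Submodule.zero_mem _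
    | step j μ w hw ih =>
      have h1 : S.M.E i *ᵥ (S.M.F j *ᵥ w) = S.M.F j *ᵥ (S.M.E i *ᵥ w) +
          (if i = j then (vv Φ i - (vv Φ i)⁻¹)⁻¹ • (S.M.K i - S.M.K' i) else 0) *ᵥ w := by
        rw [← S.M.EF i j, mulVec_mulVec, mulVec_mulVec, ← add_mulVec]
        congr 1
        abel
      rw [h1]
      refine Submodule.add_mem _ (fspan_F S l j ih) ?_
      have hw' : w ∈ fspan S l := Submodule.subset_span ⟨μ, hw⟩
      split_ifs with hij
      · rw [smul_mulVec, sub_mulVec]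
        exact Submodule.smul_mem _ _ (Submodule.sub_mem _ (fspan_K S hl i hw') (fspan_K' S hl i hw'))
      · rw [zero_mulVec]
        exact Submodule.zero_mem _
  | zero => rw [mulVec_zero]; exact Submodule.zero_mem _
  | add x y _ _ hx hy => rw [mulVec_add]; exact Submodule.add_mem _ hx hy
  | smul c x _ hx => rw [mulVec_smul]; exact Submodule.smul_mem _ _ hx

theorem fspan_P (S : Model Φ Λ) {l : X.Weight} (hl : l ∈ Λ) {w : Fin S.m → FF}
    (hw : w ∈ fspan S l) : S.P l *ᵥ w = w := by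
  unfold fspan at hw
  induction hw using Submodule.span_induction with
  | mem x hx =>
    obtain ⟨μ, hx⟩ := hx
    exact hx.proj hl
  | zero => rw [mulVec_zero]
  | add x y _ _ hx hy => rw [mulVec_add, hx, hy]
  | smul c x _ hx => rw [mulVec_smul, hx]

/-- the summand `l` is spanned by the `F`-words -/
theorem mem_fspan (S : Model Φ Λ) {l : X.Weight} (hl : l ∈ Λ) {w : Fin S.m → FF}
    (hw : S.P l *ᵥ w = w) : w ∈ fspan S l := by
  rcases S.irred l hl (fspan S l)
    (fun w hw i => ⟨fspan_E S hl i hw, fspan_F S l i hw, fspan_K S hl i hw, fspan_K' S hl i hw⟩)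
    (fun w hw => fspan_P S hl hw) with h | h
  · exfalso
    apply S.v_ne l hl
    have : S.v l ∈ fspan S l := Submodule.subset_span ⟨l, FWord.base⟩
    rw [h] at this
    exact (Submodule.mem_bot FF).mp this
  · exact h w hw

theorem P_P (S : Model Φ Λ) {l : X.Weight} (hl : l ∈ Λ) (w : Fin S.m → FF) :
    S.P l *ᵥ (S.P l *ᵥ w) = S.P l *ᵥ w := by
  rw [mulVec_mulVec, S.P_mul l hl l hl, if_pos rfl]

theorem sum_P (S : Model Φ Λ) (w : Fin S.m → FF) : ∑ l ∈ Λ, S.P l *ᵥ w = w := by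
  rw [← sum_mulVec, S.P_sum, one_mulVec]

/-- everything is spanned by the vectors `F_{i_1} ⋯ F_{i_k} v_λ` (which are weight vectors) -/
theorem model_induct (S : Model Φ Λ) (W : Submodule FF (Fin S.m → FF)) (hv : ∀ l ∈ Λ, S.v l ∈ W)
    (hF : ∀ i, ∀ μ, ∀ w ∈ W, S.M.IsWt μ w → S.M.F i *ᵥ w ∈ W) (w : Fin S.m → FF) : w ∈ W := by
  have key : ∀ l ∈ Λ, fspan S l ≤ W := by
    intro l hl
    refine Submodule.span_le.mpr ?_
    rintro x ⟨μ, hx⟩
    induction hx with
    | base => exact hv l hl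
    | step i μ w hw ih => exact hF i μ w ih (hw.isWt hl)
  rw [← sum_P S w]
  exact Submodule.sum_mem _ fun l hl => key l hl (mem_fspan S hl (P_P S hl w))

/-- two matrices agree if they agree on all weight vectors -/
theorem ext_wt (S : Model Φ Λ) {κ : Type*} [Fintype κ] (A B : Matrix κ (Fin S.m) FF)
    (h : ∀ μ w, S.M.IsWt μ w → A *ᵥ w = B *ᵥ w) : A = B := by
  have key : ∀ w, A *ᵥ w = B *ᵥ w := by
    intro w
    have : w ∈ Submodule.span FF {w | ∃ μ, S.M.IsWt μ w} := by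
      refine model_induct S (Submodule.span FF {w | ∃ μ, S.M.IsWt μ w}) ?_ ?_ w
      · intro l hl
        exact Submodule.subset_span ⟨l, S.v_wt l hl⟩
      · intro i μ w _ hw
        exact Submodule.subset_span ⟨_, isWt_F S hw i⟩
    induction this using Submodule.span_induction with
    | mem x hx =>
      obtain ⟨μ, hx⟩ := hx
      exact h μ x hx
    | zero => rw [mulVec_zero, mulVec_zero]
    | add x y _ _ hx hy => rw [mulVec_add, mulVec_add, hx, hy]
    | smul c x _ hx => rw [mulVec_smul, mulVec_smul, hx]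
  ext a b
  have := congrFun (key (Pi.single b 1)) a
  simpa using this

theorem ip_rho_root (i : Fin X.rank) : Φ.ip X.rho (X.root i) = Φ.N * X.d i := by
  rw [Φ.symm, Φ.root]
  show (Φ.N : ℤ) * X.d i * 1 = _
  ring

theorem ip_add_right (Φ : WeightForm X) (l m m' : X.Weight) :
    Φ.ip l (m + m') = Φ.ip l m + Φ.ip l m' := by
  rw [Φ.symm, Φ.add_left, Φ.symm m, Φ.symm m']

theorem ip_sub_right (Φ : WeightForm X) (l m m' : X.Weight) :
    Φ.ip l (m - m') = Φ.ip l m - Φ.ip l m' := by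
  have := ip_add_right Φ l (m - m') m'
  rw [sub_add_cancel] at this
  omega

theorem ip_root_right (Φ : WeightForm X) (l : X.Weight) (i : Fin X.rank) :
    Φ.ip l (X.root i) = Φ.N * X.d i * l i := by
  rw [Φ.symm, Φ.root]

theorem h_E (S : Model Φ Λ) (i : Fin X.rank) : S.h * S.M.E i = vv Φ i ^ 2 • (S.M.E i * S.h) := by
  apply ext_wt S
  intro μ w hw
  rw [← mulVec_mulVec, S.h_wt _ _ (isWt_E S hw i), smul_mulVec, ← mulVec_mulVec, S.h_wt _ _ hw,
    mulVec_smul, smul_smul, ip_add_right, ip_rho_root, mul_add, zpow_add₀ tt_ne]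
  congr 1
  rw [mul_comm]
  congr 1
  unfold vv
  rw [← zpow_natCast, ← _root_.zpow_mul]
  congr 1
  push_cast
  ring

theorem h_F (S : Model Φ Λ) (i : Fin X.rank) :
    S.h * S.M.F i = (vv Φ i ^ 2)⁻¹ • (S.M.F i * S.h) := by
  apply ext_wt S
  intro μ w hw
  rw [← mulVec_mulVec, S.h_wt _ _ (isWt_F S hw i), smul_mulVec, ← mulVec_mulVec, S.h_wt _ _ hw,
    mulVec_smul, smul_smul, ip_sub_right, ip_rho_root, mul_sub, sub_eq_add_neg, zpow_add₀ tt_ne]
  congr 1
  rw [mul_comm]
  congr 1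
  unfold vv
  rw [← zpow_natCast, ← _root_.zpow_mul, ← _root_.zpow_neg]
  congr 1
  push_cast
  ring

theorem h_K (S : Model Φ Λ) (i : Fin X.rank) : S.h * S.M.K i = S.M.K i * S.h := by
  apply ext_wt S
  intro μ w hw
  rw [← mulVec_mulVec, ← mulVec_mulVec, S.h_wt _ _ hw, hw i, mulVec_smul, mulVec_smul,
    S.h_wt _ _ hw, hw i, smul_comm]

theorem h_K' (S : Model Φ Λ) (i : Fin X.rank) : S.h * S.M.K' i = S.M.K' i * S.h := by
  apply ext_wt S
  intro μ w hw
  rw [← mulVec_mulVec, ← mulVec_mulVec, S.h_wt _ _ hw, isWt_K' hw i, mulVec_smul, mulVec_smul,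
    S.h_wt _ _ hw, isWt_K' hw i, smul_comm]

theorem h_unit (S : Model Φ Λ) : IsUnit S.h := by
  have hsurj : ∀ w, w ∈ LinearMap.range (Matrix.mulVecLin S.h) := by
    intro w
    refine model_induct S _ ?_ ?_ w
    · intro l hl
      refine ⟨(tt ^ (2 * Φ.ip X.rho l))⁻¹ • S.v l, ?_⟩
      rw [mulVecLin_apply, mulVec_smul, S.h_wt _ _ (S.v_wt l hl), smul_smul,
        inv_mul_cancel₀ (zpow_ne_zero _ tt_ne), one_smul]
    · intro i μ w _ hw
      refine ⟨(tt ^ (2 * Φ.ip X.rho (μ - X.root i)))⁻¹ • (S.M.F i *ᵥ w), ?_⟩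
      rw [mulVecLin_apply, mulVec_smul, S.h_wt _ _ (isWt_F S hw i), smul_smul,
        inv_mul_cancel₀ (zpow_ne_zero _ tt_ne), one_smul]
  have h1 : Function.Surjective S.h.mulVec := by
    intro w
    obtain ⟨x, hx⟩ := hsurj w
    exact ⟨x, hx⟩
  exact Matrix.mulVec_surjective_iff_isUnit.mp h1

end Pool.Agent.QInv75
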