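import Pool.Agent.QInv75.Defs

/-!
# The invariant form on the weight lattice exists for all simple types
-/

set_option autoImplicit false

open Matrix Finset

namespace Pool.Agent.QInv75

namespace C1

/-- A symmetric matrix `B` with `bour * B = N · diag d` gives a form. -/
theorem of_gram (X : Dynkin) (N : ℕ) (hN : 0 < N) (B : Fin X.rank → Fin X.rank → ℤ)
    (hs : ∀ i j, B i j = B j i)
    (hr : ∀ j m, ∑ i, X.bour j i * B i m = if j = m then (N : ℤ) * X.d j else 0) :
    Nonempty (WeightForm X) := by
  refine ⟨⟨N, hN, fun l m => ∑ i, ∑ j, l i * B i j * m j, ?_, ?_, ?_⟩⟩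
  · intro l l' m
    rw [← Finset.sum_add_distrib]
    refine Finset.sum_congr rfl fun i _ => ?_
    rw [← Finset.sum_add_distrib]
    refine Finset.sum_congr rfl fun j _ => ?_
    rw [Pi.add_apply]
    ring
  · intro l m
    rw [Finset.sum_comm]
    refine Finset.sum_congr rfl fun i _ => Finset.sum_congr rfl fun j _ => ?_
    rw [hs j i]
    ring
  · intro j m
    rw [Finset.sum_comm]
    have h : ∀ k, ∑ i, X.root j i * B i k * m k = (if j = k then (N : ℤ) * X.d j else 0) * m k := by
      intro k
      rw [← hr j k, Finset.sum_mul]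
      rfl
    rw [Finset.sum_congr rfl fun k _ => h k]
    simp

/-- Evaluation of sparse sums. -/
theorem sum_sparse (r : ℕ) (b : ℕ → ℤ) (L : List (ℕ × ℤ)) (hL : ∀ t ∈ L, t.1 < r) :
    ∑ i ∈ range r, (L.map fun t => if i = t.1 then t.2 else 0).sum * b i =
      (L.map fun t => t.2 * b t.1).sum := by
  induction L with
  | nil => simp
  | cons t L ih =>
    simp only [List.map_cons, List.sum_cons, add_mul]
    rw [Finset.sum_add_distrib, ih fun s hs => hL s (List.mem_cons_of_mem _ hs)]
    congr 1
    have ht := hL t List.mem_cons_self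
    simp [ht]

theorem sum_sparse' (r : ℕ) (f b : ℕ → ℤ) (L : List (ℕ × ℤ)) (hL : ∀ t ∈ L, t.1 < r)
    (hf : ∀ i < r, f i = (L.map fun t => if i = t.1 then t.2 else 0).sum) :
    ∑ i ∈ range r, f i * b i = (L.map fun t => t.2 * b t.1).sum := by
  rw [← sum_sparse r b L hL]
  exact Finset.sum_congr rfl fun i hi => by rw [hf i (mem_range.1 hi)]

theorem exists_A (n : ℕ) : Nonempty (WeightForm (Dynkin.A n)) := by
  let b : ℕ → ℕ → ℤ := fun i m =>
    if i ≤ m then ((i : ℤ) + 1) * ((n : ℤ) + 1 - m) else ((m : ℤ) + 1) * ((n : ℤ) + 1 - i)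
  refine of_gram (Dynkin.A n) (n + 2) (by omega)
    (fun i m : Fin (n + 1) => b i.val m.val) ?_ ?_
  · intro i j
    simp only [b]
    rcases lt_trichotomy i.val j.val with h | h | h
    · rw [if_pos h.le, if_neg (by omega)]
    · rw [if_pos h.le, if_pos h.ge, h]
    · rw [if_neg (by omega), if_pos h.le]
  · intro j m
    obtain ⟨j, hj⟩ := j
    obtain ⟨m, hm⟩ := m
    change j < n + 1 at hj
    change m < n + 1 at hm
    have e : ∑ i : Fin (n + 1), (Dynkin.A n).bour ⟨j, hj⟩ i * b i.val m =
        ∑ i ∈ range (n + 1), (if j = i then (2 : ℤ) else if j + 1 = i ∨ i + 1 = j then -1 else 0) *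
          b i m := by
      rw [Finset.sum_range]
      refine Finset.sum_congr rfl fun i _ => ?_
      congr 1
      simp [Dynkin.bour, CartanMatrix.A, Fin.ext_iff]
    refine e.trans ?_
    have hd : (Dynkin.A n).d ⟨j, hj⟩ = 1 := rfl
    rw [hd]
    have hjm : ((⟨j, hj⟩ : Fin (Dynkin.A n).rank) = ⟨m, hm⟩) ↔ j = m := by simp
    simp only [hjm]
    rcases Nat.eq_zero_or_pos j with h0 | h0
    · subst h0
      by_cases hn : n = 0
      · subst hn
        rw [sum_sparse' 1 _ (fun i => b i m) [(0, 2)] (by simp) (by
          intro i hi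
          simp
          split_ifs <;> omega)]
        have : m = 0 := by omega
        subst this
        simp [b]
      · rw [sum_sparse' (n + 1) _ (fun i => b i m) [(0, 2), (1, -1)] (by simp; omega) (by
          intro i hi
          simp
          split_ifs <;> omega)]
        simp only [List.map_cons, List.map_nil, List.sum_cons, List.sum_nil, b]
        by_cases hm0 : m = 0
        · subst hm0
          simp; ring
        · rw [if_pos (by omega), if_pos (by omega), if_neg (by omega)]
          push_cast; ring
    · obtain ⟨j, rfl⟩ : ∃ j', j = j' + 1 := ⟨j - 1, by omega⟩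
      by_cases hjn : j + 1 = n
      · rw [sum_sparse' (n + 1) _ (fun i => b i m) [(j, -1), (j + 1, 2)] (by simp; omega) (by
          intro i hi
          simp
          split_ifs <;> omega)]
        simp only [List.map_cons, List.map_nil, List.sum_cons, List.sum_nil, b]
        have hnz : (n : ℤ) = j + 1 := by omega
        rcases lt_trichotomy m (j + 1) with h | h | h
        · rcases Nat.lt_or_ge m j with h' | h'
          · rw [if_neg (by omega), if_neg (by omega), if_neg (by omega), hnz]
            push_cast; ring
          · have : m = j := by omega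
            subst this
            rw [if_pos (by omega), if_neg (by omega), if_neg (by omega), hnz]
            push_cast; ring
        · subst h
          rw [if_pos (by omega), if_pos (by omega), if_pos rfl, hnz]
          push_cast
          rw [hnz]; ring
        · omega
      · rw [sum_sparse' (n + 1) _ (fun i => b i m) [(j, -1), (j + 1, 2), (j + 2, -1)]
          (by simp; omega) (by
          intro i hi
          simp
          split_ifs <;> omega)]
        simp only [List.map_cons, List.map_nil, List.sum_cons, List.sum_nil, b]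
        rcases lt_trichotomy m (j + 1) with h | h | h
        · rcases Nat.lt_or_ge m j with h' | h'
          · rw [if_neg (by omega), if_neg (by omega), if_neg (by omega), if_neg (by omega)]
            push_cast; ring
          · have : m = j := by omega
            subst this
            rw [if_pos (by omega), if_neg (by omega), if_neg (by omega), if_neg (by omega)]
            push_cast; ring
        · subst h
          rw [if_pos (by omega), if_pos (by omega), if_neg (by omega), if_pos rfl]
          push_cast
          ring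
        · rcases Nat.lt_or_ge m (j + 2) with h' | h'
          · omega
          · rw [if_pos (by omega), if_pos (by omega), if_pos (by omega), if_neg (by omega)]
            push_cast; ring

theorem exists_C (n : ℕ) : Nonempty (WeightForm (Dynkin.C n)) := by
  let b : ℕ → ℕ → ℤ := fun i m => if i ≤ m then (i : ℤ) + 1 else (m : ℤ) + 1
  refine of_gram (Dynkin.C n) 1 (by omega)
    (fun i m : Fin (n + 3) => b i.val m.val) ?_ ?_
  · intro i j
    simp only [b]
    split_ifs <;> omega
  · intro j m
    obtain ⟨j, hj⟩ := j
    obtain ⟨m, hm⟩ := m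
    change j < n + 3 at hj
    change m < n + 3 at hm
    have e : ∑ i : Fin (n + 3), (Dynkin.C n).bour ⟨j, hj⟩ i * b i.val m =
        ∑ i ∈ range (n + 3), (if j = i then (2 : ℤ) else if j + 1 = i then -1 else
          if i + 1 = j then if j = n + 2 then -2 else -1 else 0) *
          b i m := by
      rw [Finset.sum_range]
      refine Finset.sum_congr rfl fun i _ => ?_
      congr 1
      simp [Dynkin.bour, CartanMatrix.C, Fin.ext_iff]
    refine e.trans ?_
    have hd : (Dynkin.C n).d ⟨j, hj⟩ = if j = n + 2 then 2 else 1 := rfl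
    rw [hd]
    have hjm : ((⟨j, hj⟩ : Fin (Dynkin.C n).rank) = ⟨m, hm⟩) ↔ j = m := by simp
    simp only [hjm]
    rcases Nat.eq_zero_or_pos j with h0 | h0
    · subst h0
      rw [sum_sparse' (n + 3) _ (fun i => b i m) [(0, 2), (1, -1)] (by simp) (by
          intro i hi
          simp
          split_ifs <;> omega)]
      simp only [List.map_cons, List.map_nil, List.sum_cons, List.sum_nil, b]
      push_cast
      split_ifs <;> omega
    · obtain ⟨j, rfl⟩ : ∃ j', j = j' + 1 := ⟨j - 1, by omega⟩
      by_cases hjn : j = n + 1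
      · rw [sum_sparse' (n + 3) _ (fun i => b i m) [(j, -2), (j + 1, 2)] (by simp; omega) (by
          intro i hi
          simp
          split_ifs <;> omega)]
        simp only [List.map_cons, List.map_nil, List.sum_cons, List.sum_nil, b]
        push_cast
        split_ifs <;> omega
      · rw [sum_sparse' (n + 3) _ (fun i => b i m) [(j, -1), (j + 1, 2), (j + 2, -1)]
          (by simp; omega) (by
          intro i hi
          simp
          split_ifs <;> omega)]
        simp only [List.map_cons, List.map_nil, List.sum_cons, List.sum_nil, b]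
        push_cast
        split_ifs <;> omega

theorem exists_B (n : ℕ) : Nonempty (WeightForm (Dynkin.B n)) := by
  let b : ℕ → ℕ → ℤ := fun i m =>
    if i = n + 1 then (if m = n + 1 then (n : ℤ) + 2 else 2 * ((m : ℤ) + 1)) else
    if m = n + 1 then 2 * ((i : ℤ) + 1) else
    if i ≤ m then 4 * ((i : ℤ) + 1) else 4 * ((m : ℤ) + 1)
  refine of_gram (Dynkin.B n) 2 (by omega)
    (fun i m : Fin (n + 2) => b i.val m.val) ?_ ?_
  · intro i j
    simp only [b]
    split_ifs <;> omega
  · intro j m
    obtain ⟨j, hj⟩ := j
    obtain ⟨m, hm⟩ := m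
    change j < n + 2 at hj
    change m < n + 2 at hm
    have e : ∑ i : Fin (n + 2), (Dynkin.B n).bour ⟨j, hj⟩ i * b i.val m =
        ∑ i ∈ range (n + 2), (if j = i then (2 : ℤ) else if j + 1 = i then
          (if i = n + 1 then -2 else -1) else
          if i + 1 = j then -1 else 0) *
          b i m := by
      rw [Finset.sum_range]
      refine Finset.sum_congr rfl fun i _ => ?_
      congr 1
      simp [Dynkin.bour, CartanMatrix.B, Fin.ext_iff]
    refine e.trans ?_
    have hd : (Dynkin.B n).d ⟨j, hj⟩ = if j = n + 1 then 1 else 2 := rfl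
    rw [hd]
    have hjm : ((⟨j, hj⟩ : Fin (Dynkin.B n).rank) = ⟨m, hm⟩) ↔ j = m := by simp
    simp only [hjm]
    rcases Nat.eq_zero_or_pos j with h0 | h0
    · subst h0
      rw [sum_sparse' (n + 2) _ (fun i => b i m) [(0, 2), (1, if n = 0 then -2 else -1)]
        (by simp) (by
          intro i hi
          simp
          split_ifs <;> omega)]
      simp only [List.map_cons, List.map_nil, List.sum_cons, List.sum_nil, b]
      push_cast
      split_ifs <;> omega
    · obtain ⟨j, rfl⟩ : ∃ j', j = j' + 1 := ⟨j - 1, by omega⟩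
      by_cases hjn : j = n
      · rw [sum_sparse' (n + 2) _ (fun i => b i m) [(j, -1), (j + 1, 2)] (by simp; omega) (by
          intro i hi
          simp
          split_ifs <;> omega)]
        simp only [List.map_cons, List.map_nil, List.sum_cons, List.sum_nil, b]
        push_cast
        split_ifs <;> omega
      · rw [sum_sparse' (n + 2) _ (fun i => b i m) [(j, -1), (j + 1, 2),
          (j + 2, if j + 1 = n then -2 else -1)]
          (by simp; omega) (by
          intro i hi
          simp
          split_ifs <;> omega)]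
        simp only [List.map_cons, List.map_nil, List.sum_cons, List.sum_nil, b]
        push_cast
        split_ifs <;> omega

theorem exists_D (n : ℕ) : Nonempty (WeightForm (Dynkin.D n)) := by
  let b : ℕ → ℕ → ℤ := fun i m =>
    if n + 2 ≤ i then (if n + 2 ≤ m then (if i = m then (n : ℤ) + 4 else (n : ℤ) + 2)
      else 2 * ((m : ℤ) + 1)) else
    if n + 2 ≤ m then 2 * ((i : ℤ) + 1) else
    if i ≤ m then 4 * ((i : ℤ) + 1) else 4 * ((m : ℤ) + 1)
  refine of_gram (Dynkin.D n) 4 (by omega)
    (fun i m : Fin (n + 4) => b i.val m.val) ?_ ?_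
  · intro i j
    simp only [b]
    split_ifs <;> omega
  · intro j m
    obtain ⟨j, hj⟩ := j
    obtain ⟨m, hm⟩ := m
    change j < n + 4 at hj
    change m < n + 4 at hm
    have e : ∑ i : Fin (n + 4), (Dynkin.D n).bour ⟨j, hj⟩ i * b i.val m =
        ∑ i ∈ range (n + 4), (if j = i then (2 : ℤ) else
          if j + 1 = i ∧ i + 2 < n + 4 then -1 else
          if i + 1 = j ∧ j + 2 < n + 4 then -1 else
          if j + 3 = n + 4 ∧ (i + 2 = n + 4 ∨ i + 1 = n + 4) then -1 else
          if i + 3 = n + 4 ∧ (j + 2 = n + 4 ∨ j + 1 = n + 4) then -1 else 0) *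
          b i m := by
      rw [Finset.sum_range]
      refine Finset.sum_congr rfl fun i _ => ?_
      congr 1
      simp only [Dynkin.bour, CartanMatrix.D, Fin.ext_iff, Matrix.of_apply]
      rw [if_neg (show ¬ (n + 4 ≤ 2) by omega)]
    refine e.trans ?_
    have hd : (Dynkin.D n).d ⟨j, hj⟩ = 1 := rfl
    rw [hd]
    have hjm : ((⟨j, hj⟩ : Fin (Dynkin.D n).rank) = ⟨m, hm⟩) ↔ j = m := by simp
    simp only [hjm]
    rcases Nat.eq_zero_or_pos j with h0 | h0
    · subst h0
      rw [sum_sparse' (n + 4) _ (fun i => b i m) [(0, 2), (1, -1)]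
        (by simp) (by
          intro i hi
          simp
          split_ifs <;> omega)]
      simp only [List.map_cons, List.map_nil, List.sum_cons, List.sum_nil, b]
      push_cast
      split_ifs <;> omega
    · obtain ⟨j, rfl⟩ : ∃ j', j = j' + 1 := ⟨j - 1, by omega⟩
      by_cases hj1 : j = n + 2
      · subst hj1
        rw [sum_sparse' (n + 4) _ (fun i => b i m) [(n + 1, -1), (n + 3, 2)] (by simp) (by
          intro i hi
          simp
          split_ifs <;> omega)]
        simp only [List.map_cons, List.map_nil, List.sum_cons, List.sum_nil, b]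
        push_cast
        split_ifs <;> omega
      · by_cases hj2 : j = n + 1
        · subst hj2
          rw [sum_sparse' (n + 4) _ (fun i => b i m) [(n + 1, -1), (n + 2, 2)] (by simp) (by
            intro i hi
            simp
            split_ifs <;> omega)]
          simp only [List.map_cons, List.map_nil, List.sum_cons, List.sum_nil, b]
          push_cast
          split_ifs <;> omega
        · by_cases hj3 : j = n
          · subst hj3
            rw [sum_sparse' (j + 4) _ (fun i => b i m) [(j, -1), (j + 1, 2), (j + 2, -1),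
              (j + 3, -1)] (by simp) (by
              intro i hi
              simp
              split_ifs <;> omega)]
            simp only [List.map_cons, List.map_nil, List.sum_cons, List.sum_nil, b]
            push_cast
            split_ifs <;> omega
          · rw [sum_sparse' (n + 4) _ (fun i => b i m) [(j, -1), (j + 1, 2), (j + 2, -1)]
              (by simp; omega) (by
              intro i hi
              simp
              split_ifs <;> omega)]
            simp only [List.map_cons, List.map_nil, List.sum_cons, List.sum_nil, b]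
            push_cast
            split_ifs <;> omega

theorem exists_E6 : Nonempty (WeightForm Dynkin.E6) := by
  refine of_gram Dynkin.E6 3 (by omega) (!![4, 3, 5, 6, 4, 2; 3, 6, 6, 9, 6, 3;
    5, 6, 10, 12, 8, 4; 6, 9, 12, 18, 12, 6; 4, 6, 8, 12, 10, 5; 2, 3, 4, 6, 5, 4] :
    Matrix (Fin 6) (Fin 6) ℤ) ?_ ?_
  · change ∀ i j : Fin 6, _
    decide
  · change ∀ j m : Fin 6, (∑ i : Fin 6, CartanMatrix.E₆ j i * _) = _
    decide

theorem exists_E7 : Nonempty (WeightForm Dynkin.E7) := by
  refine of_gram Dynkin.E7 2 (by omega) (!![4, 4, 6, 8, 6, 4, 2; 4, 7, 8, 12, 9, 6, 3;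
    6, 8, 12, 16, 12, 8, 4; 8, 12, 16, 24, 18, 12, 6; 6, 9, 12, 18, 15, 10, 5;
    4, 6, 8, 12, 10, 8, 4; 2, 3, 4, 6, 5, 4, 3] :
    Matrix (Fin 7) (Fin 7) ℤ) ?_ ?_
  · change ∀ i j : Fin 7, _
    decide
  · change ∀ j m : Fin 7, (∑ i : Fin 7, CartanMatrix.E₇ j i * _) = _
    decide

theorem exists_E8 : Nonempty (WeightForm Dynkin.E8) := by
  refine of_gram Dynkin.E8 1 (by omega) (!![4, 5, 7, 10, 8, 6, 4, 2; 5, 8, 10, 15, 12, 9, 6, 3;
    7, 10, 14, 20, 16, 12, 8, 4; 10, 15, 20, 30, 24, 18, 12, 6; 8, 12, 16, 24, 20, 15, 10, 5;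
    6, 9, 12, 18, 15, 12, 8, 4; 4, 6, 8, 12, 10, 8, 6, 3; 2, 3, 4, 6, 5, 4, 3, 2] :
    Matrix (Fin 8) (Fin 8) ℤ) ?_ ?_
  · change ∀ i j : Fin 8, _
    decide
  · change ∀ j m : Fin 8, (∑ i : Fin 8, CartanMatrix.E₈ j i * _) = _
    decide

theorem exists_F4 : Nonempty (WeightForm Dynkin.F4) := by
  refine of_gram Dynkin.F4 1 (by omega) (!![4, 6, 4, 2; 6, 12, 8, 4; 4, 8, 6, 3; 2, 4, 3, 2] :
    Matrix (Fin 4) (Fin 4) ℤ) ?_ ?_
  · change ∀ i j : Fin 4, _
    decide
  · change ∀ j m : Fin 4, (∑ i : Fin 4, CartanMatrix.F₄ j i * _) = _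
    decide

theorem exists_G2 : Nonempty (WeightForm Dynkin.G2) := by
  refine of_gram Dynkin.G2 1 (by omega) (!![6, 3; 3, 2] :
    Matrix (Fin 2) (Fin 2) ℤ) ?_ ?_
  · change ∀ i j : Fin 2, _
    decide
  · change ∀ j m : Fin 2, (∑ i : Fin 2, CartanMatrix.G₂ j i * _) = _
    decide

end C1

/-- (explicit Gram matrices of the fundamental weights) -/
theorem exists_weightForm (X : Dynkin) : Nonempty (WeightForm X) := by
  cases X with
  | A n => exact C1.exists_A n
  | B n => exact C1.exists_B n
  | C n => exact C1.exists_C n
  | D n => exact C1.exists_D n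
  | E6 => exact C1.exists_E6
  | E7 => exact C1.exists_E7
  | E8 => exact C1.exists_E8
  | F4 => exact C1.exists_F4
  | G2 => exact C1.exists_G2

end Pool.Agent.QInv75
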