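import Pool.Agent.QInv75.Basics

/-!
# Models exist for `sl_2`

For `X = A 0` (i.e. `sl_2`) and a finite set `Λ` of dominant weights we construct a `Model Φ Λ`: the
simple modules of `U_v(sl_2)` are given by strings of basis vectors, and the braiding is
`C = Θ ∘ flip ∘ v^{(wt, wt)}` with the quasi `R`-matrix
`Θ = ∑ a_k F^k ⊗ E^k`.
-/

set_option autoImplicit false

namespace Pool.Agent.QInv75

namespace C2

/-! ## Computations in an algebra -/

section Alg

variable {𝕜 S : Type*} [Field 𝕜] [Ring S] [Algebra 𝕜 S]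

/-- scalars in the commutator formula -/
noncomputable def cc (v : 𝕜) (k : ℕ) : 𝕜 := (v ^ (k + 1) - v⁻¹ ^ (k + 1)) / (v - v⁻¹) ^ 2

/-- coefficients of the quasi `R`-matrix -/
noncomputable def aa (v : 𝕜) : ℕ → 𝕜
  | 0 => 1
  | k + 1 => aa v k * v ^ k / cc v k

lemma cc_aux (v u : 𝕜) (hvu : v * u = 1) (hz : v - u ≠ 0) (k : ℕ) :
    (v ^ (k + 1) - u ^ (k + 1)) / (v - u) ^ 2 * (u ^ k * u ^ 2) + (v - u)⁻¹ =
      (v ^ (k + 1 + 1) - u ^ (k + 1 + 1)) / (v - u) ^ 2 * u ^ (k + 1) := by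
  have hPQ : v ^ k * u ^ k = 1 := by rw [← mul_pow, hvu, one_pow]
  have hz2 : (v - u) ^ 2 ≠ 0 := pow_ne_zero 2 hz
  have e : (v - u)⁻¹ = (v - u) / (v - u) ^ 2 := by
    rw [eq_div_iff hz2, pow_two, ← mul_assoc, inv_mul_cancel₀ hz, one_mul]
  rw [e, div_mul_eq_mul_div, div_mul_eq_mul_div, ← add_div]
  congr 1
  simp only [pow_succ, pow_zero, one_mul]
  linear_combination (-(v - u) * (v * u)) * hPQ - (v - u) * hvu

lemma cc_aux' (v u : 𝕜) (hvu : v * u = 1) (hz : v - u ≠ 0) (k : ℕ) :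
    (v ^ (k + 1) - u ^ (k + 1)) / (v - u) ^ 2 * (v ^ k * v ^ 2) + (v - u)⁻¹ =
      (v ^ (k + 1 + 1) - u ^ (k + 1 + 1)) / (v - u) ^ 2 * v ^ (k + 1) := by
  have hPQ : v ^ k * u ^ k = 1 := by rw [← mul_pow, hvu, one_pow]
  have hz2 : (v - u) ^ 2 ≠ 0 := pow_ne_zero 2 hz
  have e : (v - u)⁻¹ = (v - u) / (v - u) ^ 2 := by
    rw [eq_div_iff hz2, pow_two, ← mul_assoc, inv_mul_cancel₀ hz, one_mul]
  rw [e, div_mul_eq_mul_div, div_mul_eq_mul_div, ← add_div]
  congr 1
  simp only [pow_succ, pow_zero, one_mul]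
  linear_combination (-(v - u) * (v * u)) * hPQ - (v - u) * hvu

/-- the relations of the quantum group of `sl_2` -/
structure Rel (v : 𝕜) (E F K K' : S) : Prop where
  KE : K * E = v ^ 2 • (E * K)
  KE' : K' * E = v⁻¹ ^ 2 • (E * K')
  KF : K * F = v⁻¹ ^ 2 • (F * K)
  KF' : K' * F = v ^ 2 • (F * K')
  EF : E * F - F * E = (v - v⁻¹)⁻¹ • (K - K')

variable {v : 𝕜} {E F K K' : S}

lemma pow_comm_q {A B : S} {c : 𝕜} (h : A * B = c • (B * A)) (k : ℕ) :
    A * B ^ k = c ^ k • (B ^ k * A) := by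
  induction k with
  | zero => simp
  | succ k ih =>
    rw [pow_succ, ← mul_assoc, ih, smul_mul_assoc, mul_assoc (B ^ k), h, mul_smul_comm, smul_smul,
      ← mul_assoc, pow_succ]

lemma Rel.comm_F (h : Rel v E F K K') (hv : v ≠ 0) (hz : v - v⁻¹ ≠ 0) (k : ℕ) :
    E * F ^ (k + 1) - F ^ (k + 1) * E = cc v k • (F ^ k * (v⁻¹ ^ k • K - v ^ k • K')) := by
  induction k with
  | zero =>
    rw [zero_add, pow_one, h.EF, pow_zero, pow_zero, pow_zero, one_mul, one_smul, one_smul, cc,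
      zero_add, pow_one, pow_one]
    congr 1
    field_simp
  | succ k ih =>
    have e1 : E * F ^ (k + 1 + 1) - F ^ (k + 1 + 1) * E =
        (E * F ^ (k + 1) - F ^ (k + 1) * E) * F + F ^ (k + 1) * (E * F - F * E) := by
      rw [pow_succ F (k + 1)]; noncomm_ring
    rw [e1, ih, h.EF]
    have e2 : (F ^ k * (v⁻¹ ^ k • K - v ^ k • K')) * F =
        F ^ (k + 1) * ((v⁻¹ ^ k * v⁻¹ ^ 2) • K - (v ^ k * v ^ 2) • K') := by
      rw [mul_assoc, sub_mul, smul_mul_assoc, smul_mul_assoc, h.KF, h.KF', smul_smul, smul_smul,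
        pow_succ F k, mul_assoc (F ^ k), mul_sub F, mul_smul_comm, mul_smul_comm]
    rw [smul_mul_assoc, e2, mul_smul_comm, ← mul_smul_comm, ← mul_smul_comm, ← mul_add,
      ← mul_smul_comm]
    congr 1
    rw [smul_sub, smul_sub, smul_sub, smul_smul, smul_smul, smul_smul, smul_smul]
    have e3 : ∀ a b c d : 𝕜, a • K - b • K' + (c • K - d • K') = (a + c) • K - (b + d) • K' := by
      intro a b c d
      rw [add_smul, add_smul]; abel
    rw [e3]
    congr 2
    · exact cc_aux v v⁻¹ (mul_inv_cancel₀ hv) hz k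
    · exact cc_aux' v v⁻¹ (mul_inv_cancel₀ hv) hz k

lemma Rel.comm_E (h : Rel v E F K K') (hv : v ≠ 0) (hz : v - v⁻¹ ≠ 0) (k : ℕ) :
    E ^ (k + 1) * F - F * E ^ (k + 1) = cc v k • (E ^ k * (v ^ k • K - v⁻¹ ^ k • K')) := by
  induction k with
  | zero =>
    rw [zero_add, pow_one, h.EF, pow_zero, pow_zero, pow_zero, one_mul, one_smul, one_smul, cc,
      zero_add, pow_one, pow_one]
    congr 1
    field_simp
  | succ k ih =>
    have e1 : E ^ (k + 1 + 1) * F - F * E ^ (k + 1 + 1) =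
        E ^ (k + 1) * (E * F - F * E) + (E ^ (k + 1) * F - F * E ^ (k + 1)) * E := by
      rw [pow_succ E (k + 1)]; noncomm_ring
    rw [e1, ih, h.EF]
    have e2 : (E ^ k * (v ^ k • K - v⁻¹ ^ k • K')) * E =
        E ^ (k + 1) * ((v ^ k * v ^ 2) • K - (v⁻¹ ^ k * v⁻¹ ^ 2) • K') := by
      rw [mul_assoc, sub_mul, smul_mul_assoc, smul_mul_assoc, h.KE, h.KE', smul_smul, smul_smul,
        pow_succ E k, mul_assoc (E ^ k), mul_sub E, mul_smul_comm, mul_smul_comm]
    rw [smul_mul_assoc, e2, ← mul_smul_comm (cc v k), ← mul_add, ← mul_smul_comm]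
    congr 1
    rw [smul_sub, smul_sub, smul_sub, smul_smul, smul_smul, smul_smul, smul_smul]
    have e3 : ∀ a b c d : 𝕜, a • K - b • K' + (c • K - d • K') = (a + c) • K - (b + d) • K' := by
      intro a b c d
      rw [add_smul, add_smul]; abel
    rw [e3]
    congr 2
    · rw [add_comm]
      exact cc_aux' v v⁻¹ (mul_inv_cancel₀ hv) hz k
    · rw [add_comm]
      exact cc_aux v v⁻¹ (mul_inv_cancel₀ hv) hz k

/-- the quasi `R`-matrix, `x = F ⊗ 1`, `y = 1 ⊗ E` -/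
noncomputable def theta (v : 𝕜) (n : ℕ) (x y : S) : S :=
  ∑ k ∈ Finset.range n, aa v k • (x ^ k * y ^ k)

lemma theta_E (h : Rel v E F K K') (hv : v ≠ 0) (hz : v - v⁻¹ ≠ 0)
    (hc : ∀ k, cc v k ≠ 0) {y : S} (n : ℕ) (hy : y ^ (n + 1) = 0) (hE : Commute E y)
    (hF : Commute F y) (hK : Commute K y) (_hK' : Commute K' y) :
    theta v (n + 1) F y * (E + K * y) = (E + K' * y) * theta v (n + 1) F y := by
  have key : ∑ k ∈ Finset.range (n + 1), aa v k • ((E * F ^ k - F ^ k * E) * y ^ k) =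
      ∑ k ∈ Finset.range (n + 1), aa v k • ((F ^ k * K - K' * F ^ k) * y ^ (k + 1)) := by
    rw [Finset.sum_range_succ', Finset.sum_range_succ _ n, hy, mul_zero, smul_zero, add_zero,
      pow_zero, mul_one, one_mul, sub_self, zero_mul, smul_zero, add_zero]
    refine Finset.sum_congr rfl fun k _ => ?_
    rw [h.comm_F hv hz k, smul_mul_assoc, smul_smul]
    have ha : aa v (k + 1) * cc v k = aa v k * v ^ k := by
      rw [aa, div_mul_cancel₀ _ (hc k)]
    rw [ha, pow_comm_q h.KF' k, mul_smul]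
    congr 1
    rw [← smul_mul_assoc]
    congr 1
    rw [mul_sub, smul_sub, mul_smul_comm, mul_smul_comm, smul_smul, smul_smul, ← mul_pow,
      mul_inv_cancel₀ hv, one_pow, one_smul, ← pow_mul, ← pow_add]
    congr 3
    ring
  have e1 : theta v (n + 1) F y * (E + K * y) = ∑ k ∈ Finset.range (n + 1),
      (aa v k • (F ^ k * E * y ^ k) + aa v k • (F ^ k * K * y ^ (k + 1))) := by
    rw [theta, Finset.sum_mul]
    refine Finset.sum_congr rfl fun k _ => ?_
    rw [smul_mul_assoc, mul_add, smul_add, mul_assoc, ← (hE.pow_right k).eq, mul_assoc (F ^ k),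
      ← mul_assoc (y ^ k), ← (hK.pow_right k).eq, pow_succ]
    simp only [mul_assoc]
  have e2 : (E + K' * y) * theta v (n + 1) F y = ∑ k ∈ Finset.range (n + 1),
      (aa v k • (E * F ^ k * y ^ k) + aa v k • (K' * F ^ k * y ^ (k + 1))) := by
    rw [theta, Finset.mul_sum]
    refine Finset.sum_congr rfl fun k _ => ?_
    rw [mul_smul_comm, add_mul, smul_add, mul_assoc K', ← mul_assoc y, ← (hF.pow_left k).eq,
      pow_succ', mul_assoc (F ^ k) y]
    simp only [mul_assoc]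
  rw [e1, e2, Finset.sum_add_distrib, Finset.sum_add_distrib]
  simp only [sub_mul, smul_sub, Finset.sum_sub_distrib] at key
  rw [sub_eq_sub_iff_add_eq_add] at key
  rw [add_comm, ← key, add_comm]

lemma theta_F (h : Rel v E F K K') (hv : v ≠ 0) (hz : v - v⁻¹ ≠ 0)
    (hc : ∀ k, cc v k ≠ 0) {x : S} (n : ℕ) (hx : x ^ (n + 1) = 0) (hE : Commute x E)
    (hF : Commute x F) (hK : Commute x K) (_hK' : Commute x K') :
    theta v (n + 1) x E * (x * K' + F) = (x * K + F) * theta v (n + 1) x E := by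
  have key : ∑ k ∈ Finset.range (n + 1), aa v k • (x ^ k * (E ^ k * F - F * E ^ k)) =
      ∑ k ∈ Finset.range (n + 1), aa v k • (x ^ (k + 1) * (K * E ^ k - E ^ k * K')) := by
    rw [Finset.sum_range_succ', Finset.sum_range_succ _ n, hx, zero_mul, smul_zero, add_zero,
      pow_zero, pow_zero, one_mul, one_mul, mul_one, sub_self, smul_zero, add_zero]
    refine Finset.sum_congr rfl fun k _ => ?_
    rw [h.comm_E hv hz k, mul_smul_comm, smul_smul]
    have ha : aa v (k + 1) * cc v k = aa v k * v ^ k := by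
      rw [aa, div_mul_cancel₀ _ (hc k)]
    rw [ha, pow_comm_q h.KE k, mul_smul]
    congr 1
    rw [← mul_smul_comm]
    congr 1
    rw [mul_sub, smul_sub, mul_smul_comm, mul_smul_comm, smul_smul, smul_smul, ← mul_pow,
      ← mul_pow, mul_inv_cancel₀ hv, one_pow, one_smul]
    congr 3
    ring
  have e1 : theta v (n + 1) x E * (x * K' + F) = ∑ k ∈ Finset.range (n + 1),
      (aa v k • (x ^ (k + 1) * (E ^ k * K')) + aa v k • (x ^ k * (E ^ k * F))) := by
    rw [theta, Finset.sum_mul]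
    refine Finset.sum_congr rfl fun k _ => ?_
    rw [smul_mul_assoc, mul_add, smul_add, mul_assoc, ← mul_assoc (E ^ k) x, ← (hE.pow_right k).eq,
      pow_succ]
    simp only [mul_assoc]
  have e2 : (x * K + F) * theta v (n + 1) x E = ∑ k ∈ Finset.range (n + 1),
      (aa v k • (x ^ (k + 1) * (K * E ^ k)) + aa v k • (x ^ k * (F * E ^ k))) := by
    rw [theta, Finset.mul_sum]
    refine Finset.sum_congr rfl fun k _ => ?_
    rw [mul_smul_comm, add_mul, smul_add, mul_assoc x K, ← mul_assoc K, ← (hK.pow_left k).eq,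
      ← mul_assoc F, ← (hF.pow_left k).eq, pow_succ']
    simp only [mul_assoc]
  rw [e1, e2, Finset.sum_add_distrib, Finset.sum_add_distrib]
  simp only [mul_sub, smul_sub, Finset.sum_sub_distrib] at key
  rw [sub_eq_sub_iff_add_eq_add] at key
  rw [add_comm, key]

/-- `x^k y^k` commutes with `K ⊗ K` -/
lemma theta_K {x y k : S} {c d : 𝕜} (hcd : c * d = 1) (hx : k * x = c • (x * k))
    (hy : k * y = d • (y * k)) (n : ℕ) : k * theta v n x y = theta v n x y * k := by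
  rw [theta, Finset.mul_sum, Finset.sum_mul]
  refine Finset.sum_congr rfl fun j _ => ?_
  rw [mul_smul_comm, smul_mul_assoc, ← mul_assoc, pow_comm_q hx, smul_mul_assoc, mul_assoc,
    pow_comm_q hy, mul_smul_comm, smul_smul (c ^ j), ← mul_pow, hcd, one_pow, one_smul, mul_assoc]

/-- the quasi `R`-matrix is unipotent -/
lemma theta_unit {x y : S} (hxy : Commute x y) (n : ℕ) (hx : x ^ (n + 1) = 0) :
    IsUnit (theta v (n + 1) x y) := by
  have e : theta v (n + 1) x y =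
      (x * y) * (∑ k ∈ Finset.range n, aa v (k + 1) • (x ^ k * y ^ k)) + 1 := by
    rw [theta, Finset.sum_range_succ', pow_zero, pow_zero, mul_one, aa, one_smul, Finset.mul_sum]
    congr 1
    refine Finset.sum_congr rfl fun k _ => ?_
    rw [mul_smul_comm]
    congr 1
    rw [pow_succ', pow_succ', mul_assoc x y, ← mul_assoc y, ← (hxy.pow_left k).eq]
    simp only [mul_assoc]
  rw [e]
  refine IsNilpotent.isUnit_add_one ?_
  have hc : Commute (x * y) (∑ k ∈ Finset.range n, aa v (k + 1) • (x ^ k * y ^ k)) := by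
    refine Commute.sum_right _ _ _ fun k _ => Commute.smul_right ?_ _
    have h1 : Commute (x * y) x := (Commute.refl x).mul_left hxy.symm
    have h2 : Commute (x * y) y := hxy.mul_left (Commute.refl y)
    exact (h1.pow_right k).mul_right (h2.pow_right k)
  refine hc.isNilpotent_mul_right ⟨n + 1, ?_⟩
  rw [hxy.mul_pow, hx, zero_mul]

end Alg


/-! ## The combinatorial data -/

open Matrix
open scoped Kronecker

/-- the weights of `sl_2` -/
abbrev Wt : Type := (Dynkin.A 0).Weight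

/-- the only index -/
abbrev i0 : Fin (Dynkin.A 0).rank := (0 : Fin 1)

lemma eq_i0 (i : Fin (Dynkin.A 0).rank) : i = i0 := Subsingleton.elim (α := Fin 1) i i0

/-- basis vectors of the module, sorted into strings: `blk i` is the highest weight of the simple
module the basis vector `i` belongs to, `pos i` its position in the string, and `s` the successor -/
structure Dat (Λ : Finset Wt) (m : ℕ) where
  s : Equiv.Perm (Fin m)
  blk : Fin m → Wt
  pos : Fin m → ℕ
  len : Fin m → ℕ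
  len_eq : ∀ i, len i = (blk i i0).toNat
  blk_mem : ∀ i, blk i ∈ Λ
  pos_le : ∀ i, pos i ≤ len i
  blk_s : ∀ i, blk (s i) = blk i
  pos_s : ∀ i, pos (s i) = if pos i = len i then 0 else pos i + 1
  inj : ∀ i j, blk i = blk j → pos i = pos j → i = j
  surj : ∀ l ∈ Λ, ∃ i, blk i = l ∧ pos i = 0

lemma exists_dat (Λ : Finset Wt) : ∃ m, Nonempty (Dat Λ m) := by
  classical
  let ι : Type := (l : {x // x ∈ Λ}) × Fin ((l.1 i0).toNat + 1)
  let e : ι ≃ Fin (Fintype.card ι) := Fintype.equivFin ι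
  let σ : Equiv.Perm ι := Equiv.sigmaCongrRight fun l => finRotate ((l.1 i0).toNat + 1)
  refine ⟨Fintype.card ι, ⟨{
    s := e.symm.trans (σ.trans e)
    blk := fun i => (e.symm i).1.1
    pos := fun i => (e.symm i).2.val
    len := fun i => ((e.symm i).1.1 i0).toNat
    len_eq := fun i => rfl
    blk_mem := fun i => (e.symm i).1.2
    pos_le := fun i => Nat.lt_succ_iff.mp (e.symm i).2.isLt
    blk_s := ?_
    pos_s := ?_
    inj := ?_
    surj := ?_ }⟩⟩
  · intro i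
    have h : e.symm ((e.symm.trans (σ.trans e)) i) = σ (e.symm i) := by
      simp only [Equiv.trans_apply, Equiv.symm_apply_apply]
    rw [h]
    rfl
  · intro i
    have h : e.symm ((e.symm.trans (σ.trans e)) i) = σ (e.symm i) := by
      simp only [Equiv.trans_apply, Equiv.symm_apply_apply]
    rw [h]
    obtain ⟨l, k⟩ := e.symm i
    show (finRotate ((l.1 i0).toNat + 1) k).val = _
    rw [coe_finRotate]
    simp only [Fin.ext_iff, Fin.val_last]
  · intro i j h1 h2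
    apply e.symm.injective
    generalize e.symm i = a at h1 h2
    generalize e.symm j = b at h1 h2
    obtain ⟨⟨a, ha⟩, x⟩ := a
    obtain ⟨⟨b, hb⟩, y⟩ := b
    simp only at h1 h2
    subst h1
    have : x = y := Fin.ext h2
    subst this
    rfl
  · intro l hl
    refine ⟨e ⟨⟨l, hl⟩, 0⟩, ?_, ?_⟩
    · rw [Equiv.symm_apply_apply]
    · rw [Equiv.symm_apply_apply]
      rfl

variable {Λ : Finset Wt} {m : ℕ}

namespace Dat

/-- the weights of the basis vectors -/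
def wt (d : Dat Λ m) (i : Fin m) : Wt := fun _ => (d.len i : ℤ) - 2 * d.pos i

variable (d : Dat Λ m)

lemma len_s (i : Fin m) : d.len (d.s i) = d.len i := by
  rw [d.len_eq, d.len_eq, d.blk_s]

lemma pos_s_of_ne {i : Fin m} (h : d.pos i ≠ d.len i) : d.pos (d.s i) = d.pos i + 1 := by
  rw [d.pos_s, if_neg h]

lemma pos_s_of_eq {i : Fin m} (h : d.pos i = d.len i) : d.pos (d.s i) = 0 := by
  rw [d.pos_s, if_pos h]

lemma root_apply (i j : Fin (Dynkin.A 0).rank) : (Dynkin.A 0).root j i = 2 := by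
  rw [eq_i0 i, eq_i0 j]
  rfl

lemma wt_s {i : Fin m} (h : d.pos i ≠ d.len i) : d.wt i = d.wt (d.s i) + (Dynkin.A 0).root i0 := by
  funext k
  rw [Pi.add_apply, root_apply]
  show (d.len i : ℤ) - 2 * d.pos i = (d.len (d.s i) : ℤ) - 2 * d.pos (d.s i) + 2
  rw [d.len_s, d.pos_s_of_ne h]
  push_cast
  ring

end Dat

/-- quantum integers (the second argument is an integer) -/
noncomputable def qi (v : FF) (k : ℕ) : FF := (v ^ k - v⁻¹ ^ k) / (v - v⁻¹)

lemma qi_zero (v : FF) : qi v 0 = 0 := by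
  unfold qi
  rw [pow_zero, pow_zero, sub_self, zero_div]

lemma qi_rel (v u : FF) (hz : v - u ≠ 0) (j k : ℕ) :
    (v ^ (j + 1) - u ^ (j + 1)) / (v - u) * ((v ^ k - u ^ k) / (v - u)) -
      (v ^ (k + 1) - u ^ (k + 1)) / (v - u) * ((v ^ j - u ^ j) / (v - u)) =
      (v - u)⁻¹ * (v ^ k * u ^ j - u ^ k * v ^ j) := by
  have hz2 : (v - u) * (v - u) ≠ 0 := mul_ne_zero hz hz
  rw [div_mul_div_comm, div_mul_div_comm, ← sub_div, div_eq_iff hz2]
  have e : (v - u)⁻¹ * (v ^ k * u ^ j - u ^ k * v ^ j) * ((v - u) * (v - u)) =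
      (v ^ k * u ^ j - u ^ k * v ^ j) * (v - u) := by
    field_simp
  rw [e]
  simp only [pow_succ]
  ring

namespace Dat

variable (v : FF) (d : Dat Λ m)

noncomputable def E : Matrix (Fin m) (Fin m) FF :=
  Matrix.of fun a b => if b = d.s a then qi v (d.pos b) else 0

noncomputable def F : Matrix (Fin m) (Fin m) FF :=
  Matrix.of fun a b => if a = d.s b then qi v (d.len b - d.pos b) else 0

noncomputable def K : Matrix (Fin m) (Fin m) FF := diagonal fun a => v ^ (d.wt a i0)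

noncomputable def K' : Matrix (Fin m) (Fin m) FF := diagonal fun a => v ^ (-(d.wt a i0))

lemma E_apply (a b : Fin m) : d.E v a b = if b = d.s a then qi v (d.pos b) else 0 := rfl

lemma F_apply (a b : Fin m) : d.F v a b = if a = d.s b then qi v (d.len b - d.pos b) else 0 := rfl

/-- nonzero entries of `E` -/
lemma E_ne {a b : Fin m} (h : d.E v a b ≠ 0) : b = d.s a ∧ d.pos a ≠ d.len a := by
  rw [E_apply] at h
  split_ifs at h with h1
  · refine ⟨h1, fun h2 => h ?_⟩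
    rw [h1, d.pos_s_of_eq h2, qi_zero]
  · exact absurd rfl h

/-- nonzero entries of `F` -/
lemma F_ne {a b : Fin m} (h : d.F v a b ≠ 0) : a = d.s b ∧ d.pos b ≠ d.len b := by
  rw [F_apply] at h
  split_ifs at h with h1
  · refine ⟨h1, fun h2 => h ?_⟩
    rw [h2, Nat.sub_self, qi_zero]
  · exact absurd rfl h

lemma wt_E {a b : Fin m} (h : d.E v a b ≠ 0) : d.wt a = d.wt b + (Dynkin.A 0).root i0 := by
  obtain ⟨h1, h2⟩ := d.E_ne v h
  rw [h1]
  exact d.wt_s h2

lemma wt_F {a b : Fin m} (h : d.F v a b ≠ 0) : d.wt b = d.wt a + (Dynkin.A 0).root i0 := by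
  obtain ⟨h1, h2⟩ := d.F_ne v h
  rw [h1]
  exact d.wt_s h2

lemma wt_E0 {a b : Fin m} (h : d.E v a b ≠ 0) : d.wt a i0 = d.wt b i0 + 2 := by
  rw [d.wt_E v h]; rfl

lemma wt_F0 {a b : Fin m} (h : d.F v a b ≠ 0) : d.wt b i0 = d.wt a i0 + 2 := by
  rw [d.wt_F v h]; rfl

lemma KK' (hv : v ≠ 0) : d.K v * d.K' v = 1 := by
  rw [K, K', diagonal_mul_diagonal, ← diagonal_one]
  congr 1
  funext a
  rw [← zpow_add₀ hv, add_neg_cancel, zpow_zero]

variable {v}

lemma KE (hv : v ≠ 0) : d.K v * d.E v = v ^ 2 • (d.E v * d.K v) := by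
  ext a b
  rw [K, diagonal_mul, Matrix.smul_apply, mul_diagonal, smul_eq_mul]
  by_cases h : d.E v a b = 0
  · rw [h, mul_zero, zero_mul, mul_zero]
  · rw [d.wt_E0 v h, zpow_add₀ hv]
    have : v ^ (2 : ℤ) = v ^ 2 := by norm_cast
    rw [this]; ring

lemma KE' (hv : v ≠ 0) : d.K' v * d.E v = v⁻¹ ^ 2 • (d.E v * d.K' v) := by
  ext a b
  rw [K', diagonal_mul, Matrix.smul_apply, mul_diagonal, smul_eq_mul]
  by_cases h : d.E v a b = 0
  · rw [h, mul_zero, zero_mul, mul_zero]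
  · rw [d.wt_E0 v h, neg_add, zpow_add₀ hv]
    have : v ^ (-2 : ℤ) = v⁻¹ ^ 2 := by rw [_root_.zpow_neg, inv_pow]; norm_cast
    rw [this]; ring

lemma KF (hv : v ≠ 0) : d.K v * d.F v = v⁻¹ ^ 2 • (d.F v * d.K v) := by
  ext a b
  rw [K, diagonal_mul, Matrix.smul_apply, mul_diagonal, smul_eq_mul]
  by_cases h : d.F v a b = 0
  · rw [h, mul_zero, zero_mul, mul_zero]
  · rw [d.wt_F0 v h, zpow_add₀ hv]
    have : v ^ (2 : ℤ) = v ^ 2 := by norm_cast
    rw [this]; field_simp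

lemma KF' (hv : v ≠ 0) : d.K' v * d.F v = v ^ 2 • (d.F v * d.K' v) := by
  ext a b
  rw [K', diagonal_mul, Matrix.smul_apply, mul_diagonal, smul_eq_mul]
  by_cases h : d.F v a b = 0
  · rw [h, mul_zero, zero_mul, mul_zero]
  · rw [d.wt_F0 v h, neg_add, zpow_add₀ hv]
    have : v ^ (-2 : ℤ) = v⁻¹ ^ 2 := by rw [_root_.zpow_neg, inv_pow]; norm_cast
    rw [this]; field_simp

lemma EF (hv : v ≠ 0) (hz : v - v⁻¹ ≠ 0) :
    d.E v * d.F v - d.F v * d.E v = (v - v⁻¹)⁻¹ • (d.K v - d.K' v) := by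
  ext a c
  rw [Matrix.sub_apply, Matrix.smul_apply, Matrix.sub_apply, mul_apply, mul_apply]
  have e1 : ∑ b, d.E v a b * d.F v b c = if a = c then qi v (d.pos a + 1) * qi v (d.len a - d.pos a)
      else 0 := by
    rw [Finset.sum_eq_single (d.s a)]
    · rw [E_apply, F_apply, if_pos rfl]
      by_cases hac : a = c
      · subst hac
        rw [if_pos rfl, if_pos rfl]
        by_cases h : d.pos a = d.len a
        · rw [h, Nat.sub_self, qi_zero, mul_zero, mul_zero]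
        · rw [d.pos_s_of_ne h]
      · rw [if_neg (fun h => hac (d.s.injective h)), if_neg hac, mul_zero]
    · intro b _ hb
      rw [E_apply, if_neg hb, zero_mul]
    · intro h
      exact absurd (Finset.mem_univ _) h
  have e2 : ∑ b, d.F v a b * d.E v b c = if a = c then qi v (d.len a - d.pos a + 1) * qi v (d.pos a)
      else 0 := by
    rw [Finset.sum_eq_single (d.s.symm a)]
    · rw [E_apply, F_apply, Equiv.apply_symm_apply, if_pos rfl]
      by_cases hac : a = c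
      · subst hac
        rw [if_pos rfl, if_pos rfl]
        have hl : d.len (d.s.symm a) = d.len a := by
          rw [← d.len_s, Equiv.apply_symm_apply]
        have hp := d.pos_s (d.s.symm a)
        rw [Equiv.apply_symm_apply] at hp
        split_ifs at hp with h
        · rw [hp, qi_zero, mul_zero, mul_zero]
        · have h3 := d.pos_le (d.s.symm a)
          rw [hl] at h3 h
          rw [hl, hp]
          congr 2
          omega
      · rw [if_neg (fun h => hac h.symm), if_neg hac, mul_zero]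
    · intro b _ hb
      rw [F_apply, if_neg (fun h => hb (by rw [h, Equiv.symm_apply_apply])), zero_mul]
    · intro h
      exact absurd (Finset.mem_univ _) h
  rw [e1, e2, K, K', diagonal_apply, diagonal_apply]
  by_cases hac : a = c
  · subst hac
    rw [if_pos rfl, if_pos rfl, if_pos rfl, if_pos rfl, smul_eq_mul]
    unfold qi
    rw [qi_rel v v⁻¹ hz (d.pos a) (d.len a - d.pos a)]
    congr 1
    have h3 := d.pos_le a
    have h4 : d.wt a i0 = ((d.len a - d.pos a : ℕ) : ℤ) - (d.pos a : ℤ) := by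
      rw [Nat.cast_sub h3]
      show (d.len a : ℤ) - 2 * d.pos a = _
      ring
    rw [h4, neg_sub, zpow_sub₀ hv, zpow_sub₀ hv, zpow_natCast, zpow_natCast, inv_pow, inv_pow,
      div_eq_mul_inv, div_eq_mul_inv]
    ring
  · rw [if_neg hac, if_neg hac, if_neg hac, if_neg hac, sub_self, smul_zero]

lemma rel (hv : v ≠ 0) (hz : v - v⁻¹ ≠ 0) : Rel v (d.E v) (d.F v) (d.K v) (d.K' v) :=
  ⟨d.KE hv, d.KE' hv, d.KF hv, d.KF' hv, d.EF hv hz⟩

end Dat

/-! ## The module -/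

lemma dyn_a (i j : Fin (Dynkin.A 0).rank) : (Dynkin.A 0).a i j = 2 := by
  rw [eq_i0 i, eq_i0 j]
  rfl

section

variable (Φ : WeightForm (Dynkin.A 0))

lemma vz : vv Φ i0 - (vv Φ i0)⁻¹ ≠ 0 := by
  intro h
  have h1 : vv Φ i0 ^ (1 : ℤ) = vv Φ i0 ^ (-1 : ℤ) := by
    rw [zpow_one, _root_.zpow_neg_one]
    exact sub_eq_zero.mp h
  have h2 := vv_pow_inj i0 h1
  omega

lemma vpow_ne {k : ℕ} (hk : 0 < k) : vv Φ i0 ^ k - (vv Φ i0)⁻¹ ^ k ≠ 0 := by
  intro h
  have h1 : vv Φ i0 ^ (k : ℤ) = vv Φ i0 ^ (-(k : ℤ)) := by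
    rw [_root_.zpow_neg, zpow_natCast, ← inv_pow]
    exact sub_eq_zero.mp h
  have h2 := vv_pow_inj i0 h1
  omega

lemma qi_ne {k : ℕ} (hk : 0 < k) : qi (vv Φ i0) k ≠ 0 :=
  div_ne_zero (vpow_ne Φ hk) (vz Φ)

lemma cc_ne (k : ℕ) : cc (vv Φ i0) k ≠ 0 :=
  div_ne_zero (vpow_ne Φ (Nat.succ_pos k)) (pow_ne_zero 2 (vz Φ))

/-- the module -/
noncomputable def theM (d : Dat Λ m) : UqModule Φ m where
  E := fun _ => d.E (vv Φ i0)
  F := fun _ => d.F (vv Φ i0)
  K := fun _ => d.K (vv Φ i0)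
  K' := fun _ => d.K' (vv Φ i0)
  KK' := fun _ => d.KK' _ (vv_ne i0)
  KK := fun _ _ => rfl
  KE := fun i j => by
    rw [dyn_a, eq_i0 i, d.KE (vv_ne i0)]
    norm_cast
  KF := fun i j => by
    rw [dyn_a, eq_i0 i, d.KF (vv_ne i0), _root_.zpow_neg, inv_pow]
    norm_cast
  EF := fun i j => by
    rw [eq_i0 i, eq_i0 j, if_pos rfl, d.EF (vv_ne i0) (vz Φ)]
  serreE := fun i j hij => absurd ((eq_i0 i).trans (eq_i0 j).symm) hij
  serreF := fun i j hij => absurd ((eq_i0 i).trans (eq_i0 j).symm) hij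

end

/-! ## The braiding -/

section

variable (Φ : WeightForm (Dynkin.A 0)) (d : Dat Λ m)

lemma ip_root_l (μ : Wt) (i : Fin (Dynkin.A 0).rank) :
    tt ^ Φ.ip ((Dynkin.A 0).root i) μ = vv Φ i ^ (μ i) := by
  rw [Φ.root]
  unfold vv
  rw [_root_.zpow_mul]

lemma ip_root_r (μ : Wt) (i : Fin (Dynkin.A 0).rank) :
    tt ^ Φ.ip μ ((Dynkin.A 0).root i) = vv Φ i ^ (μ i) := by
  rw [Φ.symm, ip_root_l]

lemma ip_add_r (l μ ν : Wt) : Φ.ip l (μ + ν) = Φ.ip l μ + Φ.ip l ν := by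
  rw [Φ.symm, Φ.add_left, Φ.symm μ, Φ.symm ν]

/-- `v^{(wt a, wt b)}` -/
noncomputable def dd (p : Fin m × Fin m) : FF := tt ^ Φ.ip (d.wt p.1) (d.wt p.2)

lemma dd_ne (p : Fin m × Fin m) : dd Φ d p ≠ 0 := zpow_ne_zero _ tt_ne

lemma dd_swap (p : Fin m × Fin m) : dd Φ d p.swap = dd Φ d p := by
  unfold dd
  rw [Φ.symm]
  rfl

/-- the flip composed with `v^{(wt, wt)}` -/
noncomputable def BB : Matrix (Fin m × Fin m) (Fin m × Fin m) FF :=
  Matrix.of fun p q => if p.swap = q then dd Φ d q else 0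

noncomputable def BB' : Matrix (Fin m × Fin m) (Fin m × Fin m) FF :=
  Matrix.of fun p q => if p.swap = q then (dd Φ d p)⁻¹ else 0

lemma BB_mul (M : Matrix (Fin m × Fin m) (Fin m × Fin m) FF) (p q : Fin m × Fin m) :
    (BB Φ d * M) p q = dd Φ d p.swap * M p.swap q := by
  rw [mul_apply, Finset.sum_eq_single p.swap]
  · unfold BB
    rw [of_apply, if_pos rfl]
  · intro r _ hr
    unfold BB
    rw [of_apply, if_neg (Ne.symm hr), zero_mul]
  · intro h
    exact absurd (Finset.mem_univ _) h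

lemma mul_BB (M : Matrix (Fin m × Fin m) (Fin m × Fin m) FF) (p q : Fin m × Fin m) :
    (M * BB Φ d) p q = M p q.swap * dd Φ d q := by
  rw [mul_apply, Finset.sum_eq_single q.swap]
  · unfold BB
    rw [of_apply, if_pos (Prod.swap_swap q)]
  · intro r _ hr
    unfold BB
    rw [of_apply, if_neg (fun h => hr (by rw [← h, Prod.swap_swap])), mul_zero]
  · intro h
    exact absurd (Finset.mem_univ _) h

lemma BB_mulVec (w : Fin m × Fin m → FF) (p : Fin m × Fin m) :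
    (BB Φ d *ᵥ w) p = dd Φ d p.swap * w p.swap := by
  rw [mulVec, dotProduct, Finset.sum_eq_single p.swap]
  · unfold BB
    rw [of_apply, if_pos rfl]
  · intro r _ hr
    unfold BB
    rw [of_apply, if_neg (Ne.symm hr), zero_mul]
  · intro h
    exact absurd (Finset.mem_univ _) h

lemma BB_BB' : BB Φ d * BB' Φ d = 1 := by
  ext p q
  rw [BB_mul, one_apply]
  unfold BB'
  rw [of_apply, Prod.swap_swap]
  split_ifs with h
  · exact mul_inv_cancel₀ (dd_ne Φ d _)
  · exact mul_zero _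

lemma BB_E : BB Φ d * (theM Φ d).E2 i0 =
    (d.E (vv Φ i0) ⊗ₖ 1 + d.K (vv Φ i0) ⊗ₖ d.E (vv Φ i0)) * BB Φ d := by
  have hv : vv Φ i0 ≠ 0 := vv_ne i0
  ext ⟨a, b⟩ ⟨a', b'⟩
  rw [BB_mul, mul_BB]
  show dd Φ d (b, a) * (d.E (vv Φ i0) b a' * (1 : Matrix (Fin m) (Fin m) FF) a b' +
    d.K' (vv Φ i0) b a' * d.E (vv Φ i0) a b') =
    (d.E (vv Φ i0) a b' * (1 : Matrix (Fin m) (Fin m) FF) b a' +
      d.K (vv Φ i0) a b' * d.E (vv Φ i0) b a') * dd Φ d (a', b')
  unfold dd Dat.K Dat.K'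
  simp only [one_apply, diagonal_apply]
  rw [mul_add, add_mul, add_comm]
  congr 1
  · by_cases h : d.E (vv Φ i0) a b' = 0
    · rw [h]; ring
    · by_cases hba : b = a'
      · subst hba
        rw [if_pos rfl, if_pos rfl, d.wt_E _ h, ip_add_r, zpow_add₀ tt_ne, ip_root_r,
          _root_.zpow_neg]
        field_simp
      · rw [if_neg hba, if_neg hba]; ring
  · by_cases h : d.E (vv Φ i0) b a' = 0
    · rw [h]; ring
    · by_cases hab : a = b'
      · subst hab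
        rw [if_pos rfl, if_pos rfl, d.wt_E _ h, Φ.add_left, zpow_add₀ tt_ne, ip_root_l]
        ring
      · rw [if_neg hab, if_neg hab]; ring

lemma BB_F : BB Φ d * (theM Φ d).F2 i0 =
    (d.F (vv Φ i0) ⊗ₖ d.K' (vv Φ i0) + 1 ⊗ₖ d.F (vv Φ i0)) * BB Φ d := by
  have hv : vv Φ i0 ≠ 0 := vv_ne i0
  ext ⟨a, b⟩ ⟨a', b'⟩
  rw [BB_mul, mul_BB]
  show dd Φ d (b, a) * (d.F (vv Φ i0) b a' * d.K (vv Φ i0) a b' +
    (1 : Matrix (Fin m) (Fin m) FF) b a' * d.F (vv Φ i0) a b') =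
    (d.F (vv Φ i0) a b' * d.K' (vv Φ i0) b a' +
      (1 : Matrix (Fin m) (Fin m) FF) a b' * d.F (vv Φ i0) b a') * dd Φ d (a', b')
  unfold dd Dat.K Dat.K'
  simp only [one_apply, diagonal_apply]
  rw [mul_add, add_mul, add_comm]
  congr 1
  · by_cases h : d.F (vv Φ i0) a b' = 0
    · rw [h]; ring
    · by_cases hba : b = a'
      · subst hba
        rw [if_pos rfl, if_pos rfl, d.wt_F _ h, ip_add_r, zpow_add₀ tt_ne, ip_root_r,
          _root_.zpow_neg]
        field_simp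
      · rw [if_neg hba, if_neg hba]; ring
  · by_cases h : d.F (vv Φ i0) b a' = 0
    · rw [h]; ring
    · by_cases hab : a = b'
      · subst hab
        rw [if_pos rfl, if_pos rfl, d.wt_F _ h, Φ.add_left, zpow_add₀ tt_ne, ip_root_l]
        ring
      · rw [if_neg hab, if_neg hab]; ring

lemma BB_K : BB Φ d * (theM Φ d).K2 i0 = (theM Φ d).K2 i0 * BB Φ d := by
  ext ⟨a, b⟩ ⟨a', b'⟩
  rw [BB_mul, mul_BB]
  show dd Φ d (b, a) * (d.K (vv Φ i0) b a' * d.K (vv Φ i0) a b') =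
    (d.K (vv Φ i0) a b' * d.K (vv Φ i0) b a') * dd Φ d (a', b')
  unfold Dat.K
  simp only [diagonal_apply]
  by_cases hba : b = a'
  · subst hba
    by_cases hab : a = b'
    · subst hab
      ring
    · rw [if_neg hab]; ring
  · rw [if_neg hba]; ring



/-! nilpotency -/

lemma E_mulVec (w : Fin m → FF) (a : Fin m) :
    (d.E (vv Φ i0) *ᵥ w) a = qi (vv Φ i0) (d.pos (d.s a)) * w (d.s a) := by
  rw [mulVec, dotProduct, Finset.sum_eq_single (d.s a)]
  · rw [Dat.E_apply, if_pos rfl]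
  · intro r _ hr
    rw [Dat.E_apply, if_neg hr, zero_mul]
  · intro h
    exact absurd (Finset.mem_univ _) h

lemma F_mulVec (w : Fin m → FF) (a : Fin m) :
    (d.F (vv Φ i0) *ᵥ w) (d.s a) = qi (vv Φ i0) (d.len a - d.pos a) * w a := by
  rw [mulVec, dotProduct, Finset.sum_eq_single a]
  · rw [Dat.F_apply, if_pos rfl]
  · intro r _ hr
    rw [Dat.F_apply, if_neg (fun h => hr (d.s.injective h.symm)), zero_mul]
  · intro h
    exact absurd (Finset.mem_univ _) h

/-- the entries of `E ^ k` vanish unless the column index is `k` steps further -/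
lemma E_pow_ne (k : ℕ) {a b : Fin m} (h : (d.E (vv Φ i0) ^ k) a b ≠ 0) :
    d.pos b = d.pos a + k ∧ d.len b = d.len a := by
  induction k generalizing a with
  | zero =>
    rw [pow_zero, one_apply] at h
    split_ifs at h with h1
    · subst h1; exact ⟨rfl, rfl⟩
    · exact absurd rfl h
  | succ k ih =>
    rw [pow_succ', mul_apply] at h
    obtain ⟨c, _, hc⟩ := Finset.exists_ne_zero_of_sum_ne_zero h
    have h1 := d.E_ne _ (left_ne_zero_of_mul hc)
    have h2 := ih (right_ne_zero_of_mul hc)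
    rw [h1.1, d.pos_s_of_ne h1.2, d.len_s] at h2
    exact ⟨by omega, h2.2⟩

lemma exists_bound : ∃ n, ∀ a, d.len a ≤ n :=
  ⟨Finset.univ.sup d.len, fun a => Finset.le_sup (Finset.mem_univ a)⟩

lemma E_nil : ∃ n, d.E (vv Φ i0) ^ (n + 1) = 0 := by
  obtain ⟨n, hn⟩ := exists_bound d
  refine ⟨n, ?_⟩
  ext a b
  by_contra h
  have h1 := E_pow_ne Φ d (n + 1) h
  have h2 := d.pos_le b
  have h3 := hn b
  omega

lemma F_pow_ne (k : ℕ) {a b : Fin m} (h : (d.F (vv Φ i0) ^ k) a b ≠ 0) :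
    d.pos a = d.pos b + k ∧ d.len a = d.len b := by
  induction k generalizing b with
  | zero =>
    rw [pow_zero, one_apply] at h
    split_ifs at h with h1
    · subst h1; exact ⟨rfl, rfl⟩
    · exact absurd rfl h
  | succ k ih =>
    rw [pow_succ, mul_apply] at h
    obtain ⟨c, _, hc⟩ := Finset.exists_ne_zero_of_sum_ne_zero h
    have h1 := d.F_ne _ (right_ne_zero_of_mul hc)
    have h2 := ih (left_ne_zero_of_mul hc)
    rw [h1.1, d.pos_s_of_ne h1.2, d.len_s] at h2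
    exact ⟨by omega, h2.2⟩

lemma nil : ∃ n, d.E (vv Φ i0) ^ (n + 1) = 0 ∧ d.F (vv Φ i0) ^ (n + 1) = 0 := by
  obtain ⟨n, hn⟩ := exists_bound d
  refine ⟨n, ?_, ?_⟩
  · ext a b
    by_contra h
    have h1 := E_pow_ne Φ d (n + 1) h
    have h2 := d.pos_le b
    have h3 := hn b
    omega
  · ext a b
    by_contra h
    have h1 := F_pow_ne Φ d (n + 1) h
    have h2 := d.pos_le a
    have h3 := hn a
    omega

/-! tensor embeddings -/

lemma kron_l (A B : Matrix (Fin m) (Fin m) FF) :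
    (A ⊗ₖ (1 : Matrix (Fin m) (Fin m) FF)) * (B ⊗ₖ (1 : Matrix (Fin m) (Fin m) FF)) =
      (A * B) ⊗ₖ (1 : Matrix (Fin m) (Fin m) FF) := by
  rw [← mul_kronecker_mul, mul_one]

lemma kron_r (A B : Matrix (Fin m) (Fin m) FF) :
    ((1 : Matrix (Fin m) (Fin m) FF) ⊗ₖ A) * ((1 : Matrix (Fin m) (Fin m) FF) ⊗ₖ B) =
      (1 : Matrix (Fin m) (Fin m) FF) ⊗ₖ (A * B) := by
  rw [← mul_kronecker_mul, mul_one]

lemma kron_lr (A B : Matrix (Fin m) (Fin m) FF) :
    (A ⊗ₖ (1 : Matrix (Fin m) (Fin m) FF)) * ((1 : Matrix (Fin m) (Fin m) FF) ⊗ₖ B) =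
      A ⊗ₖ B := by
  rw [← mul_kronecker_mul, mul_one, one_mul]

lemma kron_rl (A B : Matrix (Fin m) (Fin m) FF) :
    ((1 : Matrix (Fin m) (Fin m) FF) ⊗ₖ B) * (A ⊗ₖ (1 : Matrix (Fin m) (Fin m) FF)) =
      A ⊗ₖ B := by
  rw [← mul_kronecker_mul, mul_one, one_mul]

lemma kron_comm (A B : Matrix (Fin m) (Fin m) FF) :
    Commute (A ⊗ₖ (1 : Matrix (Fin m) (Fin m) FF)) ((1 : Matrix (Fin m) (Fin m) FF) ⊗ₖ B) := by
  rw [commute_iff_eq, kron_lr, kron_rl]

lemma kron_pow_l (A : Matrix (Fin m) (Fin m) FF) (k : ℕ) :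
    (A ⊗ₖ (1 : Matrix (Fin m) (Fin m) FF)) ^ k = (A ^ k) ⊗ₖ (1 : Matrix (Fin m) (Fin m) FF) := by
  induction k with
  | zero => rw [pow_zero, pow_zero, one_kronecker_one]
  | succ k ih => rw [pow_succ, ih, kron_l, pow_succ]

lemma kron_pow_r (A : Matrix (Fin m) (Fin m) FF) (k : ℕ) :
    ((1 : Matrix (Fin m) (Fin m) FF) ⊗ₖ A) ^ k = (1 : Matrix (Fin m) (Fin m) FF) ⊗ₖ (A ^ k) := by
  induction k with
  | zero => rw [pow_zero, pow_zero, one_kronecker_one]
  | succ k ih => rw [pow_succ, ih, kron_r, pow_succ]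

lemma kron_tens (A B : Matrix (Fin m) (Fin m) FF) (v w : Fin m → FF) :
    (A ⊗ₖ B) *ᵥ tens v w = tens (A *ᵥ v) (B *ᵥ w) := by
  funext p
  simp only [mulVec, dotProduct, tens, kroneckerMap_apply, Fintype.sum_prod_type]
  rw [Finset.sum_mul_sum]
  exact Finset.sum_congr rfl fun a _ => Finset.sum_congr rfl fun b _ => by ring

lemma sub_kron (A A' B : Matrix (Fin m) (Fin m) FF) : (A - A') ⊗ₖ B = A ⊗ₖ B - A' ⊗ₖ B := by
  ext p q
  rw [kroneckerMap_apply, Matrix.sub_apply, Matrix.sub_apply, sub_mul]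
  rfl

lemma kron_sub (A B B' : Matrix (Fin m) (Fin m) FF) : A ⊗ₖ (B - B') = A ⊗ₖ B - A ⊗ₖ B' := by
  ext p q
  rw [kroneckerMap_apply, Matrix.sub_apply, Matrix.sub_apply, mul_sub]
  rfl

lemma rel_l : Rel (vv Φ i0) (d.E (vv Φ i0) ⊗ₖ (1 : Matrix (Fin m) (Fin m) FF))
    (d.F (vv Φ i0) ⊗ₖ (1 : Matrix (Fin m) (Fin m) FF))
    (d.K (vv Φ i0) ⊗ₖ (1 : Matrix (Fin m) (Fin m) FF))
    (d.K' (vv Φ i0) ⊗ₖ (1 : Matrix (Fin m) (Fin m) FF)) := by
  have hv : vv Φ i0 ≠ 0 := vv_ne i0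
  refine ⟨?_, ?_, ?_, ?_, ?_⟩
  · rw [kron_l, kron_l, d.KE hv, smul_kronecker]
  · rw [kron_l, kron_l, d.KE' hv, smul_kronecker]
  · rw [kron_l, kron_l, d.KF hv, smul_kronecker]
  · rw [kron_l, kron_l, d.KF' hv, smul_kronecker]
  · rw [kron_l, kron_l, ← sub_kron, d.EF hv (vz Φ), smul_kronecker, sub_kron]

lemma rel_r : Rel (vv Φ i0) ((1 : Matrix (Fin m) (Fin m) FF) ⊗ₖ d.E (vv Φ i0))
    ((1 : Matrix (Fin m) (Fin m) FF) ⊗ₖ d.F (vv Φ i0))
    ((1 : Matrix (Fin m) (Fin m) FF) ⊗ₖ d.K (vv Φ i0))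
    ((1 : Matrix (Fin m) (Fin m) FF) ⊗ₖ d.K' (vv Φ i0)) := by
  have hv : vv Φ i0 ≠ 0 := vv_ne i0
  refine ⟨?_, ?_, ?_, ?_, ?_⟩
  · rw [kron_r, kron_r, d.KE hv, kronecker_smul]
  · rw [kron_r, kron_r, d.KE' hv, kronecker_smul]
  · rw [kron_r, kron_r, d.KF hv, kronecker_smul]
  · rw [kron_r, kron_r, d.KF' hv, kronecker_smul]
  · rw [kron_r, kron_r, ← kron_sub, d.EF hv (vz Φ), kronecker_smul, kron_sub]

/-- the quasi `R`-matrix -/
noncomputable def TT (n : ℕ) : Matrix (Fin m × Fin m) (Fin m × Fin m) FF :=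
  theta (vv Φ i0) (n + 1) (d.F (vv Φ i0) ⊗ₖ (1 : Matrix (Fin m) (Fin m) FF))
    ((1 : Matrix (Fin m) (Fin m) FF) ⊗ₖ d.E (vv Φ i0))

lemma TT_E (n : ℕ) (hn : d.E (vv Φ i0) ^ (n + 1) = 0) :
    TT Φ d n * (d.E (vv Φ i0) ⊗ₖ 1 + d.K (vv Φ i0) ⊗ₖ d.E (vv Φ i0)) =
      (theM Φ d).E2 i0 * TT Φ d n := by
  have h := theta_E (rel_l Φ d) (vv_ne i0) (vz Φ) (cc_ne Φ)
    (y := (1 : Matrix (Fin m) (Fin m) FF) ⊗ₖ d.E (vv Φ i0)) n
    (by rw [kron_pow_r, hn, kronecker_zero]) (kron_comm _ _) (kron_comm _ _) (kron_comm _ _)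
    (kron_comm _ _)
  rw [kron_lr, kron_lr] at h
  exact h

lemma TT_F (n : ℕ) (hn : d.F (vv Φ i0) ^ (n + 1) = 0) :
    TT Φ d n * (d.F (vv Φ i0) ⊗ₖ d.K' (vv Φ i0) + 1 ⊗ₖ d.F (vv Φ i0)) =
      (theM Φ d).F2 i0 * TT Φ d n := by
  have h := theta_F (rel_r Φ d) (vv_ne i0) (vz Φ) (cc_ne Φ)
    (x := d.F (vv Φ i0) ⊗ₖ (1 : Matrix (Fin m) (Fin m) FF)) n
    (by rw [kron_pow_l, hn, zero_kronecker]) (kron_comm _ _) (kron_comm _ _) (kron_comm _ _)
    (kron_comm _ _)
  rw [kron_lr, kron_lr] at h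
  exact h

lemma TT_K (n : ℕ) : (theM Φ d).K2 i0 * TT Φ d n = TT Φ d n * (theM Φ d).K2 i0 := by
  have hv : vv Φ i0 ≠ 0 := vv_ne i0
  refine theta_K (c := (vv Φ i0)⁻¹ ^ 2) (d := vv Φ i0 ^ 2) ?_ ?_ ?_ (n + 1)
  · rw [← mul_pow, inv_mul_cancel₀ hv, one_pow]
  · show (d.K (vv Φ i0) ⊗ₖ d.K (vv Φ i0)) * _ = _ • (_ * (d.K (vv Φ i0) ⊗ₖ d.K (vv Φ i0)))
    rw [← mul_kronecker_mul, ← mul_kronecker_mul, d.KF hv, smul_kronecker, mul_one, one_mul]
  · show (d.K (vv Φ i0) ⊗ₖ d.K (vv Φ i0)) * _ = _ • (_ * (d.K (vv Φ i0) ⊗ₖ d.K (vv Φ i0)))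
    rw [← mul_kronecker_mul, ← mul_kronecker_mul, d.KE hv, kronecker_smul, mul_one, one_mul]

lemma TT_unit (n : ℕ) (hn : d.F (vv Φ i0) ^ (n + 1) = 0) : IsUnit (TT Φ d n) :=
  theta_unit (kron_comm _ _) n (by rw [kron_pow_l, hn, zero_kronecker])

lemma TT_mulVec (n : ℕ) (w u : Fin m → FF) (hu : d.E (vv Φ i0) *ᵥ u = 0) :
    TT Φ d n *ᵥ tens w u = tens w u := by
  unfold TT theta
  rw [Matrix.sum_mulVec, Finset.sum_range_succ', Finset.sum_eq_zero, zero_add]
  · rw [pow_zero, pow_zero, mul_one, aa, one_smul, one_mulVec]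
  · intro k _
    have e : ((1 : Matrix (Fin m) (Fin m) FF) ⊗ₖ d.E (vv Φ i0)) *ᵥ tens w u = 0 := by
      rw [kron_tens, hu]
      funext p
      simp only [tens, Pi.zero_apply, mul_zero]
    rw [smul_mulVec, pow_succ, pow_succ, ← mul_assoc, ← mulVec_mulVec, e, mulVec_zero, smul_zero]



/-! ## The other fields -/

open Classical in
/-- the projections -/
noncomputable def PP (l : Wt) : Matrix (Fin m) (Fin m) FF :=
  diagonal fun a => if d.blk a = l then 1 else 0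

open Classical in
/-- the highest weight vectors -/
noncomputable def hw (l : Wt) : Fin m → FF := fun a => if d.blk a = l ∧ d.pos a = 0 then 1 else 0

/-- the pivotal element -/
noncomputable def hh : Matrix (Fin m) (Fin m) FF :=
  diagonal fun a => tt ^ (2 * Φ.ip (Dynkin.A 0).rho (d.wt a))

lemma PP_mulVec (l : Wt) (w : Fin m → FF) (a : Fin m) :
    (PP d l *ᵥ w) a = (if d.blk a = l then 1 else 0) * w a := by
  classical
  unfold PP
  rw [mulVec_diagonal]

lemma PP_fix {l : Wt} {w : Fin m → FF} (h : PP d l *ᵥ w = w) {a : Fin m} (ha : w a ≠ 0) :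
    d.blk a = l := by
  by_contra hl
  apply ha
  rw [← h, PP_mulVec, if_neg hl, zero_mul]

lemma isWt_iff {μ : Wt} {w : Fin m → FF} (h : (theM Φ d).IsWt μ w) {a : Fin m} (ha : w a ≠ 0) :
    d.wt a = μ := by
  have h1 := congrFun (h i0) a
  have h2 : (d.K (vv Φ i0) *ᵥ w) a = vv Φ i0 ^ (μ i0) * w a := h1
  unfold Dat.K at h2
  rw [mulVec_diagonal] at h2
  have h3 := vv_pow_inj i0 (mul_right_cancel₀ ha h2)
  funext k
  rw [eq_i0 k, h3]

lemma hw_wt (hΛ : ∀ l ∈ Λ, ∀ i, 0 ≤ l i) {a : Fin m} (h : d.pos a = 0) : d.wt a = d.blk a := by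
  funext k
  show (d.len a : ℤ) - 2 * d.pos a = d.blk a k
  rw [h, d.len_eq, eq_i0 k, Int.toNat_of_nonneg (hΛ _ (d.blk_mem a) _)]
  simp

lemma hw_E (l : Wt) : d.E (vv Φ i0) *ᵥ hw d l = 0 := by
  funext a
  rw [E_mulVec, Pi.zero_apply]
  unfold hw
  by_cases h : d.blk (d.s a) = l ∧ d.pos (d.s a) = 0
  · rw [h.2, qi_zero, zero_mul]
  · rw [if_neg h, mul_zero]

lemma hw_isWt (hΛ : ∀ l ∈ Λ, ∀ i, 0 ≤ l i) (l : Wt) : (theM Φ d).IsWt l (hw d l) := by
  intro i
  rw [eq_i0 i]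
  show d.K (vv Φ i0) *ᵥ hw d l = _
  funext a
  unfold Dat.K
  rw [mulVec_diagonal, Pi.smul_apply, smul_eq_mul]
  unfold hw
  by_cases h : d.blk a = l ∧ d.pos a = 0
  · rw [if_pos h, hw_wt d hΛ h.2, h.1]
  · rw [if_neg h, mul_zero, mul_zero]

/-- a stable subspace of a block which is not zero contains the highest weight vector -/
lemma irred_aux1 {l : Wt} {W : Submodule FF (Fin m → FF)}
    (hE : ∀ w ∈ W, d.E (vv Φ i0) *ᵥ w ∈ W) (hP : ∀ w ∈ W, PP d l *ᵥ w = w) (k : ℕ) :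
    ∀ w ∈ W, w ≠ 0 → (∀ a, w a ≠ 0 → d.pos a ≤ k) → hw d l ∈ W := by
  induction k with
  | zero =>
    intro w hw1 hw2 hw3
    obtain ⟨a, ha⟩ := Function.ne_iff.mp hw2
    rw [Pi.zero_apply] at ha
    have e : hw d l = (w a)⁻¹ • w := by
      funext b
      rw [Pi.smul_apply, smul_eq_mul]
      unfold hw
      by_cases h : d.blk b = l ∧ d.pos b = 0
      · have hab : b = a := d.inj b a (h.1.trans (PP_fix d (hP w hw1) ha).symm)
          (h.2.trans (Nat.le_zero.mp (hw3 a ha)).symm)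
        rw [if_pos h, hab, inv_mul_cancel₀ ha]
      · rw [if_neg h]
        have hb : w b = 0 := by
          by_contra hb
          exact h ⟨PP_fix d (hP w hw1) hb, Nat.le_zero.mp (hw3 b hb)⟩
        rw [hb, mul_zero]
    rw [e]
    exact W.smul_mem _ hw1
  | succ k ih =>
    intro w hw1 hw2 hw3
    by_cases hk : ∃ b, w b ≠ 0 ∧ d.pos b = k + 1
    · obtain ⟨b, hb1, hb2⟩ := hk
      refine ih _ (hE w hw1) ?_ ?_
      · intro h0
        have h1 := congrFun h0 (d.s.symm b)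
        rw [E_mulVec, Equiv.apply_symm_apply, Pi.zero_apply, hb2] at h1
        exact mul_ne_zero (qi_ne Φ (Nat.succ_pos k)) hb1 h1
      · intro a ha
        rw [E_mulVec] at ha
        have h1 := hw3 _ (right_ne_zero_of_mul ha)
        have h2 : d.pos (d.s a) ≠ 0 := by
          intro h
          rw [h, qi_zero, zero_mul] at ha
          exact ha rfl
        have h3 := d.pos_s a
        split_ifs at h3 with h4
        · exact absurd h3 h2
        · omega
    · refine ih w hw1 hw2 fun a ha => ?_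
      have h1 := hw3 a ha
      by_contra h2
      exact hk ⟨a, ha, by omega⟩

lemma irred_aux2 {l : Wt} {W : Submodule FF (Fin m → FF)}
    (hF : ∀ w ∈ W, d.F (vv Φ i0) *ᵥ w ∈ W) (h0 : hw d l ∈ W) (k : ℕ) :
    ∀ a, d.blk a = l → d.pos a = k → (Pi.single a 1 : Fin m → FF) ∈ W := by
  induction k with
  | zero =>
    intro a ha1 ha2
    have e : (Pi.single a 1 : Fin m → FF) = hw d l := by
      funext b
      unfold hw
      by_cases h : d.blk b = l ∧ d.pos b = 0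
      · have hab : b = a := d.inj b a (h.1.trans ha1.symm) (h.2.trans ha2.symm)
        rw [if_pos h, hab, Pi.single_eq_same]
      · rw [if_neg h, Pi.single_eq_of_ne]
        intro hab
        rw [hab] at h
        exact h ⟨ha1, ha2⟩
    rw [e]
    exact h0
  | succ k ih =>
    intro a ha1 ha2
    have hb1 : d.blk (d.s.symm a) = l := by
      rw [← d.blk_s, Equiv.apply_symm_apply, ha1]
    have hb0 := d.pos_s (d.s.symm a)
    rw [Equiv.apply_symm_apply, ha2] at hb0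
    split_ifs at hb0 with hb2
    have hb3 : d.pos (d.s.symm a) = k := by omega
    have h1 := ih _ hb1 hb3
    have h2 := hF _ h1
    have hpl := d.pos_le (d.s.symm a)
    have hq : qi (vv Φ i0) (d.len (d.s.symm a) - d.pos (d.s.symm a)) ≠ 0 :=
      qi_ne Φ (by omega)
    have e : (Pi.single a 1 : Fin m → FF) =
        (qi (vv Φ i0) (d.len (d.s.symm a) - d.pos (d.s.symm a)))⁻¹ •
          (d.F (vv Φ i0) *ᵥ (Pi.single (d.s.symm a) 1)) := by
      funext b
      obtain ⟨c, rfl⟩ := d.s.surjective b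
      rw [Pi.smul_apply, smul_eq_mul, F_mulVec]
      by_cases hc : c = d.s.symm a
      · rw [hc, Equiv.apply_symm_apply, Pi.single_eq_same, Pi.single_eq_same, mul_one,
          inv_mul_cancel₀ hq]
      · rw [Pi.single_eq_of_ne hc, mul_zero, mul_zero, Pi.single_eq_of_ne]
        intro h
        exact hc (by rw [← h, Equiv.symm_apply_apply])
    rw [e]
    exact W.smul_mem _ h2

lemma irred_main {l : Wt} {W : Submodule FF (Fin m → FF)} (hS : (theM Φ d).Stable W)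
    (hP : ∀ w ∈ W, PP d l *ᵥ w = w) : W = ⊥ ∨ ∀ w, PP d l *ᵥ w = w → w ∈ W := by
  by_cases hW : W = ⊥
  · exact Or.inl hW
  right
  obtain ⟨w, hw1, hw2⟩ := W.ne_bot_iff.mp hW
  obtain ⟨n, hn⟩ := exists_bound d
  have h0 : hw d l ∈ W := irred_aux1 Φ d (fun w hw => (hS w hw i0).1) hP n w hw1 hw2
    fun a _ => (d.pos_le a).trans (hn a)
  intro u hu
  have e : u = ∑ a, u a • (Pi.single a 1 : Fin m → FF) := by
    funext b
    rw [Finset.sum_apply, Finset.sum_eq_single b]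
    · rw [Pi.smul_apply, Pi.single_eq_same, smul_eq_mul, mul_one]
    · intro c _ hc
      rw [Pi.smul_apply, Pi.single_eq_of_ne (Ne.symm hc), smul_zero]
    · intro h
      exact absurd (Finset.mem_univ _) h
  rw [e]
  refine W.sum_mem fun a _ => ?_
  by_cases ha : u a = 0
  · rw [ha, zero_smul]
    exact W.zero_mem
  · exact W.smul_mem _ (irred_aux2 Φ d (fun w hw => (hS w hw i0).2.1) h0 _ a
      (PP_fix d hu ha) rfl)

lemma diag_isWt (f : Wt → FF) {μ : Wt} {w : Fin m → FF} (h : (theM Φ d).IsWt μ w) :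
    (diagonal fun a => f (d.wt a)) *ᵥ w = f μ • w := by
  funext a
  rw [mulVec_diagonal, Pi.smul_apply, smul_eq_mul]
  by_cases ha : w a = 0
  · rw [ha, mul_zero, mul_zero]
  · rw [isWt_iff Φ d h ha]

lemma BB_tens (hΛ : ∀ l ∈ Λ, ∀ i, 0 ≤ l i) (l : Wt) {μ : Wt} {w : Fin m → FF}
    (h : (theM Φ d).IsWt μ w) :
    BB Φ d *ᵥ tens (hw d l) w = tt ^ Φ.ip l μ • tens w (hw d l) := by
  funext ⟨a, b⟩
  rw [BB_mulVec, Pi.smul_apply, smul_eq_mul]
  show dd Φ d (b, a) * (hw d l b * w a) = tt ^ Φ.ip l μ * (w a * hw d l b)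
  by_cases ha : w a = 0
  · rw [ha]; ring
  · unfold hw
    by_cases hb : d.blk b = l ∧ d.pos b = 0
    · rw [if_pos hb]
      unfold dd
      simp only
      rw [isWt_iff Φ d h ha, hw_wt d hΛ hb.2, hb.1]
      ring
    · rw [if_neg hb]; ring

end

end C2

open Matrix C2 in
/-- **C2**: models exist for `sl_2`. -/
theorem exists_model_sl2 (Φ : WeightForm (Dynkin.A 0)) (Λ : Finset (Dynkin.A 0).Weight)
    (hΛ : ∀ l ∈ Λ, ∀ i, 0 ≤ l i) : Nonempty (Model Φ Λ) := by
  classical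
  obtain ⟨m, ⟨d⟩⟩ := exists_dat Λ
  obtain ⟨n, hnE, hnF⟩ := nil Φ d
  have hu := TT_unit Φ d n hnF
  obtain ⟨T', hT'⟩ := hu.exists_right_inv
  refine ⟨{
    m := m
    M := theM Φ d
    P := PP d
    v := hw d
    h := hh Φ d
    C := TT Φ d n * BB Φ d
    C' := BB' Φ d * T'
    P_sum := ?_
    P_mul := ?_
    P_E := ?_
    P_F := ?_
    P_K := ?_
    v_ne := ?_
    v_P := ?_
    v_E := fun l _ i => hw_E Φ d l
    v_wt := fun l _ => hw_isWt Φ d hΛ l
    irred := fun l _ W hW hP => irred_main Φ d hW hP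
    h_wt := fun μ w hw => diag_isWt Φ d (fun ν => tt ^ (2 * Φ.ip (Dynkin.A 0).rho ν)) hw
    C_E := ?_
    C_F := ?_
    C_K := ?_
    C_v := ?_
    CC' := ?_ }⟩
  · ext a b
    rw [Matrix.sum_apply, one_apply]
    unfold PP
    simp only [diagonal_apply]
    by_cases hab : a = b
    · subst hab
      rw [if_pos rfl, Finset.sum_eq_single (d.blk a)]
      · rw [if_pos rfl, if_pos rfl]
      · intro l _ hl
        rw [if_pos rfl, if_neg (Ne.symm hl)]
      · intro h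
        exact absurd (d.blk_mem a) h
    · rw [if_neg hab]
      exact Finset.sum_eq_zero fun l _ => by rw [if_neg hab]
  · intro l _ l' _
    unfold PP
    rw [diagonal_mul_diagonal]
    by_cases hll : l = l'
    · subst hll
      rw [if_pos rfl]
      congr 1
      funext a
      by_cases h : d.blk a = l
      · rw [if_pos h, one_mul]
      · rw [if_neg h, zero_mul]
    · rw [if_neg hll, ← diagonal_zero]
      congr 1
      funext a
      by_cases h : d.blk a = l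
      · rw [if_neg (fun h' => hll (h.symm.trans h')), mul_zero]
      · rw [if_neg h, zero_mul]
  · intro l _ i
    show PP d l * d.E (vv Φ i0) = d.E (vv Φ i0) * PP d l
    ext a b
    unfold PP
    rw [diagonal_mul, mul_diagonal]
    by_cases h : d.E (vv Φ i0) a b = 0
    · rw [h, mul_zero, zero_mul]
    · rw [(d.E_ne _ h).1, d.blk_s, mul_comm]
  · intro l _ i
    show PP d l * d.F (vv Φ i0) = d.F (vv Φ i0) * PP d l
    ext a b
    unfold PP
    rw [diagonal_mul, mul_diagonal]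
    by_cases h : d.F (vv Φ i0) a b = 0
    · rw [h, mul_zero, zero_mul]
    · rw [(d.F_ne _ h).1, d.blk_s, mul_comm]
  · intro l _ i
    show PP d l * d.K (vv Φ i0) = d.K (vv Φ i0) * PP d l
    unfold PP Dat.K
    rw [diagonal_mul_diagonal, diagonal_mul_diagonal]
    congr 1
    funext a
    rw [mul_comm]
  · intro l hl h
    obtain ⟨a, ha⟩ := d.surj l hl
    have h1 := congrFun h a
    unfold hw at h1
    rw [if_pos ha] at h1
    exact one_ne_zero h1
  · intro l _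
    funext a
    rw [PP_mulVec]
    unfold hw
    by_cases h : d.blk a = l ∧ d.pos a = 0
    · rw [if_pos h, if_pos h.1, one_mul]
    · rw [if_neg h, mul_zero]
  · intro i
    rw [eq_i0 i, mul_assoc, BB_E, ← mul_assoc, TT_E Φ d n hnE, mul_assoc]
  · intro i
    rw [eq_i0 i, mul_assoc, BB_F, ← mul_assoc, TT_F Φ d n hnF, mul_assoc]
  · intro i
    rw [eq_i0 i, mul_assoc, BB_K, ← mul_assoc, ← TT_K Φ d n, mul_assoc]
  · intro l _ μ w hw1
    rw [← mulVec_mulVec, BB_tens Φ d hΛ l hw1, mulVec_smul, TT_mulVec Φ d n w _ (hw_E Φ d l)]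
  · rw [mul_assoc, ← mul_assoc (BB Φ d), BB_BB', one_mul, hT']

end Pool.Agent.QInv75
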