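import Pool.Agent.QInv75.A1
import Pool.Agent.QInv75.A2

/-!
# Package C3: models are unique up to isomorphism, and the state sum does not depend on the model
-/

set_option autoImplicit false

open Matrix
open scoped Kronecker

namespace Pool.Agent.QInv75

variable {X : Dynkin} {Φ : WeightForm X} {Λ : Finset X.Weight} {n : ℕ}

namespace C3

/-- the pairs `(F_w v_l, F'_w v'_l)` -/
inductive Gen (S S' : Model Φ Λ) : (Fin S.m → FF) → (Fin S'.m → FF) → X.Weight → Prop
  | base (l : X.Weight) (hl : l ∈ Λ) : Gen S S' (S.v l) (S'.v l) l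
  | step (i : Fin X.rank) (x : Fin S.m → FF) (y : Fin S'.m → FF) (μ : X.Weight)
      (h : Gen S S' x y μ) : Gen S S' (S.M.F i *ᵥ x) (S'.M.F i *ᵥ y) (μ - X.root i)

/-- the graph of the isomorphism -/
noncomputable def R (S S' : Model Φ Λ) : Submodule FF ((Fin S.m → FF) × (Fin S'.m → FF)) :=
  Submodule.span FF {p | ∃ μ, Gen S S' p.1 p.2 μ}

variable (S S' : Model Φ Λ)

theorem gen_wt {x : Fin S.m → FF} {y : Fin S'.m → FF} {μ : X.Weight} (h : Gen S S' x y μ) :
    S.M.IsWt μ x := by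
  induction h with
  | base l hl => exact S.v_wt l hl
  | step i x f μ _ ih => exact isWt_F S ih i

theorem gen_swap {x : Fin S.m → FF} {y : Fin S'.m → FF} {μ : X.Weight} (h : Gen S S' x y μ) :
    Gen S' S y x μ := by
  induction h with
  | base l hl => exact Gen.base l hl
  | step i x f μ _ ih => exact Gen.step i _ _ _ ih

theorem mem_swap {x : Fin S.m → FF} {y : Fin S'.m → FF} (h : (x, y) ∈ R S S') :
    (y, x) ∈ R S' S := by
  have key : R S S' ≤ (R S' S).comap ((LinearMap.snd FF _ _).prod (LinearMap.fst FF _ _)) := by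
    conv_lhs => unfold R
    rw [Submodule.span_le]
    rintro ⟨x, y⟩ ⟨μ, hg⟩
    exact Submodule.subset_span ⟨μ, gen_swap S S' hg⟩
  exact key h

theorem stable_of (A : Matrix (Fin S.m) (Fin S.m) FF) (B : Matrix (Fin S'.m) (Fin S'.m) FF)
    (h : ∀ x y μ, Gen S S' x y μ → (A *ᵥ x, B *ᵥ y) ∈ R S S') {x : Fin S.m → FF}
    {y : Fin S'.m → FF} (hxf : (x, y) ∈ R S S') : (A *ᵥ x, B *ᵥ y) ∈ R S S' := by
  have key : R S S' ≤ (R S S').comap ((Matrix.toLin' A).prodMap (Matrix.toLin' B)) := by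
    conv_lhs => unfold R
    rw [Submodule.span_le]
    rintro ⟨x, f⟩ ⟨μ, hg⟩
    simp only [Submodule.comap_coe, Set.mem_preimage, LinearMap.prodMap_apply,
      Matrix.toLin'_apply, SetLike.mem_coe]
    exact h x f μ hg
  have := key hxf
  simpa using this

theorem mem_F {x : Fin S.m → FF} {y : Fin S'.m → FF} (i : Fin X.rank) (h : (x, y) ∈ R S S') :
    (S.M.F i *ᵥ x, S'.M.F i *ᵥ y) ∈ R S S' := by
  refine stable_of S S' _ _ ?_ h
  intro x y μ hg
  exact Submodule.subset_span ⟨_, Gen.step i x y μ hg⟩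

theorem mem_K {x : Fin S.m → FF} {y : Fin S'.m → FF} (i : Fin X.rank) (h : (x, y) ∈ R S S') :
    (S.M.K i *ᵥ x, S'.M.K i *ᵥ y) ∈ R S S' := by
  refine stable_of S S' _ _ ?_ h
  intro x y μ hg
  rw [gen_wt S S' hg i, gen_wt S' S (gen_swap S S' hg) i]
  exact Submodule.smul_mem _ (vv Φ i ^ (μ i)) (Submodule.subset_span ⟨_, hg⟩ : (x, y) ∈ R S S')

theorem mem_K' {x : Fin S.m → FF} {y : Fin S'.m → FF} (i : Fin X.rank) (h : (x, y) ∈ R S S') :
    (S.M.K' i *ᵥ x, S'.M.K' i *ᵥ y) ∈ R S S' := by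
  refine stable_of S S' _ _ ?_ h
  intro x y μ hg
  rw [isWt_K' (gen_wt S S' hg) i, isWt_K' (gen_wt S' S (gen_swap S S' hg)) i]
  exact Submodule.smul_mem _ (vv Φ i ^ (-μ i)) (Submodule.subset_span ⟨_, hg⟩ : (x, y) ∈ R S S')

theorem mem_P {x : Fin S.m → FF} {y : Fin S'.m → FF} {l : X.Weight} (hl : l ∈ Λ)
    (h : (x, y) ∈ R S S') : (S.P l *ᵥ x, S'.P l *ᵥ y) ∈ R S S' := by
  refine stable_of S S' _ _ ?_ h
  intro x y μ hg
  induction hg with
  | base l' hl' =>
    by_cases h : l = l'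
    · subst h
      rw [S.v_P l hl, S'.v_P l hl]
      exact Submodule.subset_span ⟨l, Gen.base l hl⟩
    · rw [A1.P_v S hl hl' h, A1.P_v S' hl hl' h]
      exact Submodule.zero_mem _
  | step j x f μ _ ih =>
    have e1 : S.P l *ᵥ (S.M.F j *ᵥ x) = S.M.F j *ᵥ (S.P l *ᵥ x) := by
      rw [Matrix.mulVec_mulVec, S.P_F l hl, ← Matrix.mulVec_mulVec]
    have e2 : S'.P l *ᵥ (S'.M.F j *ᵥ f) = S'.M.F j *ᵥ (S'.P l *ᵥ f) := by
      rw [Matrix.mulVec_mulVec, S'.P_F l hl, ← Matrix.mulVec_mulVec]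
    rw [e1, e2]
    exact mem_F S S' j ih

theorem E_F_vec (i j : Fin X.rank) (x : Fin S.m → FF) :
    S.M.E i *ᵥ (S.M.F j *ᵥ x) = S.M.F j *ᵥ (S.M.E i *ᵥ x) +
        if i = j then (vv Φ i - (vv Φ i)⁻¹)⁻¹ • (S.M.K i *ᵥ x - S.M.K' i *ᵥ x) else 0 := by
  have h : S.M.E i * S.M.F j = S.M.F j * S.M.E i +
      if i = j then (vv Φ i - (vv Φ i)⁻¹)⁻¹ • (S.M.K i - S.M.K' i) else 0 := by
    rw [← S.M.EF i j]; abel
  rw [Matrix.mulVec_mulVec, h, Matrix.add_mulVec, ← Matrix.mulVec_mulVec]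
  split_ifs
  · rw [Matrix.smul_mulVec, Matrix.sub_mulVec]
  · rw [Matrix.zero_mulVec]

theorem mem_E {x : Fin S.m → FF} {y : Fin S'.m → FF} (i : Fin X.rank) (h : (x, y) ∈ R S S') :
    (S.M.E i *ᵥ x, S'.M.E i *ᵥ y) ∈ R S S' := by
  refine stable_of S S' _ _ ?_ h
  intro x y μ hg
  induction hg with
  | base l hl =>
    rw [S.v_E l hl, S'.v_E l hl]
    exact Submodule.zero_mem _
  | step j x y μ hg ih =>
    rw [E_F_vec S, E_F_vec S']
    have hR : (x, y) ∈ R S S' := Submodule.subset_span ⟨_, hg⟩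
    rw [← Prod.mk_add_mk]
    refine Submodule.add_mem (R S S') (mem_F S S' j ih) ?_
    split_ifs with hij
    · exact Submodule.smul_mem (R S S') _
        (Submodule.sub_mem (R S S') (mem_K S S' i hR) (mem_K' S S' i hR))
    · exact Submodule.zero_mem _

theorem exists_R (x : Fin S.m → FF) : ∃ y, (x, y) ∈ R S S' := by
  have := model_induct S ((R S S').map (LinearMap.fst FF _ _)) ?_ ?_ x
  · obtain ⟨⟨a, b⟩, h, hx⟩ := this
    simp only [LinearMap.fst_apply] at hx
    subst hx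
    exact ⟨b, h⟩
  · intro l hl
    exact ⟨(S.v l, S'.v l), Submodule.subset_span ⟨l, Gen.base l hl⟩, rfl⟩
  · rintro i μ w ⟨⟨a, b⟩, h, hx⟩ _
    simp only [LinearMap.fst_apply] at hx
    subst hx
    exact ⟨_, mem_F S S' i h, rfl⟩

/-- the coefficients of `v_l` agree -/
theorem phi_eq {l : X.Weight} {φ : Fin S.m → FF} {ψ : Fin S'.m → FF}
    (hφ : φ ⬝ᵥ S.v l = 1) (hφ' : ∀ l' ∈ Λ, l' ≠ l → φ ⬝ᵥ S.v l' = 0)
    (hφF : ∀ i x, φ ⬝ᵥ (S.M.F i *ᵥ x) = 0)
    (hψ : ψ ⬝ᵥ S'.v l = 1) (hψ' : ∀ l' ∈ Λ, l' ≠ l → ψ ⬝ᵥ S'.v l' = 0)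
    (hψF : ∀ i x, ψ ⬝ᵥ (S'.M.F i *ᵥ x) = 0) {x : Fin S.m → FF} {y : Fin S'.m → FF}
    (h : (x, y) ∈ R S S') : φ ⬝ᵥ x = ψ ⬝ᵥ y := by
  have key : ∀ p ∈ R S S', φ ⬝ᵥ p.1 = ψ ⬝ᵥ p.2 := by
    intro p hp
    unfold R at hp
    induction hp using Submodule.span_induction with
    | mem p hp =>
      obtain ⟨p1, p2⟩ := p
      obtain ⟨μ, hg⟩ := hp
      simp only at hg ⊢
      cases hg with
      | base l' hl' =>
        by_cases h : μ = l
        · subst h; rw [hφ, hψ]
        · rw [hφ' μ hl' h, hψ' μ hl' h]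
      | step i x f μ hg => rw [hφF, hψF]
    | zero => simp
    | add p q _ _ hp hq =>
      rw [Prod.fst_add, Prod.snd_add, dotProduct_add, dotProduct_add, hp, hq]
    | smul a p _ hp =>
      rw [Prod.smul_fst, Prod.smul_snd, dotProduct_smul, dotProduct_smul, hp]
  exact key _ h

theorem P_K' {l : X.Weight} (hl : l ∈ Λ) (i : Fin X.rank) :
    S.P l * S.M.K' i = S.M.K' i * S.P l := by
  calc S.P l * S.M.K' i = S.M.K' i * (S.M.K i * S.P l) * S.M.K' i := by
        rw [← mul_assoc, K'K, one_mul]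
    _ = S.M.K' i * (S.P l * S.M.K i) * S.M.K' i := by rw [S.P_K l hl]
    _ = S.M.K' i * S.P l := by rw [mul_assoc, mul_assoc, S.M.KK', mul_one]

theorem inj_R {x : Fin S.m → FF} (hx : (x, 0) ∈ R S S') : x = 0 := by
  set N : Submodule FF (Fin S.m → FF) := (R S S').comap (LinearMap.inl FF _ _) with hN
  have hmem : ∀ y, y ∈ N ↔ (y, 0) ∈ R S S' := by
    intro y
    rw [hN, Submodule.mem_comap, LinearMap.inl_apply]
  have hP : ∀ l ∈ Λ, S.P l *ᵥ x = 0 := by
    intro l hl
    set W : Submodule FF (Fin S.m → FF) :=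
      N ⊓ LinearMap.ker (Matrix.toLin' (S.P l) - LinearMap.id) with hW
    have hWmem : ∀ y, y ∈ W ↔ (y, 0) ∈ R S S' ∧ S.P l *ᵥ y = y := by
      intro y
      rw [hW, Submodule.mem_inf, hmem, LinearMap.mem_ker, LinearMap.sub_apply,
        Matrix.toLin'_apply, LinearMap.id_apply, sub_eq_zero]
    have hst : S.M.Stable W := by
      intro w hw i
      obtain ⟨hw1, hw2⟩ := (hWmem w).mp hw
      refine ⟨(hWmem _).mpr ⟨?_, ?_⟩, (hWmem _).mpr ⟨?_, ?_⟩, (hWmem _).mpr ⟨?_, ?_⟩,
        (hWmem _).mpr ⟨?_, ?_⟩⟩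
      · simpa using mem_E S S' i hw1
      · rw [Matrix.mulVec_mulVec, S.P_E l hl, ← Matrix.mulVec_mulVec, hw2]
      · simpa using mem_F S S' i hw1
      · rw [Matrix.mulVec_mulVec, S.P_F l hl, ← Matrix.mulVec_mulVec, hw2]
      · simpa using mem_K S S' i hw1
      · rw [Matrix.mulVec_mulVec, S.P_K l hl, ← Matrix.mulVec_mulVec, hw2]
      · simpa using mem_K' S S' i hw1
      · rw [Matrix.mulVec_mulVec, P_K' S hl, ← Matrix.mulVec_mulVec, hw2]
    rcases S.irred l hl W hst (fun w hw => ((hWmem w).mp hw).2) with h | h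
    · have hx2 : S.P l *ᵥ x ∈ W := by
        rw [hWmem]
        refine ⟨by simpa using mem_P S S' hl hx, ?_⟩
        rw [Matrix.mulVec_mulVec, S.P_mul l hl l hl, if_pos rfl]
      rw [h] at hx2
      exact (Submodule.mem_bot _).mp hx2
    · exfalso
      have hv := h (S.v l) (S.v_P l hl)
      have hv2 := ((hWmem _).mp hv).1
      obtain ⟨φ, h1, h2, h3⟩ := A1.exists_phi S hl
      obtain ⟨ψ, h1', h2', h3'⟩ := A1.exists_phi S' hl
      have := phi_eq S S' h1 h2 h3 h1' h2' h3' hv2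
      rw [h1, dotProduct_zero] at this
      exact one_ne_zero this
  calc x = (∑ l ∈ Λ, S.P l) *ᵥ x := by rw [S.P_sum, Matrix.one_mulVec]
    _ = ∑ l ∈ Λ, S.P l *ᵥ x := by rw [Matrix.sum_mulVec]
    _ = 0 := Finset.sum_eq_zero hP

theorem uniq_R {x : Fin S.m → FF} {y z : Fin S'.m → FF} (hy : (x, y) ∈ R S S')
    (hz : (x, z) ∈ R S S') : y = z := by
  have h1 := Submodule.sub_mem _ (mem_swap S S' hy) (mem_swap S S' hz)
  rw [Prod.mk_sub_mk, sub_self] at h1
  exact sub_eq_zero.mp (inj_R S' S h1)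

/-- the isomorphism -/
theorem exists_U : ∃ U : Matrix (Fin S'.m) (Fin S.m) FF, ∀ x, (x, U *ᵥ x) ∈ R S S' := by
  choose H hH using exists_R S S'
  have huniq : ∀ x f, (x, f) ∈ R S S' → H x = f := fun x f h => uniq_R S S' (hH x) h
  let L : (Fin S.m → FF) →ₗ[FF] (Fin S'.m → FF) :=
    { toFun := H
      map_add' := fun x y => huniq _ _ (Submodule.add_mem _ (hH x) (hH y))
      map_smul' := fun c x => huniq _ _ (Submodule.smul_mem _ c (hH x)) }
  refine ⟨LinearMap.toMatrix' L, fun x => ?_⟩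
  rw [← Matrix.toLin'_apply, Matrix.toLin'_toMatrix']
  exact hH x

theorem ext_vec {p q : ℕ} {A B : Matrix (Fin p) (Fin q) FF} (h : ∀ x, A *ᵥ x = B *ᵥ x) : A = B :=
  Matrix.ext_of_mulVec_single fun _ => h _

theorem comm_of {U : Matrix (Fin S'.m) (Fin S.m) FF} (hU : ∀ x, (x, U *ᵥ x) ∈ R S S')
    (A : Matrix (Fin S.m) (Fin S.m) FF) (B : Matrix (Fin S'.m) (Fin S'.m) FF)
    (h : ∀ {x : Fin S.m → FF} {y : Fin S'.m → FF}, (x, y) ∈ R S S' →
      (A *ᵥ x, B *ᵥ y) ∈ R S S') : U * A = B * U := by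
  apply ext_vec
  intro x
  rw [← Matrix.mulVec_mulVec, ← Matrix.mulVec_mulVec]
  exact uniq_R S S' (hU _) (h (hU x))

theorem kron_tens {p q : ℕ} (A B : Matrix (Fin p) (Fin q) FF) (v w : Fin q → FF) :
    (A ⊗ₖ B) *ᵥ tens v w = tens (A *ᵥ v) (B *ᵥ w) := by
  ext ⟨i, j⟩
  simp only [mulVec, dotProduct, tens, kroneckerMap_apply, Fintype.sum_prod_type]
  rw [Finset.sum_mul_sum]
  refine Finset.sum_congr rfl fun a _ => Finset.sum_congr rfl fun b _ => ?_
  ring

/-- `U F2 = F2' U` and so on on the tensor square -/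
theorem F2_comm {U : Matrix (Fin S'.m) (Fin S.m) FF} (hF : ∀ i, U * S.M.F i = S'.M.F i * U)
    (hK : ∀ i, U * S.M.K i = S'.M.K i * U) (i : Fin X.rank) :
    (U ⊗ₖ U) * S.M.F2 i = S'.M.F2 i * (U ⊗ₖ U) := by
  unfold UqModule.F2
  rw [Matrix.mul_add, Matrix.add_mul, ← mul_kronecker_mul, ← mul_kronecker_mul,
    ← mul_kronecker_mul, ← mul_kronecker_mul, hF, hK, Matrix.mul_one, Matrix.one_mul]

theorem isWt_U {U : Matrix (Fin S'.m) (Fin S.m) FF} (hK : ∀ i, U * S.M.K i = S'.M.K i * U)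
    {μ : X.Weight} {w : Fin S.m → FF} (h : S.M.IsWt μ w) : S'.M.IsWt μ (U *ᵥ w) := by
  intro i
  rw [mulVec_mulVec, ← hK, ← mulVec_mulVec, h i, mulVec_smul]

theorem h_comm {U : Matrix (Fin S'.m) (Fin S.m) FF} (hK : ∀ i, U * S.M.K i = S'.M.K i * U) :
    U * S.h = S'.h * U := by
  apply ext_wt S
  intro μ w hw
  rw [← mulVec_mulVec, ← mulVec_mulVec, S.h_wt μ w hw, mulVec_smul,
    S'.h_wt μ _ (isWt_U S S' hK hw)]

/-- the intertwining defect of the braidings vanishes on `F`-words -/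
theorem defect_zero {U : Matrix (Fin S'.m) (Fin S.m) FF}
    (hF : ∀ i, U * S.M.F i = S'.M.F i * U) (hK : ∀ i, U * S.M.K i = S'.M.K i * U)
    (hv : ∀ l ∈ Λ, U *ᵥ S.v l = S'.v l) {l : X.Weight} (hl : l ∈ Λ) {μ : X.Weight}
    {x : Fin S.m → FF} (hx : FWord S l μ x) (w : Fin S.m → FF) :
    ((U ⊗ₖ U) * S.C - S'.C * (U ⊗ₖ U)) *ᵥ tens x w = 0 := by
  induction hx generalizing w with
  | base =>
    have key : ∀ w, w ∈ ({
        carrier := {w | ((U ⊗ₖ U) * S.C - S'.C * (U ⊗ₖ U)) *ᵥ tens (S.v l) w = 0}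
        add_mem' := by
          intro a b ha hb
          simp only [Set.mem_ofPred_eq] at ha hb ⊢
          rw [A2.tens_add_right, mulVec_add, ha, hb, add_zero]
        zero_mem' := by
          simp only [Set.mem_ofPred_eq]
          rw [A2.tens_zero_right, mulVec_zero]
        smul_mem' := by
          intro c a ha
          simp only [Set.mem_ofPred_eq] at ha ⊢
          rw [A2.tens_smul_right, mulVec_smul, ha, smul_zero] } :
            Submodule FF (Fin S.m → FF)) := by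
      apply A2.wt_induct S
      intro ν w hw
      show ((U ⊗ₖ U) * S.C - S'.C * (U ⊗ₖ U)) *ᵥ tens (S.v l) w = 0
      rw [sub_mulVec, ← mulVec_mulVec, ← mulVec_mulVec, S.C_v l hl ν w hw, mulVec_smul, kron_tens,
        kron_tens, hv l hl, S'.C_v l hl ν _ (isWt_U S S' hK hw), sub_self]
    exact key w
  | step i μ x hx ih =>
    have h1 : ((U ⊗ₖ U) * S.C - S'.C * (U ⊗ₖ U)) * S.M.F2 i =
        S'.M.F2 i * ((U ⊗ₖ U) * S.C - S'.C * (U ⊗ₖ U)) := by
      rw [Matrix.sub_mul, Matrix.mul_sub, Matrix.mul_assoc, S.C_F, ← Matrix.mul_assoc, F2_comm S S' hF hK,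
        Matrix.mul_assoc, Matrix.mul_assoc, F2_comm S S' hF hK, ← Matrix.mul_assoc S'.C, S'.C_F,
        Matrix.mul_assoc]
    rw [A2.F2_tens, mulVec_sub, ih, sub_zero, mulVec_mulVec, h1, ← mulVec_mulVec, ih, mulVec_zero]

theorem C_comm {U : Matrix (Fin S'.m) (Fin S.m) FF}
    (hF : ∀ i, U * S.M.F i = S'.M.F i * U) (hK : ∀ i, U * S.M.K i = S'.M.K i * U)
    (hv : ∀ l ∈ Λ, U *ᵥ S.v l = S'.v l) : (U ⊗ₖ U) * S.C = S'.C * (U ⊗ₖ U) := by
  have key : ∀ w x, x ∈ ({
      carrier := {x | ((U ⊗ₖ U) * S.C - S'.C * (U ⊗ₖ U)) *ᵥ tens x w = 0}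
      add_mem' := by
        intro a b ha hb
        simp only [Set.mem_ofPred_eq] at ha hb ⊢
        rw [A2.tens_add_left, mulVec_add, ha, hb, add_zero]
      zero_mem' := by
        simp only [Set.mem_ofPred_eq]
        rw [A2.tens_zero_left, mulVec_zero]
      smul_mem' := by
        intro c a ha
        simp only [Set.mem_ofPred_eq] at ha ⊢
        rw [A2.tens_smul_left, mulVec_smul, ha, smul_zero] } : Submodule FF (Fin S.m → FF)) := by
    intro w
    apply A2.fword_induct S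
    intro l hl μ x hx
    exact defect_zero S S' hF hK hv hl hx w
  rw [← sub_eq_zero]
  ext b ⟨i, j⟩
  have h1 : ((U ⊗ₖ U) * S.C - S'.C * (U ⊗ₖ U)) *ᵥ tens (Pi.single i 1) (Pi.single j 1) = 0 :=
    key (Pi.single j 1) (Pi.single i 1)
  have h2 : tens (Pi.single i (1 : FF)) (Pi.single j 1) = Pi.single (i, j) 1 := by
    ext ⟨a, c⟩
    simp only [tens]
    by_cases ha : a = i
    · by_cases hc : c = j
      · rw [ha, hc, Pi.single_eq_same, Pi.single_eq_same, Pi.single_eq_same, one_mul]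
      · rw [Pi.single_eq_of_ne hc, mul_zero, Pi.single_eq_of_ne]
        intro h
        exact hc (Prod.ext_iff.mp h).2
    · rw [Pi.single_eq_of_ne ha, zero_mul, Pi.single_eq_of_ne]
      intro h
      exact ha (Prod.ext_iff.mp h).1
  rw [h2] at h1
  have h3 := congrFun h1 b
  rw [mulVec_single_one] at h3
  exact h3

theorem v_of {U : Matrix (Fin S'.m) (Fin S.m) FF} (hU : ∀ x, (x, U *ᵥ x) ∈ R S S')
    {l : X.Weight} (hl : l ∈ Λ) : U *ᵥ S.v l = S'.v l :=
  uniq_R S S' (hU _) (Submodule.subset_span ⟨l, Gen.base l hl⟩)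

end C3

open C3

/-- two models are isomorphic -/
theorem model_iso (S S' : Model Φ Λ) :
    ∃ (U : Matrix (Fin S'.m) (Fin S.m) FF) (V : Matrix (Fin S.m) (Fin S'.m) FF),
      U * V = 1 ∧ V * U = 1 ∧ (∀ i, U * S.M.E i = S'.M.E i * U) ∧
      (∀ i, U * S.M.F i = S'.M.F i * U) ∧ (∀ i, U * S.M.K i = S'.M.K i * U) ∧
      (∀ l ∈ Λ, U * S.P l = S'.P l * U) ∧ U * S.h = S'.h * U ∧
      (U ⊗ₖ U) * S.C = S'.C * (U ⊗ₖ U) := by
  obtain ⟨U, hU⟩ := exists_U S S'
  obtain ⟨V, hV⟩ := exists_U S' S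
  have hE : ∀ i, U * S.M.E i = S'.M.E i * U := fun i => comm_of S S' hU _ _ (mem_E S S' i)
  have hF : ∀ i, U * S.M.F i = S'.M.F i * U := fun i => comm_of S S' hU _ _ (mem_F S S' i)
  have hK : ∀ i, U * S.M.K i = S'.M.K i * U := fun i => comm_of S S' hU _ _ (mem_K S S' i)
  refine ⟨U, V, ?_, ?_, hE, hF, hK, fun l hl => comm_of S S' hU _ _ (mem_P S S' hl),
    h_comm S S' hK, C_comm S S' hF hK fun l hl => v_of S S' hU hl⟩
  · apply ext_vec
    intro y
    rw [← mulVec_mulVec, one_mulVec]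
    exact uniq_R S S' (hU _) (mem_swap S' S (hV y))
  · apply ext_vec
    intro x
    rw [← mulVec_mulVec, one_mulVec]
    exact uniq_R S' S (hV _) (mem_swap S S' (hU x))

namespace C3

section tensor

variable {p q r : ℕ}

/-- `A 0 ⊗ A 1 ⊗ ⋯ ⊗ A n` for rectangular matrices -/
noncomputable def tp (A : Fin (n + 1) → Matrix (Fin p) (Fin q) FF) :
    Matrix (Fin (n + 1) → Fin p) (Fin (n + 1) → Fin q) FF :=
  Matrix.of fun a b => ∏ j, A j (a j) (b j)

theorem tp_mul (A : Fin (n + 1) → Matrix (Fin p) (Fin q) FF)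
    (B : Fin (n + 1) → Matrix (Fin q) (Fin r) FF) :
    tp A * tp B = tp fun j => A j * B j := by
  ext a b
  simp only [tp, of_apply, mul_apply]
  rw [Finset.prod_univ_sum, Fintype.piFinset_univ]
  refine Finset.sum_congr rfl fun c _ => ?_
  rw [Finset.prod_mul_distrib]

theorem tp_one : tp (fun _ : Fin (n + 1) => (1 : Matrix (Fin p) (Fin p) FF)) = 1 := by
  ext a b
  simp only [tp, of_apply]
  by_cases h : a = b
  · subst h
    simp
  · rw [one_apply_ne h]
    obtain ⟨j, hj⟩ := Function.ne_iff.mp h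
    exact Finset.prod_eq_zero (Finset.mem_univ j) (one_apply_ne hj)

theorem tp_eq (A : Fin (n + 1) → Matrix (Fin p) (Fin p) FF) : tp A = tensPow A := rfl

/-- the two slots `i, i + 1` filled by `M`, the others by `U` -/
noncomputable def locU (U : Matrix (Fin p) (Fin q) FF)
    (M : Matrix (Fin p × Fin p) (Fin q × Fin q) FF) (i : Fin n) :
    Matrix (Fin (n + 1) → Fin p) (Fin (n + 1) → Fin q) FF :=
  Matrix.of fun a b => M (a i.castSucc, a i.succ) (b i.castSucc, b i.succ) *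
    ∏ j ∈ (Finset.univ.erase i.castSucc).erase i.succ, U (a j) (b j)

theorem cs_ne (i : Fin n) : i.succ ≠ i.castSucc := by
  intro h
  have := congrArg Fin.val h
  simp at this

theorem prod_split (i : Fin n) (f : Fin (n + 1) → FF) :
    ∏ j, f j = f i.castSucc * (f i.succ * ∏ j ∈ (Finset.univ.erase i.castSucc).erase i.succ, f j) := by
  rw [Finset.mul_prod_erase _ _ (Finset.mem_erase.mpr ⟨cs_ne i, Finset.mem_univ _⟩),
    Finset.mul_prod_erase _ _ (Finset.mem_univ _)]

theorem sum_slots (i : Fin n) (b : Fin (n + 1) → Fin q) (f : (Fin (n + 1) → Fin q) → FF)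
    (hf : ∀ c, (¬ ∀ j, j ≠ i.castSucc → j ≠ i.succ → c j = b j) → f c = 0) :
    ∑ c, f c = ∑ x : Fin q × Fin q,
      f (Function.update (Function.update b i.castSucc x.1) i.succ x.2) := by
  symm
  apply Finset.sum_of_injOn
    (fun x : Fin q × Fin q => Function.update (Function.update b i.castSucc x.1) i.succ x.2)
  · intro x _ y _ hxy
    have h1 := congrFun hxy i.succ
    have h2 := congrFun hxy i.castSucc
    simp only [Function.update_self] at h1
    simp only [Function.update_of_ne (cs_ne i).symm, Function.update_self] at h2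
    exact Prod.ext h2 h1
  · intro x _
    exact Finset.mem_univ _
  · intro c _ hc
    apply hf
    intro h
    apply hc
    refine ⟨(c i.castSucc, c i.succ), Finset.mem_coe.mpr (Finset.mem_univ _), ?_⟩
    funext j
    show Function.update (Function.update b i.castSucc (c i.castSucc)) i.succ (c i.succ) j = c j
    by_cases h1 : j = i.succ
    · subst h1
      simp only [Function.update_self]
    · rw [Function.update_of_ne h1]
      by_cases h2 : j = i.castSucc
      · subst h2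
        simp only [Function.update_self]
      · rw [Function.update_of_ne h2]
        exact (h j h2 h1).symm
  · intro x _
    rfl

theorem tp_loc (U : Matrix (Fin p) (Fin q) FF) (A : Matrix (Fin q × Fin q) (Fin q × Fin q) FF)
    (i : Fin n) : tp (n := n) (fun _ => U) * loc A i = locU U ((U ⊗ₖ U) * A) i := by
  ext a b
  rw [mul_apply, sum_slots i b]
  · simp only [locU, of_apply, mul_apply, kroneckerMap_apply, Finset.sum_mul]
    refine Finset.sum_congr rfl fun x _ => ?_
    have hu1 : (Function.update (Function.update b i.castSucc x.1) i.succ x.2) i.succ = x.2 := by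
      rw [Function.update_self]
    have hu2 : (Function.update (Function.update b i.castSucc x.1) i.succ x.2) i.castSucc =
        x.1 := by
      rw [Function.update_of_ne (cs_ne i).symm, Function.update_self]
    have hu3 : ∀ j, j ≠ i.castSucc → j ≠ i.succ →
        (Function.update (Function.update b i.castSucc x.1) i.succ x.2) j = b j := by
      intro j h1 h2
      rw [Function.update_of_ne h2, Function.update_of_ne h1]
    have e1 : loc A i (Function.update (Function.update b i.castSucc x.1) i.succ x.2) b =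
        A x (b i.castSucc, b i.succ) := by
      simp only [loc, of_apply]
      rw [if_pos hu3, hu1, hu2]
    have e2 : (tp (n := n) (fun _ => U)) a (Function.update (Function.update b i.castSucc x.1) i.succ x.2)
        = U (a i.castSucc) x.1 * (U (a i.succ) x.2 *
          ∏ j ∈ (Finset.univ.erase i.castSucc).erase i.succ, U (a j) (b j)) := by
      simp only [tp, of_apply]
      rw [prod_split i, hu1, hu2]
      congr 2
      refine Finset.prod_congr rfl fun j hj => ?_
      rw [Finset.mem_erase, Finset.mem_erase] at hj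
      rw [hu3 j hj.2.1 hj.1]
    rw [e1, e2]
    ring
  · intro c hc
    simp only [loc, of_apply]
    rw [if_neg hc, mul_zero]

theorem loc_tp (U : Matrix (Fin p) (Fin q) FF) (A : Matrix (Fin p × Fin p) (Fin p × Fin p) FF)
    (i : Fin n) : loc A i * tp (n := n) (fun _ => U) = locU U (A * (U ⊗ₖ U)) i := by
  ext a b
  rw [mul_apply, sum_slots i a]
  · simp only [locU, of_apply, mul_apply, kroneckerMap_apply, Finset.sum_mul]
    refine Finset.sum_congr rfl fun x _ => ?_
    have hu1 : (Function.update (Function.update a i.castSucc x.1) i.succ x.2) i.succ = x.2 := by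
      rw [Function.update_self]
    have hu2 : (Function.update (Function.update a i.castSucc x.1) i.succ x.2) i.castSucc =
        x.1 := by
      rw [Function.update_of_ne (cs_ne i).symm, Function.update_self]
    have hu3 : ∀ j, j ≠ i.castSucc → j ≠ i.succ →
        (Function.update (Function.update a i.castSucc x.1) i.succ x.2) j = a j := by
      intro j h1 h2
      rw [Function.update_of_ne h2, Function.update_of_ne h1]
    have e1 : loc A i a (Function.update (Function.update a i.castSucc x.1) i.succ x.2) =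
        A (a i.castSucc, a i.succ) x := by
      simp only [loc, of_apply]
      rw [if_pos (fun j h1 h2 => (hu3 j h1 h2).symm), hu1, hu2]
    have e2 : (tp (n := n) (fun _ => U)) (Function.update (Function.update a i.castSucc x.1) i.succ x.2) b
        = U x.1 (b i.castSucc) * (U x.2 (b i.succ) *
          ∏ j ∈ (Finset.univ.erase i.castSucc).erase i.succ, U (a j) (b j)) := by
      simp only [tp, of_apply]
      rw [prod_split i, hu1, hu2]
      congr 2
      refine Finset.prod_congr rfl fun j hj => ?_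
      rw [Finset.mem_erase, Finset.mem_erase] at hj
      rw [hu3 j hj.2.1 hj.1]
    rw [e1, e2]
    ring
  · intro c hc
    simp only [loc, of_apply]
    rw [if_neg, zero_mul]
    intro h
    exact hc fun j h1 h2 => (h j h1 h2).symm

theorem braid_comm {U : Matrix (Fin p) (Fin q) FF}
    {C C' : Matrix (Fin q × Fin q) (Fin q × Fin q) FF}
    {D D' : Matrix (Fin p × Fin p) (Fin p × Fin p) FF}
    (h : (U ⊗ₖ U) * C = D * (U ⊗ₖ U)) (h' : (U ⊗ₖ U) * C' = D' * (U ⊗ₖ U)) (w : BraidWord n) :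
    tp (n := n) (fun _ => U) * braidOp C C' w = braidOp D D' w * tp (n := n) (fun _ => U) := by
  induction w with
  | nil => simp only [braidOp, Matrix.mul_one, Matrix.one_mul]
  | cons l w ih =>
    rw [braidOp, braidOp, ← Matrix.mul_assoc, ih, Matrix.mul_assoc, Matrix.mul_assoc]
    congr 1
    split_ifs
    · rw [tp_loc, loc_tp, h]
    · rw [tp_loc, loc_tp, h']

end tensor

theorem C'_comm (S S' : Model Φ Λ) {U : Matrix (Fin S'.m) (Fin S.m) FF}
    (h : (U ⊗ₖ U) * S.C = S'.C * (U ⊗ₖ U)) : (U ⊗ₖ U) * S.C' = S'.C' * (U ⊗ₖ U) := by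
  have h1 : S'.C' * S'.C = 1 := mul_eq_one_comm.mp S'.CC'
  calc (U ⊗ₖ U) * S.C' = S'.C' * S'.C * ((U ⊗ₖ U) * S.C') := by rw [h1, Matrix.one_mul]
    _ = S'.C' * (S'.C * (U ⊗ₖ U)) * S.C' := by simp only [Matrix.mul_assoc]
    _ = S'.C' * ((U ⊗ₖ U) * S.C) * S.C' := by rw [h]
    _ = S'.C' * (U ⊗ₖ U) * (S.C * S.C') := by simp only [Matrix.mul_assoc]
    _ = S'.C' * (U ⊗ₖ U) := by rw [S.CC', Matrix.mul_one]

theorem omega_comm (S S' : Model Φ Λ) {U : Matrix (Fin S'.m) (Fin S.m) FF}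
    {V : Matrix (Fin S.m) (Fin S'.m) FF} (hUV : U * V = 1) (hVU : V * U = 1)
    (hP : ∀ l ∈ Λ, U * S.P l = S'.P l * U) (hh : U * S.h = S'.h * U) :
    U * S.omega = S'.omega * U := by
  unfold Model.omega
  rw [Matrix.mul_sum, Matrix.sum_mul]
  refine Finset.sum_congr rfl fun l hl => ?_
  have h1 : (S.P l * S.h).trace = (S'.P l * S'.h).trace := by
    calc (S.P l * S.h).trace = (S.P l * S.h * (V * U)).trace := by rw [hVU, Matrix.mul_one]
      _ = (U * (S.P l * S.h * V)).trace := by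
          rw [← Matrix.mul_assoc, Matrix.trace_mul_comm]
      _ = (S'.P l * S'.h * (U * V)).trace := by
          congr 1
          rw [← Matrix.mul_assoc, ← Matrix.mul_assoc, hP l hl, Matrix.mul_assoc _ U, hh]
          simp only [Matrix.mul_assoc]
      _ = (S'.P l * S'.h).trace := by rw [hUV, Matrix.mul_one]
  rw [Matrix.mul_smul, Matrix.smul_mul, hP l hl, h1]

end C3

theorem sumJ_unique (S S' : Model Φ Λ) (w : BraidWord n) : S.sumJ w = S'.sumJ w := by
  classical
  obtain ⟨U, V, hUV, hVU, _, _, _, hP, hh, hC⟩ := model_iso S S'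
  have hC' := C'_comm S S' hC
  have hω := omega_comm S S' hUV hVU hP hh
  have hb := braid_comm hC hC' w
  have h1 : tp (n := n) (fun _ => U) *
      tensPow (fun s : Fin (n + 1) => if ∀ k : ℕ, s ≤ (perm w)^[k] s then S.omega else 1) =
      tensPow (fun s : Fin (n + 1) => if ∀ k : ℕ, s ≤ (perm w)^[k] s then S'.omega else 1) *
        tp (n := n) (fun _ => U) := by
    rw [← tp_eq, ← tp_eq, tp_mul, tp_mul]
    congr 1
    funext s
    split_ifs
    · exact hω
    · rw [Matrix.mul_one, Matrix.one_mul]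
  have h2 : tp (n := n) (fun _ => U) * tensPow (fun _ : Fin (n + 1) => S.h) =
      tensPow (fun _ : Fin (n + 1) => S'.h) * tp (n := n) (fun _ => U) := by
    rw [← tp_eq, ← tp_eq, tp_mul, tp_mul, hh]
  have h3 : tp (n := n) (fun _ => U) * tp (n := n) (fun _ => V) = 1 := by
    rw [tp_mul, hUV, tp_one]
  have h4 : tp (n := n) (fun _ => V) * tp (n := n) (fun _ => U) = 1 := by
    rw [tp_mul, hVU, tp_one]
  unfold Model.sumJ
  set A := tensPow (fun s : Fin (n + 1) => if ∀ k : ℕ, s ≤ (perm w)^[k] s then S.omega else 1)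
  set A' := tensPow (fun s : Fin (n + 1) => if ∀ k : ℕ, s ≤ (perm w)^[k] s then S'.omega else 1)
  set B := tensPow (fun _ : Fin (n + 1) => S.h)
  set B' := tensPow (fun _ : Fin (n + 1) => S'.h)
  set Y := braidOp S.C S.C' w
  set Y' := braidOp S'.C S'.C' w
  set T := tp (n := n) (fun _ => U)
  set T' := tp (n := n) (fun _ => V)
  have h5 : T * (A * B * Y) = A' * B' * Y' * T := by
    calc T * (A * B * Y) = T * A * B * Y := by simp only [Matrix.mul_assoc]
      _ = A' * (T * B) * Y := by rw [h1]; simp only [Matrix.mul_assoc]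
      _ = A' * B' * (T * Y) := by rw [h2]; simp only [Matrix.mul_assoc]
      _ = A' * B' * Y' * T := by rw [hb]; simp only [Matrix.mul_assoc]
  calc (A * B * Y).trace = (T' * T * (A * B * Y)).trace := by rw [h4, Matrix.one_mul]
    _ = (T' * (T * (A * B * Y))).trace := by rw [Matrix.mul_assoc T']
    _ = (T' * (A' * B' * Y' * T)).trace := by rw [h5]
    _ = (A' * B' * Y' * T * T').trace := by rw [Matrix.trace_mul_comm]
    _ = (A' * B' * Y').trace := by rw [Matrix.mul_assoc _ T, h3, Matrix.mul_one]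

end Pool.Agent.QInv75
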