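import Mathlib

/-!
# Quantum `G` invariants of closed 3-manifolds given by surgery on closed braids

## Conventions

* Every closed connected oriented 3-manifold is obtained from `S³` by surgery on a framed link, and
  every framed link is the closure of a braid with its *blackboard framing* (framings are adjusted by
  stabilisations, i.e. kinks). So manifolds are given here by braid words.
* `tau` below is the Reshetikhin-Turaev invariant of that manifold: the sum over all colourings of
  the components by the weights of the alcove of the generic `U_q(𝔤)`-invariant of the coloured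
  link, evaluated at the root of unity, divided by the usual normalisation.
-/

set_option autoImplicit false

open Matrix

namespace Pool.Agent.QInv75

/-! ## Braid words, the group of the surgery -/

/-- A word in the standard generators of the braid group on `n + 1` strands. The strands run
upwards and the first letter is at the bottom. `(i, true)` is the positive crossing of the strands
at the positions `i` and `i + 1` (the strand that goes from position `i` to position `i + 1` passes
over the other one), `(i, false)` is the negative crossing (the strand that goes from position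
`i + 1` to position `i` passes over). -/
abbrev BraidWord (n : ℕ) := List (Fin n × Bool)

/-- What happens to the strands: `lab j` is the meridian (an element of a group `H`) of the
strand which is now at position `j`; `pos s` is the present position of the strand that started at
position `s`; `lon s` is the product of the meridians (with the signs of the crossings) of the
strands under which the strand starting at `s` has passed. -/
structure BState (n : ℕ) (H : Type*) where
  lab : Fin (n + 1) → H
  pos : Fin (n + 1) → Fin (n + 1)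
  lon : Fin (n + 1) → H

variable {n : ℕ} {H : Type*} [Group H]

/-- passing one crossing: Wirtinger relations `x_out = a^{-ε} x_in a^{ε}`, where `a` is the meridian
of the overpassing strand and `ε` the sign of the crossing; the longitude picks up `a^{ε}`. -/
def BState.step (s : BState n H) (l : Fin n × Bool) : BState n H :=
  if l.2 then
    { lab := fun j => if j = l.1.castSucc then
          (s.lab l.1.castSucc)⁻¹ * s.lab l.1.succ * s.lab l.1.castSucc
        else if j = l.1.succ then s.lab l.1.castSucc else s.lab j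
      pos := fun t => Equiv.swap l.1.castSucc l.1.succ (s.pos t)
      lon := fun t => if s.pos t = l.1.succ then s.lon t * s.lab l.1.castSucc else s.lon t }
  else
    { lab := fun j => if j = l.1.castSucc then s.lab l.1.succ
        else if j = l.1.succ then s.lab l.1.succ * s.lab l.1.castSucc * (s.lab l.1.succ)⁻¹
        else s.lab j
      pos := fun t => Equiv.swap l.1.castSucc l.1.succ (s.pos t)
      lon := fun t => if s.pos t = l.1.castSucc then s.lon t * (s.lab l.1.succ)⁻¹ else s.lon t }

/-- the state after the braid `w`, when the strands start with the meridians `x` -/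
def run (w : BraidWord n) (x : Fin (n + 1) → H) : BState n H :=
  w.foldl BState.step ⟨x, id, fun _ => 1⟩

/-- the final position of the strand that starts at position `s` (the permutation of the braid) -/
def perm (w : BraidWord n) (s : Fin (n + 1)) : Fin (n + 1) :=
  (run w (fun _ => (1 : Multiplicative ℤ))).pos s

/-- the longitude (for the blackboard framing) of the component of the closure through the bottom
point `b`, as a product of meridians -/
noncomputable def longitude (w : BraidWord n) (x : Fin (n + 1) → H) (b : Fin (n + 1)) : H :=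
  ((List.range (Function.minimalPeriod (perm w) b)).map
    fun m => (run w x).lon ((perm w)^[m] b)).prod

/-- The fundamental group of the closed 3-manifold obtained by surgery on the closure of the braid
`w` with its blackboard framing: generators are the meridians `x j` of the strands at the bottom,
the relations say that the meridians at the top agree with those at the bottom (Artin-Wirtinger
presentation of the group of the closed braid), and that the longitudes are trivial. -/
def SurgeryGroup (w : BraidWord n) : Type :=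
  PresentedGroup
    ({r : FreeGroup (Fin (n + 1)) | ∃ j, r = (run w FreeGroup.of).lab j * (FreeGroup.of j)⁻¹} ∪
     {r : FreeGroup (Fin (n + 1)) | ∃ b, r = longitude w FreeGroup.of b})

noncomputable instance (w : BraidWord n) : Group (SurgeryGroup w) := by
  unfold SurgeryGroup
  infer_instance

/-- the closure of `w` is a knot -/
def IsKnot (w : BraidWord n) : Prop := ∀ s : Fin (n + 1), ∃ m : ℕ, (perm w)^[m] 0 = s

/-! ## The linking form of the blackboard framing -/

/-- the crossings of `w`: bottom points of the two strands that cross, and the sign -/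
def crossings (w : BraidWord n) : List (Fin (n + 1) × Fin (n + 1) × ℤ) :=
  (w.foldl (fun (s : (Fin (n + 1) → Fin (n + 1)) × List (Fin (n + 1) × Fin (n + 1) × ℤ)) l =>
    (s.1 ∘ Equiv.swap l.1.castSucc l.1.succ,
      s.2 ++ [(s.1 l.1.castSucc, s.1 l.1.succ, if l.2 then 1 else -1)]))
    ((id, []) : (Fin (n + 1) → Fin (n + 1)) × List (Fin (n + 1) × Fin (n + 1) × ℤ))).2

/-- The quadratic form of the linking matrix (blackboard framing) on functions `x` that are constant
on the components of the closure: a self-crossing of a component `c` contributes `± x_c²` (framing =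
self-writhe), a crossing of two components `c, d` contributes `± x_c x_d` (linking number = half the
signed number of crossings). -/
def linkForm (w : BraidWord n) (x : Fin (n + 1) → ℝ) : ℝ :=
  ((crossings w).map fun c => (c.2.2 : ℝ) * (x c.1 * x c.2.1)).sum

/-- functions constant on the components of the closure -/
def compFun (w : BraidWord n) : Submodule ℝ (Fin (n + 1) → ℝ) where
  carrier := {x | ∀ s, x (perm w s) = x s}
  add_mem' := by
    intro a b ha hb s
    simp only [Pi.add_apply]
    rw [ha s, hb s]
  zero_mem' := fun _ => rfl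
  smul_mem' := by
    intro c a ha s
    simp only [Pi.smul_apply]
    rw [ha s]

/-- the number of positive eigenvalues of the linking matrix -/
noncomputable def bPlus (w : BraidWord n) : ℕ :=
  sSup {d | ∃ S : Submodule ℝ (Fin (n + 1) → ℝ), S ≤ compFun w ∧ Module.finrank ℝ S = d ∧
    ∀ x ∈ S, x ≠ 0 → 0 < linkForm w x}

/-- the number of negative eigenvalues of the linking matrix -/
noncomputable def bMinus (w : BraidWord n) : ℕ :=
  sSup {d | ∃ S : Submodule ℝ (Fin (n + 1) → ℝ), S ≤ compFun w ∧ Module.finrank ℝ S = d ∧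
    ∀ x ∈ S, x ≠ 0 → linkForm w x < 0}

/-! ## Simple Lie types -/

/-- The simple Lie algebras: `A n` is `A_{n+1}`, `B n` is `B_{n+2}`, `C n` is `C_{n+3}`, `D n` is
`D_{n+4}`. -/
inductive Dynkin
  | A (n : ℕ)
  | B (n : ℕ)
  | C (n : ℕ)
  | D (n : ℕ)
  | E6
  | E7
  | E8
  | F4
  | G2

namespace Dynkin

/-- the rank -/
def rank : Dynkin → ℕ
  | A n => n + 1
  | B n => n + 2
  | C n => n + 3
  | D n => n + 4
  | E6 => 6
  | E7 => 7
  | E8 => 8
  | F4 => 4
  | G2 => 2

/-- The Cartan matrix in the numbering of Bourbaki (except `G₂`, where the first root is the long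
one): `bour i j = ⟨α_i, α_j^∨⟩`. -/
def bour : (X : Dynkin) → Matrix (Fin X.rank) (Fin X.rank) ℤ
  | A n => CartanMatrix.A (n + 1)
  | B n => CartanMatrix.B (n + 2)
  | C n => CartanMatrix.C (n + 3)
  | D n => CartanMatrix.D (n + 4)
  | E6 => CartanMatrix.E₆
  | E7 => CartanMatrix.E₇
  | E8 => CartanMatrix.E₈
  | F4 => CartanMatrix.F₄
  | G2 => CartanMatrix.G₂

/-- `a i j = ⟨α_j, α_i^∨⟩`, so that `[H_i, E_j] = a i j • E_j` in the Lie algebra. -/
def a (X : Dynkin) : Matrix (Fin X.rank) (Fin X.rank) ℤ := X.bourᵀ

/-- the symmetrising integers `d_i = (α_i, α_i) / 2` for the form with `(α, α) = 2` for short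
roots `α` -/
def d : (X : Dynkin) → Fin X.rank → ℤ
  | A _ => fun _ => 1
  | B n => fun i => if i.val = n + 1 then 1 else 2
  | C n => fun i => if i.val = n + 2 then 2 else 1
  | D _ => fun _ => 1
  | E6 => fun _ => 1
  | E7 => fun _ => 1
  | E8 => fun _ => 1
  | F4 => ![2, 2, 1, 1]
  | G2 => ![3, 1]

/-- the ratio of the square lengths of long and short roots -/
def lace : Dynkin → ℕ
  | A _ => 1
  | B _ => 2
  | C _ => 2
  | D _ => 1
  | E6 => 1
  | E7 => 1
  | E8 => 1
  | F4 => 2
  | G2 => 3

/-- the coefficients of the highest root in terms of simple coroots: `(λ, θ) = ∑ i, comark i * λ i`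
for the form with `(θ, θ) = 2` -/
def comark : (X : Dynkin) → Fin X.rank → ℕ
  | A _ => fun _ => 1
  | B n => fun i => if i.val = 0 ∨ i.val = n + 1 then 1 else 2
  | C _ => fun _ => 1
  | D n => fun i => if i.val = 0 ∨ i.val = n + 2 ∨ i.val = n + 3 then 1 else 2
  | E6 => ![1, 2, 2, 3, 2, 1]
  | E7 => ![2, 2, 3, 4, 3, 2, 1]
  | E8 => ![2, 3, 4, 6, 5, 4, 3, 2]
  | F4 => ![2, 3, 2, 1]
  | G2 => ![2, 1]

/-- the dual Coxeter number -/
def dualCoxeter (X : Dynkin) : ℕ := 1 + ∑ i, X.comark i

/-- integral weights, in terms of the fundamental weights -/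
abbrev Weight (X : Dynkin) := Fin X.rank → ℤ

/-- the simple root `α_j` -/
def root (X : Dynkin) (j : Fin X.rank) : X.Weight := fun i => X.a i j

/-- half the sum of the positive roots -/
def rho (X : Dynkin) : X.Weight := fun _ => 1

open Classical in
/-- the dominant weights of level at most `k` (the alcove) -/
noncomputable def alcove (X : Dynkin) (k : ℕ) : Finset X.Weight :=
  (Fintype.piFinset fun _ : Fin X.rank => Finset.Icc (0 : ℤ) k).filter
    fun l => ∑ i, (X.comark i : ℤ) * l i ≤ k

open Classical in
/-- the part of the alcove which lies in the root lattice -/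
noncomputable def alcoveP (X : Dynkin) (k : ℕ) : Finset X.Weight :=
  (X.alcove k).filter fun l => ∃ m : Fin X.rank → ℤ, l = ∑ j, m j • X.root j

end Dynkin

/-- The invariant form on the weight lattice, multiplied by a positive integer `N` so that it takes
integral values: `ip = N · ( , )`, where `(α, α) = 2` for short roots. It is characterised by
`(α_j, μ) = d_j μ_j`. -/
structure WeightForm (X : Dynkin) where
  N : ℕ
  pos : 0 < N
  ip : X.Weight → X.Weight → ℤ
  add_left : ∀ l l' m, ip (l + l') m = ip l m + ip l' m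
  symm : ∀ l m, ip l m = ip m l
  root : ∀ j m, ip (X.root j) m = N * X.d j * m j

/-! ## Quantum groups -/

/-- the field of rational functions in one variable `t` -/
abbrev FF := RatFunc ℂ

/-- the variable `t` -/
noncomputable abbrev tt : FF := RatFunc.X

/-- quantum integer -/
noncomputable def qInt (v : FF) (k : ℕ) : FF := (v ^ k - v⁻¹ ^ k) / (v - v⁻¹)

/-- quantum factorial -/
noncomputable def qFact (v : FF) : ℕ → FF
  | 0 => 1
  | k + 1 => qInt v (k + 1) * qFact v k

/-- quantum binomial coefficient -/
noncomputable def qBinom (v : FF) (k s : ℕ) : FF := qFact v k / (qFact v s * qFact v (k - s))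

/-- `v ⊗ w` -/
noncomputable def tens {m : ℕ} (v w : Fin m → FF) : Fin m × Fin m → FF := fun p => v p.1 * w p.2

/-- `v_i = v^{(α_i, α_i)/2} = v^{d_i}` with `v = t^N`, as a power of `t` -/
noncomputable def vv {X : Dynkin} (Φ : WeightForm X) (i : Fin X.rank) : FF := tt ^ (Φ.N * X.d i)

/-- A finite dimensional module over the quantum group `U_v(𝔤)`, `v = t^N`, over the field `ℂ(t)`,
in coordinates: matrices for the generators `E_i, F_i, K_i, K_i⁻¹` which satisfy the defining
relations (`K_i E_j = v^{(α_i, α_j)} E_j K_i` and so on, quantum Serre relations). -/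
structure UqModule {X : Dynkin} (Φ : WeightForm X) (m : ℕ) where
  E : Fin X.rank → Matrix (Fin m) (Fin m) FF
  F : Fin X.rank → Matrix (Fin m) (Fin m) FF
  K : Fin X.rank → Matrix (Fin m) (Fin m) FF
  K' : Fin X.rank → Matrix (Fin m) (Fin m) FF
  KK' : ∀ i, K i * K' i = 1
  KK : ∀ i j, K i * K j = K j * K i
  KE : ∀ i j, K i * E j = vv Φ i ^ (X.a i j) • (E j * K i)
  KF : ∀ i j, K i * F j = vv Φ i ^ (-X.a i j) • (F j * K i)
  EF : ∀ i j, E i * F j - F j * E i =
    if i = j then (vv Φ i - (vv Φ i)⁻¹)⁻¹ • (K i - K' i) else 0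
  serreE : ∀ i j, i ≠ j → ∑ s ∈ Finset.range ((1 - X.a i j).toNat + 1),
    ((-1) ^ s * qBinom (vv Φ i) (1 - X.a i j).toNat s) •
      (E i ^ ((1 - X.a i j).toNat - s) * E j * E i ^ s) = 0
  serreF : ∀ i j, i ≠ j → ∑ s ∈ Finset.range ((1 - X.a i j).toNat + 1),
    ((-1) ^ s * qBinom (vv Φ i) (1 - X.a i j).toNat s) •
      (F i ^ ((1 - X.a i j).toNat - s) * F j * F i ^ s) = 0

namespace UqModule

variable {X : Dynkin} {Φ : WeightForm X} {m : ℕ} (M : UqModule Φ m)

/-- `w` has weight `μ` (or is zero) -/
def IsWt (μ : X.Weight) (w : Fin m → FF) : Prop :=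
  ∀ i, M.K i *ᵥ w = vv Φ i ^ (μ i) • w

/-- submodules -/
def Stable (W : Submodule FF (Fin m → FF)) : Prop :=
  ∀ w ∈ W, ∀ i, M.E i *ᵥ w ∈ W ∧ M.F i *ᵥ w ∈ W ∧ M.K i *ᵥ w ∈ W ∧ M.K' i *ᵥ w ∈ W

open scoped Kronecker

/-- the coproduct of `E_i`, acting on `M ⊗ M` -/
noncomputable def E2 (i : Fin X.rank) : Matrix (Fin m × Fin m) (Fin m × Fin m) FF :=
  M.E i ⊗ₖ 1 + M.K' i ⊗ₖ M.E i

/-- the coproduct of `F_i`, acting on `M ⊗ M` -/
noncomputable def F2 (i : Fin X.rank) : Matrix (Fin m × Fin m) (Fin m × Fin m) FF :=
  M.F i ⊗ₖ M.K i + 1 ⊗ₖ M.F i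

/-- the coproduct of `K_i`, acting on `M ⊗ M` -/
noncomputable def K2 (i : Fin X.rank) : Matrix (Fin m × Fin m) (Fin m × Fin m) FF :=
  M.K i ⊗ₖ M.K i

end UqModule

/-- The module `⊕_{λ ∈ Λ} V_λ` (one copy of each simple module of highest weight `λ ∈ Λ`) in
coordinates, with its pivotal element and its braiding:
* `P λ` is the projection onto `V_λ` and `v λ` a highest weight vector of `V_λ`;
* `h` is the action of `K_{2ρ}`, which is `v^{2(ρ, μ)} = t ^ (2 ip ρ μ)` on vectors of weight `μ`;
* `C` is the braiding `c : M ⊗ M → M ⊗ M`. It is the `U_v(𝔤)`-linear map with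
  `c (v_λ ⊗ w) = v^{(λ, μ)} w ⊗ v_λ = t ^ (ip λ μ) w ⊗ v_λ` for `w` of weight `μ`; since the
  vectors `v_λ ⊗ w` generate `M ⊗ M`, this determines `c`. (It exists by Drinfeld and Lusztig.)
  `C'` is its inverse. -/
structure Model {X : Dynkin} (Φ : WeightForm X) (Λ : Finset X.Weight) where
  m : ℕ
  M : UqModule Φ m
  P : X.Weight → Matrix (Fin m) (Fin m) FF
  v : X.Weight → Fin m → FF
  h : Matrix (Fin m) (Fin m) FF
  C : Matrix (Fin m × Fin m) (Fin m × Fin m) FF
  C' : Matrix (Fin m × Fin m) (Fin m × Fin m) FF
  P_sum : ∑ l ∈ Λ, P l = 1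
  P_mul : ∀ l ∈ Λ, ∀ l' ∈ Λ, P l * P l' = if l = l' then P l else 0
  P_E : ∀ l ∈ Λ, ∀ i, P l * M.E i = M.E i * P l
  P_F : ∀ l ∈ Λ, ∀ i, P l * M.F i = M.F i * P l
  P_K : ∀ l ∈ Λ, ∀ i, P l * M.K i = M.K i * P l
  v_ne : ∀ l ∈ Λ, v l ≠ 0
  v_P : ∀ l ∈ Λ, P l *ᵥ v l = v l
  v_E : ∀ l ∈ Λ, ∀ i, M.E i *ᵥ v l = 0
  v_wt : ∀ l ∈ Λ, M.IsWt l (v l)
  irred : ∀ l ∈ Λ, ∀ W : Submodule FF (Fin m → FF), M.Stable W → (∀ w ∈ W, P l *ᵥ w = w) →
    W = ⊥ ∨ ∀ w, P l *ᵥ w = w → w ∈ W
  h_wt : ∀ μ w, M.IsWt μ w → h *ᵥ w = tt ^ (2 * Φ.ip X.rho μ) • w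
  C_E : ∀ i, C * M.E2 i = M.E2 i * C
  C_F : ∀ i, C * M.F2 i = M.F2 i * C
  C_K : ∀ i, C * M.K2 i = M.K2 i * C
  C_v : ∀ l ∈ Λ, ∀ μ w, M.IsWt μ w → C *ᵥ tens (v l) w = tt ^ Φ.ip l μ • tens w (v l)
  CC' : C * C' = 1

/-! ## State sums -/

variable {m : ℕ}

/-- an endomorphism of `M ⊗ M` acting on the tensor factors `i` and `i + 1` of `M^{⊗ (n+1)}` -/
noncomputable def loc (A : Matrix (Fin m × Fin m) (Fin m × Fin m) FF) (i : Fin n) :
    Matrix (Fin (n + 1) → Fin m) (Fin (n + 1) → Fin m) FF :=
  Matrix.of fun a b =>
    if ∀ j, j ≠ i.castSucc → j ≠ i.succ → a j = b j then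
      A (a i.castSucc, a i.succ) (b i.castSucc, b i.succ) else 0

/-- `A 0 ⊗ A 1 ⊗ ⋯ ⊗ A n` acting on `M^{⊗ (n+1)}` -/
noncomputable def tensPow (A : Fin (n + 1) → Matrix (Fin m) (Fin m) FF) :
    Matrix (Fin (n + 1) → Fin m) (Fin (n + 1) → Fin m) FF :=
  Matrix.of fun a b => ∏ j, A j (a j) (b j)

/-- the action of a braid on `M^{⊗ (n+1)}` (the first letter acts first) -/
noncomputable def braidOp (C C' : Matrix (Fin m × Fin m) (Fin m × Fin m) FF) :
    BraidWord n → Matrix (Fin (n + 1) → Fin m) (Fin (n + 1) → Fin m) FF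
  | [] => 1
  | l :: w => braidOp C C' w * loc (if l.2 then C else C') l.1

variable {X : Dynkin} {Φ : WeightForm X} {Λ : Finset X.Weight}

/-- the Kirby colour `∑_{λ ∈ Λ} dim_q(λ) P_λ` -/
noncomputable def Model.omega (S : Model Φ Λ) : Matrix (Fin S.m) (Fin S.m) FF :=
  ∑ l ∈ Λ, (S.P l * S.h).trace • S.P l

open Classical in
/-- `∑ ∏ dim_q(λ_c) J_L(λ)`, the sum over all colourings `λ` of the components of the closure `L` of
`w` by elements of `Λ`, where `J_L(λ)` is the `U_q(𝔤)`-invariant of the coloured framed link `L`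
(blackboard framing): the quantum trace of the action of `w` on `M^{⊗ (n+1)}`. The Kirby colour is
put on one strand of each component (the one whose bottom point has the smallest number). -/
noncomputable def Model.sumJ (S : Model Φ Λ) (w : BraidWord n) : FF :=
  (tensPow (fun s : Fin (n + 1) => if ∀ k : ℕ, s ≤ (perm w)^[k] s then S.omega else 1) *
    tensPow (fun _ => S.h) * braidOp S.C S.C' w).trace

open Classical in
/-- the same, for the set `Λ` (zero if there were no model) -/
noncomputable def sumJ (Φ : WeightForm X) (Λ : Finset X.Weight) (w : BraidWord n) : FF :=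
  if h : Nonempty (Model Φ Λ) then (Classical.choice h).sumJ w else 0

/-- The Reshetikhin-Turaev invariant, built from the set `Λ` of colours, of the manifold obtained by
surgery on the closure of `w`, evaluated at `t = t₀`:
`F_L / (F_{U₊}^{b₊} F_{U₋}^{b₋})`, where `F` is the sum `sumJ` over all colourings, `b_±` are the
numbers of positive and negative eigenvalues of the linking matrix and `U_±` is the unknot with
framing `± 1`, i.e. the closure of `σ₁^{± 1} ∈ B_2`. -/
noncomputable def rt (Φ : WeightForm X) (Λ : Finset X.Weight) (t₀ : ℂ) (w : BraidWord n) : ℂ :=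
  (sumJ Φ Λ w).eval (RingHom.id ℂ) t₀ /
    ((sumJ Φ Λ ([((0 : Fin 1), true)] : BraidWord 1)).eval (RingHom.id ℂ) t₀ ^ bPlus w *
     (sumJ Φ Λ ([((0 : Fin 1), false)] : BraidWord 1)).eval (RingHom.id ℂ) t₀ ^ bMinus w)

/-- the value of `t` for which `q = exp (2 π i / r)`. Here `q` is the parameter for which
`v_i = q^{(α_i, α_i)/4}` when the form is normalised by `(θ, θ) = 2` for long roots `θ`, so
`q^{1/2} = t^{N · lace}` and `q^{1/2} = exp (π i / r)`. -/
noncomputable def tRoot (Φ : WeightForm X) (r : ℕ) : ℂ :=
  Complex.exp (Real.pi * Complex.I / (r * Φ.N * X.lace))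

/-- The quantum `G` invariant `τ_r^G`, `r = k + h^∨`, of the manifold obtained by surgery on the
closure of the braid `w` with the blackboard framing; `G` is the simply connected group of type
`X`. -/
noncomputable def tau (Φ : WeightForm X) (k : ℕ) (w : BraidWord n) : ℂ :=
  rt Φ (X.alcove k) (tRoot Φ (k + X.dualCoxeter)) w

/-- The quantum `PG` invariant `τ_r^{PG}`, `r = k + h^∨`. -/
noncomputable def tauP (Φ : WeightForm X) (k : ℕ) (w : BraidWord n) : ℂ :=
  rt Φ (X.alcoveP k) (tRoot Φ (k + X.dualCoxeter)) w

end Pool.Agent.QInv75
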