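import Pool.Agent.QInv75.Free

/-!
# Relations on the free module
-/

set_option autoImplicit false

open scoped TensorProduct

namespace Pool.Agent.QInv75.Ex

variable {X : Dynkin} {Φ : WeightForm X} {Λ : Finset X.Weight}

theorem Dg_bv (g : X.Weight → FF) (b : Ix Λ) : Dg g (bv b) = g (wt b) • bv b :=
  (bas Λ).constr_basis FF _ b

theorem Fo_bv (i : Fin X.rank) (b : Ix Λ) : Fo i (bv b) = bv (b.1, i :: b.2) :=
  (bas Λ).constr_basis FF _ b

theorem Eo_bv (i : Fin X.rank) (b : Ix Λ) : Eo Φ i (bv b) = Ew Φ i b.1 b.2 :=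
  (bas Λ).constr_basis FF _ b

theorem Po_bv (l : X.Weight) (b : Ix Λ) : Po l (bv b) = if b.1.1 = l then bv b else 0 :=
  (bas Λ).constr_basis FF _ b

theorem Eo_nil (i : Fin X.rank) (l : {l // l ∈ Λ}) : Eo Φ i (bv (l, [])) = 0 := by
  rw [Eo_bv]
  rfl

theorem Eo_cons (i j : Fin X.rank) (l : {l // l ∈ Λ}) (w : List (Fin X.rank)) :
    Eo Φ i (bv (l, j :: w)) = Fo j (Eo Φ i (bv (l, w))) +
      if i = j then qn Φ i (wt (l, w) i) • bv (l, w) else 0 := by
  rw [Eo_bv, Eo_bv]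
  rfl

theorem wt_nil (l : {l // l ∈ Λ}) : wt (l, []) = l.1 := by
  unfold wt
  simp

theorem wt_cons (l : {l // l ∈ Λ}) (i : Fin X.rank) (w : List (Fin X.rank)) :
    wt (l, i :: w) = wt (l, w) - X.root i := by
  unfold wt
  simp only [List.map_cons, List.sum_cons]
  abel

/-- linear maps on the free module agree if they agree on the basis -/
theorem ext_bv {V : Type*} [AddCommGroup V] [Module FF V] {A B : FM Λ →ₗ[FF] V}
    (h : ∀ b, A (bv b) = B (bv b)) : A = B := (bas Λ).ext h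

/-- induction on the words -/
theorem bv_induct {p : Ix Λ → Prop} (h0 : ∀ l, p (l, []))
    (h1 : ∀ l i w, p (l, w) → p (l, i :: w)) (b : Ix Λ) : p b := by
  obtain ⟨l, w⟩ := b
  induction w with
  | nil => exact h0 l
  | cons i w ih => exact h1 l i w ih

theorem Dg_F (g : X.Weight → FF) (i : Fin X.rank) :
    (Dg g : Module.End FF (FM Λ)) * Fo i = Fo i * Dg fun μ => g (μ - X.root i) := by
  refine ext_bv fun b => ?_
  rw [Module.End.mul_apply, Module.End.mul_apply, Fo_bv, Dg_bv, Dg_bv, map_smul, Fo_bv, wt_cons]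

theorem Dg_E_bv (g : X.Weight → FF) (i : Fin X.rank) (b : Ix Λ) :
    Dg g (Eo Φ i (bv b)) = g (wt b + X.root i) • Eo Φ i (bv b) := by
  induction b using bv_induct generalizing g with
  | h0 l => rw [Eo_nil, map_zero, smul_zero]
  | h1 l j w ih =>
    have h1 : ∀ x : FM Λ, Dg g (Fo j x) = Fo j (Dg (fun μ => g (μ - X.root j)) x) := fun x =>
      LinearMap.congr_fun (Dg_F g j) x
    rw [Eo_cons, map_add, smul_add, wt_cons, h1, ih, map_smul]
    congr 1
    · congr 2
      abel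
    · split_ifs with hij
      · subst hij
        rw [map_smul, Dg_bv, smul_comm, sub_add_cancel]
      · rw [map_zero, smul_zero]

theorem Dg_E (g : X.Weight → FF) (i : Fin X.rank) :
    (Dg g : Module.End FF (FM Λ)) * Eo Φ i = Eo Φ i * Dg fun μ => g (μ + X.root i) := by
  refine ext_bv fun b => ?_
  rw [Module.End.mul_apply, Module.End.mul_apply, Dg_bv, map_smul, Dg_E_bv]

theorem Dg_mul (g g' : X.Weight → FF) :
    (Dg g : Module.End FF (FM Λ)) * Dg g' = Dg fun μ => g μ * g' μ := by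
  refine ext_bv fun b => ?_
  rw [Module.End.mul_apply, Dg_bv, map_smul, Dg_bv, Dg_bv, smul_smul, mul_comm]

theorem Dg_one : (Dg (fun _ => 1) : Module.End FF (FM Λ)) = 1 := by
  refine ext_bv fun b => ?_
  rw [Dg_bv, one_smul, Module.End.one_apply]

theorem Dg_smul (c : FF) (g : X.Weight → FF) :
    (Dg (fun μ => c * g μ) : Module.End FF (FM Λ)) = c • Dg g := by
  refine ext_bv fun b => ?_
  rw [LinearMap.smul_apply, Dg_bv, Dg_bv, smul_smul]

theorem Dg_comm (g g' : X.Weight → FF) :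
    (Dg g : Module.End FF (FM Λ)) * Dg g' = Dg g' * Dg g := by
  rw [Dg_mul, Dg_mul]
  simp only [mul_comm]

theorem Po_F (l : X.Weight) (i : Fin X.rank) :
    (Po l : Module.End FF (FM Λ)) * Fo i = Fo i * Po l := by
  refine ext_bv fun b => ?_
  rw [Module.End.mul_apply, Module.End.mul_apply, Fo_bv, Po_bv, Po_bv]
  split_ifs
  · rw [Fo_bv]
  · rw [map_zero]

theorem Po_E (l : X.Weight) (i : Fin X.rank) :
    (Po l : Module.End FF (FM Λ)) * Eo Φ i = Eo Φ i * Po l := by
  refine ext_bv fun b => ?_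
  rw [Module.End.mul_apply, Module.End.mul_apply, Po_bv]
  induction b using bv_induct with
  | h0 m =>
    rw [Eo_nil, map_zero]
    split_ifs
    · rw [Eo_nil]
    · rw [map_zero]
  | h1 m j w ih =>
    have h1 : ∀ x : FM Λ, Po l (Fo j x) = Fo j (Po l x) := fun x =>
      LinearMap.congr_fun (Po_F l j) x
    rw [Eo_cons, map_add, h1, ih]
    by_cases hm : m.1 = l
    · simp only [hm, if_true, Eo_cons]
      congr 1
      split_ifs
      · rw [map_smul, Po_bv, if_pos hm]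
      · rw [map_zero]
    · simp only [hm, if_false, map_zero, zero_add]
      split_ifs
      · rw [map_smul, Po_bv, if_neg hm, smul_zero]
      · rw [map_zero]

theorem Po_Dg (l : X.Weight) (g : X.Weight → FF) :
    (Po l : Module.End FF (FM Λ)) * Dg g = Dg g * Po l := by
  refine ext_bv fun b => ?_
  rw [Module.End.mul_apply, Module.End.mul_apply, Dg_bv, map_smul, Po_bv]
  split_ifs
  · rw [Dg_bv]
  · rw [smul_zero, map_zero]

theorem Po_mul (l l' : X.Weight) :
    (Po l : Module.End FF (FM Λ)) * Po l' = if l = l' then Po l else 0 := by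
  refine ext_bv fun b => ?_
  rw [Module.End.mul_apply, Po_bv]
  by_cases h : b.1.1 = l'
  · rw [if_pos h, Po_bv]
    by_cases h' : l = l'
    · rw [if_pos h', if_pos (h.trans h'.symm), Po_bv, if_pos (h.trans h'.symm)]
    · rw [if_neg h', if_neg (fun h2 => h' (h2.symm.trans h)), LinearMap.zero_apply]
  · rw [if_neg h, map_zero]
    split_ifs with h'
    · rw [Po_bv, if_neg (fun h2 => h (h2.trans h'))]
    · rw [LinearMap.zero_apply]

theorem Po_sum : ∑ l ∈ Λ, (Po l : Module.End FF (FM Λ)) = 1 := by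
  refine ext_bv fun b => ?_
  rw [LinearMap.sum_apply, Module.End.one_apply]
  simp only [Po_bv]
  rw [Finset.sum_ite_eq, if_pos b.1.2]

theorem Ko_Ko' (i : Fin X.rank) : (Ko Φ i : Module.End FF (FM Λ)) * Ko' Φ i = 1 := by
  unfold Ko Ko'
  rw [Dg_mul, ← Dg_one]
  congr 1
  funext μ
  rw [← zpow_add₀ (vv_ne i), add_neg_cancel, zpow_zero]

theorem Ko'_Ko (i : Fin X.rank) : (Ko' Φ i : Module.End FF (FM Λ)) * Ko Φ i = 1 := by
  unfold Ko Ko'
  rw [Dg_comm]
  exact Ko_Ko' i

theorem Ko_bv (i : Fin X.rank) (b : Ix Λ) : Ko Φ i (bv b) = vv Φ i ^ (wt b i) • bv b := Dg_bv _ b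

theorem Ko'_bv (i : Fin X.rank) (b : Ix Λ) : Ko' Φ i (bv b) = vv Φ i ^ (-wt b i) • bv b :=
  Dg_bv _ b

theorem Ko_E (i j : Fin X.rank) :
    (Ko Φ i : Module.End FF (FM Λ)) * Eo Φ j = vv Φ i ^ (X.a i j) • (Eo Φ j * Ko Φ i) := by
  unfold Ko
  rw [Dg_E, ← mul_smul_comm, ← Dg_smul]
  congr 2
  funext μ
  rw [← zpow_add₀ (vv_ne i)]
  congr 1
  show μ i + X.a i j = X.a i j + μ i
  ring

theorem Ko_F (i j : Fin X.rank) :
    (Ko Φ i : Module.End FF (FM Λ)) * Fo j = vv Φ i ^ (-X.a i j) • (Fo j * Ko Φ i) := by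
  unfold Ko
  rw [Dg_F, ← mul_smul_comm, ← Dg_smul]
  congr 2
  funext μ
  rw [← zpow_add₀ (vv_ne i)]
  congr 1
  show μ i - X.a i j = -X.a i j + μ i
  ring

theorem Eo_Fo (i j : Fin X.rank) :
    (Eo Φ i : Module.End FF (FM Λ)) * Fo j - Fo j * Eo Φ i =
      if i = j then (vv Φ i - (vv Φ i)⁻¹)⁻¹ • (Ko Φ i - Ko' Φ i) else 0 := by
  refine ext_bv fun b => ?_
  rw [LinearMap.sub_apply, Module.End.mul_apply, Module.End.mul_apply, Fo_bv, Eo_cons,
    add_sub_cancel_left]
  split_ifs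
  · rw [LinearMap.smul_apply, LinearMap.sub_apply, Ko_bv, Ko'_bv, ← sub_smul, smul_smul]
    congr 1
    unfold qn
    rw [div_eq_inv_mul]
  · rw [LinearMap.zero_apply]

end Pool.Agent.QInv75.Ex
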