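import Pool.Agent.QInv75.E1

/-!
# The contravariant form on the free module
-/

set_option autoImplicit false

open scoped TensorProduct

namespace Pool.Agent.QInv75.Ex

variable {X : Dynkin} {Φ : WeightForm X} {Λ : Finset X.Weight}

theorem Bf_bv (b : Ix Λ) : Bf Φ (bv b) = Bw Φ b.1 b.2 :=
  (bas Λ).constr_basis FF _ b

theorem Bf_top (l : {l // l ∈ Λ}) (y : FM Λ) : Bf Φ (bv (l, [])) y = (bas Λ).coord (l, []) y := by
  rw [Bf_bv]
  rfl

/-- two expressions linear in `x` agree if they agree on the basis -/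
theorem ext_left {A B : FM Λ →ₗ[FF] FF} (h : ∀ b, A (bv b) = B (bv b)) (x : FM Λ) : A x = B x :=
  LinearMap.congr_fun (ext_bv h) x

/-- linear induction on vectors -/
theorem lin_induct {p : FM Λ → Prop} (hz : p 0) (h0 : ∀ b, p (bv b))
    (h1 : ∀ x y, p x → p y → p (x + y)) (h2 : ∀ (c : FF) (x : FM Λ), p x → p (c • x))
    (x : FM Λ) : p x := by
  have hx : x ∈ Submodule.span FF (Set.range (bas Λ)) := (bas Λ).mem_span x
  induction hx using Submodule.span_induction with
  | mem x hx =>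
    obtain ⟨b, rfl⟩ := hx
    exact h0 b
  | zero => exact hz
  | add x y _ _ hx hy => exact h1 x y hx hy
  | smul c x _ hx => exact h2 c x hx

theorem Bf_F (i : Fin X.rank) (x y : FM Λ) : Bf Φ (Fo i x) y = Bf Φ x (Ko Φ i (Eo Φ i y)) := by
  induction x using lin_induct with
  | hz => simp only [map_zero, LinearMap.zero_apply]
  | h0 b =>
    rw [Fo_bv, Bf_bv, Bf_bv]
    rfl
  | h1 x x' hx hx' => simp only [map_add, LinearMap.add_apply, hx, hx']
  | h2 c x hx => simp only [map_smul, LinearMap.smul_apply, hx]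

theorem coord_bv (c b : Ix Λ) : (bas Λ).coord c (bv b) = if b = c then 1 else 0 := by
  unfold bv
  rw [Module.Basis.coord_apply, Module.Basis.repr_self, Finsupp.single_apply]

theorem coord_Dg (g : X.Weight → FF) (c : Ix Λ) (y : FM Λ) :
    (bas Λ).coord c (Dg g y) = g (wt c) * (bas Λ).coord c y := by
  refine ext_left (A := (bas Λ).coord c ∘ₗ Dg g) (B := g (wt c) • (bas Λ).coord c) ?_ y
  intro b
  show (bas Λ).coord c (Dg g (bv b)) = g (wt c) * (bas Λ).coord c (bv b)
  rw [Dg_bv, map_smul, coord_bv, smul_eq_mul]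
  split_ifs with h
  · rw [h]
  · rw [mul_zero, mul_zero]

theorem coord_F (i : Fin X.rank) (l : {l // l ∈ Λ}) (y : FM Λ) :
    (bas Λ).coord (l, []) (Fo i y) = 0 := by
  refine ext_left (A := (bas Λ).coord (l, []) ∘ₗ Fo i) (B := 0) ?_ y
  intro b
  show (bas Λ).coord (l, []) (Fo i (bv b)) = 0
  rw [Fo_bv, coord_bv, if_neg]
  intro h
  exact List.cons_ne_nil _ _ (congrArg Prod.snd h)

theorem Bf_D_bv (g : X.Weight → FF) (b : Ix Λ) (y : FM Λ) :
    Bf Φ (Dg g (bv b)) y = Bf Φ (bv b) (Dg g y) := by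
  induction b using bv_induct generalizing g y with
  | h0 l => rw [Dg_bv, map_smul, LinearMap.smul_apply, Bf_top, Bf_top, coord_Dg, wt_nil,
      smul_eq_mul]
  | h1 l i w ih =>
    have e : bv (l, i :: w) = Fo i (bv (l, w)) := (Fo_bv i (l, w)).symm
    have h1 : Dg g (Fo i (bv (l, w))) = Fo i (Dg (fun μ => g (μ - X.root i)) (bv (l, w))) :=
      LinearMap.congr_fun (Dg_F g i) _
    have h2 : (Dg fun μ => g (μ - X.root i)) * (Ko Φ i * Eo Φ i) =
        (Ko Φ i * Eo Φ i) * (Dg g : Module.End FF (FM Λ)) := by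
      rw [← mul_assoc, show (Ko Φ i : Module.End FF (FM Λ)) = Dg _ from rfl, Dg_comm, mul_assoc,
        Dg_E, mul_assoc]
      congr 3
      funext μ
      rw [add_sub_cancel_right]
    have h3 := LinearMap.congr_fun h2 y
    rw [Module.End.mul_apply, Module.End.mul_apply, Module.End.mul_apply,
      Module.End.mul_apply] at h3
    rw [e, h1, Bf_F, Bf_F, ih, h3]

theorem Bf_D (g : X.Weight → FF) (x y : FM Λ) : Bf Φ (Dg g x) y = Bf Φ x (Dg g y) := by
  induction x using lin_induct with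
  | hz => simp only [map_zero, LinearMap.zero_apply]
  | h0 b => exact Bf_D_bv g b y
  | h1 x x' hx hx' => simp only [map_add, LinearMap.add_apply, hx, hx']
  | h2 c x hx => simp only [map_smul, LinearMap.smul_apply, hx]

theorem coord_Po (l : X.Weight) (c : Ix Λ) (y : FM Λ) :
    (bas Λ).coord c (Po l y) = if c.1.1 = l then (bas Λ).coord c y else 0 := by
  refine ext_left (A := (bas Λ).coord c ∘ₗ Po l)
    (B := if c.1.1 = l then (bas Λ).coord c else 0) ?_ y |>.trans ?_
  · intro b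
    show (bas Λ).coord c (Po l (bv b)) = _
    rw [Po_bv]
    by_cases hb : b = c
    · subst hb
      split_ifs
      · rfl
      · rw [map_zero, LinearMap.zero_apply]
    · have h0 : (bas Λ).coord c (bv b) = 0 := by rw [coord_bv, if_neg hb]
      split_ifs <;> simp [h0]
  · split_ifs <;> simp

theorem Bf_P_bv (l : X.Weight) (b : Ix Λ) (y : FM Λ) :
    Bf Φ (Po l (bv b)) y = Bf Φ (bv b) (Po l y) := by
  induction b using bv_induct generalizing y with
  | h0 m =>
    rw [Po_bv, Bf_top, coord_Po]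
    show (Bf Φ (if m.1 = l then bv (m, []) else 0)) y = if m.1 = l then _ else 0
    split_ifs
    · rw [Bf_top]
    · rw [map_zero, LinearMap.zero_apply]
  | h1 m i w ih =>
    have e : bv (m, i :: w) = Fo i (bv (m, w)) := (Fo_bv i (m, w)).symm
    have h1 : Po l (Fo i (bv (m, w))) = Fo i (Po l (bv (m, w))) :=
      LinearMap.congr_fun (Po_F l i) _
    have h2 : (Po l) * (Ko Φ i * Eo Φ i) =
        (Ko Φ i * Eo Φ i) * (Po l : Module.End FF (FM Λ)) := by
      rw [← mul_assoc, show (Ko Φ i : Module.End FF (FM Λ)) = Dg _ from rfl, Po_Dg, mul_assoc,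
        Po_E, mul_assoc]
    have h3 := LinearMap.congr_fun h2 y
    rw [Module.End.mul_apply, Module.End.mul_apply, Module.End.mul_apply,
      Module.End.mul_apply] at h3
    rw [e, h1, Bf_F, Bf_F, ih, h3]

theorem Bf_P (l : X.Weight) (x y : FM Λ) : Bf Φ (Po l x) y = Bf Φ x (Po l y) := by
  induction x using lin_induct with
  | hz => simp only [map_zero, LinearMap.zero_apply]
  | h0 b => exact Bf_P_bv l b y
  | h1 x x' hx hx' => simp only [map_add, LinearMap.add_apply, hx, hx']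
  | h2 c x hx => simp only [map_smul, LinearMap.smul_apply, hx]

theorem vv_a_symm (i j : Fin X.rank) : vv Φ i ^ (X.a i j) = vv Φ j ^ (X.a j i) := by
  have h : (Φ.N : ℤ) * X.d i * X.a i j = Φ.N * X.d j * X.a j i := by
    have h1 := Φ.root i (X.root j)
    have h2 := Φ.root j (X.root i)
    rw [Φ.symm, h2] at h1
    exact h1.symm
  unfold vv
  rw [← zpow_mul, ← zpow_mul, h]

/-- `F_i K_i⁻¹ K_j E_j = K_j F_i E_j K_i⁻¹` -/
theorem swap_aux (i j : Fin X.rank) :
    (Ko Φ j : Module.End FF (FM Λ)) * (Fo i * (Eo Φ j * Ko' Φ i)) =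
      Fo i * (Ko' Φ i * (Ko Φ j * Eo Φ j)) := by
  have h1 : (Ko Φ j : Module.End FF (FM Λ)) * Fo i = vv Φ j ^ (-X.a j i) • (Fo i * Ko Φ j) :=
    Ko_F j i
  have h2 : (Eo Φ j : Module.End FF (FM Λ)) * Ko' Φ i = vv Φ i ^ (X.a i j) • (Ko' Φ i * Eo Φ j) := by
    have h3 : (Ko Φ i : Module.End FF (FM Λ)) * Eo Φ j = vv Φ i ^ (X.a i j) • (Eo Φ j * Ko Φ i) :=
      Ko_E i j
    calc (Eo Φ j : Module.End FF (FM Λ)) * Ko' Φ i
        = (Ko' Φ i * Ko Φ i) * (Eo Φ j * Ko' Φ i) := by rw [Ko'_Ko, one_mul]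
      _ = Ko' Φ i * (Ko Φ i * Eo Φ j) * Ko' Φ i := by simp only [mul_assoc]
      _ = Ko' Φ i * (vv Φ i ^ (X.a i j) • (Eo Φ j * Ko Φ i)) * Ko' Φ i := by rw [h3]
      _ = vv Φ i ^ (X.a i j) • (Ko' Φ i * Eo Φ j * (Ko Φ i * Ko' Φ i)) := by
        simp only [mul_smul_comm, smul_mul_assoc, mul_assoc]
      _ = vv Φ i ^ (X.a i j) • (Ko' Φ i * Eo Φ j) := by rw [Ko_Ko', mul_one]
  have h4 : (Ko Φ j : Module.End FF (FM Λ)) * Ko' Φ i = Ko' Φ i * Ko Φ j := Dg_comm _ _
  rw [h2, ← mul_assoc, h1]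
  simp only [mul_smul_comm, smul_mul_assoc, smul_smul]
  rw [vv_a_symm, ← zpow_add₀ (vv_ne j), add_neg_cancel, zpow_zero, one_smul, mul_assoc,
    ← mul_assoc (Ko Φ j), h4, mul_assoc]

theorem Bf_E_bv (i : Fin X.rank) (b : Ix Λ) (y : FM Λ) :
    Bf Φ (Eo Φ i (bv b)) y = Bf Φ (bv b) (Fo i (Ko' Φ i y)) := by
  induction b using bv_induct generalizing y with
  | h0 l => rw [Eo_nil, map_zero, LinearMap.zero_apply, Bf_top, coord_F]
  | h1 l j w ih =>
    have e : bv (l, j :: w) = Fo j (bv (l, w)) := (Fo_bv j (l, w)).symm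
    have h1 : Eo Φ i (Fo j (bv (l, w))) = Fo j (Eo Φ i (bv (l, w))) +
        (if i = j then (vv Φ i - (vv Φ i)⁻¹)⁻¹ • (Ko Φ i - Ko' Φ i) else 0 :
          Module.End FF (FM Λ)) (bv (l, w)) := by
      have := LinearMap.congr_fun (Eo_Fo (Φ := Φ) (Λ := Λ) i j) (bv (l, w))
      rw [LinearMap.sub_apply, Module.End.mul_apply, Module.End.mul_apply] at this
      rw [← this]
      abel
    rw [e, h1, map_add, LinearMap.add_apply, Bf_F, Bf_F, ih]
    have h2 : Ko Φ j (Eo Φ j (Fo i (Ko' Φ i y))) = Fo i (Ko' Φ i (Ko Φ j (Eo Φ j y))) +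
        (if i = j then (vv Φ i - (vv Φ i)⁻¹)⁻¹ • (Ko Φ i - Ko' Φ i) else 0 :
          Module.End FF (FM Λ)) y := by
      have h3 := LinearMap.congr_fun (swap_aux (Φ := Φ) (Λ := Λ) i j) y
      simp only [Module.End.mul_apply] at h3
      rw [← h3]
      have h4 : Eo Φ j (Fo i (Ko' Φ i y)) = Fo i (Eo Φ j (Ko' Φ i y)) +
          (if j = i then (vv Φ j - (vv Φ j)⁻¹)⁻¹ • (Ko Φ j - Ko' Φ j) else 0 :
            Module.End FF (FM Λ)) (Ko' Φ i y) := by
        have := LinearMap.congr_fun (Eo_Fo (Φ := Φ) (Λ := Λ) j i) (Ko' Φ i y)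
        rw [LinearMap.sub_apply, Module.End.mul_apply, Module.End.mul_apply] at this
        rw [← this]
        abel
      rw [h4, map_add]
      congr 1
      by_cases hij : i = j
      · subst hij
        simp only [if_true]
        have h5 : (Ko Φ i : Module.End FF (FM Λ)) * ((vv Φ i - (vv Φ i)⁻¹)⁻¹ • (Ko Φ i - Ko' Φ i)) *
            Ko' Φ i = (vv Φ i - (vv Φ i)⁻¹)⁻¹ • (Ko Φ i - Ko' Φ i) := by
          simp only [mul_smul_comm, smul_mul_assoc, mul_sub, sub_mul, mul_assoc]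
          rw [Ko_Ko', mul_one, ← mul_assoc, Ko_Ko', one_mul]
        have := LinearMap.congr_fun h5 y
        simpa only [Module.End.mul_apply] using this
      · rw [if_neg (fun h => hij h.symm), if_neg hij, LinearMap.zero_apply, LinearMap.zero_apply,
          map_zero]
    rw [h2, map_add]
    congr 1
    by_cases hij : i = j
    · rw [if_pos hij, LinearMap.smul_apply, LinearMap.sub_apply, map_smul, LinearMap.smul_apply,
        map_sub, LinearMap.sub_apply, LinearMap.smul_apply, LinearMap.sub_apply, map_smul, map_sub]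
      unfold Ko Ko'
      rw [Bf_D, Bf_D]
    · rw [if_neg hij, LinearMap.zero_apply, LinearMap.zero_apply, map_zero, map_zero,
        LinearMap.zero_apply]

theorem Bf_E (i : Fin X.rank) (x y : FM Λ) : Bf Φ (Eo Φ i x) y = Bf Φ x (Fo i (Ko' Φ i y)) := by
  induction x using lin_induct with
  | hz => simp only [map_zero, LinearMap.zero_apply]
  | h0 b => exact Bf_E_bv i b y
  | h1 x x' hx hx' => simp only [map_add, LinearMap.add_apply, hx, hx']
  | h2 c x hx => simp only [map_smul, LinearMap.smul_apply, hx]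

theorem Bf_symm_top (l : {l // l ∈ Λ}) (y : FM Λ) : Bf Φ (bv (l, [])) y = Bf Φ y (bv (l, [])) := by
  induction y using lin_induct with
  | hz => simp only [map_zero, LinearMap.zero_apply]
  | h0 b =>
    obtain ⟨m, w⟩ := b
    cases w with
    | nil =>
      rw [Bf_top, Bf_top, coord_bv, coord_bv]
      simp only [eq_comm]
    | cons i w =>
      have e : bv (m, i :: w) = Fo i (bv (m, w)) := (Fo_bv i (m, w)).symm
      rw [e, Bf_top, coord_F, Bf_F, Eo_nil, map_zero, map_zero]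
  | h1 x x' hx hx' => simp only [map_add, LinearMap.add_apply, hx, hx']
  | h2 c x hx => simp only [map_smul, LinearMap.smul_apply, hx]

theorem Bf_symm_bv (b : Ix Λ) (y : FM Λ) : Bf Φ (bv b) y = Bf Φ y (bv b) := by
  induction b using bv_induct generalizing y with
  | h0 l => exact Bf_symm_top l y
  | h1 l i w ih =>
    have e : bv (l, i :: w) = Fo i (bv (l, w)) := (Fo_bv i (l, w)).symm
    rw [e, Bf_F, ih]
    have h1 : Bf Φ (Ko Φ i (Eo Φ i y)) (bv (l, w)) = Bf Φ (Eo Φ i y) (Ko Φ i (bv (l, w))) :=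
      Bf_D _ _ _
    rw [h1, Bf_E]
    congr 2
    have := LinearMap.congr_fun (Ko'_Ko (Φ := Φ) (Λ := Λ) i) (bv (l, w))
    simpa only [Module.End.mul_apply, Module.End.one_apply] using this

theorem Bf_symm (x y : FM Λ) : Bf Φ x y = Bf Φ y x := by
  induction x using lin_induct with
  | hz => simp only [map_zero, LinearMap.zero_apply]
  | h0 b => exact Bf_symm_bv b y
  | h1 x x' hx hx' => simp only [map_add, LinearMap.add_apply, hx, hx']
  | h2 c x hx => simp only [map_smul, LinearMap.smul_apply, hx]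

end Pool.Agent.QInv75.Ex
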