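import Pool.Agent.QInv75.E2

/-!
# The quantum Serre relations on the free highest weight module
-/

set_option autoImplicit false

open scoped TensorProduct

namespace Pool.Agent.QInv75.Ex

/-! ## `q`-binomial coefficients -/

namespace E3

section qn

variable {q : FF}

lemma neg_div_aux {𝕜 : Type*} [Field 𝕜] (a b c d : 𝕜) : (b - a) / (d - c) = (a - b) / (c - d) := by
  rw [← neg_sub a b, ← neg_sub c d, neg_div_neg_eq]

lemma qInt_inv (q : FF) (k : ℕ) : qInt q⁻¹ k = qInt q k := by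
  unfold qInt
  rw [inv_inv]
  exact neg_div_aux _ _ _ _

lemma qFact_inv (q : FF) (k : ℕ) : qFact q⁻¹ k = qFact q k := by
  induction k with
  | zero => rfl
  | succ k ih => rw [qFact, qFact, ih, qInt_inv]

lemma qBinom_inv (q : FF) (k s : ℕ) : qBinom q⁻¹ k s = qBinom q k s := by
  unfold qBinom
  rw [qFact_inv, qFact_inv, qFact_inv]

variable (hq : ∀ k, qInt q (k + 1) ≠ 0)
include hq

lemma qFact_ne (k : ℕ) : qFact q k ≠ 0 := by
  induction k with
  | zero => exact one_ne_zero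
  | succ k ih => exact mul_ne_zero (hq k) ih

lemma qBinom_succ (n s : ℕ) (hs : s ≤ n) :
    qBinom q (n + 1) s * qInt q (n - s + 1) = qBinom q (n + 1) (s + 1) * qInt q (s + 1) := by
  unfold qBinom
  have e1 : n + 1 - s = n - s + 1 := by omega
  have e2 : n + 1 - (s + 1) = n - s := by omega
  rw [e1, e2]
  have h1 := qFact_ne hq s
  have h2 := qFact_ne hq (n - s)
  have h3 := hq s
  have h4 := hq (n - s)
  simp only [qFact]
  field_simp

lemma qBinom_zero (n : ℕ) : qBinom q n 0 = 1 := by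
  unfold qBinom
  rw [Nat.sub_zero, qFact, one_mul, div_self (qFact_ne hq n)]

lemma qBinom_self (n : ℕ) : qBinom q n n = 1 := by
  unfold qBinom
  rw [Nat.sub_self, qFact, mul_one, div_self (qFact_ne hq n)]

lemma qInt_add (hq0 : q ≠ 0) (m r : ℕ) :
    q ^ (m + 1) * q ^ (r + 1) * qInt q (r + 1) + qInt q (m + 1) =
      q ^ (r + 1) * qInt q (m + r + 2) := by
  unfold qInt
  have h0 : q - q⁻¹ ≠ 0 := by
    intro h
    apply hq 0
    unfold qInt
    rw [h, div_zero]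
  have hQ : q * q⁻¹ = 1 := mul_inv_cancel₀ hq0
  generalize q⁻¹ = u at *
  have h1 : q ^ (r + 1) * u ^ (r + 1) = 1 := by rw [← mul_pow, hQ, one_pow]
  have e : m + r + 2 = (m + 1) + (r + 1) := by ring
  rw [e, pow_add q (m + 1) (r + 1), pow_add u (m + 1) (r + 1)]
  generalize q ^ (r + 1) = a at *
  generalize u ^ (r + 1) = b at *
  generalize q ^ (m + 1) = c at *
  generalize u ^ (m + 1) = d at *
  rw [← mul_div_assoc, ← mul_div_assoc, ← add_div]
  congr 1
  linear_combination (d - c) * h1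

/-- Pascal rule -/
lemma pascal (hq0 : q ≠ 0) (m r : ℕ) :
    q ^ (r + 1) * qBinom q (m + r + 2) (m + 1) =
      q ^ (m + 1) * q ^ (r + 1) * qBinom q (m + r + 1) (m + 1) + qBinom q (m + r + 1) m := by
  unfold qBinom
  have e1 : m + r + 2 - (m + 1) = r + 1 := by omega
  have e2 : m + r + 1 - (m + 1) = r := by omega
  have e3 : m + r + 1 - m = r + 1 := by omega
  rw [e1, e2, e3]
  have h1 := qFact_ne hq m
  have h2 := qFact_ne hq r
  have h3 := hq m
  have h4 := hq r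
  have h5 : qFact q (m + r + 2) = qInt q (m + r + 2) * qFact q (m + r + 1) := rfl
  have h6 : qFact q (m + 1) = qInt q (m + 1) * qFact q m := rfl
  have h7 : qFact q (r + 1) = qInt q (r + 1) * qFact q r := rfl
  rw [h5, h6, h7]
  have key := qInt_add hq hq0 m r
  generalize qFact q (m + r + 1) = A at *
  generalize qInt q (m + r + 2) = B at *
  generalize qInt q (m + 1) = C at *
  generalize qInt q (r + 1) = D at *
  generalize q ^ (r + 1) = E at *
  generalize q ^ (m + 1) = F at *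
  field_simp
  linear_combination (-A) * key

lemma qsum_partial (hq0 : q ≠ 0) (n m : ℕ) (hm : m ≤ n) :
    ∑ s ∈ Finset.range (m + 1), (-1) ^ s * qBinom q (n + 1) s * q ^ (s * n) =
      (-1) ^ m * q ^ (m * (n + 1)) * qBinom q n m := by
  induction m with
  | zero =>
    rw [zero_add, Finset.sum_range_one, qBinom_zero hq, qBinom_zero hq]
    simp
  | succ m ih =>
    rw [Finset.sum_range_succ, ih (by omega)]
    obtain ⟨r, rfl⟩ : ∃ r, n = m + r + 1 := ⟨n - m - 1, by omega⟩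
    have key := pascal hq hq0 m r
    have hr : q ^ (r + 1) ≠ 0 := pow_ne_zero _ hq0
    apply mul_left_cancel₀ hr
    have e1 : q ^ ((m + 1) * (m + r + 1 + 1)) = q ^ (m * (m + r + 1 + 1)) * (q ^ (r + 1) * q ^ (m + 1)) := by
      rw [← pow_add, ← pow_add]
      congr 1
      ring
    have e2 : q ^ ((m + 1) * (m + r + 1)) = q ^ (m * (m + r + 1 + 1)) * q ^ (r + 1) := by
      rw [← pow_add]
      congr 1
      ring
    rw [e1, e2]
    have e3 : m + r + 1 + 1 = m + r + 2 := rfl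
    rw [e3]
    rw [pow_succ (-1 : FF) m]
    linear_combination (-(-1) ^ m * q ^ (m * (m + r + 2)) * q ^ (r + 1)) * key

lemma qsum (hq0 : q ≠ 0) (n : ℕ) :
    ∑ s ∈ Finset.range (n + 1 + 1), (-1) ^ s * qBinom q (n + 1) s * q ^ (s * n) = 0 := by
  rw [Finset.sum_range_succ, qsum_partial hq hq0 n n le_rfl, qBinom_self hq, qBinom_self hq,
    pow_succ]
  rw [show n * (n + 1) = (n + 1) * n by ring]
  ring

end qn

/-! ## Commutation with the Serre element -/

section alg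

variable {S : Type*} [Ring S] [Algebra FF S]

/-- the quantum Serre element -/
noncomputable def SS (q : FF) (n : ℕ) (f g : S) : S :=
  ∑ s ∈ Finset.range (n + 1), ((-1) ^ s * qBinom q n s) • (f ^ (n - s) * g * f ^ s)

variable {q : FF}

lemma pow_comm_q {A B : S} {c : FF} (h : A * B = c • (B * A)) (k : ℕ) :
    A * B ^ k = c ^ k • (B ^ k * A) := by
  induction k with
  | zero => simp
  | succ k ih =>
    rw [pow_succ, ← mul_assoc, ih, smul_mul_assoc, mul_assoc (B ^ k), h, mul_smul_comm, smul_smul,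
      ← mul_assoc, pow_succ]

lemma cc_aux (v u : FF) (hvu : v * u = 1) (hz : v - u ≠ 0) (k : ℕ) :
    (v ^ (k + 1) - u ^ (k + 1)) / (v - u) * (u ^ k * u ^ 2) + 1 =
      (v ^ (k + 1 + 1) - u ^ (k + 1 + 1)) / (v - u) * u ^ (k + 1) := by
  have hPQ : v ^ k * u ^ k = 1 := by rw [← mul_pow, hvu, one_pow]
  rw [← div_self hz, div_mul_eq_mul_div, div_mul_eq_mul_div, ← add_div]
  congr 1
  simp only [pow_succ, pow_zero, one_mul]
  linear_combination (-(v - u) * (v * u)) * hPQ - (v - u) * hvu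

lemma cc_aux' (v u : FF) (hvu : v * u = 1) (hz : v - u ≠ 0) (k : ℕ) :
    (v ^ (k + 1) - u ^ (k + 1)) / (v - u) * (v ^ k * v ^ 2) + 1 =
      (v ^ (k + 1 + 1) - u ^ (k + 1 + 1)) / (v - u) * v ^ (k + 1) := by
  have hPQ : v ^ k * u ^ k = 1 := by rw [← mul_pow, hvu, one_pow]
  rw [← div_self hz, div_mul_eq_mul_div, div_mul_eq_mul_div, ← add_div]
  congr 1
  simp only [pow_succ, pow_zero, one_mul]
  linear_combination (-(v - u) * (v * u)) * hPQ - (v - u) * hvu

/-- `[e, f^m]` -/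
lemma comm_pow {e f k k' : S} {z : FF} (hq0 : q ≠ 0) (hz : q - q⁻¹ ≠ 0)
    (hef : e * f - f * e = z • (k - k')) (hkf : k * f = q⁻¹ ^ 2 • (f * k))
    (hkf' : k' * f = q ^ 2 • (f * k')) (m : ℕ) :
    e * f ^ (m + 1) - f ^ (m + 1) * e =
      (z * qInt q (m + 1)) • (f ^ m * (q⁻¹ ^ m • k - q ^ m • k')) := by
  induction m with
  | zero =>
    rw [zero_add, pow_one, hef, pow_zero, pow_zero, pow_zero, one_mul, one_smul, one_smul, qInt,
      pow_one, pow_one, div_self hz, mul_one]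
  | succ m ih =>
    have e1 : e * f ^ (m + 1 + 1) - f ^ (m + 1 + 1) * e =
        (e * f ^ (m + 1) - f ^ (m + 1) * e) * f + f ^ (m + 1) * (e * f - f * e) := by
      rw [pow_succ f (m + 1)]; noncomm_ring
    rw [e1, ih, hef]
    have e2 : (f ^ m * (q⁻¹ ^ m • k - q ^ m • k')) * f =
        f ^ (m + 1) * ((q⁻¹ ^ m * q⁻¹ ^ 2) • k - (q ^ m * q ^ 2) • k') := by
      rw [mul_assoc, sub_mul, smul_mul_assoc, smul_mul_assoc, hkf, hkf', smul_smul, smul_smul,
        pow_succ f m, mul_assoc (f ^ m), mul_sub f, mul_smul_comm, mul_smul_comm]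
    rw [smul_mul_assoc, e2, mul_smul_comm, mul_smul z (qInt q (m + 1)),
      mul_smul z (qInt q (m + 1 + 1)), ← smul_add]
    congr 1
    rw [← mul_smul_comm, ← mul_add, ← mul_smul_comm]
    congr 1
    rw [smul_sub, smul_sub, smul_smul, smul_smul, smul_smul, smul_smul]
    have e3 : ∀ a b : FF, a • k - b • k' + (k - k') = (a + 1) • k - (b + 1) • k' := by
      intro a b
      rw [add_smul, add_smul, one_smul, one_smul]; abel
    rw [e3]
    congr 2
    · exact cc_aux q q⁻¹ (mul_inv_cancel₀ hq0) hz m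
    · exact cc_aux' q q⁻¹ (mul_inv_cancel₀ hq0) hz m

/-- Lemma 1: `e` commutes with the Serre element -/
lemma SS_comm1 {e f g k k' : S} {z : FF} (hq : ∀ k, qInt q (k + 1) ≠ 0) (hq0 : q ≠ 0)
    (hz : q - q⁻¹ ≠ 0) (n : ℕ)
    (hef : e * f - f * e = z • (k - k')) (hkf : k * f = q⁻¹ ^ 2 • (f * k))
    (hkf' : k' * f = q ^ 2 • (f * k')) (heg : e * g = g * e)
    (hkg : k * g = q ^ n • (g * k)) (hkg' : k' * g = q⁻¹ ^ n • (g * k')) :
    e * SS q (n + 1) f g = SS q (n + 1) f g * e := by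
  rw [← sub_eq_zero]
  unfold SS
  rw [Finset.mul_sum, Finset.sum_mul, ← Finset.sum_sub_distrib]
  have e1 : ∀ s ∈ Finset.range (n + 1 + 1),
      e * ((-1) ^ s * qBinom q (n + 1) s) • (f ^ (n + 1 - s) * g * f ^ s) -
        ((-1) ^ s * qBinom q (n + 1) s) • (f ^ (n + 1 - s) * g * f ^ s) * e =
      ((-1) ^ s * qBinom q (n + 1) s) • ((e * f ^ (n + 1 - s) - f ^ (n + 1 - s) * e) * g * f ^ s) +
      ((-1) ^ s * qBinom q (n + 1) s) • (f ^ (n + 1 - s) * g * (e * f ^ s - f ^ s * e)) := by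
    intro s _
    rw [mul_smul_comm, smul_mul_assoc, ← smul_sub, ← smul_add]
    congr 1
    have e2 : f ^ (n + 1 - s) * e * g * f ^ s = f ^ (n + 1 - s) * g * (e * f ^ s) := by
      rw [mul_assoc _ e g, heg]
      simp only [mul_assoc]
    rw [sub_mul, sub_mul, mul_sub, e2]
    simp only [mul_assoc]
    abel
  rw [Finset.sum_congr rfl e1, Finset.sum_add_distrib, Finset.sum_range_succ,
    Finset.sum_range_succ' (fun s => ((-1) ^ s * qBinom q (n + 1) s) •
      (f ^ (n + 1 - s) * g * (e * f ^ s - f ^ s * e))), Nat.sub_self, pow_zero, mul_one, one_mul,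
    sub_self, zero_mul, zero_mul, smul_zero, add_zero, mul_zero, smul_zero, add_zero,
    ← Finset.sum_add_distrib]
  refine Finset.sum_eq_zero fun s hs => ?_
  have hs' : s ≤ n := by rw [Finset.mem_range] at hs; omega
  have e3 : n + 1 - s = n - s + 1 := by omega
  have e4 : n + 1 - (s + 1) = n - s := by omega
  rw [e3, e4, comm_pow hq0 hz hef hkf hkf' (n - s), comm_pow hq0 hz hef hkf hkf' s]
  have e5 : ∀ c c' : FF, c = q⁻¹ ^ (n - s) → c' = q ^ (n - s) →
      (c • k - c' • k') * g * f ^ s = g * f ^ s * (q⁻¹ ^ s • k - q ^ s • k') := by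
    intro c c' hc hc'
    have hA : q⁻¹ ^ (n - s) * (q ^ n * (q⁻¹ ^ 2) ^ s) = q⁻¹ ^ s := by
      have h1 : q ^ n = q ^ (n - s) * q ^ s := by rw [← pow_add]; congr 1; omega
      have h2 : q⁻¹ ^ (n - s) * q ^ (n - s) = 1 := by
        rw [← mul_pow, inv_mul_cancel₀ hq0, one_pow]
      have h3 : q ^ s * q⁻¹ ^ s = 1 := by
        rw [← mul_pow, mul_inv_cancel₀ hq0, one_pow]
      rw [h1, ← pow_mul, mul_comm 2 s, pow_mul, pow_two]
      linear_combination (q ^ s * (q⁻¹ ^ s * q⁻¹ ^ s)) * h2 + q⁻¹ ^ s * h3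
    have hB : q ^ (n - s) * (q⁻¹ ^ n * (q ^ 2) ^ s) = q ^ s := by
      have h1 : q⁻¹ ^ n = q⁻¹ ^ (n - s) * q⁻¹ ^ s := by rw [← pow_add]; congr 1; omega
      have h2 : q ^ (n - s) * q⁻¹ ^ (n - s) = 1 := by
        rw [← mul_pow, mul_inv_cancel₀ hq0, one_pow]
      have h3 : q⁻¹ ^ s * q ^ s = 1 := by
        rw [← mul_pow, inv_mul_cancel₀ hq0, one_pow]
      rw [h1, ← pow_mul, mul_comm 2 s, pow_mul, pow_two]
      linear_combination (q⁻¹ ^ s * (q ^ s * q ^ s)) * h2 + q ^ s * h3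
    rw [sub_mul, sub_mul, smul_mul_assoc, smul_mul_assoc, smul_mul_assoc, smul_mul_assoc,
      hkg, hkg', smul_mul_assoc, smul_mul_assoc, mul_assoc g k, mul_assoc g k',
      pow_comm_q hkf s, pow_comm_q hkf' s, mul_smul_comm, mul_smul_comm, smul_smul, smul_smul,
      smul_smul, smul_smul, hc, hc', mul_sub, mul_smul_comm, mul_smul_comm]
    congr 2
    · rw [mul_assoc, hA]
    · rw [mul_assoc]
    · rw [mul_assoc, hB]
    · rw [mul_assoc]
  rw [smul_mul_assoc, smul_mul_assoc, mul_assoc (f ^ (n - s)), mul_assoc (f ^ (n - s)),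
    e5 _ _ rfl rfl, mul_smul_comm, mul_assoc (f ^ (n - s)) g, ← mul_assoc g (f ^ s), smul_smul,
    smul_smul, ← add_smul]
  have key := qBinom_succ hq n s hs'
  have e6 : (-1) ^ s * qBinom q (n + 1) s * (z * qInt q (n - s + 1)) +
      (-1) ^ (s + 1) * qBinom q (n + 1) (s + 1) * (z * qInt q (s + 1)) = 0 := by
    rw [pow_succ]
    linear_combination ((-1) ^ s * z) * key
  rw [e6, zero_smul]

/-- Lemma 2: so does `e'` with `[e', g] ≠ 0` -/
lemma SS_comm2 {e f g k k' : S} {z : FF} (hq : ∀ k, qInt q (k + 1) ≠ 0) (hq0 : q ≠ 0) (n : ℕ)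
    (heg : e * g - g * e = z • (k - k')) (hef : e * f = f * e)
    (hkf : k * f = q ^ n • (f * k)) (hkf' : k' * f = q⁻¹ ^ n • (f * k')) :
    e * SS q (n + 1) f g = SS q (n + 1) f g * e := by
  rw [← sub_eq_zero]
  unfold SS
  rw [Finset.mul_sum, Finset.sum_mul, ← Finset.sum_sub_distrib]
  have hef' : ∀ s, e * f ^ s = f ^ s * e := fun s => (Commute.pow_right (show Commute e f from hef) s).eq
  have e1 : ∀ s ∈ Finset.range (n + 1 + 1),
      e * ((-1) ^ s * qBinom q (n + 1) s) • (f ^ (n + 1 - s) * g * f ^ s) -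
        ((-1) ^ s * qBinom q (n + 1) s) • (f ^ (n + 1 - s) * g * f ^ s) * e =
      z • (((-1) ^ s * qBinom q (n + 1) s * q ^ (s * n)) • (f ^ (n + 1) * k) -
        ((-1) ^ s * qBinom q⁻¹ (n + 1) s * q⁻¹ ^ (s * n)) • (f ^ (n + 1) * k')) := by
    intro s hs
    have hs' : s ≤ n + 1 := by rw [Finset.mem_range] at hs; omega
    have e2 : f ^ (n + 1 - s) * g * f ^ s * e = f ^ (n + 1 - s) * (g * e) * f ^ s := by
      rw [mul_assoc (f ^ (n + 1 - s) * g), ← hef' s]
      simp only [mul_assoc]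
    have e3 : e * (f ^ (n + 1 - s) * g * f ^ s) = f ^ (n + 1 - s) * (e * g) * f ^ s := by
      rw [← mul_assoc, ← mul_assoc, hef']
      simp only [mul_assoc]
    have e4 : f ^ (n + 1) = f ^ (n + 1 - s) * f ^ s := by
      rw [← pow_add]; congr 1; omega
    rw [mul_smul_comm, smul_mul_assoc, ← smul_sub, e2, e3, ← sub_mul, ← mul_sub, heg, qBinom_inv,
      mul_smul_comm, smul_mul_assoc, mul_assoc (f ^ (n + 1 - s)), sub_mul, pow_comm_q hkf s,
      pow_comm_q hkf' s, mul_sub, mul_smul_comm, mul_smul_comm, smul_comm _ z, smul_sub, smul_smul,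
      smul_smul, ← pow_mul, ← pow_mul, e4, mul_assoc (f ^ (n + 1 - s)),
      mul_assoc (f ^ (n + 1 - s)), mul_comm n s]
  rw [Finset.sum_congr rfl e1, ← Finset.smul_sum, Finset.sum_sub_distrib, ← Finset.sum_smul,
    ← Finset.sum_smul, qsum hq hq0 n, qsum (q := q⁻¹) ?_ (inv_ne_zero hq0) n, zero_smul, zero_smul,
    sub_self, smul_zero]
  intro k
  rw [qInt_inv]
  exact hq k

/-- Lemma 3 -/
lemma SS_comm3 {e f g : S} (n : ℕ) (hef : Commute e f) (heg : Commute e g) :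
    e * SS q n f g = SS q n f g * e := by
  unfold SS
  rw [Finset.mul_sum, Finset.sum_mul]
  refine Finset.sum_congr rfl fun s _ => ?_
  rw [mul_smul_comm, smul_mul_assoc]
  congr 1
  exact (((hef.pow_right _).mul_right heg).mul_right (hef.pow_right _)).eq

end alg


/-! ## Root data -/

lemma a_diag' (X : Dynkin) (i : Fin X.rank) : X.a i i = 2 := by
  cases X with
  | A n => exact congrFun (CartanMatrix.A_diag (n + 1)) i
  | B n => exact CartanMatrix.B_diag (n + 2) i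
  | C n => exact CartanMatrix.C_diag (n + 3) i
  | D n => exact CartanMatrix.D_diag (n + 4) i
  | E6 => exact CartanMatrix.E₆_diag i
  | E7 => exact CartanMatrix.E₇_diag i
  | E8 => exact CartanMatrix.E₈_diag i
  | F4 => exact CartanMatrix.F₄_diag i
  | G2 => exact CartanMatrix.G₂_diag i

lemma a_nonpos' (X : Dynkin) (i j : Fin X.rank) (h : i ≠ j) : X.a i j ≤ 0 := by
  cases X with
  | A n => exact CartanMatrix.A_apply_le_zero_of_ne (n + 1) j i h.symm
  | B n => exact CartanMatrix.B_off_diag_nonpos (n + 2) j i h.symm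
  | C n => exact CartanMatrix.C_off_diag_nonpos (n + 3) j i h.symm
  | D n => exact CartanMatrix.D_off_diag_nonpos (n + 4) j i h.symm
  | E6 => exact CartanMatrix.E₆_off_diag_nonpos j i h.symm
  | E7 => exact CartanMatrix.E₇_off_diag_nonpos j i h.symm
  | E8 => exact CartanMatrix.E₈_off_diag_nonpos j i h.symm
  | F4 => exact CartanMatrix.F₄_off_diag_nonpos j i h.symm
  | G2 => exact CartanMatrix.G₂_off_diag_nonpos j i h.symm

section

variable {X : Dynkin} (Φ : WeightForm X) {Λ : Finset X.Weight}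

lemma vz (i : Fin X.rank) : vv Φ i - (vv Φ i)⁻¹ ≠ 0 := by
  intro h
  have h1 : vv Φ i ^ (1 : ℤ) = vv Φ i ^ (-1 : ℤ) := by
    rw [zpow_one, zpow_neg_one]
    exact sub_eq_zero.mp h
  have h2 := vv_pow_inj i h1
  omega

lemma qInt_ne (i : Fin X.rank) (k : ℕ) : qInt (vv Φ i) (k + 1) ≠ 0 := by
  refine div_ne_zero (fun h => ?_) (vz Φ i)
  have h1 : vv Φ i ^ ((k + 1 : ℕ) : ℤ) = vv Φ i ^ (-((k + 1 : ℕ) : ℤ)) := by
    rw [zpow_neg, zpow_natCast, ← inv_pow]
    exact sub_eq_zero.mp h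
  have h2 := vv_pow_inj i h1
  push_cast at h2
  omega

/-- `v_i^{a_ij} = v_j^{a_ji}` -/
lemma vv_symm (i j : Fin X.rank) : vv Φ i ^ X.a i j = vv Φ j ^ X.a j i := by
  unfold vv
  rw [← zpow_mul, ← zpow_mul]
  congr 1
  have h1 := Φ.root i (X.root j)
  have h2 := Φ.root j (X.root i)
  rw [Φ.symm] at h1
  exact h1.symm.trans h2

variable {Φ}

lemma Dg_smul (c : FF) (g : X.Weight → FF) :
    (Dg (fun μ => c * g μ) : Module.End FF (FM Λ)) = c • Dg g := by
  refine (bas Λ).ext fun b => ?_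
  show (Dg (fun μ => c * g μ) : Module.End FF (FM Λ)) (bv b) = c • Dg g (bv b)
  rw [Dg_bv, Dg_bv, smul_smul]

lemma Ko'_E (i j : Fin X.rank) :
    (Ko' Φ i : Module.End FF (FM Λ)) * Eo Φ j = vv Φ i ^ (-X.a i j) • (Eo Φ j * Ko' Φ i) := by
  unfold Ko'
  rw [Dg_E, ← mul_smul_comm, ← Dg_smul]
  congr 2
  funext μ
  rw [← zpow_add₀ (vv_ne i)]
  congr 1
  show -(μ i + X.a i j) = -X.a i j + -μ i
  ring

lemma Ko'_F (i j : Fin X.rank) :
    (Ko' Φ i : Module.End FF (FM Λ)) * Fo j = vv Φ i ^ (X.a i j) • (Fo j * Ko' Φ i) := by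
  unfold Ko'
  rw [Dg_F, ← mul_smul_comm, ← Dg_smul]
  congr 2
  funext μ
  rw [← zpow_add₀ (vv_ne i)]
  congr 1
  show -(μ i - X.a i j) = X.a i j + -μ i
  ring

lemma EF_ne {i j : Fin X.rank} (h : i ≠ j) :
    (Eo Φ i : Module.End FF (FM Λ)) * Fo j = Fo j * Eo Φ i := by
  have h1 := Eo_Fo (Φ := Φ) (Λ := Λ) i j
  rw [if_neg h] at h1
  exact sub_eq_zero.mp h1

lemma EF_self (i : Fin X.rank) :
    (Eo Φ i : Module.End FF (FM Λ)) * Fo i - Fo i * Eo Φ i =
      (vv Φ i - (vv Φ i)⁻¹)⁻¹ • (Ko Φ i - Ko' Φ i) := by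
  have h1 := Eo_Fo (Φ := Φ) (Λ := Λ) i i
  rwa [if_pos rfl] at h1

lemma FE_self (i : Fin X.rank) :
    (Fo i : Module.End FF (FM Λ)) * Eo Φ i - Eo Φ i * Fo i =
      (vv Φ i - (vv Φ i)⁻¹)⁻¹ • (Ko' Φ i - Ko Φ i) := by
  rw [← neg_sub, EF_self, ← smul_neg, neg_sub]

lemma zpow_two' (i : Fin X.rank) : vv Φ i ^ (X.a i i) = vv Φ i ^ 2 := by
  rw [a_diag']
  norm_cast

lemma zpow_neg_two' (i : Fin X.rank) : vv Φ i ^ (-X.a i i) = (vv Φ i)⁻¹ ^ 2 := by
  rw [a_diag', zpow_neg, inv_pow]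
  norm_cast

lemma zpow_n {i j : Fin X.rank} (h : i ≠ j) :
    vv Φ i ^ (-X.a i j) = vv Φ i ^ (-X.a i j).toNat := by
  have h1 := a_nonpos' X i j h
  rw [← zpow_natCast, Int.toNat_of_nonneg (by omega)]

lemma zpow_n' {i j : Fin X.rank} (h : i ≠ j) :
    vv Φ i ^ (X.a i j) = (vv Φ i)⁻¹ ^ (-X.a i j).toNat := by
  have h1 := a_nonpos' X i j h
  rw [← zpow_natCast, Int.toNat_of_nonneg (by omega), inv_zpow', neg_neg]

lemma vv_symm_neg (i j : Fin X.rank) : vv Φ j ^ (-X.a j i) = vv Φ i ^ (-X.a i j) := by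
  rw [zpow_neg, zpow_neg, vv_symm Φ i j]

lemma toNat_eq {i j : Fin X.rank} (h : i ≠ j) : (1 - X.a i j).toNat = (-X.a i j).toNat + 1 := by
  have h1 := a_nonpos' X i j h
  omega

lemma E_SS_F {i j : Fin X.rank} (h : i ≠ j) (k : Fin X.rank) :
    (Eo Φ k : Module.End FF (FM Λ)) * SS (vv Φ i) (1 - X.a i j).toNat (Fo i) (Fo j) =
      SS (vv Φ i) (1 - X.a i j).toNat (Fo i) (Fo j) * Eo Φ k := by
  rw [toNat_eq h]
  by_cases hki : k = i
  · subst hki
    refine SS_comm1 (qInt_ne Φ k) (vv_ne k) (vz Φ k) _ (EF_self k) ?_ ?_ (EF_ne h) ?_ ?_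
    · rw [Ko_F, zpow_neg_two']
    · rw [Ko'_F, zpow_two']
    · rw [Ko_F, zpow_n h]
    · rw [Ko'_F, zpow_n' h]
  by_cases hkj : k = j
  · subst hkj
    refine SS_comm2 (qInt_ne Φ i) (vv_ne i) _ (EF_self k) (EF_ne hki) ?_ ?_
    · rw [Ko_F, vv_symm_neg, zpow_n h]
    · rw [Ko'_F, ← vv_symm, zpow_n' h]
  · exact SS_comm3 _ (EF_ne hki) (EF_ne hkj)

lemma F_SS_E {i j : Fin X.rank} (h : i ≠ j) (k : Fin X.rank) :
    (Fo k : Module.End FF (FM Λ)) * SS (vv Φ i) (1 - X.a i j).toNat (Eo Φ i) (Eo Φ j) =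
      SS (vv Φ i) (1 - X.a i j).toNat (Eo Φ i) (Eo Φ j) * Fo k := by
  rw [toNat_eq h]
  by_cases hki : k = i
  · subst hki
    refine SS_comm1 (qInt_ne Φ k) (vv_ne k) (vz Φ k) _ (FE_self k) ?_ ?_ (EF_ne h.symm).symm ?_ ?_
    · rw [Ko'_E, zpow_neg_two']
    · rw [Ko_E, zpow_two']
    · rw [Ko'_E, zpow_n h]
    · rw [Ko_E, zpow_n' h]
  by_cases hkj : k = j
  · subst hkj
    refine SS_comm2 (qInt_ne Φ i) (vv_ne i) _ (FE_self k) (EF_ne (Ne.symm hki)).symm ?_ ?_
    · rw [Ko'_E, vv_symm_neg, zpow_n h]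
    · rw [Ko_E, ← vv_symm, zpow_n' h]
  · exact SS_comm3 _ (EF_ne (Ne.symm hki)).symm (EF_ne (Ne.symm hkj)).symm

lemma coord_F (l : {l // l ∈ Λ}) (i : Fin X.rank) (y : FM Λ) :
    (bas Λ).coord (l, []) (Fo i y) = 0 := by
  have h : (bas Λ).coord (l, []) ∘ₗ (Fo i : Module.End FF (FM Λ)) = 0 := by
    refine (bas Λ).ext fun b => ?_
    show (bas Λ).coord (l, []) (Fo i (bv b)) = 0
    rw [Fo_bv, bv, Module.Basis.coord_apply, Module.Basis.repr_self, Finsupp.single_eq_of_ne]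
    intro h
    exact List.cons_ne_nil _ _ (congrArg Prod.snd h).symm
  exact LinearMap.congr_fun h y

lemma coord_term (l : {l // l ∈ Λ}) (a s : ℕ) (i j : Fin X.rank) (y : FM Λ) :
    (bas Λ).coord (l, []) ((Fo i ^ a * Fo j * Fo i ^ s : Module.End FF (FM Λ)) y) = 0 := by
  cases a with
  | zero => rw [pow_zero, one_mul, Module.End.mul_apply, coord_F]
  | succ r =>
    rw [pow_succ', mul_assoc, mul_assoc, Module.End.mul_apply, coord_F]

lemma coord_SS (l : {l // l ∈ Λ}) (q : FF) (n : ℕ) (i j : Fin X.rank) (y : FM Λ) :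
    (bas Λ).coord (l, []) ((SS q n (Fo i) (Fo j) : Module.End FF (FM Λ)) y) = 0 := by
  unfold SS
  rw [LinearMap.sum_apply, map_sum]
  refine Finset.sum_eq_zero fun s _ => ?_
  rw [LinearMap.smul_apply, map_smul, coord_term, smul_zero]

lemma E_term (l : {l // l ∈ Λ}) (a s : ℕ) (i j : Fin X.rank) :
    (Eo Φ i ^ a * Eo Φ j * Eo Φ i ^ s : Module.End FF (FM Λ)) (bv (l, [])) = 0 := by
  cases s with
  | zero => rw [pow_zero, mul_one, Module.End.mul_apply, Eo_nil, map_zero]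
  | succ s => rw [pow_succ, ← mul_assoc, Module.End.mul_apply, Eo_nil, map_zero]

end

end E3

open E3

variable {X : Dynkin} {Φ : WeightForm X} {Λ : Finset X.Weight}

theorem serre_E (i j : Fin X.rank) (hij : i ≠ j) :
    ∑ s ∈ Finset.range ((1 - X.a i j).toNat + 1),
      ((-1) ^ s * qBinom (vv Φ i) (1 - X.a i j).toNat s) •
        ((Eo Φ i : Module.End FF (FM Λ)) ^ ((1 - X.a i j).toNat - s) * Eo Φ j * Eo Φ i ^ s) = 0 := by
  show (SS (vv Φ i) (1 - X.a i j).toNat (Eo Φ i) (Eo Φ j) : Module.End FF (FM Λ)) = 0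
  refine (bas Λ).ext fun b => ?_
  obtain ⟨l, w⟩ := b
  show (SS (vv Φ i) (1 - X.a i j).toNat (Eo Φ i) (Eo Φ j) : Module.End FF (FM Λ)) (bv (l, w)) = 0
  induction w with
  | nil =>
    unfold SS
    rw [LinearMap.sum_apply]
    refine Finset.sum_eq_zero fun s _ => ?_
    rw [LinearMap.smul_apply, E_term, smul_zero]
  | cons k w ih =>
    have h := LinearMap.congr_fun (F_SS_E (Φ := Φ) (Λ := Λ) hij k) (bv (l, w))
    rw [Module.End.mul_apply, Module.End.mul_apply, ih, map_zero, Fo_bv] at h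
    exact h.symm

theorem serre_F (i j : Fin X.rank) (hij : i ≠ j) (x y : FM Λ) :
    Bf Φ ((∑ s ∈ Finset.range ((1 - X.a i j).toNat + 1),
      ((-1) ^ s * qBinom (vv Φ i) (1 - X.a i j).toNat s) •
        ((Fo i : Module.End FF (FM Λ)) ^ ((1 - X.a i j).toNat - s) * Fo j * Fo i ^ s) :
          Module.End FF (FM Λ)) x) y = 0 := by
  show Bf Φ ((SS (vv Φ i) (1 - X.a i j).toNat (Fo i) (Fo j) : Module.End FF (FM Λ)) x) y = 0
  have key : ∀ (l : {l // l ∈ Λ}) (w : List (Fin X.rank)) (x : FM Λ),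
      Bf Φ (bv (l, w)) ((SS (vv Φ i) (1 - X.a i j).toNat (Fo i) (Fo j) : Module.End FF (FM Λ)) x)
        = 0 := by
    intro l w
    induction w with
    | nil =>
      intro x
      rw [Bf_top, coord_SS]
    | cons k w ih =>
      intro x
      have h := LinearMap.congr_fun (E_SS_F (Φ := Φ) (Λ := Λ) hij k) x
      rw [Module.End.mul_apply, Module.End.mul_apply] at h
      have h2 : (bv (l, k :: w) : FM Λ) = Fo k (bv (l, w)) := (Fo_bv k (l, w)).symm
      rw [h2, Bf_F, h, Ko, ← Bf_D, Dg_bv, map_smul, LinearMap.smul_apply, ih, smul_zero]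
  rw [Bf_symm]
  have h : (Bf Φ).flip ((SS (vv Φ i) (1 - X.a i j).toNat (Fo i) (Fo j) :
      Module.End FF (FM Λ)) x) = 0 :=
    (bas Λ).ext fun b => key b.1 b.2 x
  exact LinearMap.congr_fun h y

theorem pow_F (l : {l // l ∈ Λ}) (i : Fin X.rank) (hl : 0 ≤ l.1 i) (y : FM Λ) :
    Bf Φ ((Fo i ^ ((l.1 i).toNat + 1) : Module.End FF (FM Λ)) (bv (l, []))) y = 0 := by
  obtain ⟨m, hm⟩ : ∃ m : ℕ, l.1 i = m := ⟨(l.1 i).toNat, (Int.toNat_of_nonneg hl).symm⟩
  have hE : ∀ k, Eo Φ k ((Fo i ^ ((l.1 i).toNat + 1) : Module.End FF (FM Λ)) (bv (l, []))) = 0 := by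
    intro k
    by_cases hki : k = i
    · subst hki
      have h := comm_pow (q := vv Φ k) (vv_ne k) (vz Φ k) (EF_self (Λ := Λ) k)
        (by rw [Ko_F, zpow_neg_two']) (by rw [Ko'_F, zpow_two']) (l.1 k).toNat
      have h2 := LinearMap.congr_fun h (bv (l, []))
      have h3 : ((vv Φ k)⁻¹ ^ (l.1 k).toNat • Ko Φ k -
          vv Φ k ^ (l.1 k).toNat • Ko' Φ k : Module.End FF (FM Λ)) (bv (l, [])) = 0 := by
        rw [LinearMap.sub_apply, LinearMap.smul_apply, LinearMap.smul_apply, Ko, Ko', Dg_bv, Dg_bv,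
          wt_nil, smul_smul, smul_smul, ← sub_smul, hm, Int.toNat_natCast, zpow_natCast,
          zpow_neg, zpow_natCast, inv_pow, mul_comm, sub_self, zero_smul]
      rw [LinearMap.sub_apply, Module.End.mul_apply, Module.End.mul_apply, Eo_nil, map_zero,
        sub_zero, LinearMap.smul_apply, Module.End.mul_apply, h3, map_zero, smul_zero] at h2
      exact h2
    · have h : (Eo Φ k : Module.End FF (FM Λ)) * Fo i ^ ((l.1 i).toNat + 1) =
          Fo i ^ ((l.1 i).toNat + 1) * Eo Φ k :=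
        (Commute.pow_right (show Commute (Eo Φ k : Module.End FF (FM Λ)) (Fo i) from EF_ne hki) _).eq
      have h2 := LinearMap.congr_fun h (bv (l, []))
      rw [Module.End.mul_apply, Module.End.mul_apply, Eo_nil, map_zero] at h2
      exact h2
  rw [Bf_symm]
  have h : (Bf Φ).flip ((Fo i ^ ((l.1 i).toNat + 1) : Module.End FF (FM Λ)) (bv (l, []))) = 0 := by
    refine (bas Λ).ext fun b => ?_
    obtain ⟨l', w⟩ := b
    show Bf Φ (bv (l', w)) ((Fo i ^ ((l.1 i).toNat + 1) : Module.End FF (FM Λ)) (bv (l, []))) = 0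
    cases w with
    | nil =>
      rw [Bf_top, pow_succ', Module.End.mul_apply, coord_F]
    | cons k w =>
      have h2 : (bv (l', k :: w) : FM Λ) = Fo k (bv (l', w)) := (Fo_bv k (l', w)).symm
      rw [h2, Bf_F, hE, map_zero, map_zero]
  exact LinearMap.congr_fun h y

end Pool.Agent.QInv75.Ex
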