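import Pool.Agent.QInv75.E2

/-!
# Package E4: the braiding on the free module
-/

set_option autoImplicit false

open scoped TensorProduct

namespace Pool.Agent.QInv75.Ex

variable {X : Dynkin} {Φ : WeightForm X} {Λ : Finset X.Weight}

namespace E4

/-! ### induction principles -/

theorem FM_le (W : Submodule FF (FM Λ)) (h0 : ∀ l : {l // l ∈ Λ}, bv (l, []) ∈ W)
    (hF : ∀ i, ∀ x ∈ W, Fo i x ∈ W) (x : FM Λ) : x ∈ W := by
  have hb : ∀ (l : {l // l ∈ Λ}) (w : List (Fin X.rank)), bv (l, w) ∈ W := by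
    intro l w
    induction w with
    | nil => exact h0 l
    | cons i w ih =>
      have := hF i _ ih
      rwa [Fo_bv] at this
  have hspan : x ∈ Submodule.span FF (Set.range (bas Λ)) := by
    rw [(bas Λ).span_eq]
    exact Submodule.mem_top
  refine Submodule.span_le.2 ?_ hspan
  rintro _ ⟨⟨l, w⟩, rfl⟩
  exact hb l w

theorem one_eq : (Dg fun _ => 1 : Module.End FF (FM Λ)) = 1 := by
  refine (bas Λ).ext fun b => ?_
  change Dg (fun _ => 1) (bv b) = bv b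
  rw [Dg_bv, one_smul]

theorem Dg_comm (g g' : X.Weight → FF) :
    (Dg g : Module.End FF (FM Λ)) * Dg g' = Dg g' * Dg g := by
  rw [Dg_mul, Dg_mul]
  congr 1
  funext μ
  exact mul_comm _ _

theorem Ko'_Ko (i : Fin X.rank) : (Ko' Φ i : Module.End FF (FM Λ)) * Ko Φ i = 1 := by
  rw [← Ko_Ko' (Φ := Φ) (Λ := Λ) i]
  exact Dg_comm _ _

theorem Ko_Ko'_apply (i : Fin X.rank) (x : FM Λ) : Ko Φ i (Ko' Φ i x) = x := by
  have := congrArg (fun f : Module.End FF (FM Λ) => f x) (Ko_Ko' (Φ := Φ) (Λ := Λ) i)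
  simpa using this

theorem Ko'_Ko_apply (i : Fin X.rank) (x : FM Λ) : Ko' Φ i (Ko Φ i x) = x := by
  have := congrArg (fun f : Module.End FF (FM Λ) => f x) (Ko'_Ko (Φ := Φ) (Λ := Λ) i)
  simpa using this

theorem vv_symm (i j : Fin X.rank) : vv Φ i ^ X.a i j = vv Φ j ^ X.a j i := by
  unfold vv
  rw [← _root_.zpow_mul, ← _root_.zpow_mul]
  congr 1
  have h1 := Φ.root i (X.root j)
  have h2 := Φ.root j (X.root i)
  rw [Φ.symm] at h1
  rw [h1] at h2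
  exact h2

theorem dF_tmul {V : Type*} [AddCommGroup V] [Module FF V] (F K : Module.End FF V) (x y : V) :
    dF F K (x ⊗ₜ[FF] y) = F x ⊗ₜ[FF] K y + x ⊗ₜ[FF] F y := by
  simp [dF]

theorem dE_tmul {V : Type*} [AddCommGroup V] [Module FF V] (E K' : Module.End FF V) (x y : V) :
    dE E K' (x ⊗ₜ[FF] y) = E x ⊗ₜ[FF] y + K' x ⊗ₜ[FF] E y := by
  simp [dE]

theorem dK_tmul {V : Type*} [AddCommGroup V] [Module FF V] (K : Module.End FF V) (x y : V) :
    dK K (x ⊗ₜ[FF] y) = K x ⊗ₜ[FF] K y := by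
  simp [dK]

theorem tensor_le (Φ : WeightForm X) (W : Submodule FF (FM Λ ⊗[FF] FM Λ))
    (h0 : ∀ (l : {l // l ∈ Λ}) (y : FM Λ), bv (l, []) ⊗ₜ[FF] y ∈ W)
    (hF : ∀ i, ∀ T ∈ W, dF (Fo i) (Ko Φ i) T ∈ W) (T : FM Λ ⊗[FF] FM Λ) : T ∈ W := by
  have key : ∀ x y : FM Λ, x ⊗ₜ[FF] y ∈ W := by
    let U : Submodule FF (FM Λ) :=
      { carrier := {x | ∀ y, x ⊗ₜ[FF] y ∈ W}
        add_mem' := by
          intro a b ha hb y
          rw [TensorProduct.add_tmul]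
          exact W.add_mem (ha y) (hb y)
        zero_mem' := by
          intro y
          rw [TensorProduct.zero_tmul]
          exact W.zero_mem
        smul_mem' := by
          intro c x hx y
          rw [← TensorProduct.smul_tmul']
          exact W.smul_mem c (hx y) }
    intro x
    refine FM_le U h0 ?_ x
    intro i x hx y
    have h1 := hF i _ (hx (Ko' Φ i y))
    rw [dF_tmul, Ko_Ko'_apply] at h1
    have h2 := W.sub_mem h1 (hx (Fo i (Ko' Φ i y)))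
    rwa [add_sub_cancel_right] at h2
  induction T using TensorProduct.induction_on with
  | zero => exact W.zero_mem
  | tmul x y => exact key x y
  | add x y hx hy => exact W.add_mem hx hy

/-- two operators which agree on `v_l ⊗ y` and, if they agree on `T`, agree on `F T` -/
theorem op_ext (Φ : WeightForm X) {V : Type*} [AddCommGroup V] [Module FF V]
    {A B : FM Λ ⊗[FF] FM Λ →ₗ[FF] V}
    (h0 : ∀ (l : {l // l ∈ Λ}) (y : FM Λ), A (bv (l, []) ⊗ₜ[FF] y) = B (bv (l, []) ⊗ₜ[FF] y))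
    (hF : ∀ i, ∀ T, A T = B T → A (dF (Fo i) (Ko Φ i) T) = B (dF (Fo i) (Ko Φ i) T)) :
    A = B := by
  apply LinearMap.ext
  intro T
  have := tensor_le Φ (LinearMap.eqLocus A B) (fun l y => h0 l y) (fun i T hT => hF i T hT) T
  exact this

/-! ### relations of the coproducts -/

theorem end_apply {V : Type*} [AddCommGroup V] [Module FF V] {A B : Module.End FF V} (h : A = B)
    (x : V) : A x = B x := by rw [h]

theorem Ko'_F (i j : Fin X.rank) :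
    (Ko' Φ i : Module.End FF (FM Λ)) * Fo j = vv Φ i ^ X.a i j • (Fo j * Ko' Φ i) := by
  unfold Ko'
  rw [Dg_F]
  refine (bas Λ).ext fun b => ?_
  change Fo j (Dg _ (bv b)) = vv Φ i ^ X.a i j • Fo j (Dg _ (bv b))
  rw [Dg_bv, Dg_bv, map_smul, map_smul, smul_smul, ← zpow_add₀ (vv_ne i)]
  congr 2
  change -(wt b i - X.a i j) = X.a i j + -wt b i
  ring

section generic

variable {V : Type*} [AddCommGroup V] [Module FF V]

theorem dK_dF_tmul (K Ki F : Module.End FF V) (c : FF) (h1 : ∀ z, K (F z) = c • F (K z))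
    (h2 : ∀ z, K (Ki z) = Ki (K z)) (x y : V) :
    dK K (dF F Ki (x ⊗ₜ[FF] y)) = c • dF F Ki (dK K (x ⊗ₜ[FF] y)) := by
  rw [dF_tmul, dK_tmul, dF_tmul, map_add, dK_tmul, dK_tmul, h1, h1, h2, smul_add]
  congr 1
  exact TensorProduct.tmul_smul c _ _

theorem dK_dF_gen (K Ki F : Module.End FF V) (c : FF) (h1 : ∀ z, K (F z) = c • F (K z))
    (h2 : ∀ z, K (Ki z) = Ki (K z)) (T : V ⊗[FF] V) :
    dK K (dF F Ki T) = c • dF F Ki (dK K T) := by
  induction T using TensorProduct.induction_on with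
  | zero => simp
  | tmul x y => exact dK_dF_tmul K Ki F c h1 h2 x y
  | add x y hx hy => rw [map_add, map_add, map_add, map_add, smul_add, hx, hy]

/-- the commutator of `Δ(E_j)` and `Δ(F_i)`, `i ≠ j` -/
theorem dE_dF_gen_ne (E K' F Ki : Module.End FF V) (c : FF) (h1 : ∀ z, K' (F z) = c • F (K' z))
    (h2 : ∀ z, Ki (E z) = c • E (Ki z)) (h3 : ∀ z, E (F z) = F (E z)) (T : V ⊗[FF] V) :
    dE E K' (dF F Ki T) = dF F Ki (dE E K' T) := by
  induction T using TensorProduct.induction_on with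
  | zero => simp
  | tmul x y =>
    rw [dF_tmul, dE_tmul, map_add, map_add, dE_tmul, dE_tmul, dF_tmul, dF_tmul, h1, h2, h3, h3]
    have e1 : (c • F (K' x)) ⊗ₜ[FF] E (Ki y) = F (K' x) ⊗ₜ[FF] (c • E (Ki y)) :=
      TensorProduct.smul_tmul c _ _
    rw [e1]
    abel
  | add x y hx hy => rw [map_add, map_add, map_add, map_add, hx, hy]

/-- the commutator of `Δ(E_i)` and `Δ(F_i)` -/
theorem dE_dF_gen_eq (E K' F K : Module.End FF V) (c d : FF) (h1 : ∀ z, K' (F z) = c • F (K' z))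
    (h2 : ∀ z, K (E z) = c • E (K z)) (h3 : ∀ z, E (F z) = F (E z) + d • (K z - K' z))
    (T : V ⊗[FF] V) :
    dE E K' (dF F K T) = dF F K (dE E K' T) + d • (dK K T - dK K' T) := by
  induction T using TensorProduct.induction_on with
  | zero => simp
  | tmul x y =>
    rw [dF_tmul, dE_tmul, map_add, map_add, dE_tmul, dE_tmul, dF_tmul, dF_tmul, h1, h2, h3, h3,
      dK_tmul, dK_tmul]
    have e1 : (c • F (K' x)) ⊗ₜ[FF] E (K y) = F (K' x) ⊗ₜ[FF] (c • E (K y)) :=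
      TensorProduct.smul_tmul c _ _
    have e2 : (F (E x) + d • (K x - K' x)) ⊗ₜ[FF] K y =
        F (E x) ⊗ₜ[FF] K y + d • (K x ⊗ₜ[FF] K y - K' x ⊗ₜ[FF] K y) := by
      rw [TensorProduct.add_tmul, ← TensorProduct.sub_tmul]
      rfl
    have e3 : K' x ⊗ₜ[FF] (F (E y) + d • (K y - K' y)) =
        K' x ⊗ₜ[FF] F (E y) + d • (K' x ⊗ₜ[FF] K y - K' x ⊗ₜ[FF] K' y) := by
      rw [TensorProduct.tmul_add, ← TensorProduct.tmul_sub, TensorProduct.tmul_smul]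
    rw [e1, e2, e3, smul_sub, smul_sub, smul_sub]
    abel
  | add x y hx hy =>
    rw [map_add, map_add, map_add, map_add, map_add, map_add, hx, hy, smul_sub, smul_sub, smul_sub,
      smul_add, smul_add]
    abel

end generic

theorem Ko_F_apply (i j : Fin X.rank) (z : FM Λ) :
    Ko Φ j (Fo i z) = vv Φ j ^ (-X.a j i) • Fo i (Ko Φ j z) := by
  have := end_apply (Ko_F (Φ := Φ) (Λ := Λ) j i) z
  rwa [Module.End.mul_apply, LinearMap.smul_apply, Module.End.mul_apply] at this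

theorem Ko'_F_apply (i j : Fin X.rank) (z : FM Λ) :
    Ko' Φ j (Fo i z) = vv Φ j ^ (X.a j i) • Fo i (Ko' Φ j z) := by
  have := end_apply (Ko'_F (Φ := Φ) (Λ := Λ) j i) z
  rwa [Module.End.mul_apply, LinearMap.smul_apply, Module.End.mul_apply] at this

theorem Ko_E_apply (i j : Fin X.rank) (z : FM Λ) :
    Ko Φ i (Eo Φ j z) = vv Φ j ^ (X.a j i) • Eo Φ j (Ko Φ i z) := by
  rw [← vv_symm i j]
  have := end_apply (Ko_E (Φ := Φ) (Λ := Λ) i j) z
  rwa [Module.End.mul_apply, LinearMap.smul_apply, Module.End.mul_apply] at this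

theorem Dg_comm_apply (g g' : X.Weight → FF) (z : FM Λ) : Dg g (Dg g' z) = Dg g' (Dg g z) := by
  have := end_apply (Dg_comm (Λ := Λ) g g') z
  rwa [Module.End.mul_apply, Module.End.mul_apply] at this

theorem Eo_Fo_ne_apply {i j : Fin X.rank} (h : j ≠ i) (z : FM Λ) :
    Eo Φ j (Fo i z) = Fo i (Eo Φ j z) := by
  have := end_apply (Eo_Fo (Φ := Φ) (Λ := Λ) j i) z
  rw [if_neg h, LinearMap.sub_apply, Module.End.mul_apply, Module.End.mul_apply,
    LinearMap.zero_apply, sub_eq_zero] at this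
  exact this

theorem Eo_Fo_eq_apply (i : Fin X.rank) (z : FM Λ) :
    Eo Φ i (Fo i z) = Fo i (Eo Φ i z) + (vv Φ i - (vv Φ i)⁻¹)⁻¹ • (Ko Φ i z - Ko' Φ i z) := by
  have := end_apply (Eo_Fo (Φ := Φ) (Λ := Λ) i i) z
  rw [if_pos rfl, LinearMap.sub_apply, Module.End.mul_apply, Module.End.mul_apply,
    LinearMap.smul_apply, LinearMap.sub_apply, sub_eq_iff_eq_add'] at this
  exact this

theorem dK_dF_apply (i j : Fin X.rank) (T : FM Λ ⊗[FF] FM Λ) :
    dK (Ko Φ j) (dF (Fo i) (Ko Φ i) T) =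
      vv Φ j ^ (-X.a j i) • dF (Fo i) (Ko Φ i) (dK (Ko Φ j) T) :=
  dK_dF_gen _ _ _ _ (Ko_F_apply i j) (fun z => Dg_comm_apply _ _ z) T

theorem dE_dF_ne_apply {i j : Fin X.rank} (h : j ≠ i) (T : FM Λ ⊗[FF] FM Λ) :
    dE (Eo Φ j) (Ko' Φ j) (dF (Fo i) (Ko Φ i) T) =
      dF (Fo i) (Ko Φ i) (dE (Eo Φ j) (Ko' Φ j) T) :=
  dE_dF_gen_ne _ _ _ _ _ (Ko'_F_apply i j) (Ko_E_apply i j) (Eo_Fo_ne_apply h) T

theorem dE_dF_eq_apply (i : Fin X.rank) (T : FM Λ ⊗[FF] FM Λ) :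
    dE (Eo Φ i) (Ko' Φ i) (dF (Fo i) (Ko Φ i) T) =
      dF (Fo i) (Ko Φ i) (dE (Eo Φ i) (Ko' Φ i) T) +
        (vv Φ i - (vv Φ i)⁻¹)⁻¹ • (dK (Ko Φ i) T - dK (Ko' Φ i) T) :=
  dE_dF_gen_eq _ _ _ _ _ _ (Ko'_F_apply i i) (Ko_E_apply i i) (Eo_Fo_eq_apply i) T

/-! ### the braiding -/

theorem cf_bv (l : {l // l ∈ Λ}) (w : List (Fin X.rank)) (y : FM Λ) :
    cf Φ (bv (l, w) ⊗ₜ[FF] y) = cw Φ l w y := by
  unfold cf
  rw [TensorProduct.lift.tmul]
  congr 1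
  exact (bas Λ).constr_basis FF _ (l, w)

end E4


theorem cf_top (l : {l // l ∈ Λ}) (y : FM Λ) :
    cf Φ (bv (l, []) ⊗ₜ[FF] y) = (Dg (fun μ => tt ^ Φ.ip l.1 μ) y) ⊗ₜ[FF] bv (l, []) := by
  rw [E4.cf_bv]
  rfl

theorem cf_F (i : Fin X.rank) :
    (cf Φ : Module.End FF (FM Λ ⊗[FF] FM Λ)) * dF (Fo i) (Ko Φ i) =
      dF (Fo i) (Ko Φ i) * cf Φ := by
  apply TensorProduct.ext
  refine (bas Λ).ext fun b => ?_
  apply LinearMap.ext
  intro y
  obtain ⟨l, w⟩ := b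
  change cf Φ (dF (Fo i) (Ko Φ i) (bv (l, w) ⊗ₜ[FF] y)) =
    dF (Fo i) (Ko Φ i) (cf Φ (bv (l, w) ⊗ₜ[FF] y))
  rw [E4.dF_tmul, map_add, Fo_bv, E4.cf_bv, E4.cf_bv, E4.cf_bv]
  change (dF (Fo i) (Ko Φ i) (cw Φ l w (Ko' Φ i (Ko Φ i y))) -
    cw Φ l w (Fo i (Ko' Φ i (Ko Φ i y)))) + cw Φ l w (Fo i y) = _
  rw [E4.Ko'_Ko_apply, sub_add_cancel]

namespace E4

theorem cf_F_apply (i : Fin X.rank) (T : FM Λ ⊗[FF] FM Λ) :
    cf Φ (dF (Fo i) (Ko Φ i) T) = dF (Fo i) (Ko Φ i) (cf Φ T) := by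
  have := end_apply (cf_F (Φ := Φ) (Λ := Λ) i) T
  rwa [Module.End.mul_apply, Module.End.mul_apply] at this

end E4

theorem cf_K (i : Fin X.rank) :
    (cf Φ : Module.End FF (FM Λ ⊗[FF] FM Λ)) * dK (Ko Φ i) = dK (Ko Φ i) * cf Φ := by
  refine E4.op_ext Φ ?_ ?_
  · intro l y
    change cf Φ (dK (Ko Φ i) (bv (l, []) ⊗ₜ[FF] y)) = dK (Ko Φ i) (cf Φ (bv (l, []) ⊗ₜ[FF] y))
    have h1 : Ko Φ i (bv (l, [])) = vv Φ i ^ (l.1 i) • bv (l, []) := by
      unfold Ko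
      rw [Dg_bv, wt_nil]
    have h2 : Dg (fun μ => tt ^ Φ.ip l.1 μ) (Ko Φ i y) =
        Ko Φ i (Dg (fun μ => tt ^ Φ.ip l.1 μ) y) := E4.Dg_comm_apply _ _ y
    rw [E4.dK_tmul, h1, ← TensorProduct.smul_tmul', map_smul, cf_top, cf_top, E4.dK_tmul, h1, h2,
      TensorProduct.tmul_smul]
  · intro j T hT
    change cf Φ (dK (Ko Φ i) T) = dK (Ko Φ i) (cf Φ T) at hT
    change cf Φ (dK (Ko Φ i) (dF (Fo j) (Ko Φ j) T)) = dK (Ko Φ i) (cf Φ (dF (Fo j) (Ko Φ j) T))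
    rw [E4.dK_dF_apply, map_smul, E4.cf_F_apply, hT, E4.cf_F_apply, E4.dK_dF_apply]

namespace E4

theorem cf_K_apply (i : Fin X.rank) (T : FM Λ ⊗[FF] FM Λ) :
    cf Φ (dK (Ko Φ i) T) = dK (Ko Φ i) (cf Φ T) := by
  have := end_apply (cf_K (Φ := Φ) (Λ := Λ) i) T
  rwa [Module.End.mul_apply, Module.End.mul_apply] at this

theorem dK_dK' (i : Fin X.rank) (T : FM Λ ⊗[FF] FM Λ) :
    dK (Ko Φ i) (dK (Ko' Φ i) T) = T := by
  induction T using TensorProduct.induction_on with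
  | zero => simp
  | tmul x y => rw [dK_tmul, dK_tmul, Ko_Ko'_apply, Ko_Ko'_apply]
  | add x y hx hy => rw [map_add, map_add, hx, hy]

theorem dK'_dK (i : Fin X.rank) (T : FM Λ ⊗[FF] FM Λ) :
    dK (Ko' Φ i) (dK (Ko Φ i) T) = T := by
  induction T using TensorProduct.induction_on with
  | zero => simp
  | tmul x y => rw [dK_tmul, dK_tmul, Ko'_Ko_apply, Ko'_Ko_apply]
  | add x y hx hy => rw [map_add, map_add, hx, hy]

theorem cf_K'_apply (i : Fin X.rank) (T : FM Λ ⊗[FF] FM Λ) :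
    cf Φ (dK (Ko' Φ i) T) = dK (Ko' Φ i) (cf Φ T) := by
  have h := cf_K_apply (Φ := Φ) i (dK (Ko' Φ i) T)
  rw [dK_dK'] at h
  rw [h, dK'_dK]

theorem Dg_E_ip (l : X.Weight) (j : Fin X.rank) (y : FM Λ) :
    Dg (fun μ => tt ^ Φ.ip l μ) (Eo Φ j y) =
      vv Φ j ^ (l j) • Eo Φ j (Dg (fun μ => tt ^ Φ.ip l μ) y) := by
  have h1 := end_apply (Dg_E (Φ := Φ) (Λ := Λ) (fun μ => tt ^ Φ.ip l μ) j) y
  change Dg (fun μ => tt ^ Φ.ip l μ) (Eo Φ j y) = Eo Φ j (Dg _ y) at h1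
  rw [h1, ← map_smul]
  congr 1
  have h2 : (Dg (fun μ => tt ^ Φ.ip l (μ + X.root j)) : Module.End FF (FM Λ)) =
      vv Φ j ^ (l j) • Dg (fun μ => tt ^ Φ.ip l μ) := by
    refine (bas Λ).ext fun b => ?_
    change Dg _ (bv b) = vv Φ j ^ (l j) • Dg _ (bv b)
    rw [Dg_bv, Dg_bv, smul_smul, ip_add_right, ip_root_right, zpow_add₀ tt_ne, mul_comm]
    congr 2
    unfold vv
    rw [← _root_.zpow_mul]
  exact end_apply h2 y

theorem Dg_F_ip (l : X.Weight) (j : Fin X.rank) (y : FM Λ) :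
    Dg (fun μ => tt ^ Φ.ip l μ) (Fo j y) =
      vv Φ j ^ (-l j) • Fo j (Dg (fun μ => tt ^ Φ.ip l μ) y) := by
  have h1 := end_apply (Dg_F (Λ := Λ) (fun μ => tt ^ Φ.ip l μ) j) y
  change Dg (fun μ => tt ^ Φ.ip l μ) (Fo j y) = Fo j (Dg _ y) at h1
  rw [h1, ← map_smul]
  congr 1
  have h2 : (Dg (fun μ => tt ^ Φ.ip l (μ - X.root j)) : Module.End FF (FM Λ)) =
      vv Φ j ^ (-l j) • Dg (fun μ => tt ^ Φ.ip l μ) := by
    refine (bas Λ).ext fun b => ?_
    change Dg _ (bv b) = vv Φ j ^ (-l j) • Dg _ (bv b)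
    rw [Dg_bv, Dg_bv, smul_smul, ip_sub_right, ip_root_right, sub_eq_add_neg, zpow_add₀ tt_ne,
      mul_comm]
    congr 2
    unfold vv
    rw [← _root_.zpow_mul]
    congr 1
    ring
  exact end_apply h2 y

end E4

theorem cf_E (i : Fin X.rank) :
    (cf Φ : Module.End FF (FM Λ ⊗[FF] FM Λ)) * dE (Eo Φ i) (Ko' Φ i) =
      dE (Eo Φ i) (Ko' Φ i) * cf Φ := by
  refine E4.op_ext Φ ?_ ?_
  · intro l y
    change cf Φ (dE (Eo Φ i) (Ko' Φ i) (bv (l, []) ⊗ₜ[FF] y)) =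
      dE (Eo Φ i) (Ko' Φ i) (cf Φ (bv (l, []) ⊗ₜ[FF] y))
    have h1 : Ko' Φ i (bv (l, [])) = vv Φ i ^ (-l.1 i) • bv (l, []) := by
      unfold Ko'
      rw [Dg_bv, wt_nil]
    rw [E4.dE_tmul, Eo_nil, TensorProduct.zero_tmul, zero_add, h1, ← TensorProduct.smul_tmul',
      map_smul, cf_top, cf_top, E4.dE_tmul, Eo_nil, TensorProduct.tmul_zero, add_zero, E4.Dg_E_ip,
      ← TensorProduct.smul_tmul', smul_smul, ← zpow_add₀ (vv_ne i), neg_add_cancel, zpow_zero,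
      one_smul]
  · intro j T hT
    change cf Φ (dE (Eo Φ i) (Ko' Φ i) T) = dE (Eo Φ i) (Ko' Φ i) (cf Φ T) at hT
    change cf Φ (dE (Eo Φ i) (Ko' Φ i) (dF (Fo j) (Ko Φ j) T)) =
      dE (Eo Φ i) (Ko' Φ i) (cf Φ (dF (Fo j) (Ko Φ j) T))
    by_cases hij : i = j
    · subst hij
      rw [E4.dE_dF_eq_apply, map_add, E4.cf_F_apply, hT, E4.cf_F_apply, E4.dE_dF_eq_apply, map_smul, map_sub,
        E4.cf_K_apply, E4.cf_K'_apply]
    · rw [E4.dE_dF_ne_apply hij, E4.cf_F_apply, hT, E4.cf_F_apply, E4.dE_dF_ne_apply hij]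

namespace E4

/-! ### the partial coordinate -/

/-- `φ_l ⊗ 1`, where `φ_l` is the coordinate at the highest weight vector -/
noncomputable def Pl (l : {l // l ∈ Λ}) : FM Λ ⊗[FF] FM Λ →ₗ[FF] FM Λ :=
  TensorProduct.lift ((LinearMap.lsmul FF (FM Λ)) ∘ₗ (bas Λ).coord (l, []))

theorem Pl_tmul (l : {l // l ∈ Λ}) (x y : FM Λ) :
    Pl l (x ⊗ₜ[FF] y) = (bas Λ).coord (l, []) x • y := by
  simp [Pl]

theorem coord_bv (b b' : Ix Λ) : (bas Λ).coord b (bv b') = if b' = b then 1 else 0 := by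
  unfold bv
  rw [Module.Basis.coord_apply, Module.Basis.repr_self, Finsupp.single_apply]

theorem coord_Dg (g : X.Weight → FF) (l : {l // l ∈ Λ}) (y : FM Λ) :
    (bas Λ).coord (l, []) (Dg g y) = g l.1 * (bas Λ).coord (l, []) y := by
  have h : (bas Λ).coord (l, []) ∘ₗ Dg g = g l.1 • (bas Λ).coord (l, []) := by
    refine (bas Λ).ext fun b => ?_
    change (bas Λ).coord (l, []) (Dg g (bv b)) = g l.1 • (bas Λ).coord (l, []) (bv b)
    rw [Dg_bv, map_smul, coord_bv]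
    split_ifs with hb
    · rw [hb, wt_nil]
    · simp
  exact LinearMap.congr_fun h y

theorem coord_F (i : Fin X.rank) (l : {l // l ∈ Λ}) (y : FM Λ) :
    (bas Λ).coord (l, []) (Fo i y) = 0 := by
  have h : (bas Λ).coord (l, []) ∘ₗ Fo i = 0 := by
    refine (bas Λ).ext fun b => ?_
    change (bas Λ).coord (l, []) (Fo i (bv b)) = 0
    rw [Fo_bv, coord_bv, if_neg]
    intro h
    simp at h
  exact LinearMap.congr_fun h y

theorem Pl_dF (i : Fin X.rank) (l : {l // l ∈ Λ}) (T : FM Λ ⊗[FF] FM Λ) :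
    Pl l (dF (Fo i) (Ko Φ i) T) = Fo i (Pl l T) := by
  induction T using TensorProduct.induction_on with
  | zero => simp
  | tmul x y => rw [dF_tmul, map_add, Pl_tmul, Pl_tmul, Pl_tmul, coord_F, zero_smul, zero_add,
      map_smul]
  | add x y hx hy => rw [map_add, map_add, map_add, map_add, hx, hy]

/-- `(φ_l ⊗ 1) c (x ⊗ y) = φ_l(y) D_l x` -/
theorem Pl_cf (l : {l // l ∈ Λ}) (x y : FM Λ) :
    Pl l (cf Φ (x ⊗ₜ[FF] y)) =
      (bas Λ).coord (l, []) y • Dg (fun μ => tt ^ Φ.ip l.1 μ) x := by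
  let R : FM Λ ⊗[FF] FM Λ →ₗ[FF] FM Λ := TensorProduct.lift
    (((LinearMap.lsmul FF (FM Λ)) ∘ₗ (bas Λ).coord (l, [])).flip ∘ₗ
      Dg (fun μ => tt ^ Φ.ip l.1 μ))
  have hR : ∀ x y : FM Λ, R (x ⊗ₜ[FF] y) =
      (bas Λ).coord (l, []) y • Dg (fun μ => tt ^ Φ.ip l.1 μ) x := by
    intro x y
    simp [R]
  have key : Pl l ∘ₗ cf Φ = R := by
    refine op_ext Φ ?_ ?_
    · intro m y
      change Pl l (cf Φ (bv (m, []) ⊗ₜ[FF] y)) = R (bv (m, []) ⊗ₜ[FF] y)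
      rw [cf_top, Pl_tmul, coord_Dg, hR, Dg_bv, wt_nil, smul_smul, mul_comm, Φ.symm]
    · intro i T hT
      change Pl l (cf Φ T) = R T at hT
      change Pl l (cf Φ (dF (Fo i) (Ko Φ i) T)) = R (dF (Fo i) (Ko Φ i) T)
      rw [cf_F_apply, Pl_dF, hT]
      clear hT
      induction T using TensorProduct.induction_on with
      | zero => simp
      | tmul x y =>
        rw [dF_tmul, map_add, hR, hR, hR, coord_F, zero_smul, add_zero, Dg_F_ip, map_smul]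
        have h1 : (bas Λ).coord (l, []) (Ko Φ i y) =
            vv Φ i ^ (l.1 i) * (bas Λ).coord (l, []) y := coord_Dg _ l y
        rw [h1, smul_smul]
        congr 1
        rw [mul_comm, ← mul_assoc, ← zpow_add₀ (vv_ne i), neg_add_cancel, zpow_zero, one_mul]
      | add x y hx hy => rw [map_add, map_add, map_add, map_add, hx, hy]
  rw [← hR, ← key]
  rfl

/-! ### the form on the tensor square -/

theorem BB_add (T T' S : FM Λ ⊗[FF] FM Λ) : BB Φ (T + T') S = BB Φ T S + BB Φ T' S := by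
  unfold BB
  rw [map_add, LinearMap.comp_add, LinearMap.add_apply]

theorem BB_smul (c : FF) (T S : FM Λ ⊗[FF] FM Λ) : BB Φ (c • T) S = c * BB Φ T S := by
  unfold BB
  rw [map_smul]
  simp

theorem BB_zero (S : FM Λ ⊗[FF] FM Λ) : BB Φ 0 S = 0 := by
  unfold BB
  rw [map_zero]
  simp

theorem BB_top (l : {l // l ∈ Λ}) (y : FM Λ) (Z : FM Λ ⊗[FF] FM Λ) :
    BB Φ (bv (l, []) ⊗ₜ[FF] y) Z = Bf Φ y (Pl l Z) := by
  induction Z using TensorProduct.induction_on with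
  | zero => simp
  | tmul a b => rw [BB_tmul, Bf_top, Pl_tmul, map_smul, smul_eq_mul]
  | add x y hx hy => rw [map_add, map_add, map_add, hx, hy]

theorem BB_dF (i : Fin X.rank) (T S : FM Λ ⊗[FF] FM Λ) :
    BB Φ (dF (Fo i) (Ko Φ i) T) S =
      BB Φ T (dK (Ko Φ i) (dE (Eo Φ i) (Ko' Φ i) S)) := by
  induction T using TensorProduct.induction_on with
  | zero => rw [map_zero, BB_zero, BB_zero]
  | tmul x y =>
    induction S using TensorProduct.induction_on with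
    | zero => simp
    | tmul x' y' =>
      have hK : ∀ a b : FM Λ, Bf Φ (Ko Φ i a) b = Bf Φ a (Ko Φ i b) := fun a b => Bf_D _ a b
      rw [dF_tmul, BB_add, BB_tmul, BB_tmul, dE_tmul, map_add, dK_tmul, dK_tmul, map_add, BB_tmul,
        BB_tmul, Bf_F, Bf_F, hK, Ko_Ko'_apply]
    | add a b ha hb => rw [map_add, map_add, map_add, map_add, ha, hb]
  | add a b ha hb => rw [map_add, BB_add, ha, hb, BB_add]

end E4

theorem cf_adj (T S : FM Λ ⊗[FF] FM Λ) : BB Φ (cf Φ T) S = BB Φ T (cf Φ S) := by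
  let W : Submodule FF (FM Λ ⊗[FF] FM Λ) :=
    { carrier := {T | ∀ S, BB Φ (cf Φ T) S = BB Φ T (cf Φ S)}
      add_mem' := by
        intro a b ha hb S
        rw [map_add, E4.BB_add, E4.BB_add, ha S, hb S]
      zero_mem' := by
        intro S
        rw [map_zero, E4.BB_zero, E4.BB_zero]
      smul_mem' := by
        intro c x hx S
        rw [map_smul, E4.BB_smul, E4.BB_smul, hx S] }
  refine E4.tensor_le Φ W ?_ ?_ T S
  · intro l y S
    rw [cf_top, E4.BB_top]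
    induction S using TensorProduct.induction_on with
    | zero => simp
    | tmul x' y' => rw [BB_tmul, E4.Pl_cf, Bf_top, Bf_D, map_smul, smul_eq_mul, mul_comm]
    | add a b ha hb => rw [map_add, map_add, map_add, map_add, ha, hb]
  · intro i T hT S
    have hE : ∀ U : FM Λ ⊗[FF] FM Λ, cf Φ (dE (Eo Φ i) (Ko' Φ i) U) =
        dE (Eo Φ i) (Ko' Φ i) (cf Φ U) := fun U => E4.end_apply (cf_E i) U
    rw [E4.cf_F_apply, E4.BB_dF, hT, E4.cf_K_apply, hE, E4.BB_dF]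

end Pool.Agent.QInv75.Ex
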