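import Pool.Agent.QInv75.Free

/-!
# Package E5: integrable highest weight modules are finite dimensional
-/

set_option autoImplicit false

namespace Pool.Agent.QInv75.Ex

variable {X : Dynkin}

/-! ## The numerical part -/

section numerical

/-- `∑ b_ij β_i β_j ≤ 2 ∑ d_i l_i β_i` bounds `∑ β_i` -/
theorem bound_of_quad {r : ℕ} (a : Fin r → Fin r → ℤ) (d u l : Fin r → ℤ) (β : Fin r → ℤ)
    (hd : ∀ i, 0 < d i) (hu : ∀ i, 0 < u i) (hau : ∀ i, ∑ j, a i j * u j = 2)
    (hsymm : ∀ i j, d i * a i j = d j * a j i) (hneg : ∀ i j, i ≠ j → a i j ≤ 0)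
    (hβ : ∀ i, 0 ≤ β i)
    (hQ : ∑ i, ∑ j, d i * a i j * β i * β j ≤ 2 * ∑ i, d i * l i * β i) :
    4 * ∑ i, β i ≤ ∑ i, d i * u i * (l i + 1) ^ 2 := by
  have hu' : ∀ i, (0 : ℚ) < u i := fun i => by exact_mod_cast hu i
  have hd' : ∀ i, (0 : ℚ) < d i := fun i => by exact_mod_cast hd i
  have hβ' : ∀ i, (0 : ℚ) ≤ β i := fun i => by exact_mod_cast hβ i
  set x : Fin r → ℚ := fun i => β i / u i with hx
  have hxu : ∀ i, (β i : ℚ) = u i * x i := by
    intro i
    rw [hx]
    field_simp [(hu' i).ne']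
  -- the quadratic form in terms of x
  have h1 : ∑ i, 2 * (d i : ℚ) * u i * x i ^ 2 ≤ ∑ i, ∑ j, (d i : ℚ) * a i j * β i * β j := by
    have e1 : ∀ i, 2 * (d i : ℚ) * u i * x i ^ 2 =
        ∑ j, (d i : ℚ) * a i j * u i * u j * x i ^ 2 := by
      intro i
      have : (∑ j, (a i j : ℚ) * u j) = 2 := by exact_mod_cast hau i
      calc 2 * (d i : ℚ) * u i * x i ^ 2 = (∑ j, (a i j : ℚ) * u j) * (d i * u i * x i ^ 2) := by
            rw [this]; ring
        _ = _ := by
            rw [Finset.sum_mul]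
            refine Finset.sum_congr rfl fun j _ => ?_
            ring
    have e2 : ∑ i, ∑ j, (d i : ℚ) * a i j * u i * u j * x i ^ 2 =
        ∑ i, ∑ j, (d i : ℚ) * a i j * u i * u j * x j ^ 2 := by
      rw [Finset.sum_comm]
      refine Finset.sum_congr rfl fun i _ => Finset.sum_congr rfl fun j _ => ?_
      have : (d j : ℚ) * a j i = d i * a i j := by exact_mod_cast (hsymm j i)
      rw [this]
      ring
    have e3 : ∑ i, ∑ j, (d i : ℚ) * a i j * u i * u j * (x i - x j) ^ 2 ≤ 0 := by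
      refine Finset.sum_nonpos fun i _ => Finset.sum_nonpos fun j _ => ?_
      by_cases hij : i = j
      · subst hij
        simp
      · have h1 : (a i j : ℚ) ≤ 0 := by exact_mod_cast hneg i j hij
        have h2 : (0 : ℚ) ≤ d i * u i * u j * (x i - x j) ^ 2 := by
          have := hd' i
          have := hu' i
          have := hu' j
          positivity
        nlinarith [mul_nonneg (neg_nonneg.mpr h1) h2]
    have e4 : ∑ i, ∑ j, (d i : ℚ) * a i j * u i * u j * (x i - x j) ^ 2 =
        ∑ i, ∑ j, (d i : ℚ) * a i j * u i * u j * x i ^ 2 +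
        ∑ i, ∑ j, (d i : ℚ) * a i j * u i * u j * x j ^ 2 -
        2 * ∑ i, ∑ j, (d i : ℚ) * a i j * β i * β j := by
      rw [Finset.mul_sum, ← Finset.sum_add_distrib, ← Finset.sum_sub_distrib]
      refine Finset.sum_congr rfl fun i _ => ?_
      rw [Finset.mul_sum, ← Finset.sum_add_distrib, ← Finset.sum_sub_distrib]
      refine Finset.sum_congr rfl fun j _ => ?_
      rw [hxu i, hxu j]
      ring
    rw [Finset.sum_congr rfl fun i _ => e1 i]
    linarith
  have h2 : ∑ i, ∑ j, (d i : ℚ) * a i j * β i * β j ≤ 2 * ∑ i, (d i : ℚ) * l i * β i := by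
    exact_mod_cast hQ
  have h3 : 2 * ∑ i, (d i : ℚ) * u i * (x i ^ 2 - l i * x i) ≤ 0 := by
    have : 2 * ∑ i, (d i : ℚ) * u i * (x i ^ 2 - l i * x i) =
        ∑ i, 2 * (d i : ℚ) * u i * x i ^ 2 - 2 * ∑ i, (d i : ℚ) * l i * β i := by
      rw [Finset.mul_sum, Finset.mul_sum, ← Finset.sum_sub_distrib]
      refine Finset.sum_congr rfl fun i _ => ?_
      rw [hxu i]
      ring
    linarith
  have h4 : ∀ i, (4 * (β i : ℚ)) - d i * u i * (l i + 1) ^ 2 ≤
      4 * ((d i : ℚ) * u i * (x i ^ 2 - l i * x i)) := by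
    intro i
    have hd1 : (1 : ℚ) ≤ d i := by exact_mod_cast hd i
    have hx0 : 0 ≤ x i := div_nonneg (hβ' i) (hu' i).le
    have k1 : (β i : ℚ) ≤ d i * u i * x i := by
      rw [mul_assoc, ← hxu i]
      nlinarith [hβ' i]
    have k2 : (0 : ℚ) ≤ d i * u i * (2 * x i - (l i + 1)) ^ 2 := by
      have := hd' i
      have := hu' i
      positivity
    nlinarith
  have h5 : ∑ i, ((4 * (β i : ℚ)) - d i * u i * (l i + 1) ^ 2) ≤
      ∑ i, 4 * ((d i : ℚ) * u i * (x i ^ 2 - l i * x i)) := Finset.sum_le_sum fun i _ => h4 i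
  have h6 : 4 * ∑ i, (β i : ℚ) ≤ ∑ i, (d i : ℚ) * u i * (l i + 1) ^ 2 := by
    rw [Finset.sum_sub_distrib, ← Finset.mul_sum, ← Finset.mul_sum] at h5
    linarith
  exact_mod_cast h6

end numerical

/-! ## Local nilpotency -/

section nilpotent

variable {k V : Type*} [Field k] [AddCommGroup V] [Module k V]

/-- vectors killed by a power of `f` -/
def nilSub (f : Module.End k V) : Submodule k V where
  carrier := {x | ∃ m : ℕ, (f ^ m) x = 0}
  add_mem' := by
    rintro x y ⟨m, hm⟩ ⟨n, hn⟩
    refine ⟨m + n, ?_⟩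
    rw [map_add]
    have h1 : (f ^ (m + n)) x = 0 := by
      rw [add_comm, pow_add, Module.End.mul_apply, hm, map_zero]
    have h2 : (f ^ (m + n)) y = 0 := by
      rw [pow_add, Module.End.mul_apply, hn, map_zero]
    rw [h1, h2, add_zero]
  zero_mem' := ⟨0, by simp⟩
  smul_mem' := by
    rintro c x ⟨m, hm⟩
    exact ⟨m, by rw [map_smul, hm, smul_zero]⟩

theorem mem_nilSub {f : Module.End k V} {x : V} : x ∈ nilSub f ↔ ∃ m : ℕ, (f ^ m) x = 0 := Iff.rfl

theorem nilSub_pow {f : Module.End k V} {x : V} (m : ℕ) (h : (f ^ m) x ∈ nilSub f) :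
    x ∈ nilSub f := by
  obtain ⟨n, hn⟩ := h
  refine ⟨n + m, ?_⟩
  rw [pow_add, Module.End.mul_apply, hn]

theorem nilSub_apply {f : Module.End k V} {x : V} (h : x ∈ nilSub f) : f x ∈ nilSub f := by
  obtain ⟨n, hn⟩ := h
  refine ⟨n, ?_⟩
  rw [← Module.End.mul_apply, ← pow_succ, pow_succ', Module.End.mul_apply, hn, map_zero]

theorem nilSub_pow_apply {f : Module.End k V} {x : V} (h : x ∈ nilSub f) (m : ℕ) :
    (f ^ m) x ∈ nilSub f := by
  induction m with
  | zero => simpa using h
  | succ m ih => rw [pow_succ', Module.End.mul_apply]; exact nilSub_apply ih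

/-- a Serre type relation implies that `g` preserves the vectors on which `f` is nilpotent -/
theorem nilSub_of_serre {f g : Module.End k V} {n : ℕ} (c : ℕ → k) (hc : c 0 = 1)
    (h : ∑ s ∈ Finset.range (n + 1), c s • (f ^ (n - s) * g * f ^ s) = 0) {x : V}
    (hx : x ∈ nilSub f) : g x ∈ nilSub f := by
  obtain ⟨m, hm⟩ := hx
  have key : ∀ t : ℕ, ∀ q : ℕ, m ≤ q + t → g ((f ^ q) x) ∈ nilSub f := by
    intro t
    induction t with
    | zero =>
      intro q hq
      have : (f ^ q) x = 0 := by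
        obtain ⟨p, rfl⟩ := Nat.exists_eq_add_of_le (show m ≤ q by omega)
        rw [add_comm, pow_add, Module.End.mul_apply, hm, map_zero]
      rw [this, map_zero]
      exact zero_mem _
    | succ t ih =>
      intro q hq
      apply nilSub_pow n
      have h1 := congrArg (fun T : Module.End k V => T ((f ^ q) x)) h
      simp only [LinearMap.zero_apply] at h1
      rw [Finset.sum_range_succ', LinearMap.add_apply, hc, one_smul, Nat.sub_zero, pow_zero,
        mul_one, Module.End.mul_apply, LinearMap.sum_apply] at h1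
      rw [eq_neg_of_add_eq_zero_right h1]
      refine neg_mem (Submodule.sum_mem _ fun s _ => ?_)
      rw [LinearMap.smul_apply, Module.End.mul_apply, Module.End.mul_apply]
      refine Submodule.smul_mem _ _ (nilSub_pow_apply ?_ _)
      rw [← Module.End.mul_apply (f ^ (s + 1)), ← pow_add]
      exact ih _ (by omega)
  simpa using key m 0 (by omega)

end nilpotent

/-! ## The spans of words of given content -/

section words

variable {Φ : WeightForm X} {V : Type*} [AddCommGroup V] [Module FF V]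

/-- the hypotheses -/
structure HW (Φ : WeightForm X) (E F K K' : Fin X.rank → Module.End FF V) (l : X.Weight)
    (v : V) : Prop where
  K'K : ∀ i, K' i * K i = 1
  KE : ∀ i j, K i * E j = vv Φ i ^ (X.a i j) • (E j * K i)
  KF : ∀ i j, K i * F j = vv Φ i ^ (-X.a i j) • (F j * K i)
  EF : ∀ i j, E i * F j - F j * E i =
    if i = j then (vv Φ i - (vv Φ i)⁻¹)⁻¹ • (K i - K' i) else 0
  hK : ∀ i, K i v = vv Φ i ^ (l i) • v
  hE : ∀ i, E i v = 0

/-- the span of the words of content `β` -/
noncomputable def Wb (F : Fin X.rank → Module.End FF V) (v : V) (β : Fin X.rank → ℤ) : Submodule FF V :=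
  Submodule.span FF {x | ∃ w : List (Fin X.rank), (∀ i, (w.count i : ℤ) = β i) ∧
    x = (w.map F).prod v}

variable {E F K K' : Fin X.rank → Module.End FF V} {l : X.Weight} {v : V}

theorem Wb_word (w : List (Fin X.rank)) :
    (w.map F).prod v ∈ Wb F v (fun i => (w.count i : ℤ)) :=
  Submodule.subset_span ⟨w, fun _ => rfl, rfl⟩

theorem Wb_nonneg {β : Fin X.rank → ℤ} {x : V} (hx : x ∈ Wb F v β) (h0 : x ≠ 0) :
    ∀ i, 0 ≤ β i := by
  by_contra hcon
  apply h0
  have : {x | ∃ w : List (Fin X.rank), (∀ i, (w.count i : ℤ) = β i) ∧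
      x = (w.map F).prod v} = ∅ := by
    ext y
    simp only [Set.mem_ofPred_eq, Set.mem_empty_iff_false, iff_false]
    rintro ⟨w, hw, -⟩
    exact hcon fun i => by rw [← hw i]; positivity
  unfold Wb at hx
  rw [this, Submodule.span_empty] at hx
  exact (Submodule.mem_bot FF).mp hx

theorem count_cons_eq (w : List (Fin X.rank)) (j : Fin X.rank) :
    (fun i => ((j :: w).count i : ℤ)) = (fun i => (w.count i : ℤ)) + Pi.single j 1 := by
  funext i
  rw [List.count_cons, Pi.add_apply]
  by_cases h : j = i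
  · subst h; simp
  · simp [h, Ne.symm h]

theorem Wb_F {β : Fin X.rank → ℤ} {x : V} (hx : x ∈ Wb F v β) (j : Fin X.rank) :
    F j x ∈ Wb F v (β + Pi.single j 1) := by
  unfold Wb at hx
  induction hx using Submodule.span_induction with
  | mem x hx =>
    obtain ⟨w, hw, rfl⟩ := hx
    have hβ : β = fun i => (w.count i : ℤ) := funext fun i => (hw i).symm
    rw [hβ, ← count_cons_eq]
    exact Wb_word (j :: w)
  | zero => rw [map_zero]; exact zero_mem _
  | add x y _ _ hx hy => rw [map_add]; exact add_mem hx hy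
  | smul c x _ hx => rw [map_smul]; exact Submodule.smul_mem _ _ hx

theorem Wb_Fpow {β : Fin X.rank → ℤ} {x : V} (hx : x ∈ Wb F v β) (j : Fin X.rank) (r : ℕ) :
    (F j ^ r) x ∈ Wb F v (β + Pi.single j (r : ℤ)) := by
  induction r with
  | zero => simpa using hx
  | succ r ih =>
    rw [pow_succ', Module.End.mul_apply]
    have := Wb_F ih j
    rw [add_assoc, ← Pi.single_add] at this
    exact_mod_cast this

/-- the weight of the vectors of content `β` -/
def mu (l : X.Weight) (β : Fin X.rank → ℤ) : X.Weight := fun i => l i - ∑ j, X.a i j * β j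

theorem mu_add_single (β : Fin X.rank → ℤ) (j : Fin X.rank) (t : ℤ) (i : Fin X.rank) :
    mu l (β + Pi.single j t) i = mu l β i - X.a i j * t := by
  unfold mu
  simp only [Pi.add_apply, mul_add, Finset.sum_add_distrib]
  rw [Finset.sum_eq_single j (f := fun k => X.a i k * (Pi.single j t : Fin X.rank → ℤ) k)]
  · rw [Pi.single_eq_same]; ring
  · intro k _ hk
    rw [Pi.single_eq_of_ne hk, mul_zero]
  · intro h
    exact absurd (Finset.mem_univ j) h

theorem Wb_K (H : HW Φ E F K K' l v) {β : Fin X.rank → ℤ} {x : V} (hx : x ∈ Wb F v β)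
    (i : Fin X.rank) : K i x = vv Φ i ^ (mu l β i) • x := by
  unfold Wb at hx
  induction hx using Submodule.span_induction with
  | mem x hx =>
    obtain ⟨w, hw, rfl⟩ := hx
    have hβ : β = fun i => (w.count i : ℤ) := funext fun i => (hw i).symm
    rw [hβ]
    clear hβ hw
    induction w with
    | nil => simp [mu, H.hK i]
    | cons j w ih =>
      rw [count_cons_eq, mu_add_single, List.map_cons, List.prod_cons, Module.End.mul_apply,
        ← Module.End.mul_apply (K i), H.KF, LinearMap.smul_apply, Module.End.mul_apply, ih, map_smul,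
        smul_smul, ← zpow_add₀ (vv_ne i)]
      congr 2
      ring
  | zero => rw [map_zero, smul_zero]
  | add x y _ _ hx hy => rw [map_add, hx, hy, smul_add]
  | smul c x _ hx => rw [map_smul, hx, smul_comm]

theorem Wb_K' (H : HW Φ E F K K' l v) {β : Fin X.rank → ℤ} {x : V} (hx : x ∈ Wb F v β)
    (i : Fin X.rank) : K' i x = vv Φ i ^ (-mu l β i) • x := by
  have h1 : K' i (K i x) = x := by
    rw [← Module.End.mul_apply, H.K'K, Module.End.one_apply]
  rw [Wb_K H hx, map_smul] at h1
  have h2 := congrArg (fun z => vv Φ i ^ (-mu l β i) • z) h1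
  simp only [smul_smul] at h2
  rwa [← zpow_add₀ (vv_ne i), neg_add_cancel, zpow_zero, one_smul] at h2

theorem Wb_EF (H : HW Φ E F K K' l v) {β : Fin X.rank → ℤ} {x : V} (hx : x ∈ Wb F v β)
    (i : Fin X.rank) : E i (F i x) = F i (E i x) + qn Φ i (mu l β i) • x := by
  have h1 := congrArg (fun T : Module.End FF V => T x) (H.EF i i)
  simp only [if_true, LinearMap.sub_apply, Module.End.mul_apply, LinearMap.smul_apply] at h1
  rw [Wb_K H hx, Wb_K' H hx, ← sub_smul, smul_smul] at h1
  rw [← sub_eq_iff_eq_add', h1]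
  congr 1
  unfold qn
  rw [div_eq_inv_mul]

theorem Wb_EF_ne (H : HW Φ E F K K' l v) {i j : Fin X.rank} (hij : i ≠ j) (x : V) :
    E i (F j x) = F j (E i x) := by
  have h1 := congrArg (fun T : Module.End FF V => T x) (H.EF i j)
  simp only [if_neg hij, LinearMap.sub_apply, Module.End.mul_apply, LinearMap.zero_apply] at h1
  exact sub_eq_zero.mp h1

theorem Wb_E (H : HW Φ E F K K' l v) {β : Fin X.rank → ℤ} {x : V} (hx : x ∈ Wb F v β)
    (i : Fin X.rank) : E i x ∈ Wb F v (β + Pi.single i (-1)) := by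
  unfold Wb at hx
  induction hx using Submodule.span_induction with
  | mem x hx =>
    obtain ⟨w, hw, rfl⟩ := hx
    have hβ : β = fun i => (w.count i : ℤ) := funext fun i => (hw i).symm
    rw [hβ]
    clear hβ hw
    induction w with
    | nil =>
      simp only [List.map_nil, List.prod_nil, Module.End.one_apply, H.hE]
      exact zero_mem _
    | cons j w ih =>
      rw [List.map_cons, List.prod_cons, Module.End.mul_apply, count_cons_eq]
      by_cases hij : i = j
      · subst hij
        rw [Wb_EF H (Wb_word w)]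
        refine add_mem ?_ (Submodule.smul_mem _ _ ?_)
        · have := Wb_F ih i
          rwa [add_right_comm] at this
        · have := Wb_word (F := F) (v := v) w
          rw [add_assoc, ← Pi.single_add]
          simpa using this
      · rw [Wb_EF_ne H hij]
        have := Wb_F ih j
        rwa [add_right_comm] at this
  | zero => rw [map_zero]; exact zero_mem _
  | add x y _ _ hx hy => rw [map_add]; exact add_mem hx hy
  | smul c x _ hx => rw [map_smul]; exact Submodule.smul_mem _ _ hx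

theorem Wb_Epow (H : HW Φ E F K K' l v) {β : Fin X.rank → ℤ} {x : V} (hx : x ∈ Wb F v β)
    (j : Fin X.rank) (r : ℕ) : (E j ^ r) x ∈ Wb F v (β + Pi.single j (-(r : ℤ))) := by
  induction r with
  | zero => simpa using hx
  | succ r ih =>
    rw [pow_succ', Module.End.mul_apply]
    have := Wb_E H ih j
    have e : -(r : ℤ) + -1 = -((r + 1 : ℕ) : ℤ) := by push_cast; ring
    rwa [add_assoc, ← Pi.single_add, e] at this

theorem vv_sub_ne (Φ : WeightForm X) (i : Fin X.rank) {a b : ℤ} (h : a ≠ b) :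
    vv Φ i ^ a - vv Φ i ^ b ≠ 0 := fun h1 => h (vv_pow_inj i (sub_eq_zero.mp h1))

theorem qn_ne (Φ : WeightForm X) (i : Fin X.rank) {a : ℤ} (h : a ≠ 0) : qn Φ i a ≠ 0 := by
  unfold qn
  refine div_ne_zero (vv_sub_ne Φ i (by omega)) ?_
  have := vv_sub_ne Φ i (show (1 : ℤ) ≠ -1 by norm_num)
  simpa using this

/-- `[k][p-k+1] + [p-2k] = [k+1][p-k]` -/
theorem qn_identity (Φ : WeightForm X) (i : Fin X.rank) (k p : ℤ) :
    qn Φ i k * qn Φ i (p - k + 1) + qn Φ i (p - 2 * k) = qn Φ i (k + 1) * qn Φ i (p - k) := by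
  have hne : vv Φ i - (vv Φ i)⁻¹ ≠ 0 := by
    have := vv_sub_ne Φ i (show (1 : ℤ) ≠ -1 by norm_num)
    simpa using this
  have h0 := vv_ne (Φ := Φ) i
  unfold qn
  rw [div_mul_div_comm, div_mul_div_comm, div_add_div _ _ (mul_ne_zero hne hne) hne,
    div_eq_div_iff (mul_ne_zero (mul_ne_zero hne hne) hne) (mul_ne_zero hne hne)]
  set z := vv Φ i with hz
  have hk : z ^ (-k) = (z ^ k)⁻¹ := zpow_neg _ _
  have hp : z ^ (p - k + 1) = z ^ p * (z ^ k)⁻¹ * z := by
    rw [zpow_add₀ h0, zpow_sub₀ h0, zpow_one]; ring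
  have hp' : z ^ (-(p - k + 1)) = (z ^ p)⁻¹ * z ^ k * z⁻¹ := by
    rw [zpow_neg, hp, mul_inv, mul_inv, inv_inv]
  have hp2 : z ^ (p - 2 * k) = z ^ p * (z ^ k)⁻¹ * (z ^ k)⁻¹ := by
    rw [zpow_sub₀ h0, two_mul, zpow_add₀ h0]
    field_simp
  have hp2' : z ^ (-(p - 2 * k)) = (z ^ p)⁻¹ * z ^ k * z ^ k := by
    rw [zpow_neg, hp2, mul_inv, mul_inv, inv_inv]
  have hk1 : z ^ (k + 1) = z ^ k * z := by rw [zpow_add₀ h0, zpow_one]
  have hk1' : z ^ (-(k + 1)) = (z ^ k)⁻¹ * z⁻¹ := by rw [zpow_neg, hk1, mul_inv]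
  have hpk : z ^ (p - k) = z ^ p * (z ^ k)⁻¹ := by rw [zpow_sub₀ h0]; ring
  have hpk' : z ^ (-(p - k)) = (z ^ p)⁻¹ * z ^ k := by rw [zpow_neg, hpk, mul_inv, inv_inv]
  rw [hk, hp, hp', hp2, hp2', hk1, hk1', hpk, hpk']
  have hzk : z ^ k ≠ 0 := zpow_ne_zero _ h0
  have hzp : z ^ p ≠ 0 := zpow_ne_zero _ h0
  generalize z ^ k = A at *
  generalize z ^ p = B at *
  field_simp
  ring

/-- lowest weight vectors for `sl_2` -/
theorem sl2_low (H : HW Φ E F K K' l v) {β : Fin X.rank → ℤ} {y : V} (hy : y ∈ Wb F v β)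
    (i : Fin X.rank) (haa : X.a i i = 2) (hF : F i y = 0) (k : ℕ) :
    F i ((E i ^ (k + 1)) y) =
      (qn Φ i (k + 1) * qn Φ i (-mu l β i - k)) • (E i ^ k) y := by
  induction k with
  | zero =>
    have h1 := Wb_EF H hy i
    rw [hF, map_zero] at h1
    rw [pow_succ', pow_zero, mul_one, Module.End.one_apply, eq_neg_of_add_eq_zero_left h1.symm]
    have h2 : qn Φ i ((0 : ℕ) + 1) = 1 := by
      unfold qn
      have hne : vv Φ i - (vv Φ i)⁻¹ ≠ 0 := by
        have := vv_sub_ne Φ i (show (1 : ℤ) ≠ -1 by norm_num)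
        simpa using this
      simp only [Nat.cast_zero, zero_add, zpow_one, zpow_neg_one]
      exact div_self hne
    rw [h2, one_mul, ← neg_smul]
    congr 1
    unfold qn
    rw [← neg_div]
    congr 1
    simp only [Nat.cast_zero, sub_zero, neg_neg, neg_sub]
  | succ k ih =>
    have hk := Wb_Epow H hy i (k + 1)
    have h1 := Wb_EF H hk i
    have h2 : F i ((E i ^ (k + 1 + 1)) y) = E i (F i ((E i ^ (k + 1)) y)) -
        qn Φ i (mu l (β + Pi.single i (-((k + 1 : ℕ) : ℤ))) i) • (E i ^ (k + 1)) y := by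
      rw [h1, pow_succ' _ (k + 1), Module.End.mul_apply]
      abel
    rw [h2, ih, map_smul, ← Module.End.mul_apply (E i), ← pow_succ', ← sub_smul]
    congr 1
    rw [mu_add_single, haa]
    have h3 := qn_identity Φ i (k + 1) (-mu l β i)
    have h4 : qn Φ i (mu l β i - 2 * -((k + 1 : ℕ) : ℤ)) =
        -qn Φ i (-mu l β i - 2 * (k + 1)) := by
      have ea : mu l β i - 2 * -((k + 1 : ℕ) : ℤ) = -(-mu l β i - 2 * (k + 1)) := by
        push_cast
        ring
      rw [ea]
      generalize (-mu l β i - 2 * ((k : ℤ) + 1)) = A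
      unfold qn
      rw [neg_neg]
      ring
    rw [h4, sub_neg_eq_add]
    have e1 : (-mu l β i - (k : ℤ)) = -mu l β i - (k + 1) + 1 := by ring
    rw [e1, h3]
    push_cast
    rfl

/-- reflection: if `β` is a content with `mu_i < 0`, then `β + mu_i` is also a content -/
theorem reflect (H : HW Φ E F K K' l v) (haa : ∀ i, X.a i i = 2)
    (hnil : ∀ i, ∀ β, Wb F v β ≤ nilSub (F i)) {β : Fin X.rank → ℤ} {x : V}
    (hx : x ∈ Wb F v β) (h0 : x ≠ 0) (i : Fin X.rank) (hi : mu l β i < 0) :
    ∃ y ∈ Wb F v (β + Pi.single i (mu l β i)), y ≠ 0 := by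
  classical
  have hex : ∃ m : ℕ, (F i ^ m) x = 0 := hnil i β hx
  obtain ⟨r, hr⟩ : ∃ r, Nat.find hex = r + 1 := by
    refine Nat.exists_eq_succ_of_ne_zero fun h => ?_
    have := Nat.find_spec hex
    rw [h, pow_zero] at this
    exact h0 this
  set y := (F i ^ r) x with hy
  have hy0 : y ≠ 0 := Nat.find_min hex (by omega)
  have hFy : F i y = 0 := by
    have := Nat.find_spec hex
    rwa [hr, pow_succ', Module.End.mul_apply] at this
  have hyW : y ∈ Wb F v (β + Pi.single i (r : ℤ)) := Wb_Fpow hx i r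
  have hmu : mu l (β + Pi.single i (r : ℤ)) i = mu l β i - 2 * r := by
    rw [mu_add_single, haa]
  have key : ∀ k : ℕ, (k : ℤ) ≤ -mu l β i + 2 * r → (E i ^ k) y ≠ 0 := by
    intro k
    induction k with
    | zero => intro _; simpa using hy0
    | succ k ih =>
      intro hk hcon
      have h1 := sl2_low H hyW i (haa i) hFy k
      rw [hcon, map_zero] at h1
      rcases smul_eq_zero.mp h1.symm with h2 | h2
      · rcases mul_eq_zero.mp h2 with h3 | h3
        · exact qn_ne Φ i (by omega) h3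
        · refine qn_ne Φ i ?_ h3
          rw [hmu]
          push_cast at hk
          omega
      · exact ih (by push_cast at hk; omega) h2
  obtain ⟨s, hs⟩ := Int.eq_ofNat_of_zero_le (show 0 ≤ -mu l β i by omega)
  refine ⟨(E i ^ (s + r)) y, ?_, key (s + r) (by push_cast; omega)⟩
  have := Wb_Epow H hyW i (s + r)
  have e : (r : ℤ) + -((s + r : ℕ) : ℤ) = mu l β i := by push_cast; omega
  rwa [add_assoc, ← Pi.single_add, e] at this

/-- the quadratic function of a content -/
def QQ (X : Dynkin) (l : X.Weight) (β : Fin X.rank → ℤ) : ℤ :=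
  ∑ i, ∑ j, X.d i * X.a i j * β i * β j - 2 * ∑ i, X.d i * l i * β i

theorem QQ_add_single (hsymm : ∀ i j, X.d i * X.a i j = X.d j * X.a j i)
    (haa : ∀ i, X.a i i = 2) (β : Fin X.rank → ℤ) (i : Fin X.rank) (t : ℤ) :
    QQ X l (β + Pi.single i t) = QQ X l β + 2 * t * X.d i * (t - mu l β i) := by
  unfold QQ mu
  obtain ⟨δ, hδ⟩ : ∃ δ : Fin X.rank → ℤ, δ = Pi.single i t := ⟨_, rfl⟩
  have h1 : ∀ f : Fin X.rank → ℤ, ∑ j, f j * δ j = f i * t := by
    intro f
    rw [hδ, Finset.sum_eq_single i]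
    · rw [Pi.single_eq_same]
    · intro k _ hk
      rw [Pi.single_eq_of_ne hk, mul_zero]
    · intro h
      exact absurd (Finset.mem_univ i) h
  rw [← hδ]
  have h2 : ∑ a, ∑ b, X.d a * X.a a b * (β + δ) a * (β + δ) b =
      ∑ a, ∑ b, X.d a * X.a a b * β a * β b + (∑ a, X.d a * X.a a i * β a) * t +
      (∑ b, X.d i * X.a i b * β b) * t + X.d i * 2 * t * t := by
    have e1 : ∀ a, ∑ b, X.d a * X.a a b * (β + δ) a * (β + δ) b =
        ∑ b, X.d a * X.a a b * β a * β b + X.d a * X.a a i * β a * t +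
        (∑ b, X.d a * X.a a b * β b) * δ a + (X.d a * X.a a i * t) * δ a := by
      intro a
      have e2 := h1 fun b => X.d a * X.a a b * β a
      have e2' := h1 fun b => X.d a * X.a a b * δ a
      have e3 : ∑ b, X.d a * X.a a b * (β + δ) a * (β + δ) b =
          ∑ b, X.d a * X.a a b * β a * β b + ∑ b, X.d a * X.a a b * β a * δ b +
          (∑ b, X.d a * X.a a b * β b) * δ a + ∑ b, X.d a * X.a a b * δ a * δ b := by
        rw [Finset.sum_mul, ← Finset.sum_add_distrib, ← Finset.sum_add_distrib,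
          ← Finset.sum_add_distrib]
        refine Finset.sum_congr rfl fun b _ => ?_
        rw [Pi.add_apply, Pi.add_apply]
        ring
      rw [e3, e2, e2']
      ring
    rw [Finset.sum_congr rfl fun a _ => e1 a]
    simp only [Finset.sum_add_distrib]
    rw [h1 fun a => ∑ b, X.d a * X.a a b * β b, h1 fun a => X.d a * X.a a i * t,
      ← Finset.sum_mul, haa]
  have h3 : ∑ a, X.d a * X.a a i * β a = X.d i * ∑ b, X.a i b * β b := by
    rw [Finset.mul_sum]
    refine Finset.sum_congr rfl fun a _ => ?_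
    rw [hsymm a i]
    ring
  have h4 : ∑ b, X.d i * X.a i b * β b = X.d i * ∑ b, X.a i b * β b := by
    rw [Finset.mul_sum]
    exact Finset.sum_congr rfl fun a _ => by ring
  have h5 : ∑ a, X.d a * l a * (β + δ) a = ∑ a, X.d a * l a * β a + X.d i * l i * t := by
    rw [← h1 fun a => X.d a * l a, ← Finset.sum_add_distrib]
    refine Finset.sum_congr rfl fun a _ => ?_
    rw [Pi.add_apply]
    ring
  rw [h2, h3, h4, h5]
  ring

theorem QQ_nonpos (H : HW Φ E F K K' l v) (hl : ∀ i, 0 ≤ l i)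
    (hsymm : ∀ i j, X.d i * X.a i j = X.d j * X.a j i) (haa : ∀ i, X.a i i = 2)
    (hnil : ∀ i, ∀ β, Wb F v β ≤ nilSub (F i)) :
    ∀ (n : ℕ) (β : Fin X.rank → ℤ) (x : V), x ∈ Wb F v β → x ≠ 0 → ∑ i, β i ≤ n →
      QQ X l β ≤ 0 := by
  intro n
  induction n using Nat.strong_induction_on with
  | _ n ih =>
    intro β x hx h0 hn
    have hβ := Wb_nonneg hx h0
    by_cases hmu : ∀ i, 0 ≤ mu l β i
    · have e1 : QQ X l β = -∑ i, X.d i * β i * (l i + mu l β i) := by
        unfold QQ mu
        rw [Finset.mul_sum, ← Finset.sum_sub_distrib, ← Finset.sum_neg_distrib]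
        refine Finset.sum_congr rfl fun i _ => ?_
        have : ∑ j, X.d i * X.a i j * β i * β j = X.d i * β i * ∑ j, X.a i j * β j := by
          rw [Finset.mul_sum]
          exact Finset.sum_congr rfl fun j _ => by ring
        rw [this]
        ring
      rw [e1]
      have : 0 ≤ ∑ i, X.d i * β i * (l i + mu l β i) :=
        Finset.sum_nonneg fun i _ => mul_nonneg (mul_nonneg (d_pos X i).le (hβ i))
          (add_nonneg (hl i) (hmu i))
      omega
    · push Not at hmu
      obtain ⟨i, hi⟩ := hmu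
      obtain ⟨y, hy, hy0⟩ := reflect H haa hnil hx h0 i hi
      have h1 := QQ_add_single (l := l) hsymm haa β i (mu l β i)
      have hsum : ∑ j, (β j + (Pi.single i (mu l β i) : Fin X.rank → ℤ) j) =
          ∑ j, β j + mu l β i := by
        rw [Finset.sum_add_distrib]
        congr 1
        rw [Finset.sum_eq_single i]
        · rw [Pi.single_eq_same]
        · intro k _ hk
          rw [Pi.single_eq_of_ne hk]
        · intro h
          exact absurd (Finset.mem_univ i) h
      have hpos : 0 ≤ ∑ j, (β j + (Pi.single i (mu l β i) : Fin X.rank → ℤ) j) :=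
        Finset.sum_nonneg fun j _ => Wb_nonneg hy hy0 j
      have h2 := ih (n - 1) (by omega) _ y hy hy0 (by
        show ∑ j, (β j + (Pi.single i (mu l β i) : Fin X.rank → ℤ) j) ≤ _
        omega)
      rw [h1] at h2
      simpa using h2

end words

/-- integrable highest weight modules are finite dimensional -/
theorem words_vanish_aux (haa : ∀ i, X.a i i = 2) (hneg : ∀ i j, i ≠ j → X.a i j ≤ 0)
    (hu : ∃ u : Fin X.rank → ℤ, (∀ i, 0 < u i) ∧ ∀ i, ∑ j, X.a i j * u j = 2)
    (Φ : WeightForm X) {V : Type*} [AddCommGroup V] [Module FF V]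
    (E F K K' : Fin X.rank → Module.End FF V)
    (K'K : ∀ i, K' i * K i = 1)
    (KE : ∀ i j, K i * E j = vv Φ i ^ (X.a i j) • (E j * K i))
    (KF : ∀ i j, K i * F j = vv Φ i ^ (-X.a i j) • (F j * K i))
    (EF : ∀ i j, E i * F j - F j * E i =
      if i = j then (vv Φ i - (vv Φ i)⁻¹)⁻¹ • (K i - K' i) else 0)
    (serreF : ∀ i j, i ≠ j → ∑ s ∈ Finset.range ((1 - X.a i j).toNat + 1),
      ((-1) ^ s * qBinom (vv Φ i) (1 - X.a i j).toNat s) •
        (F i ^ ((1 - X.a i j).toNat - s) * F j * F i ^ s) = 0)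
    (l : X.Weight) (hl : ∀ i, 0 ≤ l i) (v : V) (hK : ∀ i, K i v = vv Φ i ^ (l i) • v)
    (hE : ∀ i, E i v = 0) (hF : ∀ i, (F i ^ ((l i).toNat + 1)) v = 0) :
    ∃ H : ℕ, ∀ w : List (Fin X.rank), H < w.length → (w.map F).prod v = 0 := by
  have H : HW Φ E F K K' l v := ⟨K'K, KE, KF, EF, hK, hE⟩
  have hsymm : ∀ i j, X.d i * X.a i j = X.d j * X.a j i := by
    intro i j
    have h1 := Φ.root i (X.root j)
    have h2 := Φ.root j (X.root i)
    rw [Φ.symm, h2] at h1
    have hN : (Φ.N : ℤ) ≠ 0 := by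
      have := Φ.pos
      positivity
    have h3 : (Φ.N : ℤ) * (X.d j * X.a j i) = Φ.N * (X.d i * X.a i j) := by
      rw [← mul_assoc, ← mul_assoc]
      exact h1
    exact (mul_left_cancel₀ hN h3).symm
  have hq1 : ∀ i (n : ℕ), qBinom (vv Φ i) n 0 = 1 := by
    intro i n
    unfold qBinom
    have hfact : ∀ m, qFact (vv Φ i) m ≠ 0 := by
      intro m
      induction m with
      | zero => exact one_ne_zero
      | succ m ih =>
        unfold qFact
        refine mul_ne_zero ?_ ih
        unfold qInt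
        refine div_ne_zero ?_ ?_
        · have := vv_sub_ne Φ i (show ((m + 1 : ℕ) : ℤ) ≠ -((m + 1 : ℕ) : ℤ) by omega)
          rw [zpow_neg, zpow_natCast] at this
          rwa [inv_pow]
        · have := vv_sub_ne Φ i (show (1 : ℤ) ≠ -1 by norm_num)
          simpa using this
    rw [Nat.sub_zero, show qFact (vv Φ i) 0 = 1 from rfl, one_mul, div_self (hfact n)]
  have hnil : ∀ i, ∀ β, Wb F v β ≤ nilSub (F i) := by
    intro i β
    refine Submodule.span_le.mpr ?_
    rintro _ ⟨w, -, rfl⟩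
    show (w.map F).prod v ∈ nilSub (F i)
    induction w with
    | nil => exact ⟨_, by simpa using hF i⟩
    | cons j w ih =>
      rw [List.map_cons, List.prod_cons, Module.End.mul_apply]
      by_cases hij : i = j
      · subst hij
        exact nilSub_apply ih
      · refine nilSub_of_serre _ ?_ (serreF i j hij) ih
        rw [hq1, pow_zero, mul_one]
  obtain ⟨u, hu0, hu⟩ := hu
  refine ⟨(∑ i, X.d i * u i * (l i + 1) ^ 2).toNat, fun w hw => ?_⟩
  by_contra hne
  have h1 := QQ_nonpos H hl hsymm haa hnil (∑ i, (w.count i : ℤ)).toNat _ _ (Wb_word w) hne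
    (by
      have : 0 ≤ ∑ i, (w.count i : ℤ) := Finset.sum_nonneg fun i _ => by positivity
      omega)
  have h2 := bound_of_quad (fun i j => X.a i j) X.d u l (fun i => (w.count i : ℤ)) (d_pos X) hu0 hu
    hsymm hneg (fun i => by positivity) (by unfold QQ at h1; linarith)
  have h3 : ∑ i, (w.count i : ℤ) = w.length := by
    clear h1 h2 hw hne
    induction w with
    | nil => simp
    | cons j w ih =>
      have := congrArg (fun f : Fin X.rank → ℤ => ∑ i, f i) (count_cons_eq w j)
      simp only [Pi.add_apply, Finset.sum_add_distrib] at this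
      rw [this, ih]
      have h4 : ∑ i, (Pi.single j (1 : ℤ) : Fin X.rank → ℤ) i = 1 := by
        rw [Finset.sum_eq_single j]
        · rw [Pi.single_eq_same]
        · intro k _ hk
          rw [Pi.single_eq_of_ne hk]
        · intro h
          exact absurd (Finset.mem_univ j) h
      rw [h4]
      simp
  rw [h3] at h2
  omega

end Pool.Agent.QInv75.Ex
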