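import Pool.Agent.QInv75.C1

/-!
# Root data: diagonal and off-diagonal entries of the Cartan matrix, and `2ρ`
-/

set_option autoImplicit false

open Matrix Finset

namespace Pool.Agent.QInv75.Ex

theorem a_diag (X : Dynkin) (i : Fin X.rank) : X.a i i = 2 := by
  cases X with
  | A n =>
    change CartanMatrix.A (n + 1) i i = 2
    simp [CartanMatrix.A]
  | B n =>
    change CartanMatrix.B (n + 2) i i = 2
    simp [CartanMatrix.B]
  | C n =>
    change CartanMatrix.C (n + 3) i i = 2
    simp [CartanMatrix.C]
  | D n =>
    change CartanMatrix.D (n + 4) i i = 2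
    simp [CartanMatrix.D]
  | E6 => revert i; change ∀ i : Fin 6, CartanMatrix.E₆ i i = 2; decide
  | E7 => revert i; change ∀ i : Fin 7, CartanMatrix.E₇ i i = 2; decide
  | E8 => revert i; change ∀ i : Fin 8, CartanMatrix.E₈ i i = 2; decide
  | F4 => revert i; change ∀ i : Fin 4, CartanMatrix.F₄ i i = 2; decide
  | G2 => revert i; change ∀ i : Fin 2, CartanMatrix.G₂ i i = 2; decide

theorem a_nonpos (X : Dynkin) (i j : Fin X.rank) (h : i ≠ j) : X.a i j ≤ 0 := by
  cases X with
  | A n =>
    revert i j
    change ∀ i j : Fin (n + 1), i ≠ j → CartanMatrix.A (n + 1) j i ≤ 0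
    intro i j h
    simp only [CartanMatrix.A, Matrix.of_apply]
    rw [if_neg (Ne.symm h)]
    split_ifs <;> norm_num
  | B n =>
    revert i j
    change ∀ i j : Fin (n + 2), i ≠ j → CartanMatrix.B (n + 2) j i ≤ 0
    intro i j h
    simp only [CartanMatrix.B, Matrix.of_apply]
    rw [if_neg (Ne.symm h)]
    split_ifs <;> norm_num
  | C n =>
    revert i j
    change ∀ i j : Fin (n + 3), i ≠ j → CartanMatrix.C (n + 3) j i ≤ 0
    intro i j h
    simp only [CartanMatrix.C, Matrix.of_apply]
    rw [if_neg (Ne.symm h)]
    split_ifs <;> norm_num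
  | D n =>
    revert i j
    change ∀ i j : Fin (n + 4), i ≠ j → CartanMatrix.D (n + 4) j i ≤ 0
    intro i j h
    simp only [CartanMatrix.D, Matrix.of_apply]
    rw [if_neg (Ne.symm h)]
    split_ifs <;> norm_num
  | E6 => revert i j; change ∀ i j : Fin 6, i ≠ j → CartanMatrix.E₆ j i ≤ 0; decide
  | E7 => revert i j; change ∀ i j : Fin 7, i ≠ j → CartanMatrix.E₇ j i ≤ 0; decide
  | E8 => revert i j; change ∀ i j : Fin 8, i ≠ j → CartanMatrix.E₈ j i ≤ 0; decide
  | F4 => revert i j; change ∀ i j : Fin 4, i ≠ j → CartanMatrix.F₄ j i ≤ 0; decide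
  | G2 => revert i j; change ∀ i j : Fin 2, i ≠ j → CartanMatrix.G₂ j i ≤ 0; decide

theorem two_rho_A (n : ℕ) : ∃ u : Fin (Dynkin.A n).rank → ℤ, (∀ i, 0 < u i) ∧
    ∀ i, ∑ j, (Dynkin.A n).a i j * u j = 2 := by
  let b : ℕ → ℤ := fun j => ((j : ℤ) + 1) * ((n : ℤ) + 1 - j)
  refine ⟨fun j : Fin (n + 1) => b j.val, ?_, ?_⟩
  · intro j
    have : (j.val : ℤ) < n + 1 := by exact_mod_cast j.2
    exact mul_pos (by positivity) (by linarith)
  · rintro ⟨i, hi⟩
    change i < n + 1 at hi
    have e : ∑ j : Fin (n + 1), (Dynkin.A n).a ⟨i, hi⟩ j * b j.val =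
        ∑ j ∈ range (n + 1), (if j = i then (2 : ℤ) else if j + 1 = i ∨ i + 1 = j then -1 else 0) *
          b j := by
      rw [Finset.sum_range]
      refine Finset.sum_congr rfl fun j _ => ?_
      congr 1
      change CartanMatrix.A (n + 1) j ⟨i, hi⟩ = _
      simp [CartanMatrix.A, Fin.ext_iff]
    refine e.trans ?_
    rcases Nat.eq_zero_or_pos i with h0 | h0
    · subst h0
      by_cases hn : n = 0
      · subst hn
        simp [b]
      · rw [C1.sum_sparse' (n + 1) _ b [(0, 2), (1, -1)] (by simp; omega) (by
          intro j hj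
          simp
          split_ifs <;> omega)]
        simp only [List.map_cons, List.map_nil, List.sum_cons, List.sum_nil, b]
        push_cast; ring
    · obtain ⟨i, rfl⟩ : ∃ i', i = i' + 1 := ⟨i - 1, by omega⟩
      by_cases hin : i + 1 = n
      · rw [C1.sum_sparse' (n + 1) _ b [(i, -1), (i + 1, 2)] (by simp; omega) (by
          intro j hj
          simp
          split_ifs <;> omega)]
        simp only [List.map_cons, List.map_nil, List.sum_cons, List.sum_nil, b]
        have hnz : (n : ℤ) = i + 1 := by omega
        rw [hnz]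
        push_cast; ring
      · rw [C1.sum_sparse' (n + 1) _ b [(i, -1), (i + 1, 2), (i + 2, -1)]
          (by simp; omega) (by
          intro j hj
          simp
          split_ifs <;> omega)]
        simp only [List.map_cons, List.map_nil, List.sum_cons, List.sum_nil, b]
        push_cast; ring

theorem two_rho_B (n : ℕ) : ∃ u : Fin (Dynkin.B n).rank → ℤ, (∀ i, 0 < u i) ∧
    ∀ i, ∑ j, (Dynkin.B n).a i j * u j = 2 := by
  let b : ℕ → ℤ := fun j => ((j : ℤ) + 1) * (2 * (n : ℤ) + 3 - j)
  refine ⟨fun j : Fin (n + 2) => b j.val, ?_, ?_⟩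
  · intro j
    have : (j.val : ℤ) < n + 2 := by exact_mod_cast j.2
    exact mul_pos (by positivity) (by linarith)
  · rintro ⟨i, hi⟩
    change i < n + 2 at hi
    have e : ∑ j : Fin (n + 2), (Dynkin.B n).a ⟨i, hi⟩ j * b j.val =
        ∑ j ∈ range (n + 2), (if j = i then (2 : ℤ) else if j + 1 = i then
          (if i = n + 1 then -2 else -1) else
          if i + 1 = j then -1 else 0) * b j := by
      rw [Finset.sum_range]
      refine Finset.sum_congr rfl fun j _ => ?_
      congr 1
      change CartanMatrix.B (n + 2) j ⟨i, hi⟩ = _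
      simp [CartanMatrix.B, Fin.ext_iff]
    refine e.trans ?_
    rcases Nat.eq_zero_or_pos i with h0 | h0
    · subst h0
      rw [C1.sum_sparse' (n + 2) _ b [(0, 2), (1, -1)] (by simp) (by
          intro j hj
          simp
          split_ifs <;> omega)]
      simp only [List.map_cons, List.map_nil, List.sum_cons, List.sum_nil, b]
      push_cast; ring
    · obtain ⟨i, rfl⟩ : ∃ i', i = i' + 1 := ⟨i - 1, by omega⟩
      by_cases hin : i = n
      · subst hin
        rw [C1.sum_sparse' (i + 2) _ b [(i, -2), (i + 1, 2)] (by simp) (by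
          intro j hj
          simp
          split_ifs <;> omega)]
        simp only [List.map_cons, List.map_nil, List.sum_cons, List.sum_nil, b]
        push_cast; ring
      · rw [C1.sum_sparse' (n + 2) _ b [(i, -1), (i + 1, 2), (i + 2, -1)]
          (by simp; omega) (by
          intro j hj
          simp
          split_ifs <;> omega)]
        simp only [List.map_cons, List.map_nil, List.sum_cons, List.sum_nil, b]
        push_cast; ring

theorem two_rho_C (n : ℕ) : ∃ u : Fin (Dynkin.C n).rank → ℤ, (∀ i, 0 < u i) ∧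
    ∀ i, ∑ j, (Dynkin.C n).a i j * u j = 2 := by
  obtain ⟨c, hc⟩ : ∃ c : ℤ, ((n : ℤ) + 3) * (n + 4) = 2 * c := by
    obtain ⟨c, hc⟩ := Int.even_mul_succ_self ((n : ℤ) + 3)
    exact ⟨c, by linarith⟩
  have hcp : 0 < c := by
    have : 0 < ((n : ℤ) + 3) * (n + 4) := by positivity
    linarith
  let b : ℕ → ℤ := fun j => if j = n + 2 then c else ((j : ℤ) + 1) * (2 * (n : ℤ) + 6 - j)
  refine ⟨fun j : Fin (n + 3) => b j.val, ?_, ?_⟩
  · intro j
    have : (j.val : ℤ) < n + 3 := by exact_mod_cast j.2
    simp only [b]
    split_ifs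
    · exact hcp
    · exact mul_pos (by positivity) (by linarith)
  · rintro ⟨i, hi⟩
    change i < n + 3 at hi
    have e : ∑ j : Fin (n + 3), (Dynkin.C n).a ⟨i, hi⟩ j * b j.val =
        ∑ j ∈ range (n + 3), (if j = i then (2 : ℤ) else if j + 1 = i then -1 else
          if i + 1 = j then if j = n + 2 then -2 else -1 else 0) * b j := by
      rw [Finset.sum_range]
      refine Finset.sum_congr rfl fun j _ => ?_
      congr 1
      change CartanMatrix.C (n + 3) j ⟨i, hi⟩ = _
      simp [CartanMatrix.C, Fin.ext_iff]
    refine e.trans ?_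
    rcases Nat.eq_zero_or_pos i with h0 | h0
    · subst h0
      rw [C1.sum_sparse' (n + 3) _ b [(0, 2), (1, -1)] (by simp) (by
          intro j hj
          simp
          split_ifs <;> omega)]
      simp only [List.map_cons, List.map_nil, List.sum_cons, List.sum_nil, b]
      rw [if_neg (by omega), if_neg (by omega)]
      push_cast; ring
    · obtain ⟨i, rfl⟩ : ∃ i', i = i' + 1 := ⟨i - 1, by omega⟩
      by_cases hin : i = n + 1
      · subst hin
        rw [C1.sum_sparse' (n + 3) _ b [(n + 1, -1), (n + 2, 2)] (by simp) (by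
          intro j hj
          simp
          split_ifs <;> omega)]
        simp only [List.map_cons, List.map_nil, List.sum_cons, List.sum_nil, b]
        rw [if_neg (by omega), if_pos trivial]
        push_cast
        linarith
      · by_cases hin' : i = n
        · subst hin'
          rw [C1.sum_sparse' (i + 3) _ b [(i, -1), (i + 1, 2), (i + 2, -2)] (by simp) (by
            intro j hj
            simp
            split_ifs <;> omega)]
          simp only [List.map_cons, List.map_nil, List.sum_cons, List.sum_nil, b]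
          rw [if_neg (by omega), if_neg (by omega), if_pos trivial]
          push_cast
          linarith
        · rw [C1.sum_sparse' (n + 3) _ b [(i, -1), (i + 1, 2), (i + 2, -1)]
            (by simp; omega) (by
            intro j hj
            simp
            split_ifs <;> omega)]
          simp only [List.map_cons, List.map_nil, List.sum_cons, List.sum_nil, b]
          rw [if_neg (by omega), if_neg (by omega), if_neg (by omega)]
          push_cast; ring

theorem two_rho_D (n : ℕ) : ∃ u : Fin (Dynkin.D n).rank → ℤ, (∀ i, 0 < u i) ∧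
    ∀ i, ∑ j, (Dynkin.D n).a i j * u j = 2 := by
  obtain ⟨c, hc⟩ : ∃ c : ℤ, ((n : ℤ) + 3) * (n + 4) = 2 * c := by
    obtain ⟨c, hc⟩ := Int.even_mul_succ_self ((n : ℤ) + 3)
    exact ⟨c, by linarith⟩
  have hcp : 0 < c := by
    have : 0 < ((n : ℤ) + 3) * (n + 4) := by positivity
    linarith
  let b : ℕ → ℤ := fun j => if n + 2 ≤ j then c else ((j : ℤ) + 1) * (2 * (n : ℤ) + 6 - j)
  refine ⟨fun j : Fin (n + 4) => b j.val, ?_, ?_⟩
  · intro j
    have : (j.val : ℤ) < n + 4 := by exact_mod_cast j.2
    simp only [b]
    split_ifs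
    · exact hcp
    · exact mul_pos (by positivity) (by linarith)
  · rintro ⟨i, hi⟩
    change i < n + 4 at hi
    have e : ∑ j : Fin (n + 4), (Dynkin.D n).a ⟨i, hi⟩ j * b j.val =
        ∑ j ∈ range (n + 4), (if j = i then (2 : ℤ) else
          if j + 1 = i ∧ i + 2 < n + 4 then -1 else
          if i + 1 = j ∧ j + 2 < n + 4 then -1 else
          if j + 3 = n + 4 ∧ (i + 2 = n + 4 ∨ i + 1 = n + 4) then -1 else
          if i + 3 = n + 4 ∧ (j + 2 = n + 4 ∨ j + 1 = n + 4) then -1 else 0) * b j := by
      rw [Finset.sum_range]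
      refine Finset.sum_congr rfl fun j _ => ?_
      congr 1
      change CartanMatrix.D (n + 4) j ⟨i, hi⟩ = _
      simp only [CartanMatrix.D, Fin.ext_iff, Matrix.of_apply]
      rw [if_neg (show ¬ (n + 4 ≤ 2) by omega)]
    refine e.trans ?_
    rcases Nat.eq_zero_or_pos i with h0 | h0
    · subst h0
      rw [C1.sum_sparse' (n + 4) _ b [(0, 2), (1, -1)] (by simp) (by
          intro j hj
          simp
          split_ifs <;> omega)]
      simp only [List.map_cons, List.map_nil, List.sum_cons, List.sum_nil, b]
      rw [if_neg (by omega), if_neg (by omega)]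
      push_cast; ring
    · obtain ⟨i, rfl⟩ : ∃ i', i = i' + 1 := ⟨i - 1, by omega⟩
      by_cases h1 : i = n + 2
      · subst h1
        rw [C1.sum_sparse' (n + 4) _ b [(n + 1, -1), (n + 3, 2)] (by simp) (by
          intro j hj
          simp
          split_ifs <;> omega)]
        simp only [List.map_cons, List.map_nil, List.sum_cons, List.sum_nil, b]
        rw [if_neg (by omega), if_pos (by omega)]
        push_cast
        linarith
      · by_cases h2 : i = n + 1
        · subst h2
          rw [C1.sum_sparse' (n + 4) _ b [(n + 1, -1), (n + 2, 2)] (by simp) (by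
            intro j hj
            simp
            split_ifs <;> omega)]
          simp only [List.map_cons, List.map_nil, List.sum_cons, List.sum_nil, b]
          rw [if_neg (by omega), if_pos (by omega)]
          push_cast
          linarith
        · by_cases h3 : i = n
          · subst h3
            rw [C1.sum_sparse' (i + 4) _ b [(i, -1), (i + 1, 2), (i + 2, -1), (i + 3, -1)]
              (by simp) (by
              intro j hj
              simp
              split_ifs <;> omega)]
            simp only [List.map_cons, List.map_nil, List.sum_cons, List.sum_nil, b]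
            rw [if_neg (by omega), if_neg (by omega), if_pos (by omega), if_pos (by omega)]
            push_cast
            linarith
          · rw [C1.sum_sparse' (n + 4) _ b [(i, -1), (i + 1, 2), (i + 2, -1)]
              (by simp; omega) (by
              intro j hj
              simp
              split_ifs <;> omega)]
            simp only [List.map_cons, List.map_nil, List.sum_cons, List.sum_nil, b]
            rw [if_neg (by omega), if_neg (by omega), if_neg (by omega)]
            push_cast; ring

/-- `2ρ = ∑ u_j α_j` with positive integers `u_j` -/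
theorem exists_two_rho (X : Dynkin) :
    ∃ u : Fin X.rank → ℤ, (∀ i, 0 < u i) ∧ ∀ i, ∑ j, X.a i j * u j = 2 := by
  cases X with
  | A n => exact two_rho_A n
  | B n => exact two_rho_B n
  | C n => exact two_rho_C n
  | D n => exact two_rho_D n
  | E6 =>
    refine ⟨(![16, 22, 30, 42, 30, 16] : Fin 6 → ℤ), ?_, ?_⟩
    · change ∀ i : Fin 6, _
      decide
    · change ∀ i : Fin 6, (∑ j : Fin 6, CartanMatrix.E₆ j i * _) = _
      decide
  | E7 =>
    refine ⟨(![34, 49, 66, 96, 75, 52, 27] : Fin 7 → ℤ), ?_, ?_⟩
    · change ∀ i : Fin 7, _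
      decide
    · change ∀ i : Fin 7, (∑ j : Fin 7, CartanMatrix.E₇ j i * _) = _
      decide
  | E8 =>
    refine ⟨(![92, 136, 182, 270, 220, 168, 114, 58] : Fin 8 → ℤ), ?_, ?_⟩
    · change ∀ i : Fin 8, _
      decide
    · change ∀ i : Fin 8, (∑ j : Fin 8, CartanMatrix.E₈ j i * _) = _
      decide
  | F4 =>
    refine ⟨(![16, 30, 42, 22] : Fin 4 → ℤ), ?_, ?_⟩
    · change ∀ i : Fin 4, _
      decide
    · change ∀ i : Fin 4, (∑ j : Fin 4, CartanMatrix.F₄ j i * _) = _
      decide
  | G2 =>
    refine ⟨(![6, 10] : Fin 2 → ℤ), ?_, ?_⟩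
    · change ∀ i : Fin 2, _
      decide
    · change ∀ i : Fin 2, (∑ j : Fin 2, CartanMatrix.G₂ j i * _) = _
      decide

end Pool.Agent.QInv75.Ex
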