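import Pool.Agent.QInv75.Free

/-!
# Package E8: from an abstract module to matrices
-/

set_option autoImplicit false

open scoped TensorProduct Kronecker
open Matrix

namespace Pool.Agent.QInv75.Ex

variable {X : Dynkin} {Φ : WeightForm X} {Λ : Finset X.Weight}

section transport

variable {V : Type} [AddCommGroup V] [Module FF V] {m : ℕ} (b : Module.Basis (Fin m) FF V)

/-- the algebra isomorphism of endomorphisms and matrices -/
noncomputable def tm : Module.End FF V ≃ₐ[FF] Matrix (Fin m) (Fin m) FF :=
  LinearMap.toMatrixAlgEquiv b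

/-- the same for `V ⊗ V` -/
noncomputable def tm2 :
    Module.End FF (V ⊗[FF] V) ≃ₐ[FF] Matrix (Fin m × Fin m) (Fin m × Fin m) FF :=
  LinearMap.toMatrixAlgEquiv (b.tensorProduct b)

theorem tm_mulVec (f : Module.End FF V) (x : V) :
    tm b f *ᵥ b.equivFun x = b.equivFun (f x) := by
  have h := LinearMap.toMatrix_mulVec_repr b b f x
  exact h

theorem tm2_map (f g : Module.End FF V) :
    tm2 b (TensorProduct.map f g) = tm b f ⊗ₖ tm b g :=
  TensorProduct.toMatrix_map b b b b f g

theorem tens_eq (x y : V) :
    tens (b.equivFun x) (b.equivFun y) = (b.tensorProduct b).equivFun (x ⊗ₜ[FF] y) := by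
  ext ⟨i, j⟩
  simp [tens, Module.Basis.equivFun_apply, Module.Basis.tensorProduct_repr_tmul_apply, mul_comm]

theorem tm2_mulVec (f : Module.End FF (V ⊗[FF] V)) (x : V ⊗[FF] V) :
    tm2 b f *ᵥ (b.tensorProduct b).equivFun x = (b.tensorProduct b).equivFun (f x) := by
  have h := LinearMap.toMatrix_mulVec_repr (b.tensorProduct b) (b.tensorProduct b) f x
  exact h

end transport

theorem model_of_abstract (Φ : WeightForm X) (Λ : Finset X.Weight) {V : Type} [AddCommGroup V]
    [Module FF V] [FiniteDimensional FF V]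
    (E F K K' : Fin X.rank → Module.End FF V) (P : X.Weight → Module.End FF V)
    (v : X.Weight → V) (h : Module.End FF V) (c : Module.End FF (V ⊗[FF] V))
    (KK' : ∀ i, K i * K' i = 1) (KK : ∀ i j, K i * K j = K j * K i)
    (KE : ∀ i j, K i * E j = vv Φ i ^ (X.a i j) • (E j * K i))
    (KF : ∀ i j, K i * F j = vv Φ i ^ (-X.a i j) • (F j * K i))
    (EF : ∀ i j, E i * F j - F j * E i =
      if i = j then (vv Φ i - (vv Φ i)⁻¹)⁻¹ • (K i - K' i) else 0)
    (serreE : ∀ i j, i ≠ j → ∑ s ∈ Finset.range ((1 - X.a i j).toNat + 1),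
      ((-1) ^ s * qBinom (vv Φ i) (1 - X.a i j).toNat s) •
        (E i ^ ((1 - X.a i j).toNat - s) * E j * E i ^ s) = 0)
    (serreF : ∀ i j, i ≠ j → ∑ s ∈ Finset.range ((1 - X.a i j).toNat + 1),
      ((-1) ^ s * qBinom (vv Φ i) (1 - X.a i j).toNat s) •
        (F i ^ ((1 - X.a i j).toNat - s) * F j * F i ^ s) = 0)
    (P_sum : ∑ l ∈ Λ, P l = 1)
    (P_mul : ∀ l ∈ Λ, ∀ l' ∈ Λ, P l * P l' = if l = l' then P l else 0)
    (P_E : ∀ l ∈ Λ, ∀ i, P l * E i = E i * P l)
    (P_F : ∀ l ∈ Λ, ∀ i, P l * F i = F i * P l)
    (P_K : ∀ l ∈ Λ, ∀ i, P l * K i = K i * P l)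
    (v_ne : ∀ l ∈ Λ, v l ≠ 0) (v_P : ∀ l ∈ Λ, P l (v l) = v l) (v_E : ∀ l ∈ Λ, ∀ i, E i (v l) = 0)
    (v_wt : ∀ l ∈ Λ, ∀ i, K i (v l) = vv Φ i ^ (l i) • v l)
    (irred : ∀ l ∈ Λ, ∀ W : Submodule FF V,
      (∀ w ∈ W, ∀ i, E i w ∈ W ∧ F i w ∈ W ∧ K i w ∈ W ∧ K' i w ∈ W) →
      (∀ w ∈ W, P l w = w) → W = ⊥ ∨ ∀ w, P l w = w → w ∈ W)
    (h_wt : ∀ (μ : X.Weight) (w : V), (∀ i, K i w = vv Φ i ^ (μ i) • w) →
      h w = tt ^ (2 * Φ.ip X.rho μ) • w)
    (c_E : ∀ i, c * dE (E i) (K' i) = dE (E i) (K' i) * c)
    (c_F : ∀ i, c * dF (F i) (K i) = dF (F i) (K i) * c)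
    (c_K : ∀ i, c * dK (K i) = dK (K i) * c)
    (c_v : ∀ l ∈ Λ, ∀ (μ : X.Weight) (w : V), (∀ i, K i w = vv Φ i ^ (μ i) • w) →
      c (v l ⊗ₜ[FF] w) = tt ^ Φ.ip l μ • (w ⊗ₜ[FF] v l))
    (c_surj : Function.Surjective c) : Nonempty (Model Φ Λ) := by
  classical
  set b : Module.Basis (Fin (Module.finrank FF V)) FF V := Module.finBasis FF V with hb
  -- the module
  let M : UqModule Φ (Module.finrank FF V) :=
    { E := fun i => tm b (E i)
      F := fun i => tm b (F i)
      K := fun i => tm b (K i)
      K' := fun i => tm b (K' i)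
      KK' := by
        intro i
        rw [← map_mul, KK' i, map_one]
      KK := by
        intro i j
        rw [← map_mul, KK i j, map_mul]
      KE := by
        intro i j
        rw [← map_mul, KE i j, map_smul, map_mul]
      KF := by
        intro i j
        rw [← map_mul, KF i j, map_smul, map_mul]
      EF := by
        intro i j
        have := congrArg (tm b) (EF i j)
        rw [map_sub, map_mul, map_mul, apply_ite (tm b), map_smul, map_sub, map_zero] at this
        exact this
      serreE := by
        intro i j hij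
        have := congrArg (tm b) (serreE i j hij)
        simpa only [map_sum, map_smul, map_mul, map_pow, map_zero] using this
      serreF := by
        intro i j hij
        have := congrArg (tm b) (serreF i j hij)
        simpa only [map_sum, map_smul, map_mul, map_pow, map_zero] using this }
  have hwt : ∀ (μ : X.Weight) (w : Fin (Module.finrank FF V) → FF), M.IsWt μ w →
      ∀ i, K i (b.equivFun.symm w) = vv Φ i ^ (μ i) • b.equivFun.symm w := by
    intro μ w hw i
    apply b.equivFun.injective
    rw [← tm_mulVec, map_smul, LinearEquiv.apply_symm_apply]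
    exact hw i
  have hE2 : ∀ i, M.E2 i = tm2 b (dE (E i) (K' i)) := by
    intro i
    rw [dE, map_add, tm2_map, tm2_map]
    have : (tm b (LinearMap.id : V →ₗ[FF] V)) = 1 := map_one (tm b)
    rw [this]
    rfl
  have hF2 : ∀ i, M.F2 i = tm2 b (dF (F i) (K i)) := by
    intro i
    rw [dF, map_add, tm2_map, tm2_map]
    have : (tm b (LinearMap.id : V →ₗ[FF] V)) = 1 := map_one (tm b)
    rw [this]
    rfl
  have hK2 : ∀ i, M.K2 i = tm2 b (dK (K i)) := by
    intro i
    rw [dK, tm2_map]
    rfl
  -- the inverse braiding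
  have c_bij : Function.Bijective c :=
    ⟨(LinearMap.injective_iff_surjective).2 c_surj, c_surj⟩
  let ce : (V ⊗[FF] V) ≃ₗ[FF] (V ⊗[FF] V) := LinearEquiv.ofBijective c c_bij
  have hce : c * (ce.symm : Module.End FF (V ⊗[FF] V)) = 1 := by
    ext1
    ext x y
    exact ce.apply_symm_apply _
  exact ⟨{
    m := Module.finrank FF V
    M := M
    P := fun l => tm b (P l)
    v := fun l => b.equivFun (v l)
    h := tm b h
    C := tm2 b c
    C' := tm2 b (ce.symm : Module.End FF (V ⊗[FF] V))
    P_sum := by rw [← map_sum, P_sum, map_one]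
    P_mul := by
      intro l hl l' hl'
      rw [← map_mul, P_mul l hl l' hl', apply_ite (tm b), map_zero]
    P_E := by
      intro l hl i
      change tm b (P l) * tm b (E i) = tm b (E i) * tm b (P l)
      rw [← map_mul, P_E l hl i, map_mul]
    P_F := by
      intro l hl i
      change tm b (P l) * tm b (F i) = tm b (F i) * tm b (P l)
      rw [← map_mul, P_F l hl i, map_mul]
    P_K := by
      intro l hl i
      change tm b (P l) * tm b (K i) = tm b (K i) * tm b (P l)
      rw [← map_mul, P_K l hl i, map_mul]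
    v_ne := by
      intro l hl h0
      exact v_ne l hl (b.equivFun.injective (by rw [h0, map_zero]))
    v_P := by
      intro l hl
      rw [tm_mulVec, v_P l hl]
    v_E := by
      intro l hl i
      change tm b (E i) *ᵥ _ = 0
      rw [tm_mulVec, v_E l hl i, map_zero]
    v_wt := by
      intro l hl i
      change tm b (K i) *ᵥ _ = _
      rw [tm_mulVec, v_wt l hl i, map_smul]
    irred := by
      intro l hl W hW hP
      have key : ∀ (f : Module.End FF V) (x : V), (tm b f *ᵥ b.equivFun x ∈ W) ↔
          f x ∈ W.comap (b.equivFun : V →ₗ[FF] (Fin (Module.finrank FF V) → FF)) := by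
        intro f x
        rw [tm_mulVec]
        rfl
      have h1 := irred l hl (W.comap (b.equivFun : V →ₗ[FF] (Fin (Module.finrank FF V) → FF)))
        (by
          intro w hw i
          have := hW (b.equivFun w) hw i
          exact ⟨(key _ _).1 this.1, (key _ _).1 this.2.1, (key _ _).1 this.2.2.1,
            (key _ _).1 this.2.2.2⟩)
        (by
          intro w hw
          apply b.equivFun.injective
          rw [← tm_mulVec]
          exact hP _ hw)
      rcases h1 with h1 | h1
      · left
        rw [eq_bot_iff]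
        intro w hw
        have h2 : b.equivFun.symm w ∈
            W.comap (b.equivFun : V →ₗ[FF] (Fin (Module.finrank FF V) → FF)) := by
          change b.equivFun (b.equivFun.symm w) ∈ W
          rw [LinearEquiv.apply_symm_apply]
          exact hw
        rw [h1, Submodule.mem_bot] at h2
        rw [Submodule.mem_bot]
        have := congrArg b.equivFun h2
        rwa [LinearEquiv.apply_symm_apply, map_zero] at this
      · right
        intro w hw
        have h2 := h1 (b.equivFun.symm w) (by
          apply b.equivFun.injective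
          rw [← tm_mulVec, LinearEquiv.apply_symm_apply]
          exact hw)
        have h3 : b.equivFun (b.equivFun.symm w) ∈ W := h2
        rwa [LinearEquiv.apply_symm_apply] at h3
    h_wt := by
      intro μ w hw
      have h1 := h_wt μ _ (hwt μ w hw)
      have h2 := congrArg b.equivFun h1
      rw [← tm_mulVec, map_smul, LinearEquiv.apply_symm_apply] at h2
      exact h2
    C_E := by
      intro i
      rw [hE2, ← map_mul, c_E i, map_mul]
    C_F := by
      intro i
      rw [hF2, ← map_mul, c_F i, map_mul]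
    C_K := by
      intro i
      rw [hK2, ← map_mul, c_K i, map_mul]
    C_v := by
      intro l hl μ w hw
      have h1 := c_v l hl μ _ (hwt μ w hw)
      have h2 := congrArg (b.tensorProduct b).equivFun h1
      rw [← tm2_mulVec, map_smul, ← tens_eq, ← tens_eq, LinearEquiv.apply_symm_apply] at h2
      exact h2
    CC' := by rw [← map_mul, hce, map_one] }⟩

end Pool.Agent.QInv75.Ex
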