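import Pool.Agent.QInv75.E1
import Pool.Agent.QInv75.E2
import Pool.Agent.QInv75.E3
import Pool.Agent.QInv75.E4
import Pool.Agent.QInv75.E5
import Pool.Agent.QInv75.E6
import Pool.Agent.QInv75.E8

/-!
# Existence of the models: the quotient of the free module by the radical of the form
-/

set_option autoImplicit false

open scoped TensorProduct

namespace Pool.Agent.QInv75.Ex

variable {X : Dynkin} {Φ : WeightForm X} {Λ : Finset X.Weight}

/-! ### The quotient -/

/-- the radical of the form -/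
noncomputable def rad (Φ : WeightForm X) (Λ : Finset X.Weight) : Submodule FF (FM Λ) :=
  LinearMap.ker (Bf Φ)

/-- the quotient by the radical -/
abbrev QM (Φ : WeightForm X) (Λ : Finset X.Weight) : Type := FM Λ ⧸ rad Φ Λ

/-- the projection -/
noncomputable def mq (Φ : WeightForm X) (Λ : Finset X.Weight) : FM Λ →ₗ[FF] QM Φ Λ :=
  (rad Φ Λ).mkQ

theorem mq_surj : Function.Surjective (mq Φ Λ) := Submodule.mkQ_surjective _

theorem mq_eq_zero {x : FM Λ} : mq Φ Λ x = 0 ↔ ∀ y, Bf Φ x y = 0 := by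
  unfold mq
  rw [Submodule.mkQ_apply, Submodule.Quotient.mk_eq_zero, rad, LinearMap.mem_ker]
  constructor
  · intro h y
    rw [h, LinearMap.zero_apply]
  · intro h
    ext y
    exact h y

/-- an operator which has an adjoint preserves the radical -/
theorem rad_le {T T' : Module.End FF (FM Λ)} (h : ∀ x y, Bf Φ (T x) y = Bf Φ x (T' y)) :
    rad Φ Λ ≤ (rad Φ Λ).comap T := by
  intro x hx
  rw [Submodule.mem_comap, rad, LinearMap.mem_ker]
  rw [rad, LinearMap.mem_ker] at hx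
  ext y
  rw [h, hx, LinearMap.zero_apply, LinearMap.zero_apply]

/-- the operator on the quotient -/
noncomputable def qo (T : Module.End FF (FM Λ)) (h : rad Φ Λ ≤ (rad Φ Λ).comap T) :
    Module.End FF (QM Φ Λ) := (rad Φ Λ).mapQ (rad Φ Λ) T h

theorem qo_mq (T : Module.End FF (FM Λ)) (h : rad Φ Λ ≤ (rad Φ Λ).comap T) (x : FM Λ) :
    qo T h (mq Φ Λ x) = mq Φ Λ (T x) := rfl

theorem qext {V : Type*} [AddCommGroup V] [Module FF V] {A B : QM Φ Λ →ₗ[FF] V}
    (h : ∀ x, A (mq Φ Λ x) = B (mq Φ Λ x)) : A = B := by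
  ext x
  exact h x

noncomputable def qE (Φ : WeightForm X) (Λ : Finset X.Weight) (i : Fin X.rank) :
    Module.End FF (QM Φ Λ) :=
  qo (Eo Φ i) (rad_le (T' := Fo i * Ko' Φ i) fun x y => Bf_E i x y)

noncomputable def qF (Φ : WeightForm X) (Λ : Finset X.Weight) (i : Fin X.rank) :
    Module.End FF (QM Φ Λ) :=
  qo (Fo i) (rad_le (T' := Ko Φ i * Eo Φ i) fun x y => Bf_F i x y)

noncomputable def qD (Φ : WeightForm X) (Λ : Finset X.Weight) (g : X.Weight → FF) :
    Module.End FF (QM Φ Λ) :=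
  qo (Dg g) (rad_le (T' := Dg g) fun x y => Bf_D g x y)

noncomputable def qP (Φ : WeightForm X) (Λ : Finset X.Weight) (l : X.Weight) :
    Module.End FF (QM Φ Λ) :=
  qo (Po l) (rad_le (T' := Po l) fun x y => Bf_P l x y)

noncomputable def qK (Φ : WeightForm X) (Λ : Finset X.Weight) (i : Fin X.rank) :
    Module.End FF (QM Φ Λ) := qD Φ Λ fun μ => vv Φ i ^ μ i

noncomputable def qK' (Φ : WeightForm X) (Λ : Finset X.Weight) (i : Fin X.rank) :
    Module.End FF (QM Φ Λ) := qD Φ Λ fun μ => vv Φ i ^ (-μ i)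

theorem qE_mq (i : Fin X.rank) (x : FM Λ) : qE Φ Λ i (mq Φ Λ x) = mq Φ Λ (Eo Φ i x) := rfl
theorem qF_mq (i : Fin X.rank) (x : FM Λ) : qF Φ Λ i (mq Φ Λ x) = mq Φ Λ (Fo i x) := rfl
theorem qD_mq (g : X.Weight → FF) (x : FM Λ) : qD Φ Λ g (mq Φ Λ x) = mq Φ Λ (Dg g x) := rfl
theorem qP_mq (l : X.Weight) (x : FM Λ) : qP Φ Λ l (mq Φ Λ x) = mq Φ Λ (Po l x) := rfl
theorem qK_mq (i : Fin X.rank) (x : FM Λ) : qK Φ Λ i (mq Φ Λ x) = mq Φ Λ (Ko Φ i x) := rfl
theorem qK'_mq (i : Fin X.rank) (x : FM Λ) : qK' Φ Λ i (mq Φ Λ x) = mq Φ Λ (Ko' Φ i x) := rfl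

theorem Dg_one9 : (Dg (fun _ => 1) : Module.End FF (FM Λ)) = 1 := by
  refine (bas Λ).ext fun b => ?_
  show Dg (fun _ => 1) (bv b) = bv b
  rw [Dg_bv, one_smul]

theorem qD_mul (g g' : X.Weight → FF) : qD Φ Λ g * qD Φ Λ g' = qD Φ Λ fun μ => g μ * g' μ := by
  refine qext fun x => ?_
  rw [Module.End.mul_apply, qD_mq, qD_mq, qD_mq, ← Dg_mul, Module.End.mul_apply]

theorem qD_one : qD Φ Λ (fun _ => 1) = 1 := by
  refine qext fun x => ?_
  rw [qD_mq, Dg_one9]
  rfl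

theorem qD_inv {g : X.Weight → FF} (hg : ∀ μ, g μ ≠ 0) : qD Φ Λ g * qD Φ Λ (fun μ => (g μ)⁻¹) = 1 := by
  rw [qD_mul]
  have : (fun μ => g μ * (g μ)⁻¹) = fun _ => 1 := by
    funext μ
    exact mul_inv_cancel₀ (hg μ)
  rw [this, qD_one]

theorem qKK' (i : Fin X.rank) : qK Φ Λ i * qK' Φ Λ i = 1 := by
  refine qext fun x => ?_
  have h := congrArg (fun T : Module.End FF (FM Λ) => T x) (Ko_Ko' (Φ := Φ) (Λ := Λ) i)
  simp only [Module.End.mul_apply, Module.End.one_apply] at h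
  rw [Module.End.mul_apply, qK'_mq, qK_mq, h]
  rfl

theorem qK_comm (i j : Fin X.rank) : qK Φ Λ i * qK Φ Λ j = qK Φ Λ j * qK Φ Λ i := by
  unfold qK
  rw [qD_mul, qD_mul]
  congr 1
  funext μ
  exact mul_comm _ _

theorem qK'K (i : Fin X.rank) : qK' Φ Λ i * qK Φ Λ i = 1 := by
  rw [← qKK' i]
  unfold qK qK'
  rw [qD_mul, qD_mul]
  congr 1
  funext μ
  exact mul_comm _ _

theorem qKE (i j : Fin X.rank) :
    qK Φ Λ i * qE Φ Λ j = vv Φ i ^ (X.a i j) • (qE Φ Λ j * qK Φ Λ i) := by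
  refine qext fun x => ?_
  have h := congrArg (fun T : Module.End FF (FM Λ) => T x) (Ko_E (Φ := Φ) (Λ := Λ) i j)
  simp only [Module.End.mul_apply, LinearMap.smul_apply] at h
  rw [Module.End.mul_apply, qE_mq, qK_mq, h, map_smul, LinearMap.smul_apply, Module.End.mul_apply,
    qK_mq, qE_mq]

theorem qKF (i j : Fin X.rank) :
    qK Φ Λ i * qF Φ Λ j = vv Φ i ^ (-X.a i j) • (qF Φ Λ j * qK Φ Λ i) := by
  refine qext fun x => ?_
  have h := congrArg (fun T : Module.End FF (FM Λ) => T x) (Ko_F (Φ := Φ) (Λ := Λ) i j)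
  simp only [Module.End.mul_apply, LinearMap.smul_apply] at h
  rw [Module.End.mul_apply, qF_mq, qK_mq, h, map_smul, LinearMap.smul_apply, Module.End.mul_apply,
    qK_mq, qF_mq]

theorem qEF (i j : Fin X.rank) : qE Φ Λ i * qF Φ Λ j - qF Φ Λ j * qE Φ Λ i =
      if i = j then (vv Φ i - (vv Φ i)⁻¹)⁻¹ • (qK Φ Λ i - qK' Φ Λ i) else 0 := by
  refine qext fun x => ?_
  have h := congrArg (fun T : Module.End FF (FM Λ) => T x) (Eo_Fo (Φ := Φ) (Λ := Λ) i j)
  simp only [Module.End.mul_apply, LinearMap.sub_apply] at h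
  rw [LinearMap.sub_apply, Module.End.mul_apply, Module.End.mul_apply, qF_mq, qE_mq, qE_mq, qF_mq,
    ← map_sub, h]
  split_ifs with hij
  · rw [LinearMap.smul_apply, LinearMap.sub_apply, map_smul, map_sub, LinearMap.smul_apply,
      LinearMap.sub_apply, qK_mq, qK'_mq]
  · rw [LinearMap.zero_apply, LinearMap.zero_apply, map_zero]

theorem qE_pow (i : Fin X.rank) (n : ℕ) (x : FM Λ) :
    (qE Φ Λ i ^ n) (mq Φ Λ x) = mq Φ Λ ((Eo Φ i ^ n) x) := by
  induction n generalizing x with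
  | zero => rfl
  | succ n ih => rw [pow_succ, pow_succ, Module.End.mul_apply, Module.End.mul_apply, qE_mq, ih]

theorem qF_pow (i : Fin X.rank) (n : ℕ) (x : FM Λ) :
    (qF Φ Λ i ^ n) (mq Φ Λ x) = mq Φ Λ ((Fo i ^ n) x) := by
  induction n generalizing x with
  | zero => rfl
  | succ n ih => rw [pow_succ, pow_succ, Module.End.mul_apply, Module.End.mul_apply, qF_mq, ih]

theorem qserreE (i j : Fin X.rank) (hij : i ≠ j) :
    ∑ s ∈ Finset.range ((1 - X.a i j).toNat + 1),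
      ((-1) ^ s * qBinom (vv Φ i) (1 - X.a i j).toNat s) •
        (qE Φ Λ i ^ ((1 - X.a i j).toNat - s) * qE Φ Λ j * qE Φ Λ i ^ s) = 0 := by
  refine qext fun x => ?_
  have h := congrArg (fun T : Module.End FF (FM Λ) => T x) (serre_E (Φ := Φ) (Λ := Λ) i j hij)
  simp only [LinearMap.sum_apply, LinearMap.smul_apply, Module.End.mul_apply,
    LinearMap.zero_apply] at h
  simp only [LinearMap.sum_apply, LinearMap.smul_apply, Module.End.mul_apply, qE_pow, qE_mq,
    ← map_smul (mq Φ Λ), ← map_sum, LinearMap.zero_apply]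
  rw [h, map_zero]

theorem qserreF (i j : Fin X.rank) (hij : i ≠ j) :
    ∑ s ∈ Finset.range ((1 - X.a i j).toNat + 1),
      ((-1) ^ s * qBinom (vv Φ i) (1 - X.a i j).toNat s) •
        (qF Φ Λ i ^ ((1 - X.a i j).toNat - s) * qF Φ Λ j * qF Φ Λ i ^ s) = 0 := by
  refine qext fun x => ?_
  have h := mq_eq_zero.mpr (serre_F (Φ := Φ) (Λ := Λ) i j hij x)
  simp only [LinearMap.sum_apply, LinearMap.smul_apply, Module.End.mul_apply] at h
  simp only [LinearMap.sum_apply, LinearMap.smul_apply, Module.End.mul_apply, qF_pow, qF_mq,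
    ← map_smul (mq Φ Λ), ← map_sum, LinearMap.zero_apply]
  exact h

/-! ### Projections -/

theorem Po_bv9 (l : X.Weight) (b : Ix Λ) :
    Po l (bv b) = if b.1.1 = l then bv b else (0 : FM Λ) := by
  unfold Po
  exact (bas Λ).constr_basis FF _ b

theorem qP_sum : ∑ l ∈ Λ, qP Φ Λ l = 1 := by
  refine qext fun x => ?_
  have h : (∑ l ∈ Λ, (Po l : Module.End FF (FM Λ))) = 1 := by
    refine (bas Λ).ext fun b => ?_
    show (∑ l ∈ Λ, (Po l : Module.End FF (FM Λ))) (bv b) = bv b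
    rw [LinearMap.sum_apply]
    simp only [Po_bv9]
    rw [Finset.sum_ite_eq, if_pos b.1.2]
  have h2 := congrArg (fun T : Module.End FF (FM Λ) => T x) h
  simp only [LinearMap.sum_apply, Module.End.one_apply] at h2
  rw [LinearMap.sum_apply]
  simp only [qP_mq, ← map_sum]
  rw [h2]
  rfl

theorem qP_mul (l l' : X.Weight) : qP Φ Λ l * qP Φ Λ l' = if l = l' then qP Φ Λ l else 0 := by
  have h : (Po l : Module.End FF (FM Λ)) * Po l' = if l = l' then Po l else 0 := by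
    refine (bas Λ).ext fun b => ?_
    show (Po l) (Po l' (bv b)) = _
    rw [Po_bv9]
    split_ifs with h1 h2 h2
    · rfl
    · rw [Po_bv9, if_neg (by rw [h1]; exact fun h => h2 h.symm)]
      rfl
    · rw [map_zero]
      show 0 = Po l (bv b)
      rw [Po_bv9, if_neg (by rw [h2]; exact h1)]
    · rw [map_zero]
      rfl
  refine qext fun x => ?_
  have h2 := congrArg (fun T : Module.End FF (FM Λ) => T x) h
  simp only [Module.End.mul_apply] at h2
  rw [Module.End.mul_apply, qP_mq, qP_mq, h2]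
  split_ifs
  · rw [qP_mq]
  · rw [LinearMap.zero_apply, LinearMap.zero_apply, map_zero]

theorem qP_E (l : X.Weight) (i : Fin X.rank) : qP Φ Λ l * qE Φ Λ i = qE Φ Λ i * qP Φ Λ l := by
  refine qext fun x => ?_
  have h := congrArg (fun T : Module.End FF (FM Λ) => T x) (Po_E (Φ := Φ) (Λ := Λ) l i)
  simp only [Module.End.mul_apply] at h
  rw [Module.End.mul_apply, Module.End.mul_apply, qE_mq, qP_mq, qP_mq, qE_mq, h]

theorem qP_F (l : X.Weight) (i : Fin X.rank) : qP Φ Λ l * qF Φ Λ i = qF Φ Λ i * qP Φ Λ l := by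
  refine qext fun x => ?_
  have h := congrArg (fun T : Module.End FF (FM Λ) => T x) (Po_F (Λ := Λ) l i)
  simp only [Module.End.mul_apply] at h
  rw [Module.End.mul_apply, Module.End.mul_apply, qF_mq, qP_mq, qP_mq, qF_mq, h]

theorem qP_D (l : X.Weight) (g : X.Weight → FF) :
    qP Φ Λ l * qD Φ Λ g = qD Φ Λ g * qP Φ Λ l := by
  refine qext fun x => ?_
  have h := congrArg (fun T : Module.End FF (FM Λ) => T x) (Po_Dg (Λ := Λ) l g)
  simp only [Module.End.mul_apply] at h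
  rw [Module.End.mul_apply, Module.End.mul_apply, qD_mq, qP_mq, qP_mq, qD_mq, h]

/-! ### Highest weight vectors and words -/

/-- the highest weight vectors -/
noncomputable def vl (l : X.Weight) : FM Λ :=
  open Classical in if h : l ∈ Λ then bv (⟨l, h⟩, []) else 0

theorem vl_eq (l : {l // l ∈ Λ}) : (vl l.1 : FM Λ) = bv (l, []) := by
  unfold vl
  rw [dif_pos l.2]

theorem coord_bv9 (b b' : Ix Λ) : (bas Λ).coord b (bv b') = if b' = b then 1 else 0 := by
  unfold bv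
  rw [Module.Basis.coord_apply, Module.Basis.repr_self, Finsupp.single_apply]

theorem words_bv (l : {l // l ∈ Λ}) (w : List (Fin X.rank)) :
    (w.map (qF Φ Λ)).prod (mq Φ Λ (bv (l, []))) = mq Φ Λ (bv (l, w)) := by
  induction w with
  | nil => rfl
  | cons i w ih => rw [List.map_cons, List.prod_cons, Module.End.mul_apply, ih, qF_mq, Fo_bv]

theorem Ko_bv9 (i : Fin X.rank) (b : Ix Λ) : Ko Φ i (bv b) = vv Φ i ^ (wt b i) • bv b := Dg_bv _ b

theorem finite_QM (hΛ : ∀ l ∈ Λ, ∀ i, 0 ≤ l i) : FiniteDimensional FF (QM Φ Λ) := by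
  have h1 : ∀ l : {l // l ∈ Λ}, ∃ H : ℕ, ∀ w : List (Fin X.rank), H < w.length →
      (w.map (qF Φ Λ)).prod (mq Φ Λ (bv (l, []))) = 0 := by
    intro l
    refine words_vanish_aux (a_diag X) (a_nonpos X) (exists_two_rho X) Φ (qE Φ Λ) (qF Φ Λ)
      (qK Φ Λ) (qK' Φ Λ) qK'K qKE qKF qEF qserreF l.1 (hΛ l.1 l.2) _ ?_ ?_ ?_
    · intro i
      rw [qK_mq, Ko_bv9, wt_nil, map_smul]
    · intro i
      rw [qE_mq, Eo_nil, map_zero]
    · intro i
      rw [qF_pow]
      exact mq_eq_zero.mpr (pow_F l i (hΛ l.1 l.2 i))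
  choose H hH using h1
  have hfin : (Set.range fun p : (Σ l : {l // l ∈ Λ}, {w : List (Fin X.rank) // w.length ≤ H l}) =>
      mq Φ Λ (bv (p.1, p.2.1))).Finite := by
    have : ∀ l : {l // l ∈ Λ}, Finite {w : List (Fin X.rank) // w.length ≤ H l} := by
      intro l
      have h2 : {w : List (Fin X.rank) | w.length ≤ H l}.Finite := List.finite_length_le _ _
      exact h2.to_subtype
    exact Set.finite_range _
  refine Module.finite_def.mpr ?_
  refine Submodule.fg_def.mpr ⟨_, hfin, ?_⟩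
  rw [eq_top_iff]
  have key : ∀ x : FM Λ, mq Φ Λ x ∈ Submodule.span FF
      (Set.range fun p : (Σ l : {l // l ∈ Λ}, {w : List (Fin X.rank) // w.length ≤ H l}) =>
      mq Φ Λ (bv (p.1, p.2.1))) := by
    intro x
    have hx : x ∈ Submodule.span FF (Set.range (bas Λ)) := by
      rw [(bas Λ).span_eq]; exact Submodule.mem_top
    induction hx using Submodule.span_induction with
    | mem x hx =>
      obtain ⟨⟨l, w⟩, rfl⟩ := hx
      by_cases hw : w.length ≤ H l
      · exact Submodule.subset_span ⟨⟨l, ⟨w, hw⟩⟩, rfl⟩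
      · have h3 := hH l w (by omega)
        rw [words_bv] at h3
        show mq Φ Λ (bv (l, w)) ∈ _
        rw [h3]
        exact Submodule.zero_mem _
    | zero => rw [map_zero]; exact Submodule.zero_mem _
    | add x y _ _ hx hy => rw [map_add]; exact Submodule.add_mem _ hx hy
    | smul c x _ hx => rw [map_smul]; exact Submodule.smul_mem _ _ hx
  intro x _
  obtain ⟨y, rfl⟩ := mq_surj x
  exact key y

/-! ### Separation of weights -/

/-- the indicator function of a weight -/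
noncomputable def ind (μ : X.Weight) : X.Weight → FF := fun κ =>
  open Classical in if κ = μ then 1 else 0

theorem Dg_congr {g g' : X.Weight → FF} {x : FM Λ}
    (h : ∀ b, (bas Λ).coord b x ≠ 0 → g (wt b) = g' (wt b)) : Dg g x = Dg g' x := by
  have hx : x = ((bas Λ).repr x).sum fun b c => c • bv b := by
    conv_lhs => rw [← (bas Λ).linearCombination_repr x]
    rfl
  rw [hx, Finsupp.sum, map_sum, map_sum]
  refine Finset.sum_congr rfl fun b hb => ?_
  rw [map_smul, map_smul, Dg_bv, Dg_bv, h b]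
  rw [Module.Basis.coord_apply]
  exact Finsupp.mem_support_iff.mp hb

/-- every vector of the quotient is the sum of its weight components -/
theorem sum_ind (x : FM Λ) : ∃ S : Finset X.Weight, x = ∑ κ ∈ S, Dg (ind κ) x := by
  classical
  refine ⟨((bas Λ).repr x).support.image wt, ?_⟩
  have h : (∑ κ ∈ ((bas Λ).repr x).support.image wt, Dg (ind κ) x) =
      Dg (fun μ => ∑ κ ∈ ((bas Λ).repr x).support.image wt, ind κ μ) x := by
    have : (∑ κ ∈ ((bas Λ).repr x).support.image wt, (Dg (ind κ) : Module.End FF (FM Λ))) =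
        Dg (fun μ => ∑ κ ∈ ((bas Λ).repr x).support.image wt, ind κ μ) := by
      refine (bas Λ).ext fun b => ?_
      show _ = Dg _ (bv b)
      rw [Dg_bv, Finset.sum_smul, LinearMap.sum_apply]
      refine Finset.sum_congr rfl fun κ _ => ?_
      show Dg _ (bv b) = _
      rw [Dg_bv]
    rw [← this, LinearMap.sum_apply]
  rw [h]
  have h1 : x = Dg (fun _ => 1) x := by rw [Dg_one9]; rfl
  conv_lhs => rw [h1]
  refine Dg_congr fun b hb => ?_
  unfold ind
  rw [Finset.sum_ite_eq, if_pos]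
  refine Finset.mem_image_of_mem wt ?_
  rw [Finsupp.mem_support_iff]
  rw [Module.Basis.coord_apply] at hb
  exact hb

/-- weight vectors of the quotient are eigenvectors of all `Dg g` -/
theorem qD_wt {μ : X.Weight} {w : QM Φ Λ} (hw : ∀ i, qK Φ Λ i w = vv Φ i ^ (μ i) • w)
    (g : X.Weight → FF) : qD Φ Λ g w = g μ • w := by
  classical
  obtain ⟨x, rfl⟩ := mq_surj w
  obtain ⟨S, hS⟩ := sum_ind x
  have hzero : ∀ κ, κ ≠ μ → qD Φ Λ (ind κ) (mq Φ Λ x) = 0 := by
    intro κ hκ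
    have : ∃ i, κ i ≠ μ i := by
      by_contra hcon
      push Not at hcon
      exact hκ (funext hcon)
    obtain ⟨i, hi⟩ := this
    have h1 : qK Φ Λ i * qD Φ Λ (ind κ) = vv Φ i ^ (κ i) • qD Φ Λ (ind κ) := by
      unfold qK
      rw [qD_mul]
      have : (fun ν : X.Weight => vv Φ i ^ ν i * ind κ ν) = fun ν => vv Φ i ^ κ i * ind κ ν := by
        funext ν
        unfold ind
        split_ifs with h
        · rw [h]
        · rw [mul_zero, mul_zero]
      rw [this]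
      refine qext fun y => ?_
      rw [LinearMap.smul_apply, qD_mq, qD_mq, ← map_smul]
      congr 1
      have h2 : (Dg (fun ν => vv Φ i ^ κ i * ind κ ν) : Module.End FF (FM Λ)) =
          vv Φ i ^ κ i • Dg (ind κ) := by
        refine (bas Λ).ext fun b => ?_
        show Dg (fun ν => vv Φ i ^ κ i * ind κ ν) (bv b) = vv Φ i ^ κ i • Dg (ind κ) (bv b)
        rw [Dg_bv, Dg_bv, smul_smul]
      rw [h2]
      rfl
    have h2 : qK Φ Λ i * qD Φ Λ (ind κ) = qD Φ Λ (ind κ) * qK Φ Λ i := by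
      unfold qK
      rw [qD_mul, qD_mul]
      congr 1
      funext ν
      exact mul_comm _ _
    have h3 := congrArg (fun T : Module.End FF (QM Φ Λ) => T (mq Φ Λ x)) (h1.symm.trans h2)
    simp only [LinearMap.smul_apply, Module.End.mul_apply] at h3
    rw [hw i, map_smul] at h3
    rw [← sub_eq_zero, ← sub_smul] at h3
    rcases smul_eq_zero.mp h3 with h4 | h4
    · exfalso
      exact hi (vv_pow_inj i (sub_eq_zero.mp h4))
    · exact h4
  have hmain : mq Φ Λ x = qD Φ Λ (ind μ) (mq Φ Λ x) := by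
    by_cases hμ : μ ∈ S
    · conv_lhs => rw [hS, map_sum]
      rw [Finset.sum_eq_single_of_mem μ hμ]
      · rfl
      · intro κ _ hκ
        exact hzero κ hκ
    · have h5 : mq Φ Λ x = 0 := by
        conv_lhs => rw [hS, map_sum]
        refine Finset.sum_eq_zero fun κ hκ => hzero κ ?_
        rintro rfl
        exact hμ hκ
      rw [h5, map_zero]
  have h6 : qD Φ Λ g * qD Φ Λ (ind μ) = g μ • qD Φ Λ (ind μ) := by
    rw [qD_mul]
    refine qext fun y => ?_
    rw [LinearMap.smul_apply, qD_mq, qD_mq, ← map_smul]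
    congr 1
    have h2 : (Dg (fun ν => g ν * ind μ ν) : Module.End FF (FM Λ)) = g μ • Dg (ind μ) := by
      refine (bas Λ).ext fun b => ?_
      show Dg (fun ν => g ν * ind μ ν) (bv b) = g μ • Dg (ind μ) (bv b)
      rw [Dg_bv, Dg_bv, smul_smul]
      unfold ind
      by_cases h : wt b = μ
      · rw [h]
      · rw [if_neg h, mul_zero, mul_zero]
    rw [h2]
    rfl
  rw [hmain, ← Module.End.mul_apply, h6]
  rfl

/-- a subspace which is stable under all `K_i` contains the weight components of its elements -/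
theorem exists_sep {W : Submodule FF (QM Φ Λ)} (hW : ∀ w ∈ W, ∀ i, qK Φ Λ i w ∈ W)
    (μ : X.Weight) (S : Finset X.Weight) (hμ : μ ∉ S) :
    ∃ g : X.Weight → FF, g μ = 1 ∧ (∀ κ ∈ S, g κ = 0) ∧ ∀ w ∈ W, qD Φ Λ g w ∈ W := by
  classical
  induction S using Finset.induction_on with
  | empty =>
    refine ⟨fun _ => 1, rfl, fun κ hκ => absurd hκ (Finset.notMem_empty κ), fun w hw => ?_⟩
    rw [qD_one]
    exact hw
  | insert κ S hκ ih =>
    rw [Finset.mem_insert, not_or] at hμ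
    obtain ⟨g, hg1, hg2, hg3⟩ := ih hμ.2
    have : ∃ i, μ i ≠ κ i := by
      by_contra hcon
      push Not at hcon
      exact hμ.1 (funext hcon)
    obtain ⟨i, hi⟩ := this
    have hne : vv Φ i ^ μ i - vv Φ i ^ κ i ≠ 0 := by
      intro h
      exact hi (vv_pow_inj i (sub_eq_zero.mp h))
    refine ⟨fun ν => (vv Φ i ^ μ i - vv Φ i ^ κ i)⁻¹ * (vv Φ i ^ ν i - vv Φ i ^ κ i) * g ν,
      ?_, ?_, ?_⟩
    · show (vv Φ i ^ μ i - vv Φ i ^ κ i)⁻¹ * (vv Φ i ^ μ i - vv Φ i ^ κ i) * g μ = 1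
      rw [hg1, mul_one, inv_mul_cancel₀ hne]
    · intro ν hν
      rcases Finset.mem_insert.mp hν with h | h
      · show (vv Φ i ^ μ i - vv Φ i ^ κ i)⁻¹ * (vv Φ i ^ ν i - vv Φ i ^ κ i) * g ν = 0
        rw [h, sub_self, mul_zero, zero_mul]
      · show (vv Φ i ^ μ i - vv Φ i ^ κ i)⁻¹ * (vv Φ i ^ ν i - vv Φ i ^ κ i) * g ν = 0
        rw [hg2 ν h, mul_zero]
    · intro w hw
      have h1 : qD Φ Λ (fun ν => (vv Φ i ^ μ i - vv Φ i ^ κ i)⁻¹ *
          (vv Φ i ^ ν i - vv Φ i ^ κ i) * g ν) w =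
          (vv Φ i ^ μ i - vv Φ i ^ κ i)⁻¹ • (qK Φ Λ i (qD Φ Λ g w) -
            vv Φ i ^ κ i • qD Φ Λ g w) := by
        obtain ⟨x, rfl⟩ := mq_surj w
        rw [qD_mq, qD_mq, qK_mq, ← map_smul, ← map_sub, ← map_smul]
        congr 1
        have h2 : (Dg (fun ν => (vv Φ i ^ μ i - vv Φ i ^ κ i)⁻¹ *
          (vv Φ i ^ ν i - vv Φ i ^ κ i) * g ν) : Module.End FF (FM Λ)) =
            (vv Φ i ^ μ i - vv Φ i ^ κ i)⁻¹ • (Ko Φ i * Dg g - vv Φ i ^ κ i • Dg g) := by
          refine (bas Λ).ext fun b => ?_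
          show Dg (fun ν => (vv Φ i ^ μ i - vv Φ i ^ κ i)⁻¹ *
            (vv Φ i ^ ν i - vv Φ i ^ κ i) * g ν) (bv b) =
              (vv Φ i ^ μ i - vv Φ i ^ κ i)⁻¹ • (Ko Φ i (Dg g (bv b)) -
                vv Φ i ^ κ i • Dg g (bv b))
          rw [Dg_bv, Dg_bv, map_smul, Ko_bv9, smul_smul, smul_smul, ← sub_smul, smul_smul]
          congr 1
          ring
        rw [h2]
        rfl
      rw [h1]
      exact W.smul_mem _ (W.sub_mem (hW _ (hg3 w hw) i) (W.smul_mem _ (hg3 w hw)))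

theorem ind_mem {W : Submodule FF (QM Φ Λ)} (hW : ∀ w ∈ W, ∀ i, qK Φ Λ i w ∈ W)
    (μ : X.Weight) (x : FM Λ) (hx : mq Φ Λ x ∈ W) : mq Φ Λ (Dg (ind μ) x) ∈ W := by
  classical
  obtain ⟨g, hg1, hg2, hg3⟩ := exists_sep hW μ ((((bas Λ).repr x).support.image wt).erase μ)
    (Finset.notMem_erase _ _)
  have h := hg3 _ hx
  rw [qD_mq] at h
  have h2 : Dg g x = Dg (ind μ) x := by
    refine Dg_congr fun b hb => ?_
    by_cases hbμ : wt b = μ
    · rw [hbμ, hg1]
      unfold ind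
      rw [if_pos rfl]
    · rw [hg2 _ (Finset.mem_erase.mpr ⟨hbμ, Finset.mem_image_of_mem wt ?_⟩)]
      · unfold ind
        rw [if_neg hbμ]
      · rw [Finsupp.mem_support_iff]
        rw [Module.Basis.coord_apply] at hb
        exact hb
  rwa [h2] at h

/-! ### Irreducibility -/

theorem ip_rho_sum (w : List (Fin X.rank)) :
    Φ.ip X.rho ((w.map X.root).sum) = (w.map fun i => (Φ.N : ℤ) * X.d i).sum := by
  induction w with
  | nil =>
    have h := Φ.add_left 0 0 X.rho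
    rw [add_zero] at h
    simp only [List.map_nil, List.sum_nil]
    rw [Φ.symm]
    omega
  | cons i w ih =>
    rw [List.map_cons, List.sum_cons, ip_add_right, ip_rho_root, ih, List.map_cons, List.sum_cons]

theorem wt_eq_top {l : {l // l ∈ Λ}} {w : List (Fin X.rank)}
    (Φ : WeightForm X) (h : wt (l, w) = l.1) : w = [] := by
  by_contra hne
  have h1 : (w.map X.root).sum = 0 := by
    have h2 : l.1 - (w.map X.root).sum = l.1 := h
    rwa [sub_eq_self] at h2
  have h3 := ip_rho_sum (Φ := Φ) w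
  rw [h1] at h3
  have h4 : Φ.ip X.rho 0 = 0 := by
    have h := Φ.add_left 0 0 X.rho
    rw [add_zero, Φ.symm] at h
    omega
  rw [h4] at h3
  have h5 : ∀ w : List (Fin X.rank), w ≠ [] → 0 < (w.map fun i => (Φ.N : ℤ) * X.d i).sum := by
    intro w
    induction w with
    | nil => intro h; exact absurd rfl h
    | cons i w ih =>
      intro _
      rw [List.map_cons, List.sum_cons]
      have h6 : 0 < (Φ.N : ℤ) * X.d i := by
        have := Φ.pos
        have := d_pos X i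
        positivity
      by_cases hw : w = []
      · rw [hw]; simpa using h6
      · have := ih hw
        omega
  have := h5 w hne
  omega

/-- the part of weight `l` of the summand `l` of the free module is spanned by `v_l` -/
theorem top_part (Φ : WeightForm X) (l : {l // l ∈ Λ}) (x : FM Λ) :
    Dg (ind l.1) (Po l.1 x) = (bas Λ).coord (l, []) x • bv (l, []) := by
  have h : (Dg (ind l.1) * Po l.1 : Module.End FF (FM Λ)) =
      ((bas Λ).coord (l, [])).smulRight (bv (l, [])) := by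
    refine (bas Λ).ext fun b => ?_
    show Dg (ind l.1) (Po l.1 (bv b)) = (bas Λ).coord (l, []) (bv b) • bv (l, [])
    rw [Po_bv9, coord_bv9]
    obtain ⟨m, w⟩ := b
    by_cases h1 : m.1 = l.1
    · have h2 : m = l := Subtype.ext h1
      subst h2
      rw [if_pos rfl, Dg_bv]
      by_cases hw : w = []
      · subst hw
        rw [if_pos rfl]
        unfold ind
        rw [wt_nil, if_pos rfl]
      · rw [if_neg (by
          intro h3
          exact hw (Prod.mk.inj h3).2)]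
        unfold ind
        rw [if_neg (fun h4 => hw (wt_eq_top Φ h4)), zero_smul, zero_smul]
    · rw [if_neg h1, map_zero, if_neg, zero_smul]
      intro h3
      exact h1 (congrArg (fun z : Ix Λ => z.1.1) h3)
  exact congrArg (fun T : Module.End FF (FM Λ) => T x) h

theorem q_irred (l : {l // l ∈ Λ}) (W : Submodule FF (QM Φ Λ))
    (hW : ∀ w ∈ W, ∀ i, qE Φ Λ i w ∈ W ∧ qF Φ Λ i w ∈ W ∧ qK Φ Λ i w ∈ W ∧ qK' Φ Λ i w ∈ W)
    (hP : ∀ w ∈ W, qP Φ Λ l.1 w = w) : W = ⊥ ∨ ∀ w, qP Φ Λ l.1 w = w → w ∈ W := by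
  by_cases hbot : W = ⊥
  · exact Or.inl hbot
  right
  obtain ⟨w0, hw0, hne⟩ := Submodule.exists_mem_ne_zero_of_ne_bot hbot
  obtain ⟨x, rfl⟩ := mq_surj w0
  -- a word on which the form does not vanish
  have h1 : ∃ z : List (Fin X.rank), Bw Φ l z x ≠ 0 := by
    by_contra hcon
    push Not at hcon
    apply hne
    have h2 : mq Φ Λ x = mq Φ Λ (Po l.1 x) := (hP _ hw0).symm
    rw [h2]
    refine mq_eq_zero.mpr fun y => ?_
    rw [Bf_P, Bf_symm]
    have h3 : ∀ y : FM Λ, Bf Φ (Po l.1 y) x = 0 := by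
      intro y
      have h4 : (Bf Φ).flip x ∘ₗ (Po l.1 : Module.End FF (FM Λ)) = 0 := by
        refine (bas Λ).ext fun b => ?_
        show Bf Φ (Po l.1 (bv b)) x = 0
        rw [Po_bv9]
        split_ifs with h5
        · obtain ⟨m, w⟩ := b
          have h6 : m = l := Subtype.ext h5
          subst h6
          have h7 : Bf Φ (bv (m, w)) = Bw Φ m w := by
            unfold Bf bv
            exact (bas Λ).constr_basis FF _ _
          rw [h7]
          exact hcon w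
        · rw [map_zero, LinearMap.zero_apply]
      exact congrArg (fun T : FM Λ →ₗ[FF] FF => T y) h4
    exact h3 y
  obtain ⟨z, hz⟩ := h1
  have h2 : ∀ z : List (Fin X.rank), ∀ x : FM Λ, mq Φ Λ x ∈ W → Bw Φ l z x ≠ 0 →
      ∃ y : FM Λ, mq Φ Λ y ∈ W ∧ (bas Λ).coord (l, []) y ≠ 0 := by
    intro z
    induction z with
    | nil => intro x hx hne; exact ⟨x, hx, hne⟩
    | cons i z ih =>
      intro x hx hne
      refine ih (Ko Φ i (Eo Φ i x)) ?_ hne
      rw [← qK_mq, ← qE_mq]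
      exact (hW _ (hW _ hx i).1 i).2.2.1
  obtain ⟨y, hy, hyne⟩ := h2 z x hw0 hz
  have h3 : mq Φ Λ (bv (l, [])) ∈ W := by
    have h4 : mq Φ Λ (Po l.1 y) ∈ W := by
      rw [← qP_mq, hP _ hy]
      exact hy
    have h5 := ind_mem (fun w hw i => (hW w hw i).2.2.1) l.1 _ h4
    rw [top_part Φ, map_smul] at h5
    have h6 := W.smul_mem ((bas Λ).coord (l, []) y)⁻¹ h5
    rwa [smul_smul, inv_mul_cancel₀ hyne, one_smul] at h6
  have h4 : ∀ w : List (Fin X.rank), mq Φ Λ (bv (l, w)) ∈ W := by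
    intro w
    induction w with
    | nil => exact h3
    | cons i w ih =>
      have := (hW _ ih i).2.1
      rwa [qF_mq, Fo_bv] at this
  have h5 : ∀ y : FM Λ, mq Φ Λ (Po l.1 y) ∈ W := by
    intro y
    have hx : y ∈ Submodule.span FF (Set.range (bas Λ)) := by
      rw [(bas Λ).span_eq]; exact Submodule.mem_top
    induction hx using Submodule.span_induction with
    | mem x hx =>
      obtain ⟨⟨m, w⟩, rfl⟩ := hx
      show mq Φ Λ (Po l.1 (bv (m, w))) ∈ W
      rw [Po_bv9]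
      split_ifs with h6
      · have h7 : m = l := Subtype.ext h6
        subst h7
        exact h4 w
      · rw [map_zero]; exact W.zero_mem
    | zero => rw [map_zero, map_zero]; exact W.zero_mem
    | add x y _ _ hx hy => rw [map_add, map_add]; exact W.add_mem hx hy
    | smul c x _ hx => rw [map_smul, map_smul]; exact W.smul_mem _ hx
  intro w hw
  obtain ⟨y, rfl⟩ := mq_surj w
  rw [← hw, qP_mq]
  exact h5 y

/-! ### The braiding on the quotient -/

/-- the functional `B (·, y)` on the quotient -/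
noncomputable def psi (Φ : WeightForm X) (Λ : Finset X.Weight) (y : FM Λ) : QM Φ Λ →ₗ[FF] FF :=
  (rad Φ Λ).liftQ ((Bf Φ).flip y) (by
    intro x hx
    rw [rad, LinearMap.mem_ker] at hx
    rw [LinearMap.mem_ker, LinearMap.flip_apply, hx, LinearMap.zero_apply])

theorem psi_mq (x y : FM Λ) : psi Φ Λ y (mq Φ Λ x) = Bf Φ x y := rfl

theorem psi_nondeg {w : QM Φ Λ} (h : ∀ y, psi Φ Λ y w = 0) : w = 0 := by
  obtain ⟨x, rfl⟩ := mq_surj w
  exact mq_eq_zero.mpr fun y => by rw [← psi_mq]; exact h y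

theorem psi2_nondeg {T : QM Φ Λ ⊗[FF] QM Φ Λ}
    (h : ∀ y y', TensorProduct.lid FF FF (TensorProduct.map (psi Φ Λ y) (psi Φ Λ y') T) = 0) :
    T = 0 := by
  classical
  have h1 : ∀ y, TensorProduct.lid FF (QM Φ Λ)
      (TensorProduct.map (psi Φ Λ y) LinearMap.id T) = 0 := by
    intro y
    refine psi_nondeg fun y' => ?_
    have h2 : (psi Φ Λ y') ∘ₗ (TensorProduct.lid FF (QM Φ Λ)).toLinearMap ∘ₗ
        TensorProduct.map (psi Φ Λ y) LinearMap.id =
        (TensorProduct.lid FF FF).toLinearMap ∘ₗ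
          TensorProduct.map (psi Φ Λ y) (psi Φ Λ y') := by
      refine TensorProduct.ext' fun a b => ?_
      simp only [LinearMap.comp_apply, TensorProduct.map_tmul, LinearEquiv.coe_coe,
        TensorProduct.lid_tmul, LinearMap.id_apply, map_smul]
    have h3 := congrArg (fun L : QM Φ Λ ⊗[FF] QM Φ Λ →ₗ[FF] FF => L T) h2
    simp only [LinearMap.comp_apply, LinearEquiv.coe_coe] at h3
    rw [h3]
    exact h y y'
  let b := Module.Basis.ofVectorSpace FF (QM Φ Λ)
  refine (TensorProduct.equivFinsuppOfBasisRight (M := QM Φ Λ) b).injective ?_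
  rw [map_zero]
  ext1 i
  rw [Finsupp.zero_apply]
  refine psi_nondeg fun y => ?_
  have h2 : (psi Φ Λ y) ∘ₗ (Finsupp.lapply i) ∘ₗ
      (TensorProduct.equivFinsuppOfBasisRight (M := QM Φ Λ) b).toLinearMap =
      b.coord i ∘ₗ (TensorProduct.lid FF (QM Φ Λ)).toLinearMap ∘ₗ
        TensorProduct.map (psi Φ Λ y) LinearMap.id := by
    refine TensorProduct.ext' fun a c => ?_
    simp only [LinearMap.comp_apply, TensorProduct.map_tmul, LinearEquiv.coe_coe,
      TensorProduct.lid_tmul, LinearMap.id_apply, map_smul, Finsupp.lapply_apply,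
      TensorProduct.equivFinsuppOfBasisRight_apply_tmul_apply, Module.Basis.coord_apply,
      smul_eq_mul]
    exact mul_comm _ _
  have h3 := congrArg (fun L : QM Φ Λ ⊗[FF] QM Φ Λ →ₗ[FF] FF => L T) h2
  simp only [LinearMap.comp_apply, LinearEquiv.coe_coe, Finsupp.lapply_apply] at h3
  rw [h3, h1 y, map_zero]

/-- the projection `'M ⊗ 'M → M ⊗ M` -/
noncomputable def m2 (Φ : WeightForm X) (Λ : Finset X.Weight) :
    FM Λ ⊗[FF] FM Λ →ₗ[FF] QM Φ Λ ⊗[FF] QM Φ Λ := TensorProduct.map (mq Φ Λ) (mq Φ Λ)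

theorem m2_surj : Function.Surjective (m2 Φ Λ) := TensorProduct.map_surjective mq_surj mq_surj

theorem BB_eq (T : FM Λ ⊗[FF] FM Λ) (y y' : FM Λ) : BB Φ T (y ⊗ₜ[FF] y') =
    TensorProduct.lid FF FF (TensorProduct.map (psi Φ Λ y) (psi Φ Λ y') (m2 Φ Λ T)) := by
  induction T using TensorProduct.induction_on with
  | zero =>
    rw [map_zero, map_zero, map_zero]
    simp [BB]
  | tmul x x' =>
    rw [BB_tmul, m2, TensorProduct.map_tmul, TensorProduct.map_tmul, TensorProduct.lid_tmul,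
      psi_mq, psi_mq, smul_eq_mul]
  | add T T' hT hT' =>
    rw [map_add, map_add, map_add, ← hT, ← hT']
    simp [BB]

theorem m2_eq_zero {T : FM Λ ⊗[FF] FM Λ} : m2 Φ Λ T = 0 ↔ ∀ S, BB Φ T S = 0 := by
  constructor
  · intro h S
    induction S using TensorProduct.induction_on with
    | zero => rw [map_zero]
    | tmul y y' => rw [BB_eq, h, map_zero, map_zero]
    | add S S' hS hS' => rw [map_add, hS, hS', add_zero]
  · intro h
    refine psi2_nondeg fun y y' => ?_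
    rw [← BB_eq]
    exact h _

/-- the braiding on the quotient -/
noncomputable def qc (Φ : WeightForm X) (Λ : Finset X.Weight) :
    Module.End FF (QM Φ Λ ⊗[FF] QM Φ Λ) :=
  ((LinearMap.ker (m2 Φ Λ)).liftQ (m2 Φ Λ ∘ₗ cf Φ) (by
    intro T hT
    rw [LinearMap.mem_ker] at hT
    rw [LinearMap.mem_ker, LinearMap.comp_apply]
    refine m2_eq_zero.mpr fun S => ?_
    rw [cf_adj]
    exact m2_eq_zero.mp hT _)) ∘ₗ
    ((m2 Φ Λ).quotKerEquivOfSurjective m2_surj).symm.toLinearMap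

theorem qc_m2 (T : FM Λ ⊗[FF] FM Λ) : qc Φ Λ (m2 Φ Λ T) = m2 Φ Λ (cf Φ T) := by
  unfold qc
  rw [LinearMap.comp_apply, LinearEquiv.coe_coe, LinearMap.quotKerEquivOfSurjective_symm_apply]
  rfl

theorem m2_dE (A B : Module.End FF (FM Λ)) (A' B' : Module.End FF (QM Φ Λ))
    (hA : ∀ x, A' (mq Φ Λ x) = mq Φ Λ (A x)) (hB : ∀ x, B' (mq Φ Λ x) = mq Φ Λ (B x))
    (T : FM Λ ⊗[FF] FM Λ) : TensorProduct.map A' B' (m2 Φ Λ T) =
      m2 Φ Λ (TensorProduct.map A B T) := by
  have h : TensorProduct.map A' B' ∘ₗ m2 Φ Λ = m2 Φ Λ ∘ₗ TensorProduct.map A B := by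
    refine TensorProduct.ext' fun a c => ?_
    simp only [LinearMap.comp_apply, TensorProduct.map_tmul, m2, hA, hB]
  exact congrArg (fun L : FM Λ ⊗[FF] FM Λ →ₗ[FF] QM Φ Λ ⊗[FF] QM Φ Λ => L T) h

theorem dE_m2 (i : Fin X.rank) (T : FM Λ ⊗[FF] FM Λ) :
    dE (qE Φ Λ i) (qK' Φ Λ i) (m2 Φ Λ T) = m2 Φ Λ (dE (Eo Φ i) (Ko' Φ i) T) := by
  unfold dE
  rw [LinearMap.add_apply, LinearMap.add_apply, map_add,
    m2_dE (Eo Φ i) LinearMap.id (qE Φ Λ i) LinearMap.id (qE_mq i) (fun _ => rfl),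
    m2_dE (Ko' Φ i) (Eo Φ i) (qK' Φ Λ i) (qE Φ Λ i) (qK'_mq i) (qE_mq i)]

theorem dF_m2 (i : Fin X.rank) (T : FM Λ ⊗[FF] FM Λ) :
    dF (qF Φ Λ i) (qK Φ Λ i) (m2 Φ Λ T) = m2 Φ Λ (dF (Fo i) (Ko Φ i) T) := by
  unfold dF
  rw [LinearMap.add_apply, LinearMap.add_apply, map_add,
    m2_dE (Fo i) (Ko Φ i) (qF Φ Λ i) (qK Φ Λ i) (qF_mq i) (qK_mq i),
    m2_dE LinearMap.id (Fo i) LinearMap.id (qF Φ Λ i) (fun _ => rfl) (qF_mq i)]

theorem dK_m2 (i : Fin X.rank) (T : FM Λ ⊗[FF] FM Λ) :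
    dK (qK Φ Λ i) (m2 Φ Λ T) = m2 Φ Λ (dK (Ko Φ i) T) := by
  unfold dK
  exact m2_dE (Ko Φ i) (Ko Φ i) (qK Φ Λ i) (qK Φ Λ i) (qK_mq i) (qK_mq i) T

theorem qc_comm {A : Module.End FF (QM Φ Λ ⊗[FF] QM Φ Λ)}
    {A' : Module.End FF (FM Λ ⊗[FF] FM Λ)} (h : ∀ T, A (m2 Φ Λ T) = m2 Φ Λ (A' T))
    (hc : cf Φ * A' = A' * cf Φ) : qc Φ Λ * A = A * qc Φ Λ := by
  refine LinearMap.ext fun T => ?_
  obtain ⟨T, rfl⟩ := m2_surj T
  have h1 := congrArg (fun L : Module.End FF (FM Λ ⊗[FF] FM Λ) => L T) hc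
  simp only [Module.End.mul_apply] at h1
  rw [Module.End.mul_apply, Module.End.mul_apply, h, qc_m2, qc_m2, h, h1]

theorem qc_top (l : {l // l ∈ Λ}) (w : QM Φ Λ) :
    qc Φ Λ (mq Φ Λ (bv (l, [])) ⊗ₜ[FF] w) =
      qD Φ Λ (fun μ => tt ^ Φ.ip l.1 μ) w ⊗ₜ[FF] mq Φ Λ (bv (l, [])) := by
  obtain ⟨y, rfl⟩ := mq_surj w
  have h1 : (mq Φ Λ (bv (l, [])) ⊗ₜ[FF] mq Φ Λ y) = m2 Φ Λ (bv (l, []) ⊗ₜ[FF] y) := by
    rw [m2, TensorProduct.map_tmul]
  rw [h1, qc_m2, cf_top, m2, TensorProduct.map_tmul, qD_mq]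

theorem qc_surj : Function.Surjective (qc Φ Λ) := by
  rw [← LinearMap.range_eq_top, eq_top_iff]
  have hF : ∀ i, ∀ T ∈ LinearMap.range (qc Φ Λ),
      dF (qF Φ Λ i) (qK Φ Λ i) T ∈ LinearMap.range (qc Φ Λ) := by
    rintro i _ ⟨T, rfl⟩
    have h := qc_comm (dF_m2 i) (cf_F (Φ := Φ) (Λ := Λ) i)
    refine ⟨dF (qF Φ Λ i) (qK Φ Λ i) T, ?_⟩
    rw [← Module.End.mul_apply, h]
    rfl
  have key : ∀ l : {l // l ∈ Λ}, ∀ u : List (Fin X.rank), ∀ w : QM Φ Λ,
      w ⊗ₜ[FF] mq Φ Λ (bv (l, u)) ∈ LinearMap.range (qc Φ Λ) := by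
    intro l u
    induction u with
    | nil =>
      intro w
      refine ⟨mq Φ Λ (bv (l, [])) ⊗ₜ[FF] qD Φ Λ (fun μ => (tt ^ Φ.ip l.1 μ)⁻¹) w, ?_⟩
      rw [qc_top, ← Module.End.mul_apply, qD_inv (fun μ => zpow_ne_zero _ tt_ne)]
      rfl
    | cons i u ih =>
      intro w
      have h1 := hF i _ (ih w)
      have h2 : dF (qF Φ Λ i) (qK Φ Λ i) (w ⊗ₜ[FF] mq Φ Λ (bv (l, u))) =
          vv Φ i ^ (wt (l, u) i) • (qF Φ Λ i w ⊗ₜ[FF] mq Φ Λ (bv (l, u))) +
            w ⊗ₜ[FF] mq Φ Λ (bv (l, i :: u)) := by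
        unfold dF
        rw [LinearMap.add_apply, TensorProduct.map_tmul, TensorProduct.map_tmul, qK_mq, qF_mq,
          Ko_bv9, Fo_bv, map_smul, TensorProduct.tmul_smul, LinearMap.id_apply]
      rw [h2] at h1
      have h3 := Submodule.smul_mem _ (vv Φ i ^ (wt (l, u) i)) (ih (qF Φ Λ i w))
      have h4 := Submodule.sub_mem _ h1 h3
      rwa [add_sub_cancel_left] at h4
  intro T _
  induction T using TensorProduct.induction_on with
  | zero => exact Submodule.zero_mem _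
  | tmul w w' =>
    obtain ⟨y, rfl⟩ := mq_surj w'
    have hx : y ∈ Submodule.span FF (Set.range (bas Λ)) := by
      rw [(bas Λ).span_eq]; exact Submodule.mem_top
    induction hx using Submodule.span_induction with
    | mem x hx =>
      obtain ⟨⟨m, u⟩, rfl⟩ := hx
      exact key m u w
    | zero => rw [map_zero, TensorProduct.tmul_zero]; exact Submodule.zero_mem _
    | add x y _ _ hx hy =>
      rw [map_add, TensorProduct.tmul_add]
      exact Submodule.add_mem _ (hx trivial) (hy trivial)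
    | smul c x _ hx =>
      rw [map_smul, TensorProduct.tmul_smul]
      exact Submodule.smul_mem _ _ (hx trivial)
  | add T T' hT hT' => exact Submodule.add_mem _ (hT trivial) (hT' trivial)

/-! ### The assembly -/

theorem exists_model (Φ : WeightForm X) (Λ : Finset X.Weight) (hΛ : ∀ l ∈ Λ, ∀ i, 0 ≤ l i) :
    Nonempty (Model Φ Λ) := by
  have := finite_QM (Φ := Φ) hΛ
  refine model_of_abstract Φ Λ (V := QM Φ Λ) (qE Φ Λ) (qF Φ Λ) (qK Φ Λ) (qK' Φ Λ) (qP Φ Λ)
    (fun l => mq Φ Λ (vl l)) (qD Φ Λ fun μ => tt ^ (2 * Φ.ip X.rho μ)) (qc Φ Λ)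
    qKK' qK_comm qKE qKF qEF qserreE qserreF qP_sum (fun l _ l' _ => qP_mul l l')
    (fun l _ i => qP_E l i) (fun l _ i => qP_F l i) (fun l _ i => qP_D l _) ?_ ?_ ?_ ?_ ?_ ?_
    (fun i => qc_comm (dE_m2 i) (cf_E i)) (fun i => qc_comm (dF_m2 i) (cf_F i))
    (fun i => qc_comm (dK_m2 i) (cf_K i)) ?_ qc_surj
  · intro l hl h
    have h1 : mq Φ Λ (bv (⟨l, hl⟩, [])) = 0 := by
      rw [← vl_eq]; exact h
    have h2 := mq_eq_zero.mp h1 (bv (⟨l, hl⟩, []))
    rw [Bf_top, coord_bv9, if_pos rfl] at h2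
    exact one_ne_zero h2
  · intro l hl
    show qP Φ Λ l (mq Φ Λ (vl (⟨l, hl⟩ : {l // l ∈ Λ}).1)) = mq Φ Λ (vl (⟨l, hl⟩ : {l // l ∈ Λ}).1)
    rw [vl_eq, qP_mq, Po_bv9, if_pos rfl]
  · intro l hl i
    show qE Φ Λ i (mq Φ Λ (vl (⟨l, hl⟩ : {l // l ∈ Λ}).1)) = 0
    rw [vl_eq, qE_mq, Eo_nil, map_zero]
  · intro l hl i
    show qK Φ Λ i (mq Φ Λ (vl (⟨l, hl⟩ : {l // l ∈ Λ}).1)) =
      vv Φ i ^ (l i) • mq Φ Λ (vl (⟨l, hl⟩ : {l // l ∈ Λ}).1)
    rw [vl_eq, qK_mq, Ko_bv9, wt_nil, map_smul]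
  · intro l hl W hW hP
    exact q_irred ⟨l, hl⟩ W hW hP
  · intro μ w hw
    exact qD_wt hw _
  · intro l hl μ w hw
    show qc Φ Λ (mq Φ Λ (vl (⟨l, hl⟩ : {l // l ∈ Λ}).1) ⊗ₜ[FF] w) =
      tt ^ Φ.ip l μ • (w ⊗ₜ[FF] mq Φ Λ (vl (⟨l, hl⟩ : {l // l ∈ Λ}).1))
    rw [vl_eq, qc_top, qD_wt hw, TensorProduct.smul_tmul']

end Pool.Agent.QInv75.Ex
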