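import Pool.Agent.QInv75.Basics

/-!
# Existence of the models: the free highest weight modules (definitions)

`FM Λ` is the direct sum over `l ∈ Λ` of the free highest weight modules `'M(l)` of the algebra
generated by `E_i, F_i, K_i^{±1}` (without Serre relations): it has the basis `bv (l, w)`, `w` a
word, which stands for `F_w v_l`. `Bf` is the contravariant form on it.
-/

set_option autoImplicit false

open scoped TensorProduct

namespace Pool.Agent.QInv75.Ex

variable {X : Dynkin} (Φ : WeightForm X) {Λ : Finset X.Weight}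

/-- the index set of the basis: a highest weight and a word -/
abbrev Ix (Λ : Finset X.Weight) := {l // l ∈ Λ} × List (Fin X.rank)

/-- the free module -/
def FM (Λ : Finset X.Weight) : Type := Ix Λ →₀ FF

noncomputable instance (Λ : Finset X.Weight) : AddCommGroup (FM Λ) :=
  inferInstanceAs (AddCommGroup (Ix Λ →₀ FF))

noncomputable instance (Λ : Finset X.Weight) : Module FF (FM Λ) :=
  inferInstanceAs (Module FF (Ix Λ →₀ FF))

/-- the basis -/
noncomputable def bas (Λ : Finset X.Weight) : Module.Basis (Ix Λ) FF (FM Λ) :=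
  Module.Basis.ofRepr (LinearEquiv.refl FF (Ix Λ →₀ FF))

/-- basis vectors -/
noncomputable def bv (b : Ix Λ) : FM Λ := bas Λ b

/-- the weight of a basis vector -/
def wt (b : Ix Λ) : X.Weight := b.1.1 - (b.2.map X.root).sum

/-- the operator that multiplies vectors of weight `μ` by `g μ` -/
noncomputable def Dg (g : X.Weight → FF) : Module.End FF (FM Λ) :=
  (bas Λ).constr FF fun b => g (wt b) • bv b

noncomputable def Fo (i : Fin X.rank) : Module.End FF (FM Λ) :=
  (bas Λ).constr FF fun b => bv (b.1, i :: b.2)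

/-- the quantum integer `[k]` for `v_i` -/
noncomputable def qn (i : Fin X.rank) (k : ℤ) : FF :=
  (vv Φ i ^ k - vv Φ i ^ (-k)) / (vv Φ i - (vv Φ i)⁻¹)

/-- `E_i F_w v_l` -/
noncomputable def Ew (i : Fin X.rank) (l : {l // l ∈ Λ}) : List (Fin X.rank) → FM Λ
  | [] => 0
  | j :: w => Fo j (Ew i l w) + if i = j then qn Φ i (wt (l, w) i) • bv (l, w) else 0

noncomputable def Eo (i : Fin X.rank) : Module.End FF (FM Λ) :=
  (bas Λ).constr FF fun b => Ew Φ i b.1 b.2

noncomputable def Ko (i : Fin X.rank) : Module.End FF (FM Λ) := Dg fun μ => vv Φ i ^ μ i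

noncomputable def Ko' (i : Fin X.rank) : Module.End FF (FM Λ) := Dg fun μ => vv Φ i ^ (-μ i)

/-- the projection onto `'M(l)` -/
noncomputable def Po (l : X.Weight) : Module.End FF (FM Λ) :=
  (bas Λ).constr FF fun b => if b.1.1 = l then bv b else 0

/-- `B (F_w v_l, ·)` -/
noncomputable def Bw (l : {l // l ∈ Λ}) : List (Fin X.rank) → (FM Λ →ₗ[FF] FF)
  | [] => (bas Λ).coord (l, [])
  | i :: w => Bw l w ∘ₗ (Ko Φ i * Eo Φ i)

/-- the contravariant form -/
noncomputable def Bf : FM Λ →ₗ[FF] FM Λ →ₗ[FF] FF :=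
  (bas Λ).constr FF fun b => Bw Φ b.1 b.2

/-! ## Coproducts, on arbitrary modules -/

section coproducts

variable {V : Type*} [AddCommGroup V] [Module FF V]

/-- `Δ(E) = E ⊗ 1 + K⁻¹ ⊗ E` -/
noncomputable def dE (E K' : Module.End FF V) : Module.End FF (V ⊗[FF] V) :=
  TensorProduct.map E LinearMap.id + TensorProduct.map K' E

/-- `Δ(F) = F ⊗ K + 1 ⊗ F` -/
noncomputable def dF (F K : Module.End FF V) : Module.End FF (V ⊗[FF] V) :=
  TensorProduct.map F K + TensorProduct.map LinearMap.id F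

/-- `Δ(K) = K ⊗ K` -/
noncomputable def dK (K : Module.End FF V) : Module.End FF (V ⊗[FF] V) :=
  TensorProduct.map K K

end coproducts

/-! ## The braiding on the free module -/

/-- `c (F_w v_l ⊗ ·)` -/
noncomputable def cw (l : {l // l ∈ Λ}) : List (Fin X.rank) → (FM Λ →ₗ[FF] FM Λ ⊗[FF] FM Λ)
  | [] => (TensorProduct.mk FF (FM Λ) (FM Λ)).flip (bv (l, [])) ∘ₗ
      Dg (fun μ => tt ^ Φ.ip l.1 μ)
  | i :: w => dF (Fo i) (Ko Φ i) ∘ₗ cw l w ∘ₗ Ko' Φ i - cw l w ∘ₗ Fo i ∘ₗ Ko' Φ i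

/-- the braiding `'M ⊗ 'M → 'M ⊗ 'M` -/
noncomputable def cf : Module.End FF (FM Λ ⊗[FF] FM Λ) :=
  TensorProduct.lift ((bas Λ).constr FF fun b => cw Φ b.1 b.2)

/-- the form on `'M ⊗ 'M`: `BB (x ⊗ y) (x' ⊗ y') = B (x, x') B (y, y')` -/
noncomputable def BB (T : FM Λ ⊗[FF] FM Λ) : FM Λ ⊗[FF] FM Λ →ₗ[FF] FF :=
  (TensorProduct.lid FF FF).toLinearMap ∘ₗ
    TensorProduct.lift ((TensorProduct.mapBilinear (RingHom.id FF) (FM Λ) (FM Λ) FF FF).compl₁₂
      (Bf Φ) (Bf Φ)) T

theorem BB_tmul (x y x' y' : FM Λ) :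
    BB Φ (x ⊗ₜ[FF] y) (x' ⊗ₜ[FF] y') = Bf Φ x x' * Bf Φ y y' := by
  simp [BB]

end Pool.Agent.QInv75.Ex
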