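import Mathlib

/-!
# Homeomorphic spaces have isomorphic fundamental groups
-/

set_option autoImplicit false

open CategoryTheory

namespace Pool.Agent.QInv75

theorem pi1_of_homeo {M N : Type*} [TopologicalSpace M] [TopologicalSpace N]
    [PathConnectedSpace N] (e : M ≃ₜ N) (x : M) (y : N) :
    Nonempty (FundamentalGroup M x ≃* FundamentalGroup N y) := by
  let E := FundamentalGroupoidFunctor.equivOfHomotopyEquiv e.toHomotopyEquiv
  have h1 : FundamentalGroup M x ≃* FundamentalGroup N (e x) :=
    (Functor.FullyFaithful.ofFullyFaithful E.functor).mulEquivEnd (FundamentalGroupoid.mk x)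
  exact ⟨h1.trans (FundamentalGroup.fundamentalGroupMulEquivOfPathConnected (e x) y)⟩

end Pool.Agent.QInv75
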