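import Pool.Agent.QInv75.Defs

/-!
# The two braids, contravariant forms, the partial trace (definitions only)
-/

set_option autoImplicit false

open Matrix
open scoped Kronecker

namespace Pool.Agent.QInv75

/-! ## the two braids -/

/-- three strand braids placed on the strands `0, 1, 2` of five -/
def sh0 (w : BraidWord 2) : BraidWord 4 := w.map fun l => (Fin.castAdd 2 l.1, l.2)

/-- three strand braids placed on the strands `2, 3, 4` of five -/
def sh2 (w : BraidWord 2) : BraidWord 4 := w.map fun l => (Fin.natAdd 2 l.1, l.2)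

/-- `σ₁³ σ₂⁻¹ σ₁ σ₂⁻¹ σ₁² σ₂⁻²` -/
def wa : BraidWord 2 :=
  [(0, true), (0, true), (0, true), (1, false), (0, true), (1, false), (0, true), (0, true),
   (1, false), (1, false)]

/-- `σ₁⁻³ σ₂ σ₁⁻¹ σ₂³ σ₁² σ₂²` -/
def wb : BraidWord 2 :=
  [(0, false), (0, false), (0, false), (1, true), (0, false), (1, true), (1, true), (1, true),
   (0, true), (0, true), (1, true), (1, true)]

def wM : BraidWord 4 := sh0 wa ++ sh2 wb

def wN : BraidWord 4 := sh0 wa ++ sh2 wb.reverse

variable {n : ℕ}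

/-- the generator `x_j` of the surgery group -/
def SurgeryGroup.gen (w : BraidWord n) (j : Fin (n + 1)) : SurgeryGroup w :=
  PresentedGroup.of j

variable {X : Dynkin} {Φ : WeightForm X} {Λ : Finset X.Weight}

/-- A contravariant form on the module of a model: `B(x, y) = xᵀ G y` with
`B (E_i x, y) = B (x, F_i K_i⁻¹ y)`, `B (F_i x, y) = B (x, K_i E_i y)`, `B (K_i x, y) = B (x, K_i y)`. -/
structure IsForm (S : Model Φ Λ) (G : Matrix (Fin S.m) (Fin S.m) FF) : Prop where
  unit : IsUnit G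
  E : ∀ i, (S.M.E i)ᵀ * G = G * (S.M.F i * S.M.K' i)
  F : ∀ i, (S.M.F i)ᵀ * G = G * (S.M.K i * S.M.E i)
  K : ∀ i, (S.M.K i)ᵀ * G = G * S.M.K i
  K' : ∀ i, (S.M.K' i)ᵀ * G = G * S.M.K' i
  P : ∀ l ∈ Λ, (S.P l)ᵀ * G = G * S.P l

/-- the partial quantum trace of a three strand braid: the last two strands are closed -/
noncomputable def pT (S : Model Φ Λ) (w : BraidWord 2) : Matrix (Fin S.m) (Fin S.m) FF :=
  Matrix.of fun a b => ∑ s : Fin 2 → Fin S.m, ∑ s' : Fin 2 → Fin S.m,
    S.h (s 0) (s' 0) * S.h (s 1) (s' 1) *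
      braidOp S.C S.C' w (Fin.cons a s' : Fin 3 → Fin S.m) (Fin.cons b s : Fin 3 → Fin S.m)

end Pool.Agent.QInv75
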